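import Pool.Agent.Helper888.Patch1
set_option autoImplicit false
open Equiv Finset
open scoped Classical

namespace Pool.Agent.Helper888
namespace Patch
variable {C : Type} (P : Patch C)

theorem ρρi (c : C) : P.ρ (P.ρ⁻¹ c) = c := by simp

theorem inv1 {m : ℕ} {c : C} (h : (P.ρ ^ (m + 1)) c = c) : P.ρ⁻¹ c = (P.ρ ^ m) c := by
  rw [Perm.inv_eq_iff_eq, ← Perm.mul_apply, ← pow_succ', h]

theorem inv_pow_apply (m : ℕ) (c : C) : P.ρ⁻¹ ((P.ρ ^ (m + 1)) c) = (P.ρ ^ m) c := by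
  rw [pow_succ', Perm.mul_apply]; simp

/-- step along the rim of a wheel -/
theorem TT_step {c : C} (h : P.G 1 c) (hR : P.R c) (h1 : P.T (P.ρ⁻¹ c))
    (h2 : P.T (P.ρ⁻¹ (P.ρ⁻¹ c))) (hψ : 1 + 5 * P.ε ≤ P.ψ c) :
    P.R (P.ρ⁻¹ (P.ρ⁻¹ (P.ρ⁻¹ c))) ∧ P.ψ c + P.ψ (P.ρ⁻¹ (P.ρ⁻¹ (P.ρ⁻¹ c))) = 6 - 3 * P.a := by
  have ha := P.a_gt
  rcases P.vertex_R h hR with ⟨_, _, _, _, _, _, h⟩ | ⟨h5, _, hr, _, _, h⟩ | ⟨h5, _, _, hr, _, h⟩
  · exfalso; linarith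
  · have e : P.ρ⁻¹ (P.ρ⁻¹ (P.ρ⁻¹ c)) = (P.ρ ^ 2) c := by
      rw [P.inv1 h5, P.inv_pow_apply 3, P.inv_pow_apply 2]
    rw [e]; exact ⟨hr, h⟩
  · exfalso
    have e : P.ρ⁻¹ (P.ρ⁻¹ c) = (P.ρ ^ 3) c := by
      rw [P.inv1 h5, P.inv_pow_apply 3]
    rw [e] at h2
    exact P.notTR h2 hr

theorem dicho {c : C} (h : P.G 1 c) (hR : P.R c) (hψ : 1 + 5 * P.ε ≤ P.ψ c) :
    P.R (P.ρ (P.ρ c)) ∨ P.R (P.ρ⁻¹ (P.ρ⁻¹ c)) := by
  have ha := P.a_gt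
  rcases P.vertex_R h hR with ⟨_, _, _, _, _, _, h⟩ | ⟨h5, _, hr, _, _, h⟩ | ⟨h5, _, _, hr, _, h⟩
  · exfalso; linarith
  · left; simpa [pow_succ] using hr
  · right
    have e : P.ρ⁻¹ (P.ρ⁻¹ c) = (P.ρ ^ 3) c := by
      rw [P.inv1 h5, P.inv_pow_apply 3]
    rw [e]; exact hr

theorem two_R_eq {c : C} (h : P.G 1 c) (hR : P.R c) (h2 : P.R (P.ρ⁻¹ (P.ρ⁻¹ c))) :
    P.ψ c + P.ψ (P.ρ⁻¹ (P.ρ⁻¹ c)) = 6 - 3 * P.a := by
  rcases P.vertex_R h hR with ⟨h6, _, _, _, ht, _, _⟩ | ⟨h5, _, hr, ht, _, h⟩ | ⟨h5, _, _, hr, _, h⟩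
  · exfalso
    have e : P.ρ⁻¹ (P.ρ⁻¹ c) = (P.ρ ^ 4) c := by
      rw [P.inv1 h6, P.inv_pow_apply 4]
    rw [e] at h2; exact P.notTR ht h2
  · exfalso
    have e : P.ρ⁻¹ (P.ρ⁻¹ c) = (P.ρ ^ 3) c := by
      rw [P.inv1 h5, P.inv_pow_apply 3]
    rw [e] at h2; exact P.notTR ht h2
  · have e : P.ρ⁻¹ (P.ρ⁻¹ c) = (P.ρ ^ 3) c := by
      rw [P.inv1 h5, P.inv_pow_apply 3]
    rw [e]; exact h

theorem χχ_T {x : C} (h : P.T x) : P.χ (P.χ x) = P.τ (P.ρ x) := by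
  have h3 := P.T3' h
  rw [P.χ_apply (P.χ (P.χ x)), Perm.inv_eq_iff_eq] at h3
  rw [← h3, P.τ_inv]

theorem χχχ_R {x : C} (h : P.R x) : P.χ (P.χ (P.χ x)) = P.τ (P.ρ x) := by
  have h3 := P.R4' h
  rw [P.χ_apply (P.χ (P.χ (P.χ x))), Perm.inv_eq_iff_eq] at h3
  rw [← h3, P.τ_inv]

/-- one step of the chain around a hub -/
theorem chain_step {x : C} (hG : P.G 2 x) (h1 : P.T x) (h2 : P.T (P.ρ x))
    (hR : P.R (P.τ (P.χ x))) (hψ : 1 + 5 * P.ε ≤ P.ψ (P.τ (P.χ x))) :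
    P.R (P.τ (P.χ (P.ρ x))) ∧ P.ψ (P.τ (P.χ x)) - 4 * P.ε < P.ψ (P.τ (P.χ (P.ρ x))) := by
  have e0 : P.ρ⁻¹ (P.τ (P.χ x)) = P.χ (P.χ x) := rfl
  have e1 := P.χχ_T h1
  have e2 : P.ρ⁻¹ (P.τ (P.ρ x)) = P.χ (P.ρ x) := rfl
  have e3 : P.ρ⁻¹ (P.χ (P.ρ x)) = P.χ (P.τ (P.χ (P.ρ x))) := (P.χτ _).symm
  have hG1 : P.G 1 (P.τ (P.χ x)) := by
    have : P.τ (P.χ x) = P.ρ (P.τ (P.ρ x)) := by rw [← e1, P.ρχ]
    rw [this]; exact P.G_ρ (P.G_τ (P.G_ρ hG))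
  have hs := P.TT_step hG1 hR (by rw [e0]; exact P.T_χ' (P.T_χ' h1))
    (by rw [e0, e1, e2]; exact P.T_χ' h2) hψ
  rw [e0, e1, e2, e3] at hs
  have hr := P.R_of_χ hs.1
  refine ⟨hr, ?_⟩
  have := P.R_sum1' hr
  have ha := P.a_gt
  linarith [hs.2]

/-- The wheel around a hub with one rhombus. -/
theorem chain_up {c₀ : C} (hG : P.G 2 c₀) (hR : P.R c₀) (h6 : (P.ρ ^ 6) c₀ = c₀)
    (t1 : P.T (P.ρ c₀)) (t2 : P.T ((P.ρ ^ 2) c₀)) (t3 : P.T ((P.ρ ^ 3) c₀))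
    (t4 : P.T ((P.ρ ^ 4) c₀)) (t5 : P.T ((P.ρ ^ 5) c₀)) (hψ : P.ψ c₀ = 6 - 5 * P.a)
    (hb : P.R (P.ρ⁻¹ (P.ρ⁻¹ (P.χ (P.χ (P.χ c₀)))))) : False := by
  have ha := P.a_gt
  have hε := P.ε_lt
  have hε0 := P.ε_pos
  set z := P.χ (P.χ (P.χ c₀)) with hz
  have hzτ : z = P.τ (P.ρ c₀) := P.χχχ_R hR
  have hRz : P.R z := P.R_χ' (P.R_χ' (P.R_χ' hR))
  have hGz : P.G 1 z := by rw [hzτ]; exact P.G_τ (P.G_ρ hG)
  have hψ1 : 2 - 6 * P.ε < P.ψ (P.χ c₀) := by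
    have := P.R_sum1' hR
    linarith
  have hψz : P.ψ z = P.ψ (P.χ c₀) := P.R_opp' (P.R_χ' hR)
  have e1 : P.ρ⁻¹ z = P.χ (P.ρ c₀) := by rw [hzτ]; rfl
  have e2 : P.ρ⁻¹ (P.χ (P.ρ c₀)) = P.χ (P.τ (P.χ (P.ρ c₀))) := (P.χτ _).symm
  have heq := P.two_R_eq hGz hRz hb
  rw [e1, e2] at hb heq
  have r1 := P.R_of_χ hb
  have s1 := P.R_sum1' r1
  have f1 : 2 - 10 * P.ε < P.ψ (P.τ (P.χ (P.ρ c₀))) := by linarith
  have hG1 : P.G 2 (P.ρ c₀) := P.G_ρ hG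
  have hG2 : P.G 2 ((P.ρ ^ 2) c₀) := by simpa [pow_succ] using P.G_ρ hG1
  have hG3 : P.G 2 ((P.ρ ^ 3) c₀) := by simpa [pow_succ] using P.G_ρ hG2
  have hG4 : P.G 2 ((P.ρ ^ 4) c₀) := by simpa [pow_succ] using P.G_ρ hG3
  have q2 : P.ρ (P.ρ c₀) = (P.ρ ^ 2) c₀ := by simp [pow_succ]
  have q3 : P.ρ ((P.ρ ^ 2) c₀) = (P.ρ ^ 3) c₀ := by simp [pow_succ]
  have q4 : P.ρ ((P.ρ ^ 3) c₀) = (P.ρ ^ 4) c₀ := by simp [pow_succ]
  have q5 : P.ρ ((P.ρ ^ 4) c₀) = (P.ρ ^ 5) c₀ := by simp [pow_succ]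
  have q6 : P.ρ ((P.ρ ^ 5) c₀) = c₀ := by rw [← Perm.mul_apply, ← pow_succ', h6]
  have g2 := P.chain_step hG1 t1 (by rw [q2]; exact t2) r1 (by linarith)
  rw [q2] at g2
  have g3 := P.chain_step hG2 t2 (by rw [q3]; exact t3) g2.1 (by linarith [g2.2])
  rw [q3] at g3
  have g4 := P.chain_step hG3 t3 (by rw [q4]; exact t4) g3.1 (by linarith [g2.2, g3.2])
  rw [q4] at g4
  have g5 := P.chain_step hG4 t4 (by rw [q5]; exact t5) g4.1 (by linarith [g2.2, g3.2, g4.2])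
  rw [q5] at g5
  -- at the last rim vertex
  set f := P.τ (P.χ ((P.ρ ^ 5) c₀)) with hf
  have d0 : P.ρ⁻¹ f = P.χ (P.χ ((P.ρ ^ 5) c₀)) := rfl
  have d1 := P.χχ_T t5
  rw [q6] at d1
  have d2 : P.ρ⁻¹ (P.ρ⁻¹ f) = P.χ c₀ := by rw [d0, d1]; rfl
  have hGf : P.G 1 f := by
    have : f = P.ρ (P.τ c₀) := by rw [← d1, P.ρχ]
    rw [this]; exact P.G_ρ (P.G_τ hG)
  have hend := P.two_R_eq hGf g5.1 (by rw [d2]; exact P.R_χ' hR)
  rw [d2] at hend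
  linarith [g2.2, g3.2, g4.2, g5.2]

/-- the mirror image -/
noncomputable def mirror : Patch C where
  ρ := P.ρ⁻¹
  τ := P.τ
  T c := P.T (P.ρ⁻¹ c)
  R c := P.R (P.ρ⁻¹ c)
  Good := P.Good
  ψ c := P.ψ (P.ρ⁻¹ c)
  a := P.a
  ε := P.ε
  τ_inv := P.τ_inv
  T_χ c h := by
    have := P.T_back' h
    simpa using this
  T3 c h := by
    have hx := P.T_back' h
    simp only [inv_inv]
    have h3 := P.T3' hx
    -- `x₁ = χ x`, `τ x = ρ x₁`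
    have a0 : P.τ (P.τ c) = P.ρ (P.χ (P.τ c)) := (P.ρχ _).symm
    have a1 : P.τ (P.χ (P.τ c)) = P.ρ (P.χ (P.χ (P.τ c))) := (P.ρχ _).symm
    have a2 : P.τ (P.χ (P.χ (P.τ c))) = P.ρ (P.τ c) := by
      rw [← P.ρχ, h3]
    have b2 : P.τ (P.ρ (P.τ c)) = P.χ (P.χ (P.τ c)) := by rw [← a2, P.τ_inv]
    have b1 : P.τ (P.ρ (P.χ (P.χ (P.τ c)))) = P.χ (P.τ c) := by rw [← a1, P.τ_inv]
    rw [b2, b1, ← a0, P.τ_inv]
  R_χ c h := by
    have := P.R_back' h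
    simpa using this
  R4 c h := by
    have hx := P.R_back' h
    simp only [inv_inv]
    have h3 := P.R4' hx
    have a0 : P.τ (P.τ c) = P.ρ (P.χ (P.τ c)) := (P.ρχ _).symm
    have a1 : P.τ (P.χ (P.τ c)) = P.ρ (P.χ (P.χ (P.τ c))) := (P.ρχ _).symm
    have a2 : P.τ (P.χ (P.χ (P.τ c))) = P.ρ (P.χ (P.χ (P.χ (P.τ c)))) := (P.ρχ _).symm
    have a3 : P.τ (P.χ (P.χ (P.χ (P.τ c)))) = P.ρ (P.τ c) := by
      rw [← P.ρχ, h3]
    have b3 : P.τ (P.ρ (P.τ c)) = P.χ (P.χ (P.χ (P.τ c))) := by rw [← a3, P.τ_inv]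
    have b2 : P.τ (P.ρ (P.χ (P.χ (P.χ (P.τ c))))) = P.χ (P.χ (P.τ c)) := by rw [← a2, P.τ_inv]
    have b1 : P.τ (P.ρ (P.χ (P.χ (P.τ c)))) = P.χ (P.τ c) := by rw [← a1, P.τ_inv]
    rw [b3, b2, b1, ← a0, P.τ_inv]
  R_opp c h := by
    have hx := P.R_back' h
    simp only [inv_inv]
    have h3 := P.R4' hx
    have a2 : P.τ (P.χ (P.χ (P.τ c))) = P.ρ (P.χ (P.χ (P.χ (P.τ c)))) := (P.ρχ _).symm
    have a3 : P.τ (P.χ (P.χ (P.χ (P.τ c)))) = P.ρ (P.τ c) := by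
      rw [← P.ρχ, h3]
    have b3 : P.τ (P.ρ (P.τ c)) = P.χ (P.χ (P.χ (P.τ c))) := by rw [← a3, P.τ_inv]
    have e : P.ρ⁻¹ (P.ρ (P.τ (P.ρ (P.τ c)))) = P.χ (P.χ (P.χ (P.τ c))) := by
      rw [b3]; simp
    rw [e, ← P.χτ]
    exact P.R_opp' (P.R_χ' hx)
  R_sum1 c h := by
    have hx := P.R_back' h
    simp only [inv_inv]
    have := P.R_sum1' hx
    rw [P.χτ] at this
    have e : P.ρ⁻¹ (P.ρ (P.τ c)) = P.τ c := by simp
    rw [e]; linarith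
  R_sum2 c h := by
    have hx := P.R_back' h
    simp only [inv_inv]
    have := P.R_sum2' hx
    rw [P.χτ] at this
    have e : P.ρ⁻¹ (P.ρ (P.τ c)) = P.τ c := by simp
    rw [e]; linarith
  R_lt c h := P.R_lt _ h
  R_ge c h := P.R_ge _ h
  T_a c h := P.T_a _ h
  a_lt := P.a_lt
  a_gt := P.a_gt
  ε_pos := P.ε_pos
  ε_lt := P.ε_lt
  Good_ρ := P.Good_ρ'
  Good_ρ' c h := by simpa using P.Good_ρ c h
  vert c h := by
    obtain ⟨m, h1, h2, h3, h4⟩ := P.vert c h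
    have hm : ∀ j, j < m → P.ρ⁻¹ ((P.ρ⁻¹ ^ j) c) = (P.ρ ^ (m - 1 - j)) c := by
      intro j hj
      have e : (P.ρ ^ (j + 1)) ((P.ρ ^ (m - 1 - j)) c) = c := by
        rw [← Perm.mul_apply, ← pow_add, show j + 1 + (m - 1 - j) = m by omega, h1]
      have e' : P.ρ⁻¹ ((P.ρ⁻¹ ^ j) c) = (P.ρ⁻¹ ^ (j + 1)) c := by
        rw [pow_succ', Perm.mul_apply]
      rw [e', inv_pow, Perm.inv_eq_iff_eq, e]
    refine ⟨m, ?_, ?_, ?_, ?_⟩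
    · rw [inv_pow, Perm.inv_eq_iff_eq, h1]
    · rw [← h2, ← sum_range_reflect]
      refine sum_congr rfl fun j hj => ?_
      rw [mem_range] at hj
      rw [hm _ (by omega)]
      congr 2; congr 1; omega
    · rw [← h3, ← sum_range_reflect]
      refine sum_congr rfl fun j hj => ?_
      rw [mem_range] at hj
      have : P.ρ⁻¹ ((P.ρ⁻¹ ^ (m - 1 - j)) c) = (P.ρ ^ j) c := by
        rw [hm _ (by omega)]; congr 2; omega
      rw [this]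
    · have hpos : 0 < m := by
        rcases Nat.eq_zero_or_pos m with rfl | h
        · simp at h3
        · exact h
      intro j
      -- periodicity
      have hper : ∀ k : ℕ, (P.ρ ^ (m * k)) c = c := by
        intro k
        induction k with
        | zero => simp
        | succ k ih => rw [Nat.mul_succ, pow_add, Perm.mul_apply, h1, ih]
      have e : P.ρ⁻¹ ((P.ρ⁻¹ ^ j) c) = (P.ρ ^ (m * (j + 1) - (j + 1))) c := by
        have e' : P.ρ⁻¹ ((P.ρ⁻¹ ^ j) c) = (P.ρ⁻¹ ^ (j + 1)) c := by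
          rw [pow_succ', Perm.mul_apply]
        rw [e', inv_pow, Perm.inv_eq_iff_eq, ← Perm.mul_apply, ← pow_add]
        have : j + 1 + (m * (j + 1) - (j + 1)) = m * (j + 1) := by
          have : j + 1 ≤ m * (j + 1) := Nat.le_mul_of_pos_left _ hpos
          omega
        rw [this, hper]
      rw [e]; exact h4 _

theorem mirror_G {k : ℕ} : ∀ {c : C}, P.G k c → P.mirror.G k c := by
  induction k with
  | zero => intro c h; exact h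
  | succ k ih =>
    intro c h
    refine ⟨ih h.1, fun j => ?_⟩
    apply ih
    have key : ∀ j : ℕ, P.G (k + 1) ((P.ρ⁻¹ ^ j) c) := by
      intro j
      induction j with
      | zero => simpa using h
      | succ j ihj => rw [pow_succ', Perm.mul_apply]; exact P.G_ρ' ihj
    exact P.G_τ (key j)

/-- There is no deep good vertex with exactly one rhombus. -/
theorem hub_false {c₀ : C} (hG : P.G 4 c₀) (hR : P.R c₀) (h6 : (P.ρ ^ 6) c₀ = c₀)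
    (t1 : P.T (P.ρ c₀)) (t2 : P.T ((P.ρ ^ 2) c₀)) (t3 : P.T ((P.ρ ^ 3) c₀))
    (t4 : P.T ((P.ρ ^ 4) c₀)) (t5 : P.T ((P.ρ ^ 5) c₀)) (hψ : P.ψ c₀ = 6 - 5 * P.a) : False := by
  have ha := P.a_gt
  have hε := P.ε_lt
  have hε0 := P.ε_pos
  have hzτ := P.χχχ_R hR
  have hψ1 : 2 - 6 * P.ε < P.ψ (P.χ c₀) := by
    have := P.R_sum1' hR
    linarith
  have hψz : P.ψ (P.χ (P.χ (P.χ c₀))) = P.ψ (P.χ c₀) := P.R_opp' (P.R_χ' hR)
  have hGz : P.G 1 (P.χ (P.χ (P.χ c₀))) := P.G_χ (P.G_χ (P.G_χ hG))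
  rcases P.dicho hGz (P.R_χ' (P.R_χ' (P.R_χ' hR))) (by rw [hψz]; linarith) with hd | hd
  · -- use the opposite hub, mirrored
    have hG' : P.G 2 (P.χ (P.χ c₀)) := P.G_χ (P.G_χ hG)
    have hR' : P.R (P.χ (P.χ c₀)) := P.R_χ' (P.R_χ' hR)
    have hψ' : P.ψ (P.χ (P.χ c₀)) = 6 - 5 * P.a := by rw [P.R_opp' hR, hψ]
    rcases P.vertex_R (P.G_succ hG') hR' with ⟨k6, k1, k2, k3, k4, k5, _⟩ |
      ⟨_, _, hr, _, _, h⟩ | ⟨_, _, _, hr, _, h⟩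
    · set c' := P.χ (P.χ c₀) with hc'
      have hρ : P.ρ⁻¹ (P.ρ c') = c' := by simp
      have hi : P.mirror.ρ = P.ρ⁻¹ := rfl
      have i1 : P.ρ⁻¹ c' = (P.ρ ^ 5) c' := P.inv1 k6
      have i2 : P.ρ⁻¹ ((P.ρ ^ 5) c') = (P.ρ ^ 4) c' := P.inv_pow_apply 4 _
      have i3 : P.ρ⁻¹ ((P.ρ ^ 4) c') = (P.ρ ^ 3) c' := P.inv_pow_apply 3 _
      have i4 : P.ρ⁻¹ ((P.ρ ^ 3) c') = (P.ρ ^ 2) c' := P.inv_pow_apply 2 _
      have i5 : P.ρ⁻¹ ((P.ρ ^ 2) c') = P.ρ c' := by simpa using P.inv_pow_apply 1 c'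
      have z1 : P.mirror.χ (P.ρ c') = P.τ c₀ := by
        show P.ρ⁻¹⁻¹ (P.τ (P.ρ c')) = _
        have : P.τ (P.ρ c') = P.χ c₀ := by
          rw [hc', P.ρχ, P.τ_inv]
        rw [this, inv_inv, P.ρχ]
      have z2 : P.mirror.χ (P.τ c₀) = P.ρ c₀ := by
        show P.ρ⁻¹⁻¹ (P.τ (P.τ c₀)) = _
        rw [P.τ_inv, inv_inv]
      have z3 : P.mirror.χ (P.ρ c₀) = P.ρ (P.χ (P.χ (P.χ c₀))) := by
        show P.ρ⁻¹⁻¹ (P.τ (P.ρ c₀)) = _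
        rw [inv_inv, hzτ]
      refine P.mirror.chain_up (c₀ := P.ρ c') (P.mirror_G (P.G_ρ hG')) ?_ ?_ ?_ ?_ ?_ ?_ ?_ ?_ ?_
      · show P.R (P.ρ⁻¹ (P.ρ c')); rw [hρ]; exact hR'
      · rw [hi]
        simp only [pow_succ, pow_zero, one_mul, Perm.mul_apply]
        rw [hρ, i1, i2, i3, i4, i5]
      · show P.T (P.ρ⁻¹ (P.ρ⁻¹ (P.ρ c'))); rw [hρ, i1]; exact k5
      · show P.T (P.ρ⁻¹ ((P.ρ⁻¹ ^ 2) (P.ρ c')))
        simp only [pow_succ, pow_zero, one_mul, Perm.mul_apply]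
        rw [hρ, i1, i2]; exact k4
      · show P.T (P.ρ⁻¹ ((P.ρ⁻¹ ^ 3) (P.ρ c')))
        simp only [pow_succ, pow_zero, one_mul, Perm.mul_apply]
        rw [hρ, i1, i2, i3]; exact k3
      · show P.T (P.ρ⁻¹ ((P.ρ⁻¹ ^ 4) (P.ρ c')))
        simp only [pow_succ, pow_zero, one_mul, Perm.mul_apply]
        rw [hρ, i1, i2, i3, i4]; exact k2
      · show P.T (P.ρ⁻¹ ((P.ρ⁻¹ ^ 5) (P.ρ c')))
        simp only [pow_succ, pow_zero, one_mul, Perm.mul_apply]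
        rw [hρ, i1, i2, i3, i4, i5]; exact k1
      · show P.ψ (P.ρ⁻¹ (P.ρ c')) = 6 - 5 * P.a; rw [hρ]; exact hψ'
      · rw [z1, z2, z3]
        show P.R (P.ρ⁻¹ (P.ρ⁻¹⁻¹ (P.ρ⁻¹⁻¹ (P.ρ (P.χ (P.χ (P.χ c₀)))))))
        simpa using hd
    · have := P.R_lt _ hr; linarith
    · have := P.R_lt _ hr; linarith
  · exact P.chain_up (P.G_mono (by norm_num) hG) hR h6 t1 t2 t3 t4 t5 hψ hd

/-- a pair of adjacent triangles at a deep good vertex has rhombi on both sides -/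
theorem pair_R {d : C} (hG : P.G 4 d) (h0 : P.T d) (h1 : P.T (P.ρ⁻¹ d)) :
    P.R (P.ρ d) ∧ P.R (P.ρ⁻¹ (P.ρ⁻¹ d)) := by
  have hG1 : P.G 1 d := P.G_mono (by norm_num) hG
  obtain ⟨m, hm, h2, h3, h4, hm4, hm7⟩ := P.vert' (P.G_zero hG)
  have hGj : ∀ j, P.G 4 ((P.ρ ^ j) d) := by
    intro j
    induction j with
    | zero => simpa using hG
    | succ j ih => rw [pow_succ', Perm.mul_apply]; exact P.G_ρ ih
  have hadj : ∀ j, ¬ (P.R ((P.ρ ^ j) d) ∧ P.R ((P.ρ ^ (j + 1)) d)) := by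
    rintro j ⟨h1, h2⟩
    rw [pow_succ', Perm.mul_apply] at h2
    exact P.no_adj (P.G_mono (by norm_num) (hGj j)) h1 h2
  have hw : ∀ j, P.w ((P.ρ ^ j) d) + P.w ((P.ρ ^ (j + 1)) d) ≤ 3 := by
    intro j
    have := hadj j
    unfold w
    split_ifs <;> simp_all
  have hwR : ∀ j, P.w ((P.ρ ^ j) d) = 2 → P.R ((P.ρ ^ j) d) := by
    intro j hj
    rcases h4 j with h | h
    · rw [P.w_T h] at hj; omega
    · exact h
  have hwT : ∀ j, P.w ((P.ρ ^ j) d) = 1 → P.T ((P.ρ ^ j) d) := by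
    intro j hj
    rcases h4 j with h | h
    · exact h
    · rw [P.w_R h] at hj; omega
  have hle : ∀ j, P.w ((P.ρ ^ j) d) ≤ 2 := fun j => P.w_le _
  have hge : ∀ j, 1 ≤ P.w ((P.ρ ^ j) d) := fun j => P.w_ge _
  have w0 : P.w ((P.ρ ^ 0) d) = 1 := by simpa using P.w_T h0
  have g1 := hge 1; have g2 := hge 2; have g3 := hge 3; have g4 := hge 4; have g5 := hge 5
  have l1 := hle 1; have l2 := hle 2; have l3 := hle 3; have l4 := hle 4; have l5 := hle 5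
  have a1 : P.w ((P.ρ ^ 1) d) + P.w ((P.ρ ^ 2) d) ≤ 3 := hw 1
  have a2 : P.w ((P.ρ ^ 2) d) + P.w ((P.ρ ^ 3) d) ≤ 3 := hw 2
  have a3 : P.w ((P.ρ ^ 3) d) + P.w ((P.ρ ^ 4) d) ≤ 3 := hw 3
  have hag := P.a_gt
  have hε := P.ε_lt
  have hlast : ∀ k, m = k + 1 → P.w ((P.ρ ^ k) d) = 1 := by
    intro k hk
    subst hk
    rw [← P.inv1 hm]; exact P.w_T h1
  interval_cases m
  · exfalso
    have := hlast 3 rfl
    simp only [sum_range_succ, range_zero, sum_empty] at h3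
    omega
  · have w4 := hlast 4 rfl
    simp only [sum_range_succ, range_zero, sum_empty] at h3
    have r1 := hwR 1 (by omega)
    have r3 := hwR 3 (by omega)
    refine ⟨by simpa using r1, ?_⟩
    rw [P.inv1 hm, P.inv_pow_apply 3]; exact r3
  · exfalso
    simp only [sum_range_succ, range_zero, sum_empty] at h3
    -- exactly one rhombus
    obtain ⟨j, hj⟩ : ∃ j, P.R ((P.ρ ^ j) d) := by
      by_contra hcon
      push Not at hcon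
      have hT : ∀ j, P.w ((P.ρ ^ j) d) = 1 := fun j => by simp [w, hcon j]
      rw [hT 1, hT 2, hT 3, hT 4, hT 5] at h3
      omega
    have h6 : (P.ρ ^ 6) ((P.ρ ^ j) d) = (P.ρ ^ j) d := by
      rw [← Perm.mul_apply, ← pow_add, add_comm, pow_add, Perm.mul_apply, hm]
    have hcon5 : (P.ρ ^ 5) ((P.ρ ^ j) d) = (P.ρ ^ j) d → P.T (P.ρ ((P.ρ ^ j) d)) → False := by
      intro h5 hT
      have : P.ρ ((P.ρ ^ 5) ((P.ρ ^ j) d)) = (P.ρ ^ 6) ((P.ρ ^ j) d) := by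
        rw [← Perm.mul_apply, ← pow_succ']
      rw [h5, h6] at this
      rw [this] at hT
      exact P.notTR hT hj
    rcases P.vertex_R (P.G_mono (by norm_num) (hGj j)) hj with
      ⟨k6, k1, k2, k3, k4, k5, hk⟩ | ⟨k5, k1, _⟩ | ⟨k5, k1, _⟩
    · exact P.hub_false (hGj j) hj k6 k1 k2 k3 k4 k5 hk
    · exact hcon5 k5 k1
    · exact hcon5 k5 k1
  · exfalso
    simp only [sum_range_succ, range_zero, sum_empty] at h3 h2
    have g6 := hge 6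
    have e : ∀ j, P.w ((P.ρ ^ j) d) = 1 → P.ψ ((P.ρ ^ j) d) = P.a := fun j hj => P.T_a _ (hwT j hj)
    rw [e 0 w0, e 1 (by omega), e 2 (by omega), e 3 (by omega), e 4 (by omega), e 5 (by omega),
      e 6 (by omega)] at h2
    linarith

/-- There is no vertex such that all vertices within distance 5 are good. -/
theorem no_deep {c : C} (hG : P.G 5 c) : False := by
  have hag := P.a_gt
  have hal := P.a_lt
  have hε := P.ε_lt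
  -- a pair of adjacent triangles
  obtain ⟨e, hGe, he0, he1⟩ : ∃ e, P.G 5 e ∧ P.T e ∧ P.T (P.ρ⁻¹ e) := by
    obtain ⟨m, hm, h2, h3, h4, hm4, hm7⟩ := P.vert' (P.G_zero hG)
    have hGj : ∀ j, P.G 5 ((P.ρ ^ j) c) := by
      intro j
      induction j with
      | zero => simpa using hG
      | succ j ih => rw [pow_succ', Perm.mul_apply]; exact P.G_ρ ih
    obtain ⟨j, hj⟩ : ∃ j, P.R ((P.ρ ^ j) c) := by
      by_contra hcon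
      push Not at hcon
      have hT : ∀ j, P.T ((P.ρ ^ j) c) := fun j => (h4 j).resolve_right (hcon j)
      have hw : ∀ j, P.w ((P.ρ ^ j) c) = 1 := fun j => P.w_T (hT j)
      have hψ : ∀ j, P.ψ ((P.ρ ^ j) c) = P.a := fun j => P.T_a _ (hT j)
      simp only [hw, hψ, sum_const, card_range, smul_eq_mul, mul_one, nsmul_eq_mul] at h2 h3
      rw [h3] at h2
      push_cast at h2
      linarith
    set c1 := (P.ρ ^ j) c with hc1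
    have hG1 := hGj j
    rcases P.vertex_R (P.G_mono (by norm_num) hG1) hj with
      ⟨k6, k1, k2, k3, k4, k5, hk⟩ | ⟨k5, k1, k2, k3, k4, _⟩ | ⟨k5, k1, k2, k3, k4, _⟩
    · exact absurd (P.hub_false (P.G_succ hG1) hj k6 k1 k2 k3 k4 k5 hk) not_false
    · refine ⟨P.ρ⁻¹ c1, P.G_ρ' hG1, ?_, ?_⟩
      · rw [P.inv1 k5]; exact k4
      · rw [P.inv1 k5, P.inv_pow_apply 3]; exact k3
    · refine ⟨(P.ρ ^ 2) c1, ?_, k2, ?_⟩
      · have := P.G_ρ (P.G_ρ hG1); simpa [pow_succ] using this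
      · have : P.ρ⁻¹ ((P.ρ ^ 2) c1) = P.ρ c1 := by simpa using P.inv_pow_apply 1 c1
        rw [this]; exact k1
  have hv := P.pair_R (P.G_succ hGe) he0 he1
  have hGτ : P.G 4 (P.τ e) := P.G_τ hGe
  have hTτ : P.T (P.τ e) := P.T_back' he1
  have eb : P.ρ⁻¹ (P.τ e) = P.χ e := rfl
  have eb' : P.ρ⁻¹ (P.τ (P.τ e)) = P.χ (P.τ e) := rfl
  rw [P.τ_inv] at eb'
  have hb := P.pair_R hGτ hTτ (by rw [eb]; exact P.T_χ' he0)
  rw [eb] at hb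
  rw [eb'] at hv
  -- the two side faces of the first triangle
  have r1 : P.R (P.τ (P.χ e)) := P.R_back' hb.2
  have r2 : P.R (P.τ (P.χ (P.τ e))) := P.R_back' hv.2
  have c1 := P.χχ_T he0
  have c2 := P.χχ_T hTτ
  -- vertex sums
  have hgood : ∀ {k} {x : C}, P.G k x → P.Good x := fun h => P.G_zero h
  have s1 := P.two_R (c := P.ρ⁻¹ (P.χ (P.τ e))) (j := 3)
    (hgood (P.G_ρ' (P.G_χ hGτ))) hv.2 (by norm_num) (by norm_num) (by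
      have : (P.ρ ^ 3) (P.ρ⁻¹ (P.χ (P.τ e))) = P.ρ e := by
        simp only [pow_succ, pow_zero, one_mul, Perm.mul_apply]
        rw [P.ρρi, P.ρχ, P.τ_inv]
      rw [this]; exact hv.1)
  have s2 := P.two_R (c := P.ρ⁻¹ (P.χ e)) (j := 3)
    (hgood (P.G_ρ' (P.G_χ hGe))) hb.2 (by norm_num) (by norm_num) (by
      have : (P.ρ ^ 3) (P.ρ⁻¹ (P.χ e)) = P.ρ (P.τ e) := by
        simp only [pow_succ, pow_zero, one_mul, Perm.mul_apply]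
        rw [P.ρρi, P.ρχ]
      rw [this]; exact hb.1)
  have s3 := P.two_R (c := P.χ (P.ρ e)) (j := 2)
    (hgood (P.G_χ (P.G_ρ hGe))) (P.R_χ' hv.1) (by norm_num) (by norm_num) (by
      have : (P.ρ ^ 2) (P.χ (P.ρ e)) = P.τ (P.χ e) := by
        simp only [pow_succ, pow_zero, one_mul, Perm.mul_apply]
        rw [P.ρχ, ← c1, P.ρχ]
      rw [this]; exact r1)
  have s4 := P.two_R (c := P.χ (P.ρ (P.τ e))) (j := 2)
    (hgood (P.G_χ (P.G_ρ hGτ))) (P.R_χ' hb.1) (by norm_num) (by norm_num) (by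
      have : (P.ρ ^ 2) (P.χ (P.ρ (P.τ e))) = P.τ (P.χ (P.τ e)) := by
        simp only [pow_succ, pow_zero, one_mul, Perm.mul_apply]
        rw [P.ρχ, ← c2, P.ρχ]
      rw [this]; exact r2)
  have w1 : (P.ρ ^ 3) (P.ρ⁻¹ (P.χ (P.τ e))) = P.ρ e := by
    simp only [pow_succ, pow_zero, one_mul, Perm.mul_apply]
    rw [P.ρρi, P.ρχ, P.τ_inv]
  have w2 : (P.ρ ^ 3) (P.ρ⁻¹ (P.χ e)) = P.ρ (P.τ e) := by
    simp only [pow_succ, pow_zero, one_mul, Perm.mul_apply]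
    rw [P.ρρi, P.ρχ]
  have w3 : (P.ρ ^ 2) (P.χ (P.ρ e)) = P.τ (P.χ e) := by
    simp only [pow_succ, pow_zero, one_mul, Perm.mul_apply]
    rw [P.ρχ, ← c1, P.ρχ]
  have w4 : (P.ρ ^ 2) (P.χ (P.ρ (P.τ e))) = P.τ (P.χ (P.τ e)) := by
    simp only [pow_succ, pow_zero, one_mul, Perm.mul_apply]
    rw [P.ρχ, ← c2, P.ρχ]
  rw [w1] at s1; rw [w2] at s2; rw [w3] at s3; rw [w4] at s4
  have q1 := P.R_sum2' hv.1
  have q2 := P.R_sum2' hb.1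
  have q3 := P.R_sum2' r1
  have q4 := P.R_sum2' r2
  rw [P.χτ (P.χ e)] at q3
  rw [P.χτ (P.χ (P.τ e))] at q4
  linarith

end Patch
end Pool.Agent.Helper888
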