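import Pool.Agent.Helper888.Count6
import Pool.Agent.Helper888.Patch2
set_option autoImplicit false
open Equiv Finset
open scoped Classical

namespace Pool.Agent.Helper888
namespace CMap
variable {D V : Type} [Fintype D] [Fintype V] (M : CMap D V)

/-- finer geometric information on the perfect corners -/
structure PGeo (M : CMap D V) (a ε : ℝ) : Prop where
  T_a : ∀ c, M.PT c → M.psi c = a
  RB_eq1 : ∀ d, M.RB d → M.psi (M.φ (M.τ d)) = M.psi (M.φ d)
  RB_eq2 : ∀ d, M.RB d → M.psi (M.φ (M.φ (M.τ d))) = M.psi (M.φ (M.φ d))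
  RB_s1 : ∀ d, M.RB d → 3 - ε < M.psi (M.φ d) + M.psi (M.φ (M.φ d))
  RB_s2 : ∀ d, M.RB d → M.psi (M.φ d) + M.psi (M.φ (M.φ d)) < 3
  RB_lt1 : ∀ d, M.RB d → M.psi (M.φ d) < 2 * a
  RB_lt2 : ∀ d, M.RB d → M.psi (M.φ (M.φ d)) < 2 * a
  a_lt : a < 1
  a_gt : 1 - ε < a
  ε_pos : 0 < ε
  ε_lt : ε ≤ 1 / 100
  deg : ∀ v, (M.CV v).card ≤ 6

theorem RB_τ {d : D} (h : M.RB d) : M.RB (M.τ d) := by
  obtain ⟨h1, h2, h3, h4, h5, h6, h7, h8, h9, h10, h11⟩ := h
  have hττ : M.τ (M.τ d) = d := M.τ_inv d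
  refine ⟨h2, by rwa [hττ], fun h => h3 (M.C_τ_iff.1 h), h6, h7, ?_, ?_, h10, h11, ?_, ?_⟩ <;>
    rw [hττ] <;> assumption

theorem own_φ1 {d : D} (h : M.RB d) : M.own (M.φ (M.φ d)) = M.φ (M.φ d) :=
  M.own_self h.2.2.2.2.1

theorem own_φ2 {d : D} (h : M.RB d) : M.own (M.φ (M.φ (M.φ d))) = M.φ (M.τ d) := by
  rw [M.φ3' h.1]
  have e : M.σ (M.φ (M.τ d)) = d := by rw [M.σφ, M.τ_inv]
  have h1 : M.σ (M.φ (M.τ d)) ∉ M.C := by rw [e]; exact h.2.2.1
  have := M.own_σ h1
  rw [e] at this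
  rw [this, M.own_self h.2.2.2.2.2.1]

/-- a rhombus corner -/
def PR (c : D) : Prop := ∃ d, M.RB d ∧ (c = M.φ d ∨ c = M.φ (M.φ d))

theorem PR_mem {c : D} (h : M.PR c) : c ∈ M.C := by
  obtain ⟨d, h, rfl | rfl⟩ := h
  · exact h.2.2.2.1
  · exact h.2.2.2.2.1

/-- previous contact dart at the same vertex -/
noncomputable def prv (c : {c : D // c ∈ M.C}) : {c : D // c ∈ M.C} :=
  ⟨M.own (M.σ⁻¹ c.1), M.own_mem _⟩

theorem own_form (d : D) : d = (M.σ ^ M.bk d) (M.own d) := by
  unfold own; rw [perm_sub' _ _ le_rfl]; simp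

theorem prv_inj : Function.Injective M.prv := by
  have key : ∀ c1 c2 : D, c1 ∈ M.C → M.own (M.σ⁻¹ c1) = M.own (M.σ⁻¹ c2) →
      M.bk (M.σ⁻¹ c1) < M.bk (M.σ⁻¹ c2) → False := by
    intro c1 c2 hc1 heq hlt
    obtain ⟨k1, hk1⟩ : ∃ k, k = M.bk (M.σ⁻¹ c1) := ⟨_, rfl⟩
    obtain ⟨k2, hk2⟩ : ∃ k, k = M.bk (M.σ⁻¹ c2) := ⟨_, rfl⟩
    have f1 := M.own_form (M.σ⁻¹ c1)
    have f2 := M.own_form (M.σ⁻¹ c2)
    rw [← hk1] at f1
    rw [← hk2] at f2
    rw [← hk1, ← hk2] at hlt
    have e1 : c1 = (M.σ ^ (k1 + 1)) (M.own (M.σ⁻¹ c1)) := by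
      rw [pow_succ', Perm.mul_apply, ← f1]; simp
    have : (M.σ⁻¹ ^ (k2 - (k1 + 1))) (M.σ⁻¹ c2) ∈ M.C := by
      rw [f2, perm_sub _ _ (by omega), ← heq]
      have : k2 - (k2 - (k1 + 1)) = k1 + 1 := by omega
      rw [this, ← e1]; exact hc1
    exact Nat.find_min (M.exists_back (M.σ⁻¹ c2)) (m := k2 - (k1 + 1))
      (by unfold bk at hk2; omega) this
  rintro ⟨c1, h1⟩ ⟨c2, h2⟩ heq
  simp only [prv, Subtype.mk.injEq] at heq
  rcases lt_trichotomy (M.bk (M.σ⁻¹ c1)) (M.bk (M.σ⁻¹ c2)) with hlt | he | hlt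
  · exact absurd (key c1 c2 h1 heq hlt) not_false
  · have f1 := M.own_form (M.σ⁻¹ c1)
    have f2 := M.own_form (M.σ⁻¹ c2)
    rw [he, heq, ← f2] at f1
    have := M.σ⁻¹.injective f1
    exact Subtype.ext this
  · exact absurd (key c2 c1 h2 heq.symm hlt) not_false

noncomputable def prvP : Perm {c : D // c ∈ M.C} :=
  Equiv.ofBijective M.prv (Finite.injective_iff_bijective.1 M.prv_inj)

theorem prvP_apply (c : {c : D // c ∈ M.C}) : M.prvP c = M.prv c := rfl

def τC : Perm {c : D // c ∈ M.C} :=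
  Function.Involutive.toPerm (fun c => ⟨M.τ c.1, M.C_τ _ c.2⟩) (fun c => Subtype.ext (M.τ_inv c.1))

theorem chi_apply (c : {c : D // c ∈ M.C}) :
    (M.prvP (M.τC c)).1 = M.own (M.φ c.1) := rfl

theorem tail_prv (c : {c : D // c ∈ M.C}) : M.tail (M.prvP c).1 = M.tail c.1 := by
  show M.tail (M.own (M.σ⁻¹ c.1)) = _
  rw [M.tail_own]
  have := M.tail_σ (M.σ⁻¹ c.1)
  rw [← this]; simp

theorem tail_nxt (c : {c : D // c ∈ M.C}) : M.tail (M.prvP⁻¹ c).1 = M.tail c.1 := by
  have := M.tail_prv (M.prvP⁻¹ c)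
  rw [← this]; simp

/-- contact darts at a vertex, as elements of the subtype -/
noncomputable def CS (v : V) : Finset {c : D // c ∈ M.C} := univ.filter fun c => M.tail c.1 = v

theorem sameCycle_aux (c : {c : D // c ∈ M.C}) (k : ℕ) :
    M.prvP⁻¹.SameCycle c ⟨M.own ((M.σ ^ k) c.1), M.own_mem _⟩ := by
  induction k with
  | zero =>
    have : (⟨M.own ((M.σ ^ 0) c.1), M.own_mem _⟩ : {c : D // c ∈ M.C}) = c := by
      apply Subtype.ext
      simpa using M.own_self c.2
    rw [this]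
  | succ k ih =>
    by_cases hC : (M.σ ^ (k + 1)) c.1 ∈ M.C
    · have e1 : (⟨M.own ((M.σ ^ (k + 1)) c.1), M.own_mem _⟩ : {c : D // c ∈ M.C}) =
          ⟨(M.σ ^ (k + 1)) c.1, hC⟩ := Subtype.ext (M.own_self hC)
      have e2 : M.prvP ⟨(M.σ ^ (k + 1)) c.1, hC⟩ = ⟨M.own ((M.σ ^ k) c.1), M.own_mem _⟩ := by
        apply Subtype.ext
        show M.own (M.σ⁻¹ ((M.σ ^ (k + 1)) c.1)) = _
        rw [pow_succ', Perm.mul_apply]; simp
      rw [e1]
      refine ih.trans ?_
      rw [← e2]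
      refine ⟨1, ?_⟩
      simp
    · have hC' : M.σ ((M.σ ^ k) c.1) ∉ M.C := by
        rw [pow_succ', Perm.mul_apply] at hC; exact hC
      have e1 : (⟨M.own ((M.σ ^ (k + 1)) c.1), M.own_mem _⟩ : {c : D // c ∈ M.C}) =
          ⟨M.own ((M.σ ^ k) c.1), M.own_mem _⟩ := by
        apply Subtype.ext
        show M.own ((M.σ ^ (k + 1)) c.1) = M.own ((M.σ ^ k) c.1)
        rw [pow_succ', Perm.mul_apply, M.own_σ hC']
      rw [e1]; exact ih

theorem cycleOn (v : V) : M.prvP⁻¹.IsCycleOn (M.CS v : Set {c : D // c ∈ M.C}) := by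
  constructor
  · refine ⟨?_, (M.prvP⁻¹).injective.injOn, ?_⟩
    · intro c hc
      simp only [CS, coe_filter, mem_univ, true_and, Set.mem_ofPred_eq] at hc ⊢
      rw [M.tail_nxt, hc]
    · intro c hc
      simp only [CS, coe_filter, mem_univ, true_and, Set.mem_ofPred_eq] at hc
      refine ⟨M.prvP c, ?_, by simp⟩
      simp only [CS, coe_filter, mem_univ, true_and, Set.mem_ofPred_eq]
      rw [M.tail_prv, hc]
  · intro x hx y hy
    simp only [CS, coe_filter, mem_univ, true_and, Set.mem_ofPred_eq] at hx hy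
    obtain ⟨k, hk⟩ := M.cyc x.1 y.1 (by rw [hx, hy])
    have := M.sameCycle_aux x k
    have e : (⟨M.own ((M.σ ^ k) x.1), M.own_mem _⟩ : {c : D // c ∈ M.C}) = y := by
      apply Subtype.ext
      show M.own ((M.σ ^ k) x.1) = y.1
      rw [hk, M.own_self y.2]
    rwa [e] at this

theorem sum_CS {β : Type*} [AddCommMonoid β] (f : D → β) (v : V) :
    ∑ c ∈ M.CS v, f c.1 = ∑ c ∈ M.CV v, f c := by
  refine sum_bij' (fun c _ => c.1) (fun c hc => ⟨c, (mem_filter.1 hc).1⟩) ?_ ?_ ?_ ?_ ?_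
  · intro c hc
    simp only [CS, mem_filter, mem_univ, true_and] at hc
    simp only [CV, mem_filter]
    exact ⟨c.2, hc⟩
  · intro c hc
    simp only [CV, mem_filter] at hc
    simp only [CS, mem_filter, mem_univ, true_and]
    exact hc.2
  · intro c _; rfl
  · intro c _; rfl
  · intro c _; rfl

theorem sum_cycle {C : Type*} (f : Perm C) (s : Finset C) (hf : f.IsCycleOn (s : Set C)) {a : C}
    (ha : a ∈ s) {β : Type*} [AddCommMonoid β] (F : C → β) :
    ∑ j ∈ range s.card, F ((f ^ j) a) = ∑ x ∈ s, F x := by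
  have hinj : Set.InjOn (fun j => (f ^ j) a) (range s.card : Set ℕ) := by
    intro i hi j hj heq
    simp only [coe_range, Set.mem_Iio] at hi hj
    have := (hf.pow_apply_eq_pow_apply ha).1 heq
    exact Nat.ModEq.eq_of_lt_of_lt this hi hj
  have himg : (range s.card).image (fun j => (f ^ j) a) = s := by
    apply eq_of_subset_of_card_le
    · intro x hx
      simp only [mem_image, mem_range] at hx
      obtain ⟨j, _, rfl⟩ := hx
      exact hf.1.mapsTo.perm_pow j ha
    · rw [card_image_of_injOn hinj, card_range]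
  rw [← sum_image (f := F) (g := fun j => (f ^ j) a) hinj, himg]

/-- the patch structure of a combinatorial map -/
noncomputable def patch {a ε : ℝ} (P : M.PGeo a ε) : Patch {c : D // c ∈ M.C} where
  ρ := M.prvP⁻¹
  τ := M.τC
  T c := M.PT c.1
  R c := M.PR c.1
  Good c := M.GoodV (M.tail c.1)
  ψ c := M.psi c.1
  a := a
  ε := ε
  τ_inv c := Subtype.ext (M.τ_inv c.1)
  T_χ := by
    intro c h
    simp only [inv_inv]
    rw [M.chi_apply, M.own_self h.2.2.1]
    exact ⟨M.inner_φ' h.1, h.2.2.1, h.2.2.2, by rw [M.φ3' h.1]; exact h.2.1⟩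
  T3 := by
    intro c h
    simp only [inv_inv]
    apply Subtype.ext
    rw [M.chi_apply, M.chi_apply, M.chi_apply, M.own_self h.2.2.1, M.own_self h.2.2.2,
      M.φ3' h.1, M.own_self h.2.1]
  R_χ := by
    rintro ⟨c, hc⟩ ⟨d, hd, h | h⟩
    · simp only [inv_inv]
      rw [M.chi_apply]
      simp only at h ⊢
      rw [h, M.own_φ1 hd]
      exact ⟨d, hd, Or.inr rfl⟩
    · simp only [inv_inv]
      rw [M.chi_apply]
      simp only at h ⊢
      rw [h, M.own_φ2 hd]
      exact ⟨_, M.RB_τ hd, Or.inl rfl⟩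
  R4 := by
    rintro ⟨c, hc⟩ ⟨d, hd, h | h⟩
    · simp only [inv_inv]
      apply Subtype.ext
      simp only at h
      have hd' := M.RB_τ hd
      rw [M.chi_apply, M.chi_apply, M.chi_apply, M.chi_apply]
      simp only
      rw [h, M.own_φ1 hd, M.own_φ2 hd, M.own_φ1 hd', M.own_φ2 hd', M.τ_inv]
    · simp only [inv_inv]
      apply Subtype.ext
      simp only at h
      have hd' := M.RB_τ hd
      rw [M.chi_apply, M.chi_apply, M.chi_apply, M.chi_apply]
      simp only
      rw [h, M.own_φ2 hd, M.own_φ1 hd', M.own_φ2 hd', M.τ_inv, M.own_φ1 hd]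
  R_opp := by
    rintro ⟨c, hc⟩ ⟨d, hd, h | h⟩
    · simp only [inv_inv]
      simp only at h
      rw [M.chi_apply, M.chi_apply]
      simp only
      rw [h, M.own_φ1 hd, M.own_φ2 hd, P.RB_eq1 d hd]
    · simp only [inv_inv]
      simp only at h
      rw [M.chi_apply, M.chi_apply]
      simp only
      rw [h, M.own_φ2 hd, M.own_φ1 (M.RB_τ hd), P.RB_eq2 d hd]
  R_sum1 := by
    rintro ⟨c, hc⟩ ⟨d, hd, h | h⟩
    · simp only [inv_inv]
      simp only at h
      rw [M.chi_apply]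
      simp only
      rw [h, M.own_φ1 hd]; exact P.RB_s1 d hd
    · simp only [inv_inv]
      simp only at h
      rw [M.chi_apply]
      simp only
      rw [h, M.own_φ2 hd, P.RB_eq1 d hd, add_comm]; exact P.RB_s1 d hd
  R_sum2 := by
    rintro ⟨c, hc⟩ ⟨d, hd, h | h⟩
    · simp only [inv_inv]
      simp only at h
      rw [M.chi_apply]
      simp only
      rw [h, M.own_φ1 hd]; exact P.RB_s2 d hd
    · simp only [inv_inv]
      simp only at h
      rw [M.chi_apply]
      simp only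
      rw [h, M.own_φ2 hd, P.RB_eq1 d hd, add_comm]; exact P.RB_s2 d hd
  R_lt := by
    rintro ⟨c, hc⟩ ⟨d, hd, h | h⟩
    · simp only at h ⊢; rw [h]; exact P.RB_lt1 d hd
    · simp only at h ⊢; rw [h]; exact P.RB_lt2 d hd
  R_ge := by
    rintro ⟨c, hc⟩ ⟨d, hd, h | h⟩
    · simp only at h ⊢; rw [h]; exact hd.2.2.2.2.2.2.2.1
    · simp only at h ⊢; rw [h]; exact hd.2.2.2.2.2.2.2.2.1
  T_a := fun c h => P.T_a c.1 h
  a_lt := P.a_lt
  a_gt := P.a_gt
  ε_pos := P.ε_pos
  ε_lt := P.ε_lt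
  Good_ρ := by
    intro c h; rw [M.tail_nxt]; exact h
  Good_ρ' := by
    intro c h; rw [inv_inv, M.tail_prv]; exact h
  vert := by
    intro c h
    set v := M.tail c.1 with hv
    have hcs : c ∈ M.CS v := by simp [CS, hv]
    have hcyc := M.cycleOn v
    have hperf : ∀ x ∈ M.CS v, M.PT x.1 ∨ M.PR x.1 := by
      intro x hx
      simp only [CS, mem_filter, mem_univ, true_and] at hx
      exact h.1 x.1 x.2 hx
    refine ⟨(M.CS v).card, hcyc.pow_card_apply hcs, ?_, ?_, ?_⟩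
    · rw [sum_cycle (M.prvP⁻¹) (M.CS v) hcyc hcs (fun x => M.psi x.1), M.sum_CS (fun x => M.psi x)]
      exact M.psi_sum_tail v
    · rw [sum_cycle (M.prvP⁻¹) (M.CS v) hcyc hcs (fun x => if M.PR x.1 then 2 else 1),
        M.sum_CS (fun x => if M.PR x then 2 else 1)]
      have h7 := h.2
      have hfl : ∀ x ∈ M.CV v, ((if M.PR x then 2 else 1 : ℕ) : ℤ) = 1 + ⌊M.psi x⌋ := by
        intro x hx
        simp only [CV, mem_filter] at hx
        by_cases hR : M.PR x
        · have : ⌊M.psi x⌋ = 1 := by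
            rw [Int.floor_eq_iff]
            have ha := P.a_lt
            obtain ⟨d, hd, h | h⟩ := hR
            · rw [h]
              have := P.RB_lt1 d hd
              have := hd.2.2.2.2.2.2.2.1
              constructor
              · simpa using this
              · push_cast; linarith
            · rw [h]
              have := P.RB_lt2 d hd
              have := hd.2.2.2.2.2.2.2.2.1
              constructor
              · simpa using this
              · push_cast; linarith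
          rw [this, if_pos hR]; norm_num
        · have hT : M.PT x := (h.1 x hx.1 hx.2).resolve_right hR
          have : ⌊M.psi x⌋ = 0 := by
            rw [Int.floor_eq_zero_iff]
            have ha := P.a_lt
            rw [P.T_a x hT]
            refine ⟨?_, ha⟩
            have := P.a_gt; have := P.ε_lt; linarith
          rw [this, if_neg hR]; norm_num
      have e : ((∑ x ∈ M.CV v, (if M.PR x then 2 else 1) : ℕ) : ℤ) = 7 := by
        rw [Nat.cast_sum, sum_congr rfl hfl, sum_add_distrib]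
        simpa using h7
      exact_mod_cast e
    · intro j
      exact hperf _ (hcyc.1.mapsTo.perm_pow j hcs)

/-- vertices within distance `k` of the bad vertices -/
noncomputable def nbh (M : CMap D V) : ℕ → Finset V
  | 0 => univ.filter fun v => ¬ M.GoodV v
  | k + 1 => nbh M k ∪ (nbh M k).biUnion fun v => (M.CV v).image fun c => M.tail (M.τ c)

theorem nbh_card {a ε : ℝ} (P : M.PGeo a ε) (k : ℕ) :
    (M.nbh (k + 1)).card ≤ 7 * (M.nbh k).card := by
  have h1 : ((M.nbh k).biUnion fun v => (M.CV v).image fun c => M.tail (M.τ c)).card ≤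
      (M.nbh k).card * 6 := by
    refine card_biUnion_le_card_mul _ _ _ fun v _ => ?_
    exact card_image_le.trans (P.deg v)
  have h2 := card_union_le (M.nbh k)
    ((M.nbh k).biUnion fun v => (M.CV v).image fun c => M.tail (M.τ c))
  show (M.nbh k ∪ (M.nbh k).biUnion fun v => (M.CV v).image fun c => M.tail (M.τ c)).card ≤ _
  omega

theorem G_of_notMem {a ε : ℝ} (P : M.PGeo a ε) : ∀ (k : ℕ) (c : {c : D // c ∈ M.C}),
    M.tail c.1 ∉ M.nbh k → (M.patch P).G k c := by
  intro k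
  induction k with
  | zero =>
    intro c hc
    simp only [nbh, mem_filter, mem_univ, true_and, not_not] at hc
    exact hc
  | succ k ih =>
    intro c hc
    simp only [nbh, mem_union, not_or] at hc
    refine ⟨ih c hc.1, fun j => ?_⟩
    apply ih
    intro hmem
    apply hc.2
    rw [mem_biUnion]
    refine ⟨_, hmem, ?_⟩
    rw [mem_image]
    have htail : ∀ j : ℕ, M.tail (((M.prvP⁻¹ ^ j) c).1) = M.tail c.1 := by
      intro j
      induction j with
      | zero => rfl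
      | succ j ihj => rw [pow_succ', Perm.mul_apply, M.tail_nxt, ihj]
    refine ⟨((M.patch P).τ (((M.patch P).ρ ^ j) c)).1, ?_, ?_⟩
    · unfold CV
      rw [mem_filter]
      exact ⟨((M.patch P).τ (((M.patch P).ρ ^ j) c)).2, rfl⟩
    · show M.tail (M.τ (M.τ (((M.prvP⁻¹ ^ j) c).1))) = _
      rw [M.τ_inv, htail]

theorem card_le_bad {a ε : ℝ} (P : M.PGeo a ε) :
    Fintype.card V ≤ 16807 * (univ.filter fun v => ¬ M.GoodV v).card := by
  have h5 : (univ : Finset V) ⊆ M.nbh 5 := by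
    intro v _
    by_contra hv
    obtain ⟨c, hc, ht⟩ := M.surj v
    exact (M.patch P).no_deep (M.G_of_notMem P 5 ⟨c, hc⟩ (by rw [ht]; exact hv))
  have h := card_le_card h5
  rw [card_univ] at h
  have a0 := M.nbh_card P 0
  have a1 := M.nbh_card P 1
  have a2 := M.nbh_card P 2
  have a3 := M.nbh_card P 3
  have a4 := M.nbh_card P 4
  have e : (M.nbh 0).card = (univ.filter fun v => ¬ M.GoodV v).card := rfl
  norm_num at a0 a1 a2 a3 a4
  omega

/-- The strict bound. -/
theorem strict {η a ε : ℝ} (G : M.Geo η) (P : M.PGeo a ε) (hη : η ≤ 1 / 10 ^ 6) :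
    (M.C.card : ℝ) ≤ (5 - 1 / 10 ^ 6) * (Fintype.card V : ℝ) := by
  have h1 := M.count G (by linarith)
  have h2 : (Fintype.card V : ℝ) ≤ 16807 * ((univ.filter fun v => ¬ M.GoodV v).card : ℝ) := by
    exact_mod_cast M.card_le_bad P
  have h3 : (0 : ℝ) ≤ (Fintype.card V : ℝ) := by positivity
  have h4 : 2 * η * (Fintype.card V : ℝ) ≤ 2 * (1 / 10 ^ 6) * (Fintype.card V : ℝ) := by gcongr
  norm_num at h4 ⊢
  nlinarith

end CMap
end Pool.Agent.Helper888
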