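import Pool.Agent.Helper888.Defs
set_option autoImplicit false
namespace Pool.Agent.Helper888
noncomputable section
/-- contact pairs -/
def contacts (V : Finset Pt) (c : ℝ) : Finset (Pt × Pt) :=
  open Classical in (V ×ˢ V).filter fun p => p.1 ≠ p.2 ∧ ch p.1 p.2 = c

namespace CAdm

theorem q_symm (A B : Pt) : q A B = q B A := by unfold q; ring

theorem q_comb {s t : ℝ} (hst : s + t = 1) (a b w : Pt) :
    q (s • a + t • b) w = s * q a w + t * q b w := by
  unfold q
  simp only [Prod.fst_add, Prod.snd_add, Prod.smul_fst, Prod.smul_snd, smul_eq_mul]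
  linear_combination (-(w.2 / 2)) * hst

theorem ht_sq {A : Pt} (h : 0 < q A A) : q A A = ht A * ht A := by
  unfold ht
  exact (Real.mul_self_sqrt h.le).symm

theorem ht_pos {A : Pt} (h : 0 < q A A) : 0 < ht A := Real.sqrt_pos.2 h

theorem ch_symm (A B : Pt) : ch A B = ch B A := by
  unfold ch
  rw [q_symm, mul_comm (ht A)]

theorem q_eq_ch {A B : Pt} (hA : 0 < q A A) (hB : 0 < q B B) : q A B = ht A * ht B * ch A B := by
  have h1 := (ht_pos hA).ne'
  have h2 := (ht_pos hB).ne'
  unfold ch
  field_simp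

theorem empty_aux {V : Finset Pt} {c : ℝ} (hc : 1 < c) (hV : Packing V c) {a b p : Pt} (ha : a ∈ V)
    (hb : b ∈ V) (hab : a ≠ b) (hch : ch a b = c) (hp : p ∈ V) : p ∉ openSegment ℝ a b := by
  intro hps
  have hpa : p ≠ a := by
    rintro rfl
    exact hab (left_mem_openSegment_iff.1 hps)
  have hpb : p ≠ b := by
    rintro rfl
    exact hab (right_mem_openSegment_iff.1 hps)
  obtain ⟨s, t, hs, ht', hst, hx⟩ := hps
  have pa := hV.pos a ha
  have pb := hV.pos b hb
  have pp := hV.pos p hp
  have h1 := hV.sep p hp a ha hpa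
  have h2 := hV.sep p hp b hb hpb
  set A := ht a with hA
  set B := ht b with hB
  set h := ht p with hh
  have hA0 : 0 < A := ht_pos pa
  have hB0 : 0 < B := ht_pos pb
  have hh0 : 0 < h := ht_pos pp
  have qa : q p a = A * (s * A + t * B * c) := by
    rw [← hx, q_comb hst, ht_sq pa, q_eq_ch pb pa, ch_symm, hch]; ring
  have qb : q p b = B * (s * A * c + t * B) := by
    rw [← hx, q_comb hst, ht_sq pb, q_eq_ch pa pb, hch]; ring
  have qp : h * h = s * A * (s * A + t * B * c) + t * B * (s * A * c + t * B) := by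
    rw [← ht_sq pp]
    nth_rewrite 2 [← hx]
    rw [q_symm, q_comb hst, q_symm a, q_symm b, qa, qb]
    ring
  rw [ch, qa, le_div_iff₀ (by positivity)] at h1
  rw [ch, qb, le_div_iff₀ (by positivity)] at h2
  set l := s * A with hl
  set m := t * B with hm
  have hl0 : 0 < l := by positivity
  have hm0 : 0 < m := by positivity
  have e1 : c * h ≤ l + m * c := by
    have : A * (c * h) ≤ A * (l + m * c) := by linarith
    exact le_of_mul_le_mul_left this hA0
  have e2 : c * h ≤ l * c + m := by
    have : B * (c * h) ≤ B * (l * c + m) := by linarith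
    exact le_of_mul_le_mul_left this hB0
  have e3 : c * h * (l + m) ≤ h * h := by
    rw [qp]
    linarith [mul_le_mul_of_nonneg_left e1 hl0.le, mul_le_mul_of_nonneg_left e2 hm0.le]
  have e4 : c * (l + m) ≤ h := by
    have : h * (c * (l + m)) ≤ h * h := by linarith
    exact le_of_mul_le_mul_left this hh0
  have e5 : 2 * c * h ≤ (l + m) * (1 + c) := by linarith
  have e6 : 2 * c * (c * (l + m)) ≤ (l + m) * (1 + c) :=
    (mul_le_mul_of_nonneg_left e4 (by linarith)).trans e5
  have e7 : 2 * c * c ≤ 1 + c := by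
    have hlm : 0 < l + m := by positivity
    have : (l + m) * (2 * c * c) ≤ (l + m) * (1 + c) := by linarith
    exact le_of_mul_le_mul_left this hlm
  nlinarith [mul_pos (by linarith : 0 < c - 1) (by linarith : 0 < c)]

theorem share_aux {a b e x : Pt} (hbe : b ≠ e) (h1 : x ∈ openSegment ℝ a b)
    (h2 : x ∈ openSegment ℝ a e) : b ∈ openSegment ℝ a e ∨ e ∈ openSegment ℝ a b := by
  obtain ⟨s, t, hs, ht, hst, hx⟩ := h1
  obtain ⟨s', t', hs', ht', hst', hx'⟩ := h2
  have hs1 : s = 1 - t := by linarith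
  have hs1' : s' = 1 - t' := by linarith
  subst hs1 hs1'
  have key : t • (b - a) = t' • (e - a) := by
    have h : (1 - t) • a + t • b = (1 - t') • a + t' • e := hx.trans hx'.symm
    have h2 : t • (b - a) = ((1 - t) • a + t • b) - a := by
      rw [sub_smul, one_smul, smul_sub]; abel
    have h3 : t' • (e - a) = ((1 - t') • a + t' • e) - a := by
      rw [sub_smul, one_smul, smul_sub]; abel
    rw [h2, h3, h]
  rcases lt_trichotomy t t' with hlt | heq | hgt
  · right
    refine ⟨1 - t / t', t / t', ?_, by positivity, by ring, ?_⟩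
    · rw [sub_pos, div_lt_one ht']; exact hlt
    · have h4 : e - a = (t / t') • (b - a) := by
        rw [div_eq_inv_mul, mul_smul, key, smul_smul, inv_mul_cancel₀ ht'.ne', one_smul]
      have h5 : e = (e - a) + a := by abel
      rw [h5, h4, sub_smul, one_smul, smul_sub]
      abel
  · exfalso
    rw [heq] at key
    have := smul_right_injective Pt ht'.ne' key
    exact hbe (sub_left_inj.1 this)
  · left
    refine ⟨1 - t' / t, t' / t, ?_, by positivity, by ring, ?_⟩
    · rw [sub_pos, div_lt_one ht]; exact hgt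
    · have h4 : b - a = (t' / t) • (e - a) := by
        rw [div_eq_inv_mul, mul_smul, ← key, smul_smul, inv_mul_cancel₀ ht.ne', one_smul]
      have h5 : b = (b - a) + a := by abel
      rw [h5, h4, sub_smul, one_smul, smul_sub]
      abel

theorem four_aux {V : Finset Pt} {c : ℝ} (hc : 1 < c) (hV : Packing V c) {a b d e x : Pt}
    (ha : a ∈ V) (hb : b ∈ V) (hd : d ∈ V) (he : e ∈ V) (hab : ch a b = c) (hde : ch d e = c)
    (had : a ≠ d) (hae : a ≠ e) (hbd : b ≠ d) (hbe : b ≠ e)
    (h1 : x ∈ openSegment ℝ a b) (h2 : x ∈ openSegment ℝ d e) : False := by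
  obtain ⟨s, t, hs, ht', hst, hx⟩ := h1
  obtain ⟨s', t', hs', ht'', hst', hx'⟩ := h2
  have pa := hV.pos a ha
  have pb := hV.pos b hb
  have pd := hV.pos d hd
  have pe := hV.pos e he
  have hA0 : 0 < ht a := ht_pos pa
  have hB0 : 0 < ht b := ht_pos pb
  have hD0 : 0 < ht d := ht_pos pd
  have hE0 : 0 < ht e := ht_pos pe
  set l := s * ht a with hl
  set m := t * ht b with hm
  set g := s' * ht d with hg
  set k := t' * ht e with hk
  have hl0 : 0 < l := by positivity
  have hm0 : 0 < m := by positivity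
  have hg0 : 0 < g := by positivity
  have hk0 : 0 < k := by positivity
  have q1 : q x x = l ^ 2 + m ^ 2 + 2 * (l * m) * c := by
    have : q x x = q (s • a + t • b) (s • a + t • b) := by rw [hx]
    rw [this, q_comb hst, q_symm a, q_symm b, q_comb hst, q_comb hst, ht_sq pa, ht_sq pb,
      q_eq_ch pb pa, q_eq_ch pa pb, ch_symm b a, hab]
    rw [hl, hm]; ring
  have q2 : q x x = g ^ 2 + k ^ 2 + 2 * (g * k) * c := by
    have : q x x = q (s' • d + t' • e) (s' • d + t' • e) := by rw [hx']
    rw [this, q_comb hst', q_symm d, q_symm e, q_comb hst', q_comb hst', ht_sq pd, ht_sq pe,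
      q_eq_ch pe pd, q_eq_ch pd pe, ch_symm e d, hde]
    rw [hg, hk]; ring
  have q3 : q x x = l * g * ch a d + l * k * ch a e + m * g * ch b d + m * k * ch b e := by
    have : q x x = q (s • a + t • b) (s' • d + t' • e) := by rw [hx, hx']
    rw [this, q_comb hst, q_symm a, q_symm b, q_comb hst', q_comb hst',
      q_eq_ch pd pa, q_eq_ch pe pa, q_eq_ch pd pb, q_eq_ch pe pb, ch_symm d a, ch_symm e a,
      ch_symm d b, ch_symm e b]
    rw [hl, hm, hg, hk]; ring
  have c1 := hV.sep a ha d hd had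
  have c2 := hV.sep a ha e he hae
  have c3 := hV.sep b hb d hd hbd
  have c4 := hV.sep b hb e he hbe
  have q4 : c * ((l + m) * (g + k)) ≤ q x x := by
    rw [q3]
    have e1 := mul_le_mul_of_nonneg_left c1 (by positivity : 0 ≤ l * g)
    have e2 := mul_le_mul_of_nonneg_left c2 (by positivity : 0 ≤ l * k)
    have e3 := mul_le_mul_of_nonneg_left c3 (by positivity : 0 ≤ m * g)
    have e4 := mul_le_mul_of_nonneg_left c4 (by positivity : 0 ≤ m * k)
    linarith
  have q5 : q x x ≤ (c + 1) / 2 * (l + m) ^ 2 := by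
    rw [q1]; linarith [mul_nonneg (by linarith : 0 ≤ c - 1) (sq_nonneg (l - m))]
  have q6 : q x x ≤ (c + 1) / 2 * (g + k) ^ 2 := by
    rw [q2]; linarith [mul_nonneg (by linarith : 0 ≤ c - 1) (sq_nonneg (g - k))]
  set S := l + m with hS
  set T := g + k with hT
  have hS0 : 0 < S := by positivity
  have hT0 : 0 < T := by positivity
  rcases le_total S T with h | h
  · have : (c + 1) / 2 * S ^ 2 ≤ (c + 1) / 2 * (S * T) := by
      apply mul_le_mul_of_nonneg_left _ (by linarith)
      rw [sq]
      gcongr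
    linarith [mul_pos (mul_pos hS0 hT0) (by linarith : 0 < c - 1)]
  · have : (c + 1) / 2 * T ^ 2 ≤ (c + 1) / 2 * (S * T) := by
      apply mul_le_mul_of_nonneg_left _ (by linarith)
      rw [sq]
      gcongr
    linarith [mul_pos (mul_pos hS0 hT0) (by linarith : 0 < c - 1)]

theorem mem_contacts {V : Finset Pt} {c : ℝ} {a b : Pt} :
    (a, b) ∈ contacts V c ↔ (a ∈ V ∧ b ∈ V) ∧ a ≠ b ∧ ch a b = c := by
  unfold contacts
  rw [Finset.mem_filter, Finset.mem_product]

/-- The contact segments are empty and pairwise non-crossing. -/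
theorem contacts_adm {V : Finset Pt} {c : ℝ} (hc : 1 < c) (hV : Packing V c) :
    Adm V (contacts V c) := by
  refine ⟨?_, ?_, ?_, ?_⟩
  · intro a b h
    rw [mem_contacts] at h
    exact ⟨h.1.1, h.1.2, h.2.1⟩
  · intro a b h
    rw [mem_contacts] at h ⊢
    exact ⟨⟨h.1.2, h.1.1⟩, h.2.1.symm, by rw [ch_symm]; exact h.2.2⟩
  · intro a b h p hp
    rw [mem_contacts] at h
    exact empty_aux hc hV h.1.1 h.1.2 h.2.1 h.2.2 hp
  · intro a b d e h1 h2 hne1 hne2
    rw [mem_contacts] at h1 h2
    obtain ⟨⟨ha, hb⟩, hab, hcab⟩ := h1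
    obtain ⟨⟨hd, he⟩, hde, hcde⟩ := h2
    rw [Set.disjoint_left]
    intro x hx1 hx2
    have share : ∀ p y z : Pt, p ∈ V → y ∈ V → z ∈ V → p ≠ y → p ≠ z → ch p y = c → ch p z = c →
        y ≠ z → x ∈ openSegment ℝ p y → x ∈ openSegment ℝ p z → False := by
      intro p y z hp hy hz hpy hpz h1 h2 hyz hx1 hx2
      rcases share_aux hyz hx1 hx2 with h | h
      · exact empty_aux hc hV hp hz hpz h2 hy h
      · exact empty_aux hc hV hp hy hpy h1 hz h
    by_cases had : a = d
    · subst had
      exact share a b e ha hb he hab hde hcab hcde (fun h => hne1 (by rw [h])) hx1 hx2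
    by_cases hae : a = e
    · subst hae
      rw [openSegment_symm] at hx2
      exact share a b d ha hb hd hab hde.symm hcab (by rw [ch_symm]; exact hcde)
        (fun h => hne2 (by rw [h])) hx1 hx2
    by_cases hbd : b = d
    · subst hbd
      rw [openSegment_symm] at hx1
      exact share b a e hb ha he hab.symm hde (by rw [ch_symm]; exact hcab) hcde
        hae hx1 hx2
    by_cases hbe : b = e
    · subst hbe
      rw [openSegment_symm] at hx1 hx2
      exact share b a d hb ha hd hab.symm hde.symm (by rw [ch_symm]; exact hcab)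
        (by rw [ch_symm]; exact hcde) had hx1 hx2
    exact four_aux hc hV ha hb hd he hcab hcde had hae hbd hbe hx1 hx2

/-- Every admissible family is contained in a maximal one. -/
theorem exists_maxl {V : Finset Pt} {E₀ : Finset (Pt × Pt)} (h : Adm V E₀) :
    ∃ E, E₀ ⊆ E ∧ Adm V E ∧ Maxl V E := by
  classical
  set F := ((V ×ˢ V).powerset).filter (fun E => E₀ ⊆ E ∧ Adm V E) with hF
  have hne : F.Nonempty := by
    refine ⟨E₀, ?_⟩
    rw [hF, Finset.mem_filter, Finset.mem_powerset]
    refine ⟨?_, Finset.Subset.refl _, h⟩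
    rintro ⟨a, b⟩ hab
    rw [Finset.mem_product]
    exact ⟨(h.mem a b hab).1, (h.mem a b hab).2.1⟩
  obtain ⟨E, hE, hmax⟩ := Finset.exists_max_image F Finset.card hne
  rw [hF, Finset.mem_filter, Finset.mem_powerset] at hE
  obtain ⟨hEV, hE0, hEA⟩ := hE
  refine ⟨E, hE0, hEA, ?_⟩
  intro a ha b hb hab hemp hdis
  by_contra hnot
  set E' := insert (a, b) (insert (b, a) E) with hE'
  have hmem : ∀ x y, (x, y) ∈ E' ↔ (x = a ∧ y = b) ∨ (x = b ∧ y = a) ∨ (x, y) ∈ E := by
    intro x y
    have e : ∀ u v : Pt, ((x, y) : Pt × Pt) = (u, v) ↔ x = u ∧ y = v := fun u v =>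
      ⟨fun h => ⟨congrArg Prod.fst h, congrArg Prod.snd h⟩, fun h => by rw [h.1, h.2]⟩
    rw [hE', Finset.mem_insert, Finset.mem_insert, e, e]
  have hadm : Adm V E' := by
    refine ⟨?_, ?_, ?_, ?_⟩
    · intro x y hxy
      rw [hmem] at hxy
      rcases hxy with ⟨rfl, rfl⟩ | ⟨rfl, rfl⟩ | hxy
      · exact ⟨ha, hb, hab⟩
      · exact ⟨hb, ha, hab.symm⟩
      · exact hEA.mem x y hxy
    · intro x y hxy
      rw [hmem] at hxy ⊢
      rcases hxy with ⟨rfl, rfl⟩ | ⟨rfl, rfl⟩ | hxy
      · exact Or.inr (Or.inl ⟨rfl, rfl⟩)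
      · exact Or.inl ⟨rfl, rfl⟩
      · exact Or.inr (Or.inr (hEA.symm x y hxy))
    · intro x y hxy
      rw [hmem] at hxy
      rcases hxy with ⟨rfl, rfl⟩ | ⟨rfl, rfl⟩ | hxy
      · exact hemp
      · rw [openSegment_symm]; exact hemp
      · exact hEA.empty x y hxy
    · intro x y z w hxy hzw hne1 hne2
      rw [hmem] at hxy hzw
      rcases hxy with ⟨rfl, rfl⟩ | ⟨rfl, rfl⟩ | hxy
      · rcases hzw with ⟨rfl, rfl⟩ | ⟨rfl, rfl⟩ | hzw
        · exact absurd rfl hne1
        · exact absurd rfl hne2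
        · exact hdis z w hzw hne1 hne2
      · rcases hzw with ⟨rfl, rfl⟩ | ⟨rfl, rfl⟩ | hzw
        · exact absurd rfl hne2
        · exact absurd rfl hne1
        · rw [openSegment_symm]
          exact hdis z w hzw hne2 hne1
      · rcases hzw with ⟨rfl, rfl⟩ | ⟨rfl, rfl⟩ | hzw
        · refine (hdis x y hxy (fun h => hne1 h.symm) (fun h => hne2 ?_)).symm
          have e1 := congrArg Prod.fst h
          have e2 := congrArg Prod.snd h
          simp only at e1 e2
          rw [e1, e2]
        · rw [openSegment_symm ℝ z w]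
          refine (hdis x y hxy (fun h => hne2 ?_) (fun h => hne1 h.symm)).symm
          have e1 := congrArg Prod.fst h
          have e2 := congrArg Prod.snd h
          simp only at e1 e2
          rw [e1, e2]
        · exact hEA.noncross x y z w hxy hzw hne1 hne2
  have hE'F : E' ∈ F := by
    rw [hF, Finset.mem_filter, Finset.mem_powerset]
    refine ⟨?_, ?_, hadm⟩
    · rintro ⟨x, y⟩ hxy
      rw [Finset.mem_product]
      exact ⟨(hadm.mem x y hxy).1, (hadm.mem x y hxy).2.1⟩
    · intro p hp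
      rw [hE', Finset.mem_insert, Finset.mem_insert]
      exact Or.inr (Or.inr (hE0 hp))
  have hlt : E.card < E'.card := by
    apply Finset.card_lt_card
    rw [Finset.ssubset_iff_of_subset]
    · exact ⟨(a, b), Finset.mem_insert_self _ _, hnot⟩
    · intro p hp
      rw [hE', Finset.mem_insert, Finset.mem_insert]
      exact Or.inr (Or.inr hp)
  have := hmax E' hE'F
  omega

end CAdm
end
end Pool.Agent.Helper888
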