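import Mathlib
set_option autoImplicit false
open Equiv Finset
open scoped Classical

namespace Pool.Agent.Helper888

structure CMap (D V : Type) [Fintype D] [Fintype V] where
  σ : Perm D
  τ : Perm D
  tail : D → V
  C : Finset D
  g : D → ℝ
  inner : D → Prop
  U : D → ℕ
  τ_inv : ∀ d, τ (τ d) = d
  τ_ne : ∀ d, tail (τ d) ≠ tail d
  tail_σ : ∀ d, tail (σ d) = tail d
  cyc : ∀ d d', tail d = tail d' → ∃ k : ℕ, (σ ^ k) d = d'
  C_τ : ∀ d, d ∈ C → τ d ∈ C
  surj : ∀ v, ∃ d ∈ C, tail d = v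
  g_pos : ∀ d, 0 < g d
  g_sum : ∀ v, ∑ d with tail d = v, g d = 6
  inner_φ : ∀ d, inner d → inner ((σ⁻¹ * τ) d)
  φ3 : ∀ d, inner d → (σ⁻¹ * τ) ((σ⁻¹ * τ) ((σ⁻¹ * τ) d)) = d
  U_sum : ∑ d, U d = 2 * Fintype.card V
  U_outer : ∀ d, ¬ inner d → 1 ≤ U d
  U_inner : ∀ d, inner d → 1 ≤ U d + U ((σ⁻¹ * τ) d) + U ((σ⁻¹ * τ) ((σ⁻¹ * τ) d))

namespace CMap
variable {D V : Type} [Fintype D] [Fintype V] (M : CMap D V)

noncomputable def φ : Perm D := M.σ⁻¹ * M.τ

theorem inner_φ' {d : D} (h : M.inner d) : M.inner (M.φ d) := M.inner_φ d h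
theorem φ3' {d : D} (h : M.inner d) : M.φ (M.φ (M.φ d)) = d := M.φ3 d h
theorem σφ (d : D) : M.σ (M.φ d) = M.τ d := by simp [φ]
theorem φτσ (d : D) : M.φ (M.τ (M.σ d)) = d := by simp [φ, M.τ_inv]
theorem σ_eq {d : D} (h : M.inner d) : M.σ d = M.τ (M.φ (M.φ d)) := by
  have := M.σφ (M.φ (M.φ d)); rw [M.φ3' h] at this; exact this
theorem inner_of_φ {d : D} (h : M.inner (M.φ d)) : M.inner d := by
  have h3 := M.φ3' h
  have : M.φ (M.φ (M.φ d)) = d := M.φ.injective h3
  rw [← this]; exact M.inner_φ' (M.inner_φ' h)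
theorem inner_φ_iff {d : D} : M.inner (M.φ d) ↔ M.inner d := ⟨M.inner_of_φ, M.inner_φ'⟩
theorem C_τ_iff {d : D} : M.τ d ∈ M.C ↔ d ∈ M.C :=
  ⟨fun h => by have := M.C_τ _ h; rwa [M.τ_inv] at this, M.C_τ d⟩
theorem tail_φ (d : D) : M.tail (M.φ d) = M.tail (M.τ d) := by
  have := M.tail_σ (M.φ d); rw [M.σφ] at this; exact this.symm
theorem φ_ne (d : D) : M.φ d ≠ d := fun h => M.τ_ne d (by rw [← M.tail_φ, h])
theorem φφ_ne {d : D} (hd : M.inner d) : M.φ (M.φ d) ≠ d := fun h => by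
  have h3 := M.φ3' hd; rw [h] at h3; exact M.φ_ne d h3

/-- the elementary moves generating the components -/
def Mv (d d' : D) : Prop := d' = M.φ d ∨ (d ∉ M.C ∧ d' = M.τ d) ∨ (¬ M.inner d ∧ ¬ M.inner d')

/-- component of a dart -/
def comp (d : D) : Quot M.Mv := Quot.mk _ d

theorem comp_φ (d : D) : M.comp (M.φ d) = M.comp d :=
  (Quot.sound (show M.Mv d (M.φ d) from Or.inl rfl)).symm
theorem comp_τ {d : D} (h : d ∉ M.C) : M.comp (M.τ d) = M.comp d :=
  (Quot.sound (show M.Mv d (M.τ d) from Or.inr (Or.inl ⟨h, rfl⟩))).symm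
theorem comp_outer {d d' : D} (h : ¬ M.inner d) (h' : ¬ M.inner d') : M.comp d = M.comp d' :=
  Quot.sound (Or.inr (Or.inr ⟨h, h'⟩))

theorem closed {S : Set D} (h : ∀ d d', M.Mv d d' → (d ∈ S ↔ d' ∈ S)) {d d' : D}
    (hd : M.comp d = M.comp d') : d ∈ S ↔ d' ∈ S := by
  have key : ∀ x y, M.Mv x y → (x ∈ S) = (y ∈ S) := fun x y hxy => propext (h x y hxy)
  have := congrArg (Quot.lift (fun x => x ∈ S) key) hd
  exact iff_of_eq this

noncomputable def DK (K : Quot M.Mv) : Finset D := univ.filter fun d => M.comp d = K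

theorem mem_DK {K : Quot M.Mv} {d : D} : d ∈ M.DK K ↔ M.comp d = K := by simp [DK]

theorem grow {K : Quot M.Mv} {S : Finset D} (hSK : S ⊆ M.DK K) (hS0 : S.Nonempty)
    (hφ : ∀ d, M.φ d ∈ S ↔ d ∈ S) (hout : ∀ d ∈ M.DK K, ¬ M.inner d → d ∈ S)
    (hne : S ≠ M.DK K) : ∃ x ∈ S, x ∉ M.C ∧ M.τ x ∉ S ∧ M.τ x ∈ M.DK K := by
  by_contra hcon
  push Not at hcon
  have hcon' : ∀ x ∈ S, x ∉ M.C → M.τ x ∈ S := by
    intro x hx hxC
    by_contra h
    exact hcon x hx hxC h (by rw [mem_DK, M.comp_τ hxC]; exact M.mem_DK.1 (hSK hx))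
  apply hne
  refine subset_antisymm hSK ?_
  intro d hd
  obtain ⟨s, hs⟩ := hS0
  have hcomp : M.comp s = M.comp d := by rw [M.mem_DK.1 hd, M.mem_DK.1 (hSK hs)]
  refine (M.closed (S := (S : Set D)) ?_ hcomp).1 hs
  rintro x y (rfl | ⟨hx, rfl⟩ | ⟨hx, hy⟩)
  · simp only [mem_coe]; exact (hφ x).symm
  · simp only [mem_coe]
    refine ⟨fun h => hcon' x h hx, fun h => ?_⟩
    have := hcon' _ h (fun hc => hx (M.C_τ_iff.1 hc))
    rwa [M.τ_inv] at this
  · simp only [mem_coe]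
    have hxy := M.comp_outer hx hy
    constructor
    · intro h; exact hout y (by rw [mem_DK, ← hxy]; exact M.mem_DK.1 (hSK h)) hy
    · intro h; exact hout x (by rw [mem_DK, hxy]; exact M.mem_DK.1 (hSK h)) hx

/-- the cell of an inner dart -/
noncomputable def cell (d : D) : Finset D := {d, M.φ d, M.φ (M.φ d)}

theorem mem_cell_self (d : D) : d ∈ M.cell d := by simp [cell]

theorem card_cell {d : D} (h : M.inner d) : (M.cell d).card = 3 := by
  unfold cell
  rw [card_insert_of_notMem, card_insert_of_notMem, card_singleton]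
  · simp only [mem_singleton]; exact fun h' => M.φ_ne _ h'.symm
  · simp only [mem_insert, mem_singleton, not_or]
    exact ⟨fun h' => M.φ_ne _ h'.symm, fun h' => M.φφ_ne h h'.symm⟩

theorem cell_φ {d : D} (h : M.inner d) (x : D) : M.φ x ∈ M.cell d ↔ x ∈ M.cell d := by
  simp only [cell, mem_insert, mem_singleton]
  have h3 := M.φ3' h
  constructor
  · rintro (h' | h' | h')
    · right; right; apply M.φ.injective; rw [h', h3]
    · left; exact M.φ.injective h'
    · right; left; exact M.φ.injective h'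
  · rintro (h' | h' | h')
    · right; left; rw [h']
    · right; right; rw [h']
    · left; rw [h', h3]

theorem cell_subset {K : Quot M.Mv} {d : D} (hd : d ∈ M.DK K) : M.cell d ⊆ M.DK K := by
  intro x hx
  simp only [cell, mem_insert, mem_singleton] at hx
  rw [mem_DK] at *
  rcases hx with rfl | rfl | rfl
  · exact hd
  · rw [M.comp_φ]; exact hd
  · rw [M.comp_φ, M.comp_φ]; exact hd

theorem cell_disj {S : Finset D} (hφ : ∀ d, M.φ d ∈ S ↔ d ∈ S) {d : D} (hd : d ∉ S) :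
    Disjoint S (M.cell d) := by
  rw [disjoint_right]
  intro x hx
  simp only [cell, mem_insert, mem_singleton] at hx
  rcases hx with rfl | rfl | rfl
  · exact hd
  · rwa [hφ]
  · rwa [hφ, hφ]

/-- noncontact darts of `S` whose reverse is in `S` too -/
noncomputable def intl (S : Finset D) : Finset D := S.filter fun x => x ∉ M.C ∧ M.τ x ∈ S

theorem intl_grow {K : Quot M.Mv} {S : Finset D} (_hSK : S ⊆ M.DK K)
    (hφ : ∀ d, M.φ d ∈ S ↔ d ∈ S) {x : D} (hx : x ∈ S) (hxC : x ∉ M.C) (hτ : M.τ x ∉ S) :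
    (M.intl S).card + 2 ≤ (M.intl (S ∪ M.cell (M.τ x))).card := by
  have h1 : M.intl S ∪ {x, M.τ x} ⊆ M.intl (S ∪ M.cell (M.τ x)) := by
    intro y hy
    simp only [intl, mem_union, mem_filter, mem_insert, mem_singleton] at hy ⊢
    rcases hy with ⟨h1, h2, h3⟩ | rfl | rfl
    · exact ⟨Or.inl h1, h2, Or.inl h3⟩
    · exact ⟨Or.inl hx, hxC, Or.inr (M.mem_cell_self _)⟩
    · exact ⟨Or.inr (M.mem_cell_self _), fun h => hxC (M.C_τ_iff.1 h), Or.inl (by rwa [M.τ_inv])⟩
  refine le_trans ?_ (card_le_card h1)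
  rw [card_union_of_disjoint, card_insert_of_notMem, card_singleton]
  · simp only [mem_singleton]; intro h; apply hτ; rw [← h]; exact hx
  · rw [disjoint_right]
    intro y hy
    simp only [mem_insert, mem_singleton] at hy
    simp only [intl, mem_filter, not_and]
    rcases hy with rfl | rfl
    · intro _ _; exact hτ
    · intro h; exact absurd h hτ

theorem union_φ {S : Finset D} (hφ : ∀ d, M.φ d ∈ S ↔ d ∈ S) {y : D} (hy : M.inner y) (d : D) :
    M.φ d ∈ S ∪ M.cell y ↔ d ∈ S ∪ M.cell y := by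
  simp only [mem_union, hφ, M.cell_φ hy]

theorem count_grow {K : Quot M.Mv} : ∀ (n : ℕ) {S : Finset D}, (M.DK K \ S).card = n →
    S ⊆ M.DK K → S.Nonempty → (∀ d, M.φ d ∈ S ↔ d ∈ S) →
    (∀ d ∈ M.DK K, ¬ M.inner d → d ∈ S) →
    3 * (M.intl S).card + 2 * (M.DK K \ S).card ≤ 3 * (M.DK K \ M.C).card := by
  intro n
  induction n using Nat.strong_induction_on with
  | _ n ih =>
  intro S hn hSK hS0 hφ hout
  by_cases hne : S = M.DK K
  · subst hne
    simp only [sdiff_self, card_empty, mul_zero, add_zero]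
    apply Nat.mul_le_mul_left
    apply card_le_card
    intro x hx
    simp only [intl, mem_filter] at hx
    exact mem_sdiff.2 ⟨hx.1, hx.2.1⟩
  · obtain ⟨x, hxS, hxC, hτS, hτK⟩ := M.grow hSK hS0 hφ hout hne
    have hin : M.inner (M.τ x) := by
      by_contra h; exact hτS (hout _ hτK h)
    have h1 := M.intl_grow hSK hφ hxS hxC hτS
    have hsub : M.cell (M.τ x) ⊆ M.DK K := M.cell_subset hτK
    have hdisj := M.cell_disj hφ hτS
    have hcard : (M.DK K \ (S ∪ M.cell (M.τ x))).card + 3 = (M.DK K \ S).card := by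
      have : M.DK K \ S = (M.DK K \ (S ∪ M.cell (M.τ x))) ∪ M.cell (M.τ x) := by
        ext y
        simp only [mem_sdiff, mem_union, not_or]
        constructor
        · rintro ⟨h, h'⟩
          by_cases hy : y ∈ M.cell (M.τ x)
          · right; exact hy
          · left; exact ⟨h, h', hy⟩
        · rintro (⟨h, h', _⟩ | h)
          · exact ⟨h, h'⟩
          · exact ⟨hsub h, fun h' => (disjoint_left.1 hdisj h' h)⟩
      rw [this, card_union_of_disjoint, M.card_cell hin]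
      rw [disjoint_left]; intro y hy; simp only [mem_sdiff, mem_union, not_or] at hy; exact hy.2.2
    have := ih (M.DK K \ (S ∪ M.cell (M.τ x))).card (by omega) rfl
      (union_subset hSK hsub) (hS0.mono subset_union_left) (M.union_φ hφ hin)
      (fun d hd hd' => mem_union_left _ (hout d hd hd'))
    omega

end CMap
end Pool.Agent.Helper888
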