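import Pool.Agent.Helper888.Count1
set_option autoImplicit false
open Equiv Finset
open scoped Classical

namespace Pool.Agent.Helper888

theorem perm_sub {D : Type} (s : Perm D) {i j : ℕ} (c : D) (h : i ≤ j) :
    (s⁻¹ ^ i) ((s ^ j) c) = (s ^ (j - i)) c := by
  rw [← Perm.mul_apply]
  congr 1
  rw [inv_pow, ← zpow_natCast, ← zpow_natCast, ← zpow_neg, ← zpow_natCast, ← zpow_add]
  congr 1; omega

theorem perm_sub' {D : Type} (s : Perm D) {i j : ℕ} (c : D) (h : i ≤ j) :
    (s ^ i) ((s⁻¹ ^ j) c) = (s⁻¹ ^ (j - i)) c := by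
  have := perm_sub s⁻¹ c h
  simpa using this

namespace CMap
variable {D V : Type} [Fintype D] [Fintype V] (M : CMap D V)

theorem exists_back (d : D) : ∃ j : ℕ, (M.σ⁻¹ ^ j) d ∈ M.C := by
  obtain ⟨c, hc, ht⟩ := M.surj (M.tail d)
  obtain ⟨k, hk⟩ := M.cyc c d ht
  refine ⟨k, ?_⟩
  rw [← hk, perm_sub _ _ le_rfl]
  simpa using hc

noncomputable def bk (d : D) : ℕ := Nat.find (M.exists_back d)
noncomputable def own (d : D) : D := (M.σ⁻¹ ^ M.bk d) d

theorem own_mem (d : D) : M.own d ∈ M.C := Nat.find_spec (M.exists_back d)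
theorem bk_zero {d : D} (h : d ∈ M.C) : M.bk d = 0 := by
  unfold bk; rw [Nat.find_eq_zero]; simpa using h
theorem own_self {d : D} (h : d ∈ M.C) : M.own d = d := by simp [own, M.bk_zero h]
theorem bk_σ {d : D} (h : M.σ d ∉ M.C) : M.bk (M.σ d) = M.bk d + 1 := by
  unfold bk
  rw [Nat.find_eq_iff]
  constructor
  · rw [pow_succ]; simpa using Nat.find_spec (M.exists_back d)
  · intro n hn
    rcases n with _ | n
    · simpa using h
    · rw [pow_succ]
      have : n < Nat.find (M.exists_back d) := by omega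
      simpa using Nat.find_min (M.exists_back d) this
theorem own_σ {d : D} (h : M.σ d ∉ M.C) : M.own (M.σ d) = M.own d := by
  unfold own; rw [M.bk_σ h, pow_succ]; simp

theorem own_induct {P : D → D → Prop} (h0 : ∀ c ∈ M.C, P c c)
    (h1 : ∀ d, M.σ d ∉ M.C → P d (M.own d) → P (M.σ d) (M.own d)) (d : D) : P d (M.own d) := by
  suffices ∀ n d, M.bk d = n → P d (M.own d) from this _ d rfl
  intro n
  induction n with
  | zero =>
    intro d hd
    have hdC : d ∈ M.C := by
      have := M.own_mem d; simpa [own, hd] using this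
    rw [M.own_self hdC]; exact h0 d hdC
  | succ n ih =>
    intro d hd
    have hdC : d ∉ M.C := fun h => by rw [M.bk_zero h] at hd; omega
    have hσ : M.σ (M.σ⁻¹ d) = d := by simp
    have hσC : M.σ (M.σ⁻¹ d) ∉ M.C := by rwa [hσ]
    have h2 := M.bk_σ hσC
    rw [hσ] at h2
    have h3 := h1 (M.σ⁻¹ d) hσC (ih _ (by omega))
    rw [hσ] at h3
    have h4 := M.own_σ hσC
    rw [hσ] at h4
    rw [h4]; exact h3

theorem comp_σ {d : D} (h : M.σ d ∉ M.C) : M.comp (M.σ d) = M.comp d := by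
  have h1 := M.comp_τ h
  have h2 := M.comp_φ (M.τ (M.σ d))
  rw [M.φτσ] at h2
  rw [← h1, ← h2]

theorem tail_own (d : D) : M.tail (M.own d) = M.tail d := by
  refine M.own_induct (P := fun d c => M.tail c = M.tail d) (fun _ _ => rfl) ?_ d
  intro d _ h; rw [h, M.tail_σ]

theorem comp_own (d : D) : M.comp (M.own d) = M.comp d := by
  refine M.own_induct (P := fun d c => M.comp c = M.comp d) (fun _ _ => rfl) ?_ d
  intro d hd h; rw [h, M.comp_σ hd]

/-- the size of the contact corner starting at `c` -/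
noncomputable def psi (c : D) : ℝ := ∑ d with M.own d = c, M.g d

theorem psi_pos {c : D} (hc : c ∈ M.C) : 0 < M.psi c := by
  refine sum_pos (fun d _ => M.g_pos d) ⟨c, ?_⟩
  simp [M.own_self hc]

theorem psi_sum (P : D → Prop) : ∑ c ∈ M.C with P c, M.psi c = ∑ d with P (M.own d), M.g d := by
  unfold psi
  rw [← sum_fiberwise_of_maps_to (s := univ.filter fun d => P (M.own d))
    (t := M.C.filter P) (g := M.own) (f := M.g)]
  · refine sum_congr rfl fun c hc => ?_
    rw [filter_filter]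
    refine sum_congr ?_ fun _ _ => rfl
    ext d
    simp only [mem_filter, mem_univ, true_and] at hc ⊢
    constructor
    · intro h; rw [h]; exact ⟨hc.2, rfl⟩
    · exact fun h => h.2
  · intro d hd
    simp only [mem_filter, mem_univ, true_and] at hd ⊢
    exact ⟨M.own_mem d, hd⟩

theorem psi_sum_tail (v : V) : ∑ c ∈ M.C with M.tail c = v, M.psi c = 6 := by
  rw [M.psi_sum, ← M.g_sum v]
  refine sum_congr ?_ fun _ _ => rfl
  ext d; simp [M.tail_own]

theorem psi_sum_comp (K : Quot M.Mv) :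
    ∑ c ∈ M.C with M.comp c = K, M.psi c = ∑ d ∈ M.DK K, M.g d := by
  rw [M.psi_sum]
  refine sum_congr ?_ fun _ _ => rfl
  ext d; simp [M.comp_own, DK]

theorem own_fiber {c : D} (hc : c ∈ M.C) {m : ℕ} (hm : 1 ≤ m) (hmC : (M.σ ^ m) c ∈ M.C)
    (h : ∀ j, 0 < j → j < m → (M.σ ^ j) c ∉ M.C) (d : D) :
    M.own d = c ↔ ∃ j < m, d = (M.σ ^ j) c := by
  constructor
  · intro hd
    refine ⟨M.bk d, ?_, ?_⟩
    · by_contra hlt
      push Not at hlt
      obtain ⟨k, hk⟩ : ∃ k, k = M.bk d := ⟨_, rfl⟩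
      have hd' : d = (M.σ ^ k) c := by
        rw [← hd]; unfold own; rw [← hk, perm_sub' _ _ le_rfl]; simp
      rw [← hk] at hlt
      have : (M.σ⁻¹ ^ (k - m)) d ∈ M.C := by
        rw [hd', perm_sub _ _ (by omega)]
        have : k - (k - m) = m := by omega
        rw [this]; exact hmC
      exact Nat.find_min (M.exists_back d) (m := k - m) (by unfold bk at hk; omega) this
    · rw [← hd]; unfold own; rw [perm_sub' _ _ le_rfl]; simp
  · rintro ⟨j, hj, rfl⟩
    induction j with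
    | zero => simpa using M.own_self hc
    | succ j ih =>
      have h1 := ih (by omega)
      have h2 := h (j + 1) (by omega) hj
      rw [pow_succ', Perm.mul_apply] at h2 ⊢
      rw [M.own_σ h2, h1]

theorem psi_eq {c : D} (hc : c ∈ M.C) {m : ℕ} (hm : 1 ≤ m) (hmC : (M.σ ^ m) c ∈ M.C)
    (h : ∀ j, 0 < j → j < m → (M.σ ^ j) c ∉ M.C) :
    M.psi c = ∑ j ∈ range m, M.g ((M.σ ^ j) c) := by
  unfold psi
  have h1 : (univ.filter fun d => M.own d = c) = (range m).image fun j => (M.σ ^ j) c := by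
    ext d
    simp only [mem_filter, mem_univ, true_and, mem_image, mem_range]
    rw [M.own_fiber hc hm hmC h d]
    constructor
    · rintro ⟨j, hj, rfl⟩; exact ⟨j, hj, rfl⟩
    · rintro ⟨j, hj, rfl⟩; exact ⟨j, hj, rfl⟩
  rw [h1, sum_image]
  have key : ∀ i j : ℕ, i < j → j < m → (M.σ ^ i) c ≠ (M.σ ^ j) c := by
    intro i j hij hj heq
    have := perm_sub M.σ c hij.le
    rw [← heq, perm_sub _ _ le_rfl] at this
    simp only [tsub_self, pow_zero, Perm.coe_one, id_eq] at this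
    exact h (j - i) (by omega) (by omega) (by rw [← this]; exact hc)
  intro i hi j hj heq
  simp only [coe_range, Set.mem_Iio] at hi hj
  rcases lt_trichotomy i j with hlt | heq' | hlt
  · exact absurd heq (key i j hlt hj)
  · exact heq'
  · exact absurd heq.symm (key j i hlt hi)

theorem psi_one {c : D} (hc : c ∈ M.C) (h1 : M.σ c ∈ M.C) : M.psi c = M.g c := by
  rw [M.psi_eq hc (m := 1) le_rfl (by simpa using h1) (fun j h h' => by omega)]
  simp

theorem psi_two {c : D} (hc : c ∈ M.C) (h1 : M.σ c ∉ M.C) (h2 : M.σ (M.σ c) ∈ M.C) :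
    M.psi c = M.g c + M.g (M.σ c) := by
  rw [M.psi_eq hc (m := 2) (by norm_num) (by simpa [pow_succ] using h2) ?_]
  · simp [sum_range_succ]
  · intro j h h'
    have : j = 1 := by omega
    subst this; simpa using h1

theorem psi_three {c : D} (hc : c ∈ M.C) (h1 : M.σ c ∉ M.C) (h2 : M.σ (M.σ c) ∉ M.C)
    (h3 : M.σ (M.σ (M.σ c)) ∈ M.C) :
    M.psi c = M.g c + M.g (M.σ c) + M.g (M.σ (M.σ c)) := by
  rw [M.psi_eq hc (m := 3) (by norm_num) (by simpa [pow_succ] using h3) ?_]
  · simp [sum_range_succ, pow_succ]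
  · intro j h h'
    have : j = 1 ∨ j = 2 := by omega
    rcases this with rfl | rfl
    · simpa using h1
    · simpa [pow_succ] using h2

theorem even_N (K : Quot M.Mv) : Even (M.DK K \ M.C).card := by
  have h : ∑ x ∈ M.DK K \ M.C, (1 : ZMod 2) = 0 := by
    refine sum_involution (fun x _ => M.τ x) ?_ ?_ ?_ ?_
    · intro x _; decide
    · intro x _ _ h; exact M.τ_ne x (by rw [h])
    · intro x hx
      simp only [mem_sdiff, mem_DK] at hx ⊢
      exact ⟨by rw [M.comp_τ hx.2]; exact hx.1, fun h => hx.2 (M.C_τ_iff.1 h)⟩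
    · intro x _; exact M.τ_inv x
  rw [sum_const, nsmul_eq_mul, mul_one] at h
  exact (ZMod.natCast_eq_zero_iff_even).1 h

theorem three_dvd : ∀ (n : ℕ) (T : Finset D), T.card = n → (∀ d ∈ T, M.inner d) →
    (∀ d, M.φ d ∈ T ↔ d ∈ T) → 3 ∣ T.card := by
  intro n
  induction n using Nat.strong_induction_on with
  | _ n ih =>
  intro T hn hin hφ
  rcases T.eq_empty_or_nonempty with rfl | ⟨d, hd⟩
  · simp
  · have hsub : M.cell d ⊆ T := by
      intro x hx
      simp only [cell, mem_insert, mem_singleton] at hx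
      rcases hx with rfl | rfl | rfl
      · exact hd
      · rwa [hφ]
      · rwa [hφ, hφ]
    have hc := card_sdiff_add_card_eq_card hsub
    rw [M.card_cell (hin d hd)] at hc
    have := ih (T \ M.cell d).card (by omega) (T \ M.cell d) rfl
      (fun x hx => hin x (mem_sdiff.1 hx).1)
      (fun x => by simp only [mem_sdiff, hφ, M.cell_φ (hin d hd)])
    omega

theorem DK_φ (K : Quot M.Mv) (d : D) : M.φ d ∈ M.DK K ↔ d ∈ M.DK K := by
  rw [mem_DK, mem_DK, M.comp_φ]

/-- the sum of the three corners of a cell -/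
noncomputable def s3 (d : D) : ℝ := M.g d + M.g (M.φ d) + M.g (M.φ (M.φ d))

theorem s3_φ {d : D} (h : M.inner d) : M.s3 (M.φ d) = M.s3 d := by
  unfold s3; rw [M.φ3' h]; ring

theorem sum_g_φ {T : Finset D} (hφ : ∀ d, M.φ d ∈ T ↔ d ∈ T) (f : D → ℝ) :
    ∑ d ∈ T, f (M.φ d) = ∑ d ∈ T, f d := by
  refine sum_bij (fun d _ => M.φ d) ?_ ?_ ?_ ?_
  · intro d hd; rwa [hφ]
  · intro a _ b _ h; exact M.φ.injective h
  · intro b hb
    refine ⟨M.φ⁻¹ b, ?_, by simp⟩
    rw [← hφ]; simpa using hb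
  · intro _ _; rfl

theorem sum_s3 {T : Finset D} (hφ : ∀ d, M.φ d ∈ T ↔ d ∈ T) :
    ∑ d ∈ T, M.s3 d = 3 * ∑ d ∈ T, M.g d := by
  unfold s3
  rw [sum_add_distrib, sum_add_distrib, M.sum_g_φ hφ M.g, M.sum_g_φ hφ (fun d => M.g (M.φ d)),
    M.sum_g_φ hφ M.g]
  ring

end CMap
end Pool.Agent.Helper888
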