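import Pool.Agent.Helper888.Count2
set_option autoImplicit false
open Equiv Finset
open scoped Classical

namespace Pool.Agent.Helper888
namespace CMap
variable {D V : Type} [Fintype D] [Fintype V] (M : CMap D V)

/-- Geometric bounds on the corners. -/
structure Geo (M : CMap D V) (η : ℝ) : Prop where
  η0 : 0 ≤ η
  small1 : ∀ d, M.inner d → d ∈ M.C → 3 - η ≤ M.s3 d
  small2 : ∀ d, M.inner d → M.inner (M.τ d) → M.φ (M.τ d) ∈ M.C → M.φ (M.φ (M.τ d)) ∈ M.C →
    3 - η ≤ M.s3 d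
  lt3 : ∀ d, M.inner d → M.s3 d < 3
  tri : ∀ d, M.inner d → d ∈ M.C → M.φ d ∈ M.C → M.φ (M.φ d) ∈ M.C → M.g d < 1
  rh : ∀ d, M.inner d → M.inner (M.τ d) → d ∉ M.C → M.φ d ∈ M.C → M.φ (M.φ d) ∈ M.C →
     M.φ (M.τ d) ∈ M.C → M.φ (M.φ (M.τ d)) ∈ M.C →
     M.g (M.φ (M.φ d)) < 2 ∧ M.g (M.φ d) + M.g (M.τ d) < 2
  pent : ∀ x, M.inner x → M.inner (M.τ x) → M.inner (M.τ (M.φ x)) → x ∉ M.C → M.φ x ∉ M.C →
    M.φ (M.φ x) ∈ M.C → M.φ (M.τ x) ∈ M.C → M.φ (M.φ (M.τ x)) ∈ M.C →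
    M.φ (M.τ (M.φ x)) ∈ M.C → M.φ (M.φ (M.τ (M.φ x))) ∈ M.C →
    ⌊M.g (M.φ (M.τ x)) + M.g x⌋ + ⌊M.g (M.φ (M.φ (M.τ x)))⌋ +
      ⌊M.g (M.φ (M.τ (M.φ x))) + M.g (M.φ x) + M.g (M.τ x)⌋ +
      ⌊M.g (M.φ (M.φ (M.τ (M.φ x))))⌋ + ⌊M.g (M.φ (M.φ x)) + M.g (M.τ (M.φ x))⌋ ≤ 7

/-- perfect triangle corner -/
def PT (c : D) : Prop := M.inner c ∧ c ∈ M.C ∧ M.φ c ∈ M.C ∧ M.φ (M.φ c) ∈ M.C
/-- perfect rhombus with diagonal `d` -/
def RB (d : D) : Prop := M.inner d ∧ M.inner (M.τ d) ∧ d ∉ M.C ∧ M.φ d ∈ M.C ∧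
  M.φ (M.φ d) ∈ M.C ∧ M.φ (M.τ d) ∈ M.C ∧ M.φ (M.φ (M.τ d)) ∈ M.C ∧ 1 ≤ M.psi (M.φ d) ∧
  1 ≤ M.psi (M.φ (M.φ d)) ∧ 1 ≤ M.psi (M.φ (M.τ d)) ∧ 1 ≤ M.psi (M.φ (M.φ (M.τ d)))
def Perf (c : D) : Prop := M.PT c ∨ ∃ d, M.RB d ∧ (c = M.φ d ∨ c = M.φ (M.φ d))

noncomputable def CK (K : Quot M.Mv) : Finset D := M.C.filter fun c => M.comp c = K

theorem CK_eq (K : Quot M.Mv) : M.CK K = M.DK K ∩ M.C := by
  ext d; simp [CK, DK, and_comm]

theorem card_CK (K : Quot M.Mv) : (M.CK K).card + (M.DK K \ M.C).card = (M.DK K).card := by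
  rw [CK_eq, card_inter_add_card_sdiff]

theorem floor_le (K : Quot M.Mv) :
    (∑ c ∈ M.CK K, (⌊M.psi c⌋ : ℝ)) ≤ ∑ d ∈ M.DK K, M.g d := by
  rw [← M.psi_sum_comp]
  exact sum_le_sum fun c _ => Int.floor_le _

/-- bound for the bad darts -/
noncomputable def nb (K : Quot M.Mv) : ℕ := ((M.CK K).filter fun c => ¬ M.Perf c).card

theorem nb_le (K : Quot M.Mv) : M.nb K ≤ (M.CK K).card := card_filter_le _ _

theorem A_ge {K : Quot M.Mv} {η : ℝ} (h : ∀ d ∈ M.DK K, 3 - η ≤ M.s3 d) :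
    (M.DK K).card * (3 - η) ≤ 3 * ∑ d ∈ M.DK K, M.g d := by
  rw [← M.sum_s3 (M.DK_φ K)]
  have := card_nsmul_le_sum (M.DK K) M.s3 (3 - η) h
  simpa using this

theorem A_lt {K : Quot M.Mv} {η : ℝ} (G : M.Geo η) (hin : ∀ d ∈ M.DK K, M.inner d)
    (hne : (M.DK K).Nonempty) : 3 * ∑ d ∈ M.DK K, M.g d < (M.DK K).card * 3 := by
  rw [← M.sum_s3 (M.DK_φ K)]
  have := sum_lt_sum_of_nonempty hne (fun d hd => G.lt3 d (hin d hd))
  simpa using this

/-- every tree component with at most 4 cells has small defect -/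
theorem sbound {K : Quot M.Mv} {η : ℝ} (G : M.Geo η) (hin : ∀ d ∈ M.DK K, M.inner d)
    (hN6 : (M.DK K \ M.C).card ≤ 6) (htree : 3 * (M.DK K \ M.C).card + 6 = 2 * (M.DK K).card) :
    ∀ d ∈ M.DK K, 3 - η ≤ M.s3 d := by
  intro d hd
  have hi := hin d hd
  by_cases h1 : d ∈ M.C
  · exact G.small1 d hi h1
  by_cases h2 : M.φ d ∈ M.C
  · rw [← M.s3_φ hi]; exact G.small1 _ (M.inner_φ' hi) h2
  by_cases h3 : M.φ (M.φ d) ∈ M.C
  · rw [← M.s3_φ hi, ← M.s3_φ (M.inner_φ' hi)]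
    exact G.small1 _ (M.inner_φ' (M.inner_φ' hi)) h3
  have hcsub := M.cell_subset hd
  have hcφ := M.cell_φ hi
  have hcard3 := M.card_cell hi
  have hg1 := M.count_grow (K := K) _ rfl hcsub ⟨d, M.mem_cell_self d⟩ hcφ
    (fun x hx hx' => absurd (hin x hx) hx')
  have hs1 := card_sdiff_add_card_eq_card hcsub
  have hint0 : (M.intl (M.cell d)).card = 0 := by omega
  rw [card_eq_zero] at hint0
  have hout : ∀ x ∈ M.cell d, x ∉ M.C → M.τ x ∉ M.cell d := by
    intro x hx hxC hτ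
    have : x ∈ M.intl (M.cell d) := by simp only [intl, mem_filter]; exact ⟨hx, hxC, hτ⟩
    rw [hint0] at this; simp at this
  have m1 : d ∈ M.cell d := M.mem_cell_self d
  have m2 : M.φ d ∈ M.cell d := by simp [cell]
  have m3 : M.φ (M.φ d) ∈ M.cell d := by simp [cell]
  have o1 := hout _ m1 h1
  have o2 := hout _ m2 h2
  have o3 := hout _ m3 h3
  have hK : ∀ x ∈ M.cell d, x ∉ M.C → M.τ x ∈ M.DK K := by
    intro x hx hxC
    rw [mem_DK, M.comp_τ hxC]; exact M.mem_DK.1 (hcsub hx)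
  have k1 := hK _ m1 h1
  have k2 := hK _ m2 h2
  have k3 := hK _ m3 h3
  have hiτ := hin _ k1
  -- second stage
  have hS2sub : M.cell d ∪ M.cell (M.τ d) ⊆ M.DK K := union_subset hcsub (M.cell_subset k1)
  have hdisj := M.cell_disj hcφ o1
  have hg2 := M.count_grow (K := K) _ rfl hS2sub ⟨d, mem_union_left _ m1⟩
    (M.union_φ hcφ hiτ) (fun x hx hx' => absurd (hin x hx) hx')
  have hs2 := card_sdiff_add_card_eq_card hS2sub
  rw [card_union_of_disjoint hdisj, hcard3, M.card_cell hiτ] at hs2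
  have hint2 : (M.intl (M.cell d ∪ M.cell (M.τ d))).card ≤ 2 := by omega
  -- all noncontact darts
  have hall : ∀ x ∈ M.DK K, x ∉ M.C → x ∉ M.cell d →
      x = M.τ d ∨ x = M.τ (M.φ d) ∨ x = M.τ (M.φ (M.φ d)) := by
    have hT : ({M.τ d, M.τ (M.φ d), M.τ (M.φ (M.φ d))} : Finset D).card = 3 := by
      rw [← hcard3]
      have : ({M.τ d, M.τ (M.φ d), M.τ (M.φ (M.φ d))} : Finset D) = (M.cell d).image M.τ := by
        simp [cell, image_insert]
      rw [this, card_image_of_injective _ M.τ.injective]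
    have hsub : M.cell d ∪ {M.τ d, M.τ (M.φ d), M.τ (M.φ (M.φ d))} ⊆ M.DK K \ M.C := by
      intro x hx
      simp only [mem_union, mem_insert, mem_singleton] at hx
      simp only [mem_sdiff]
      rcases hx with hx | rfl | rfl | rfl
      · refine ⟨hcsub hx, ?_⟩
        simp only [cell, mem_insert, mem_singleton] at hx
        rcases hx with rfl | rfl | rfl
        · exact h1
        · exact h2
        · exact h3
      · exact ⟨k1, fun h => h1 (M.C_τ_iff.1 h)⟩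
      · exact ⟨k2, fun h => h2 (M.C_τ_iff.1 h)⟩
      · exact ⟨k3, fun h => h3 (M.C_τ_iff.1 h)⟩
    have hcd : (M.cell d ∪ {M.τ d, M.τ (M.φ d), M.τ (M.φ (M.φ d))} : Finset D).card = 6 := by
      rw [card_union_of_disjoint, hcard3, hT]
      rw [disjoint_right]
      intro x hx
      simp only [mem_insert, mem_singleton] at hx
      rcases hx with rfl | rfl | rfl
      · exact o1
      · exact o2
      · exact o3
    have heq := eq_of_subset_of_card_le hsub (by rw [hcd]; exact hN6)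
    intro x hx hxC hxd
    have : x ∈ M.cell d ∪ {M.τ d, M.τ (M.φ d), M.τ (M.φ (M.φ d))} := by
      rw [heq]; exact mem_sdiff.2 ⟨hx, hxC⟩
    simp only [mem_union, mem_insert, mem_singleton] at this
    rcases this with h | h
    · exact absurd h hxd
    · exact h
  -- no other noncontact dart in the cell of `τ d`
  have hfin : ∀ x ∈ M.cell (M.τ d), x ≠ M.τ d → x ∈ M.C := by
    intro x hx hne
    by_contra hxC
    have hxd : x ∉ M.cell d := fun h => disjoint_left.1 hdisj h hx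
    have h4 := hall x (M.cell_subset k1 hx) hxC hxd
    have key : ∀ y ∈ M.cell d, y ∉ M.C → y ≠ d → M.τ y ∈ M.cell (M.τ d) → False := by
      intro y hy hyC hyd hτy
      have hsub : ({d, M.τ d, y, M.τ y} : Finset D) ⊆ M.intl (M.cell d ∪ M.cell (M.τ d)) := by
        intro z hz
        simp only [mem_insert, mem_singleton] at hz
        simp only [intl, mem_filter, mem_union]
        rcases hz with rfl | rfl | rfl | rfl
        · exact ⟨Or.inl m1, h1, Or.inr (M.mem_cell_self _)⟩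
        · exact ⟨Or.inr (M.mem_cell_self _), fun h => h1 (M.C_τ_iff.1 h), Or.inl (by rwa [M.τ_inv])⟩
        · exact ⟨Or.inl hy, hyC, Or.inr hτy⟩
        · exact ⟨Or.inr hτy, fun h => hyC (M.C_τ_iff.1 h), Or.inl (by rwa [M.τ_inv])⟩
      have hc4 : ({d, M.τ d, y, M.τ y} : Finset D).card = 4 := by
        have hoy := hout y hy hyC
        rw [card_insert_of_notMem, card_insert_of_notMem, card_insert_of_notMem, card_singleton]
        · simp only [mem_singleton]; rintro h; rw [← h] at hoy; exact hoy hy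
        · simp only [mem_insert, mem_singleton, not_or]
          refine ⟨fun h => ?_, fun h => hyd (M.τ.injective h).symm⟩
          rw [← h] at hy; exact o1 hy
        · simp only [mem_insert, mem_singleton, not_or]
          refine ⟨fun h => ?_, fun h => hyd h.symm, fun h => ?_⟩
          · rw [← h] at o1; exact o1 m1
          · rw [← h] at hoy; exact hoy m1
      have := card_le_card hsub
      omega
    rcases h4 with h4 | h4 | h4
    · exact hne h4
    · exact key _ m2 h2 (M.φ_ne d) (by rw [← h4]; exact hx)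
    · exact key _ m3 h3 (M.φφ_ne hi) (by rw [← h4]; exact hx)
  refine G.small2 d hi hiτ (hfin _ (by simp [cell]) (M.φ_ne _)) (hfin _ (by simp [cell]) (M.φφ_ne hiτ))

end CMap
end Pool.Agent.Helper888
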