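import Pool.Agent.Helper888.Count3
set_option autoImplicit false
open Equiv Finset
open scoped Classical

namespace Pool.Agent.Helper888
namespace CMap
variable {D V : Type} [Fintype D] [Fintype V] (M : CMap D V)

theorem cell_eq {d x : D} (hd : M.inner d) (hx : x ∈ M.cell d) : M.cell x = M.cell d := by
  have h3 := M.φ3' hd
  simp only [cell, mem_insert, mem_singleton] at hx
  rcases hx with rfl | rfl | rfl
  · rfl
  · ext y; simp only [cell, mem_insert, mem_singleton, h3]; tauto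
  · ext y; simp only [cell, mem_insert, mem_singleton, h3]; tauto

theorem inner_cell {d x : D} (hd : M.inner d) (hx : x ∈ M.cell d) : M.inner x := by
  simp only [cell, mem_insert, mem_singleton] at hx
  rcases hx with rfl | rfl | rfl
  · exact hd
  · exact M.inner_φ' hd
  · exact M.inner_φ' (M.inner_φ' hd)

/-- a first noncontact edge between two different cells -/
theorem first_edge {K : Quot M.Mv} (hin : ∀ d ∈ M.DK K, M.inner d) (h : 3 < (M.DK K).card) :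
    ∃ x ∈ M.DK K, x ∉ M.C ∧ M.τ x ∈ M.DK K ∧ M.τ x ∉ M.cell x := by
  have hne : (M.DK K).Nonempty := card_pos.1 (by omega)
  obtain ⟨d, hd⟩ := hne
  have hi := hin d hd
  obtain ⟨x, hx, hxC, hτ, hτK⟩ := M.grow (M.cell_subset hd) ⟨d, M.mem_cell_self d⟩ (M.cell_φ hi)
    (fun x hx hx' => absurd (hin x hx) hx') (by intro he; rw [← he, M.card_cell hi] at h; omega)
  exact ⟨x, M.cell_subset hd hx, hxC, hτK, by rwa [M.cell_eq hi hx]⟩

theorem second_edge {K : Quot M.Mv} (hin : ∀ d ∈ M.DK K, M.inner d) (h : 6 < (M.DK K).card)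
    {x : D} (hx : x ∈ M.DK K) (hτK : M.τ x ∈ M.DK K) :
    ∃ y ∈ M.DK K, y ∉ M.C ∧ M.τ y ∈ M.DK K ∧ M.τ y ∉ M.cell x ∧ M.τ y ∉ M.cell (M.τ x) ∧
      (y ∈ M.cell x ∨ y ∈ M.cell (M.τ x)) := by
  have hi := hin x hx
  have hi' := hin _ hτK
  have hS : M.cell x ∪ M.cell (M.τ x) ⊆ M.DK K :=
    union_subset (M.cell_subset hx) (M.cell_subset hτK)
  obtain ⟨y, hy, hyC, hτ, hτyK⟩ := M.grow hS ⟨x, mem_union_left _ (M.mem_cell_self x)⟩
    (M.union_φ (M.cell_φ hi) hi')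
    (fun x hx hx' => absurd (hin x hx) hx') (by
      intro he
      have := card_union_le (M.cell x) (M.cell (M.τ x))
      rw [he, M.card_cell hi, M.card_cell hi'] at this; omega)
  simp only [mem_union, not_or] at hτ
  exact ⟨y, hS hy, hyC, hτyK, hτ.1, hτ.2, mem_union.1 hy⟩

theorem sum_one {K : Quot M.Mv} {η : ℝ} (G : M.Geo η) (hin : ∀ d ∈ M.DK K, M.inner d)
    (hN : (M.DK K \ M.C).card = 0) (h3 : (M.DK K).card = 3) :
    (∑ c ∈ M.CK K, (⌊M.psi c⌋ : ℝ)) = 0 ∧ M.nb K = 0 := by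
  have hsub : M.DK K ⊆ M.C := sdiff_eq_empty_iff_subset.1 (card_eq_zero.1 hN)
  have hφ : ∀ d ∈ M.DK K, M.φ d ∈ M.DK K := fun d hd => (M.DK_φ K d).2 hd
  constructor
  · apply sum_eq_zero
    intro c hc
    rw [CK_eq] at hc
    have hc := mem_of_mem_inter_left hc
    have hi := hin c hc
    have h1 := hsub hc
    have h2 := hsub (hφ _ hc)
    have h3 := hsub (hφ _ (hφ _ hc))
    have hσ : M.σ c ∈ M.C := by rw [M.σ_eq hi]; exact M.C_τ _ h3
    rw [M.psi_one h1 hσ]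
    have hlt := G.tri c hi h1 h2 h3
    have : ⌊M.g c⌋ = 0 := Int.floor_eq_zero_iff.2 ⟨(M.g_pos c).le, hlt⟩
    rw [this]; simp
  · unfold nb
    rw [card_eq_zero, filter_eq_empty_iff]
    intro c hc
    rw [CK_eq] at hc
    have hc := mem_of_mem_inter_left hc
    simp only [not_not]
    exact Or.inl ⟨hin c hc, hsub hc, hsub (hφ _ hc), hsub (hφ _ (hφ _ hc))⟩

theorem psi_short {x : D} (hi : M.inner x) (h1 : M.φ x ∈ M.C) (h2 : M.φ (M.φ x) ∈ M.C) :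
    M.psi (M.φ (M.φ x)) = M.g (M.φ (M.φ x)) := by
  refine M.psi_one h2 ?_
  rw [M.σ_eq (M.inner_φ' (M.inner_φ' hi)), M.φ3' (M.inner_φ' hi)]
  exact M.C_τ _ h1

theorem psi_long {x : D} (hi : M.inner x) (hi' : M.inner (M.τ x)) (hx : x ∉ M.C)
    (h1 : M.φ x ∈ M.C) (h2 : M.φ (M.φ (M.τ x)) ∈ M.C) :
    M.psi (M.φ x) = M.g (M.φ x) + M.g (M.τ x) := by
  have hσ : M.σ (M.φ x) = M.τ x := M.σφ x
  rw [M.psi_two h1, hσ]
  · rw [hσ]; exact fun h => hx (M.C_τ_iff.1 h)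
  · rw [hσ, M.σ_eq hi']; exact M.C_τ _ h2

theorem floor_le_one {t : ℝ} (h : t < 2) : ⌊t⌋ ≤ 1 := by
  have : ⌊t⌋ < 2 := Int.floor_lt.2 (by exact_mod_cast h)
  omega

theorem sum_two {K : Quot M.Mv} {η : ℝ} (G : M.Geo η) (hin : ∀ d ∈ M.DK K, M.inner d)
    (hN : (M.DK K \ M.C).card = 2) (h6 : (M.DK K).card = 6) :
    ((∑ c ∈ M.CK K, (⌊M.psi c⌋ : ℝ)) ≤ 4 ∧ M.nb K = 0) ∨
    (∑ c ∈ M.CK K, (⌊M.psi c⌋ : ℝ)) ≤ 3 := by
  obtain ⟨x, hx, hxC, hτK, hτ⟩ := M.first_edge hin (by omega)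
  have hi := hin x hx
  have hi' := hin _ hτK
  have hdisj := M.cell_disj (M.cell_φ hi) hτ
  have hDK : M.cell x ∪ M.cell (M.τ x) = M.DK K := by
    refine eq_of_subset_of_card_le (union_subset (M.cell_subset hx) (M.cell_subset hτK)) ?_
    rw [card_union_of_disjoint hdisj, M.card_cell hi, M.card_cell hi']; omega
  have hτxC : M.τ x ∉ M.C := fun h => hxC (M.C_τ_iff.1 h)
  have hxne : x ≠ M.τ x := fun h => hτ (by rw [← h]; exact M.mem_cell_self x)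
  have hNK : ({x, M.τ x} : Finset D) = M.DK K \ M.C := by
    refine eq_of_subset_of_card_le ?_ ?_
    · intro y hy
      simp only [mem_insert, mem_singleton] at hy
      rcases hy with rfl | rfl
      · exact mem_sdiff.2 ⟨hx, hxC⟩
      · exact mem_sdiff.2 ⟨hτK, hτxC⟩
    · rw [card_insert_of_notMem (by simpa using hxne), card_singleton]; omega
  have hC : ∀ y ∈ M.DK K, y ≠ x → y ≠ M.τ x → y ∈ M.C := by
    intro y hy h1 h2
    by_contra hyC
    have : y ∈ ({x, M.τ x} : Finset D) := by rw [hNK]; exact mem_sdiff.2 ⟨hy, hyC⟩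
    simp only [mem_insert, mem_singleton] at this
    tauto
  have a1 : M.φ x ∈ M.cell x := by simp [cell]
  have a2 : M.φ (M.φ x) ∈ M.cell x := by simp [cell]
  have b1 : M.φ (M.τ x) ∈ M.cell (M.τ x) := by simp [cell]
  have b2 : M.φ (M.φ (M.τ x)) ∈ M.cell (M.τ x) := by simp [cell]
  have nd : ∀ {y z}, y ∈ M.cell x → z ∈ M.cell (M.τ x) → y ≠ z := fun hy hz h =>
    disjoint_left.1 hdisj hy (h ▸ hz)
  have A1 : M.φ x ∈ M.C := hC _ (M.cell_subset hx a1) (M.φ_ne x) (nd a1 (M.mem_cell_self _))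
  have A2 : M.φ (M.φ x) ∈ M.C :=
    hC _ (M.cell_subset hx a2) (M.φφ_ne hi) (nd a2 (M.mem_cell_self _))
  have B1 : M.φ (M.τ x) ∈ M.C :=
    hC _ (M.cell_subset hτK b1) (nd (M.mem_cell_self _) b1).symm (M.φ_ne _)
  have B2 : M.φ (M.φ (M.τ x)) ∈ M.C :=
    hC _ (M.cell_subset hτK b2) (nd (M.mem_cell_self _) b2).symm (M.φφ_ne hi')
  have hττ : M.τ (M.τ x) = x := M.τ_inv x
  have hrh := G.rh x hi hi' hxC A1 A2 B1 B2
  have hrh' := G.rh (M.τ x) hi' (by rwa [hττ]) hτxC B1 B2 (by rwa [hττ]) (by rwa [hττ])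
  rw [hττ] at hrh'
  have p1 := M.psi_long hi hi' hxC A1 B2
  have p2 := M.psi_short hi A1 A2
  have p3 := M.psi_long hi' (by rwa [hττ]) hτxC B1 (by rwa [hττ])
  rw [hττ] at p3
  have p4 := M.psi_short hi' B1 B2
  have hCK : M.CK K = ({M.φ x, M.φ (M.φ x)} : Finset D) ∪ {M.φ (M.τ x), M.φ (M.φ (M.τ x))} := by
    rw [CK_eq, ← hDK]
    ext y
    simp only [cell, mem_inter, mem_union, mem_insert, mem_singleton]
    constructor
    · rintro ⟨(rfl | h | h) | (rfl | h | h), hyC⟩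
      · exact absurd hyC hxC
      · exact Or.inl (Or.inl h)
      · exact Or.inl (Or.inr h)
      · exact absurd hyC hτxC
      · exact Or.inr (Or.inl h)
      · exact Or.inr (Or.inr h)
    · rintro ((rfl | rfl) | (rfl | rfl))
      · exact ⟨Or.inl (Or.inr (Or.inl rfl)), A1⟩
      · exact ⟨Or.inl (Or.inr (Or.inr rfl)), A2⟩
      · exact ⟨Or.inr (Or.inr (Or.inl rfl)), B1⟩
      · exact ⟨Or.inr (Or.inr (Or.inr rfl)), B2⟩
  have hdj : Disjoint ({M.φ x, M.φ (M.φ x)} : Finset D) {M.φ (M.τ x), M.φ (M.φ (M.τ x))} := by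
    rw [disjoint_left]
    intro y hy hy'
    simp only [mem_insert, mem_singleton] at hy hy'
    have : y ∈ M.cell x := by rcases hy with rfl | rfl <;> assumption
    have h' : y ∈ M.cell (M.τ x) := by rcases hy' with rfl | rfl <;> assumption
    exact disjoint_left.1 hdisj this h'
  have hsum : (∑ c ∈ M.CK K, (⌊M.psi c⌋ : ℝ)) = (⌊M.psi (M.φ x)⌋ : ℝ) + ⌊M.psi (M.φ (M.φ x))⌋ +
      (⌊M.psi (M.φ (M.τ x))⌋ + ⌊M.psi (M.φ (M.φ (M.τ x)))⌋) := by
    rw [hCK, sum_union hdj, sum_pair (M.φ_ne _).symm, sum_pair (M.φ_ne _).symm]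
  have q1 : ⌊M.psi (M.φ x)⌋ ≤ 1 := floor_le_one (by rw [p1]; exact hrh.2)
  have q2 : ⌊M.psi (M.φ (M.φ x))⌋ ≤ 1 := floor_le_one (by rw [p2]; exact hrh.1)
  have q3 : ⌊M.psi (M.φ (M.τ x))⌋ ≤ 1 := floor_le_one (by rw [p3]; exact hrh'.2)
  have q4 : ⌊M.psi (M.φ (M.φ (M.τ x)))⌋ ≤ 1 := floor_le_one (by rw [p4]; exact hrh'.1)
  by_cases hall : 1 ≤ ⌊M.psi (M.φ x)⌋ ∧ 1 ≤ ⌊M.psi (M.φ (M.φ x))⌋ ∧ 1 ≤ ⌊M.psi (M.φ (M.τ x))⌋ ∧
      1 ≤ ⌊M.psi (M.φ (M.φ (M.τ x)))⌋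
  · left
    obtain ⟨r1, r2, r3, r4⟩ := hall
    constructor
    · rw [hsum]; exact_mod_cast (by omega : _ ≤ (4 : ℤ))
    · have f1 : (1 : ℝ) ≤ M.psi (M.φ x) := by have := Int.le_floor.1 r1; simpa using this
      have f2 : (1 : ℝ) ≤ M.psi (M.φ (M.φ x)) := by have := Int.le_floor.1 r2; simpa using this
      have f3 : (1 : ℝ) ≤ M.psi (M.φ (M.τ x)) := by have := Int.le_floor.1 r3; simpa using this
      have f4 : (1 : ℝ) ≤ M.psi (M.φ (M.φ (M.τ x))) := by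
        have := Int.le_floor.1 r4; simpa using this
      have R1 : M.RB x := ⟨hi, hi', hxC, A1, A2, B1, B2, f1, f2, f3, f4⟩
      have R2 : M.RB (M.τ x) := by
        refine ⟨hi', by rwa [hττ], hτxC, B1, B2, ?_, ?_, f3, f4, ?_, ?_⟩ <;> rw [hττ] <;> assumption
      unfold nb
      rw [card_eq_zero, filter_eq_empty_iff]
      intro c hc
      rw [hCK] at hc
      simp only [mem_union, mem_insert, mem_singleton] at hc
      simp only [not_not]
      right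
      rcases hc with (h | h) | (h | h)
      · exact ⟨x, R1, Or.inl h⟩
      · exact ⟨x, R1, Or.inr h⟩
      · exact ⟨_, R2, Or.inl h⟩
      · exact ⟨_, R2, Or.inr h⟩
  · right
    rw [hsum]
    have : ⌊M.psi (M.φ x)⌋ + ⌊M.psi (M.φ (M.φ x))⌋ + (⌊M.psi (M.φ (M.τ x))⌋ +
      ⌊M.psi (M.φ (M.φ (M.τ x)))⌋) ≤ 3 := by omega
    exact_mod_cast this

end CMap
end Pool.Agent.Helper888
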