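import Pool.Agent.Helper888.Count4
set_option autoImplicit false
open Equiv Finset
open scoped Classical

namespace Pool.Agent.Helper888
namespace CMap
variable {D V : Type} [Fintype D] [Fintype V] (M : CMap D V)

theorem sum_three_aux {K : Quot M.Mv} {η : ℝ} (G : M.Geo η) (hin : ∀ d ∈ M.DK K, M.inner d)
    (hN : (M.DK K \ M.C).card = 4) (h9 : (M.DK K).card = 9) {x : D} (hx : x ∈ M.DK K)
    (hxC : x ∉ M.C) (hyC : M.φ x ∉ M.C) (hτK : M.τ x ∈ M.DK K) (hτ : M.τ x ∉ M.cell x)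
    (hτ'K : M.τ (M.φ x) ∈ M.DK K) (hτ' : M.τ (M.φ x) ∉ M.cell x)
    (hτ'' : M.τ (M.φ x) ∉ M.cell (M.τ x)) :
    (∑ c ∈ M.CK K, (⌊M.psi c⌋ : ℝ)) ≤ 7 := by
  have hi := hin x hx
  have hi' := hin _ hτK
  have hi'' := hin _ hτ'K
  have hdisj := M.cell_disj (M.cell_φ hi) hτ
  have hdisj2 := M.cell_disj (M.union_φ (M.cell_φ hi) hi')
    (d := M.τ (M.φ x)) (by simp only [mem_union, not_or]; exact ⟨hτ', hτ''⟩)
  have hDK : M.cell x ∪ M.cell (M.τ x) ∪ M.cell (M.τ (M.φ x)) = M.DK K := by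
    refine eq_of_subset_of_card_le (union_subset (union_subset (M.cell_subset hx)
      (M.cell_subset hτK)) (M.cell_subset hτ'K)) ?_
    rw [card_union_of_disjoint hdisj2, card_union_of_disjoint hdisj, M.card_cell hi,
      M.card_cell hi', M.card_cell hi'']; omega
  have hτxC : M.τ x ∉ M.C := fun h => hxC (M.C_τ_iff.1 h)
  have hτyC : M.τ (M.φ x) ∉ M.C := fun h => hyC (M.C_τ_iff.1 h)
  have c0 : x ∈ M.cell x := M.mem_cell_self x
  have c1 : M.φ x ∈ M.cell x := by simp [cell]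
  have c2 : M.φ (M.φ x) ∈ M.cell x := by simp [cell]
  have d0 : M.τ x ∈ M.cell (M.τ x) := M.mem_cell_self _
  have d1 : M.φ (M.τ x) ∈ M.cell (M.τ x) := by simp [cell]
  have d2 : M.φ (M.φ (M.τ x)) ∈ M.cell (M.τ x) := by simp [cell]
  have e0 : M.τ (M.φ x) ∈ M.cell (M.τ (M.φ x)) := M.mem_cell_self _
  have e1 : M.φ (M.τ (M.φ x)) ∈ M.cell (M.τ (M.φ x)) := by simp [cell]
  have e2 : M.φ (M.φ (M.τ (M.φ x))) ∈ M.cell (M.τ (M.φ x)) := by simp [cell]
  have nd : ∀ {y z}, y ∈ M.cell x → z ∈ M.cell (M.τ x) → y ≠ z := fun hy hz h =>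
    disjoint_left.1 hdisj hy (h ▸ hz)
  have ne : ∀ {y z}, y ∈ M.cell x → z ∈ M.cell (M.τ (M.φ x)) → y ≠ z := fun hy hz h =>
    disjoint_left.1 hdisj2 (mem_union_left _ hy) (h ▸ hz)
  have de : ∀ {y z}, y ∈ M.cell (M.τ x) → z ∈ M.cell (M.τ (M.φ x)) → y ≠ z := fun hy hz h =>
    disjoint_left.1 hdisj2 (mem_union_right _ hy) (h ▸ hz)
  have hNK : ({x, M.φ x, M.τ x, M.τ (M.φ x)} : Finset D) = M.DK K \ M.C := by
    refine eq_of_subset_of_card_le ?_ ?_
    · intro y hy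
      simp only [mem_insert, mem_singleton] at hy
      rcases hy with rfl | rfl | rfl | rfl
      · exact mem_sdiff.2 ⟨hx, hxC⟩
      · exact mem_sdiff.2 ⟨M.cell_subset hx c1, hyC⟩
      · exact mem_sdiff.2 ⟨hτK, hτxC⟩
      · exact mem_sdiff.2 ⟨hτ'K, hτyC⟩
    · rw [card_insert_of_notMem, card_insert_of_notMem, card_insert_of_notMem, card_singleton]
      · omega
      · simp only [mem_singleton]; exact de d0 e0
      · simp only [mem_insert, mem_singleton, not_or]; exact ⟨nd c1 d0, ne c1 e0⟩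
      · simp only [mem_insert, mem_singleton, not_or]
        exact ⟨(M.φ_ne x).symm, nd c0 d0, ne c0 e0⟩
  have hC : ∀ y ∈ M.DK K, y ≠ x → y ≠ M.φ x → y ≠ M.τ x → y ≠ M.τ (M.φ x) → y ∈ M.C := by
    intro y hy h1 h2 h3 h4
    by_contra hyC
    have : y ∈ ({x, M.φ x, M.τ x, M.τ (M.φ x)} : Finset D) := by
      rw [hNK]; exact mem_sdiff.2 ⟨hy, hyC⟩
    simp only [mem_insert, mem_singleton] at this
    tauto
  have A : M.φ (M.φ x) ∈ M.C := hC _ (M.cell_subset hx c2) (M.φφ_ne hi) (M.φ_ne _)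
    (nd c2 d0) (ne c2 e0)
  have B1 : M.φ (M.τ x) ∈ M.C := hC _ (M.cell_subset hτK d1) (nd c0 d1).symm (nd c1 d1).symm
    (M.φ_ne _) (de d1 e0)
  have B2 : M.φ (M.φ (M.τ x)) ∈ M.C := hC _ (M.cell_subset hτK d2) (nd c0 d2).symm
    (nd c1 d2).symm (M.φφ_ne hi') (de d2 e0)
  have E1 : M.φ (M.τ (M.φ x)) ∈ M.C := hC _ (M.cell_subset hτ'K e1) (ne c0 e1).symm
    (ne c1 e1).symm (de d0 e1).symm (M.φ_ne _)
  have E2 : M.φ (M.φ (M.τ (M.φ x))) ∈ M.C := hC _ (M.cell_subset hτ'K e2) (ne c0 e2).symm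
    (ne c1 e2).symm (de d0 e2).symm (M.φφ_ne hi'')
  have hττ : M.τ (M.τ x) = x := M.τ_inv x
  have hττ' : M.τ (M.τ (M.φ x)) = M.φ x := M.τ_inv _
  -- the corners
  have p1 : M.psi (M.φ (M.τ x)) = M.g (M.φ (M.τ x)) + M.g x := by
    have hσ : M.σ (M.φ (M.τ x)) = x := by rw [M.σφ, hττ]
    rw [M.psi_two B1, hσ]
    · rw [hσ]; exact hxC
    · rw [hσ, M.σ_eq hi]; exact M.C_τ _ A
  have p2 := M.psi_short hi' B1 B2
  have p3 : M.psi (M.φ (M.τ (M.φ x))) = M.g (M.φ (M.τ (M.φ x))) + M.g (M.φ x) + M.g (M.τ x) := by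
    have hσ : M.σ (M.φ (M.τ (M.φ x))) = M.φ x := by rw [M.σφ, hττ']
    have hσ2 : M.σ (M.φ x) = M.τ x := M.σφ x
    rw [M.psi_three E1, hσ, hσ2]
    · rw [hσ]; exact hyC
    · rw [hσ, hσ2]; exact hτxC
    · rw [hσ, hσ2, M.σ_eq hi']; exact M.C_τ _ B2
  have p4 := M.psi_short hi'' E1 E2
  have p5 : M.psi (M.φ (M.φ x)) = M.g (M.φ (M.φ x)) + M.g (M.τ (M.φ x)) := by
    have hσ : M.σ (M.φ (M.φ x)) = M.τ (M.φ x) := M.σφ _
    rw [M.psi_two A, hσ]
    · rw [hσ]; exact hτyC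
    · rw [hσ, M.σ_eq hi'']; exact M.C_τ _ E2
  have hCK : M.CK K = ({M.φ (M.φ x)} : Finset D) ∪ {M.φ (M.τ x), M.φ (M.φ (M.τ x))} ∪
      {M.φ (M.τ (M.φ x)), M.φ (M.φ (M.τ (M.φ x)))} := by
    rw [CK_eq, ← hDK]
    ext y
    simp only [cell, mem_inter, mem_union, mem_insert, mem_singleton]
    constructor
    · rintro ⟨((rfl | rfl | h) | (rfl | h | h)) | (rfl | h | h), hyC'⟩
      · exact absurd hyC' hxC
      · exact absurd hyC' hyC
      · exact Or.inl (Or.inl h)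
      · exact absurd hyC' hτxC
      · exact Or.inl (Or.inr (Or.inl h))
      · exact Or.inl (Or.inr (Or.inr h))
      · exact absurd hyC' hτyC
      · exact Or.inr (Or.inl h)
      · exact Or.inr (Or.inr h)
    · rintro ((rfl | (rfl | rfl)) | (rfl | rfl))
      · exact ⟨Or.inl (Or.inl (Or.inr (Or.inr rfl))), A⟩
      · exact ⟨Or.inl (Or.inr (Or.inr (Or.inl rfl))), B1⟩
      · exact ⟨Or.inl (Or.inr (Or.inr (Or.inr rfl))), B2⟩
      · exact ⟨Or.inr (Or.inr (Or.inl rfl)), E1⟩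
      · exact ⟨Or.inr (Or.inr (Or.inr rfl)), E2⟩
  have hdj : Disjoint ({M.φ (M.φ x)} : Finset D) {M.φ (M.τ x), M.φ (M.φ (M.τ x))} := by
    rw [disjoint_left]
    intro y hy hy'
    simp only [mem_insert, mem_singleton] at hy hy'
    subst hy
    rcases hy' with h | h
    · exact nd c2 d1 h
    · exact nd c2 d2 h
  have hdj2 : Disjoint (({M.φ (M.φ x)} : Finset D) ∪ {M.φ (M.τ x), M.φ (M.φ (M.τ x))})
      {M.φ (M.τ (M.φ x)), M.φ (M.φ (M.τ (M.φ x)))} := by
    rw [disjoint_left]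
    intro y hy hy'
    have h1 : y ∈ M.cell x ∪ M.cell (M.τ x) := by
      simp only [mem_insert, mem_singleton, mem_union] at hy ⊢
      rcases hy with rfl | rfl | rfl
      · exact Or.inl c2
      · exact Or.inr d1
      · exact Or.inr d2
    have h' : y ∈ M.cell (M.τ (M.φ x)) := by
      simp only [mem_insert, mem_singleton] at hy'
      rcases hy' with rfl | rfl <;> assumption
    exact disjoint_left.1 hdisj2 h1 h'
  have hsum : (∑ c ∈ M.CK K, (⌊M.psi c⌋ : ℝ)) = (⌊M.psi (M.φ (M.φ x))⌋ : ℝ) +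
      (⌊M.psi (M.φ (M.τ x))⌋ + ⌊M.psi (M.φ (M.φ (M.τ x)))⌋) +
      (⌊M.psi (M.φ (M.τ (M.φ x)))⌋ + ⌊M.psi (M.φ (M.φ (M.τ (M.φ x))))⌋) := by
    rw [hCK, sum_union hdj2, sum_union hdj, sum_singleton, sum_pair (M.φ_ne _).symm,
      sum_pair (M.φ_ne _).symm]
  have hp := G.pent x hi hi' hi'' hxC hyC A B1 B2 E1 E2
  rw [hsum, p1, p2, p3, p4, p5]
  have : (⌊M.g (M.φ (M.φ x)) + M.g (M.τ (M.φ x))⌋ : ℤ) + (⌊M.g (M.φ (M.τ x)) + M.g x⌋ +
    ⌊M.g (M.φ (M.φ (M.τ x)))⌋) + (⌊M.g (M.φ (M.τ (M.φ x))) + M.g (M.φ x) + M.g (M.τ x)⌋ +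
    ⌊M.g (M.φ (M.φ (M.τ (M.φ x))))⌋) ≤ 7 := by omega
  exact_mod_cast this

theorem sum_three {K : Quot M.Mv} {η : ℝ} (G : M.Geo η) (hin : ∀ d ∈ M.DK K, M.inner d)
    (hN : (M.DK K \ M.C).card = 4) (h9 : (M.DK K).card = 9) :
    (∑ c ∈ M.CK K, (⌊M.psi c⌋ : ℝ)) ≤ 7 := by
  obtain ⟨x, hx, hxC, hτK, hτ⟩ := M.first_edge hin (by omega)
  obtain ⟨y, hy, hyC, hτyK, hτy, hτy', hmem⟩ := M.second_edge hin (by omega) hx hτK
  -- reduce to the case `y ∈ cell x`
  have key : ∀ x y : D, x ∈ M.DK K → x ∉ M.C → M.τ x ∈ M.DK K → M.τ x ∉ M.cell x →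
      y ∈ M.DK K → y ∉ M.C → M.τ y ∈ M.DK K → M.τ y ∉ M.cell x → M.τ y ∉ M.cell (M.τ x) →
      y ∈ M.cell x → (∑ c ∈ M.CK K, (⌊M.psi c⌋ : ℝ)) ≤ 7 := by
    intro x y hx hxC hτK hτ hy hyC hτyK hτy hτy' hmem
    have hi := hin x hx
    have hmem' := hmem
    simp only [cell, mem_insert, mem_singleton] at hmem'
    rcases hmem' with rfl | rfl | rfl
    · exact absurd (M.mem_cell_self _) hτy'
    · exact M.sum_three_aux G hin hN h9 hx hxC hyC hτK hτ hτyK hτy hτy'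
    · -- use `y = φ² x` as the first one; `φ y = x`
      have h3 := M.φ3' hi
      have hce := M.cell_eq hi hmem
      refine M.sum_three_aux G hin hN h9 hy hyC (by rwa [h3]) hτyK (by rwa [hce])
        (by rwa [h3]) (by rwa [h3, hce]) ?_
      rw [h3]
      intro h
      apply hτy'
      rw [M.cell_eq (hin _ hτyK) h]
      exact M.mem_cell_self _
  rcases hmem with hmem | hmem
  · exact key x y hx hxC hτK hτ hy hyC hτyK hτy hτy' hmem
  · have hi := hin x hx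
    refine key (M.τ x) y hτK (fun h => hxC (M.C_τ_iff.1 h)) (by rwa [M.τ_inv]) ?_ hy hyC hτyK hτy'
      (by rwa [M.τ_inv]) hmem
    rw [M.τ_inv]
    intro h
    apply hτ
    rw [M.cell_eq (hin _ hτK) h]
    exact M.mem_cell_self _

/-- The bound for every component. -/
theorem comp_bound {η : ℝ} (G : M.Geo η) (hη : η ≤ 1 / 100) (K : Quot M.Mv)
    (hne : (M.DK K).Nonempty) :
    (∑ c ∈ M.CK K, (⌊M.psi c⌋ : ℝ)) - ∑ d ∈ M.DK K, M.g d ≤
      2 * ((M.DK K \ M.C).card : ℝ) - (((M.DK K).filter fun d => M.inner d).card : ℝ) +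
      η * (((M.DK K).filter fun d => M.inner d).card : ℝ) / 3 -
      ((M.nb K : ℝ) - (((M.DK K).filter fun d => ¬ M.inner d).card : ℝ)) / 7 := by
  have hη0 := G.η0
  have hfl := M.floor_le K
  have hnb := M.nb_le K
  have hcK := M.card_CK K
  have hsplit := card_filter_add_card_filter_not (s := M.DK K) (fun d => M.inner d)
  by_cases hin : ∀ d ∈ M.DK K, M.inner d
  · -- no outer dart
    have hI : (M.DK K).filter (fun d => M.inner d) = M.DK K := filter_true_of_mem hin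
    have hO : (M.DK K).filter (fun d => ¬ M.inner d) = ∅ :=
      filter_false_of_mem (fun d hd => not_not.2 (hin d hd))
    rw [hI, hO]
    simp only [card_empty, Nat.cast_zero, sub_zero]
    obtain ⟨p, hp⟩ := M.three_dvd _ (M.DK K) rfl hin (M.DK_φ K)
    obtain ⟨k, hk⟩ := M.even_N K
    obtain ⟨d, hd⟩ := hne
    have hg := M.count_grow (K := K) _ rfl (M.cell_subset hd) ⟨d, M.mem_cell_self d⟩
      (M.cell_φ (hin d hd)) (fun x hx hx' => absurd (hin x hx) hx')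
    have hs := card_sdiff_add_card_eq_card (M.cell_subset hd)
    rw [M.card_cell (hin d hd)] at hs
    have hk1 : p ≤ k + 1 := by omega
    have hp1 : 1 ≤ p := by omega
    have hAlt := M.A_lt G hin ⟨d, hd⟩
    have hnb' : M.nb K + 2 * k ≤ 3 * p := by omega
    have e1 : ((M.DK K).card : ℝ) = 3 * p := by rw [hp]; push_cast; ring
    have e2 : ((M.DK K \ M.C).card : ℝ) = 2 * k := by rw [hk]; push_cast; ring
    have hnbR : (M.nb K : ℝ) + 2 * k ≤ 3 * p := by exact_mod_cast hnb'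
    have hk1R : (p : ℝ) ≤ k + 1 := by exact_mod_cast hk1
    have hp1R : (1 : ℝ) ≤ p := by exact_mod_cast hp1
    have hηp : 0 ≤ η * (3 * p) / 3 := by positivity
    rw [e1] at hAlt ⊢
    rw [e2]
    by_cases hkp : p ≤ k
    · have hkpR : (p : ℝ) ≤ k := by exact_mod_cast hkp
      linarith
    have hkp' : p = k + 1 := by omega
    have hkpR : (p : ℝ) = k + 1 := by exact_mod_cast hkp'
    by_cases hp5 : 5 ≤ p
    · have hp5R : (5 : ℝ) ≤ p := by exact_mod_cast hp5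
      linarith
    have htree : 3 * (M.DK K \ M.C).card + 6 = 2 * (M.DK K).card := by omega
    have hsb := M.sbound G hin (by omega) htree
    have hA := M.A_ge hsb
    rw [e1] at hA
    have hp4 : p = 1 ∨ p = 2 ∨ p = 3 ∨ p = 4 := by omega
    rcases hp4 with rfl | rfl | rfl | rfl
    · obtain ⟨hF, hnb0⟩ := M.sum_one G hin (by omega) (by omega)
      rw [hF, hnb0]
      have : (k : ℝ) = 0 := by push_cast at hkpR; linarith
      rw [this]; push_cast at *; linarith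
    · have hk' : (k : ℝ) = 1 := by push_cast at hkpR; linarith
      rw [hk'] at *
      rcases M.sum_two G hin (by omega) (by omega) with ⟨hF, hnb0⟩ | hF
      · rw [hnb0]; push_cast at *; linarith
      · push_cast at *; linarith
    · have hk' : (k : ℝ) = 2 := by push_cast at hkpR; linarith
      rw [hk'] at *
      have hF := M.sum_three G hin (by omega) (by omega)
      push_cast at *; linarith
    · have hk' : (k : ℝ) = 3 := by push_cast at hkpR; linarith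
      rw [hk'] at *
      have hF : (∑ c ∈ M.CK K, (⌊M.psi c⌋ : ℝ)) ≤ 11 := by
        have h12 : (∑ c ∈ M.CK K, (⌊M.psi c⌋ : ℝ)) < 12 := by push_cast at *; linarith
        have : (∑ c ∈ M.CK K, ⌊M.psi c⌋) < 12 := by exact_mod_cast h12
        have h11 : (∑ c ∈ M.CK K, ⌊M.psi c⌋) ≤ 11 := by omega
        exact_mod_cast h11
      push_cast at *; linarith
  · -- a component with outer darts
    push Not at hin
    obtain ⟨o, hoK, ho⟩ := hin
    set S := (M.DK K).filter fun d => ¬ M.inner d with hS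
    have hg := M.count_grow (K := K) (S := S) _ rfl (filter_subset _ _)
      ⟨o, by rw [hS, mem_filter]; exact ⟨hoK, ho⟩⟩
      (fun x => by rw [hS, mem_filter, mem_filter, M.inner_φ_iff, M.DK_φ])
      (fun x hx hx' => by rw [hS, mem_filter]; exact ⟨hx, hx'⟩)
    have hsd : M.DK K \ S = (M.DK K).filter fun d => M.inner d := by
      ext d; simp only [hS, mem_sdiff, mem_filter, not_and, not_not]; tauto
    rw [hsd] at hg
    have h1 : 2 * ((M.DK K).filter fun d => M.inner d).card ≤ 3 * (M.DK K \ M.C).card := by omega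
    have h2 : M.nb K + (M.DK K \ M.C).card ≤
        ((M.DK K).filter fun d => M.inner d).card + S.card := by omega
    have h1R : 2 * (((M.DK K).filter fun d => M.inner d).card : ℝ) ≤
      3 * ((M.DK K \ M.C).card : ℝ) := by exact_mod_cast h1
    have h2R : (M.nb K : ℝ) + ((M.DK K \ M.C).card : ℝ) ≤
        (((M.DK K).filter fun d => M.inner d).card : ℝ) + S.card := by exact_mod_cast h2
    have h3 : 0 ≤ η * (((M.DK K).filter fun d => M.inner d).card : ℝ) / 3 := by positivity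
    have h4 : 0 ≤ (((M.DK K).filter fun d => M.inner d).card : ℝ) := by positivity
    linarith

end CMap
end Pool.Agent.Helper888
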