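import Pool.Agent.Helper888.Count5
set_option autoImplicit false
open Equiv Finset
open scoped Classical

namespace Pool.Agent.Helper888
namespace CMap
variable {D V : Type} [Fintype D] [Fintype V] (M : CMap D V)

/-- contact darts at a vertex -/
noncomputable def CV (v : V) : Finset D := M.C.filter fun c => M.tail c = v

/-- a good vertex -/
def GoodV (v : V) : Prop :=
  (∀ c ∈ M.C, M.tail c = v → M.Perf c) ∧ ((M.CV v).card : ℤ) + ∑ c ∈ M.CV v, ⌊M.psi c⌋ = 7

theorem CV_nonempty (v : V) : (M.CV v).Nonempty := by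
  obtain ⟨c, hc, h⟩ := M.surj v
  exact ⟨c, by simp [CV, hc, h]⟩

theorem vertex_ge (v : V) : 7 ≤ ((M.CV v).card : ℤ) + ∑ c ∈ M.CV v, ⌊M.psi c⌋ := by
  have h1 : (6 : ℝ) < ((M.CV v).card : ℝ) + ∑ c ∈ M.CV v, (⌊M.psi c⌋ : ℝ) := by
    have h2 := M.psi_sum_tail v
    have h3 : ∑ c ∈ M.CV v, M.psi c < ∑ c ∈ M.CV v, ((⌊M.psi c⌋ : ℝ) + 1) :=
      sum_lt_sum_of_nonempty (M.CV_nonempty v) (fun c _ => Int.lt_floor_add_one _)
    rw [sum_add_distrib] at h3
    simp only [sum_const, nsmul_eq_mul, mul_one] at h3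
    unfold CV at *
    linarith
  have h4 : (6 : ℤ) < ((M.CV v).card : ℤ) + ∑ c ∈ M.CV v, ⌊M.psi c⌋ := by exact_mod_cast h1
  omega

theorem sum_CV {β : Type*} [AddCommMonoid β] (f : D → β) :
    ∑ v, ∑ c ∈ M.CV v, f c = ∑ c ∈ M.C, f c := by
  unfold CV
  exact sum_fiberwise_of_maps_to (fun _ _ => mem_univ _) f

theorem vertex_sum : 7 * (Fintype.card V : ℤ) +
    ((univ.filter fun v => ((M.CV v).card : ℤ) + ∑ c ∈ M.CV v, ⌊M.psi c⌋ ≠ 7).card : ℤ) ≤
    (M.C.card : ℤ) + ∑ c ∈ M.C, ⌊M.psi c⌋ := by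
  have h1 : (M.C.card : ℤ) + ∑ c ∈ M.C, ⌊M.psi c⌋ =
      ∑ v, (((M.CV v).card : ℤ) + ∑ c ∈ M.CV v, ⌊M.psi c⌋) := by
    rw [sum_add_distrib, M.sum_CV]
    congr 1
    have := M.sum_CV (fun _ => (1 : ℤ))
    simpa using this.symm
  rw [h1, card_filter]
  have h2 : 7 * (Fintype.card V : ℤ) = ∑ _v : V, (7 : ℤ) := by simp [mul_comm]
  rw [h2]
  push_cast
  rw [← sum_add_distrib]
  refine sum_le_sum fun v _ => ?_
  have := M.vertex_ge v
  split_ifs <;> omega

theorem euler : (univ.filter fun d => M.inner d).card +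
    3 * (univ.filter fun d => ¬ M.inner d).card ≤ 6 * Fintype.card V := by
  have h0 : ∑ d ∈ univ.filter (fun d => M.inner d), M.U d +
      ∑ d ∈ univ.filter (fun d => ¬ M.inner d), M.U d = 2 * Fintype.card V := by
    rw [sum_filter_add_sum_filter_not, M.U_sum]
  have h1 : (univ.filter fun d => ¬ M.inner d).card ≤
      ∑ d ∈ univ.filter (fun d => ¬ M.inner d), M.U d := by
    have := card_nsmul_le_sum (univ.filter fun d => ¬ M.inner d) M.U 1
      (fun d hd => M.U_outer d (by simpa using hd))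
    simpa using this
  have h2 : (univ.filter fun d => M.inner d).card ≤
      3 * ∑ d ∈ univ.filter (fun d => M.inner d), M.U d := by
    have hφ : ∀ d, M.φ d ∈ univ.filter (fun d => M.inner d) ↔
        d ∈ univ.filter (fun d => M.inner d) := by
      intro d; simp [M.inner_φ_iff]
    have e : ∀ f : D → ℕ, ∑ d ∈ univ.filter (fun d => M.inner d), f (M.φ d) =
        ∑ d ∈ univ.filter (fun d => M.inner d), f d := by
      intro f
      refine sum_bij (fun d _ => M.φ d) ?_ ?_ ?_ ?_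
      · intro d hd; rwa [hφ]
      · intro a _ b _ h; exact M.φ.injective h
      · intro b hb
        refine ⟨M.φ⁻¹ b, ?_, by simp⟩
        rw [← hφ]; simpa using hb
      · intro _ _; rfl
    have := card_nsmul_le_sum (univ.filter fun d => M.inner d)
      (fun d => M.U d + M.U (M.φ d) + M.U (M.φ (M.φ d))) 1
      (fun d hd => M.U_inner d (by simpa using hd))
    rw [sum_add_distrib, sum_add_distrib, e M.U, e (fun d => M.U (M.φ d)), e M.U] at this
    simp only [smul_eq_mul, mul_one] at this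
    omega
  omega

theorem count {η : ℝ} (G : M.Geo η) (hη : η ≤ 1 / 100) :
    (M.C.card : ℝ) ≤ (5 + 2 * η) * (Fintype.card V : ℝ) -
      ((univ.filter fun v => ¬ M.GoodV v).card : ℝ) / 7 := by
  set S : Finset (Quot M.Mv) := univ.image M.comp with hS
  have hmaps : ∀ (T : Finset D), ∀ d ∈ T, M.comp d ∈ S :=
    fun T d _ => mem_image_of_mem _ (mem_univ d)
  have key : ∑ K ∈ S, ((∑ c ∈ M.CK K, (⌊M.psi c⌋ : ℝ)) - ∑ d ∈ M.DK K, M.g d) ≤
      ∑ K ∈ S, (2 * ((M.DK K \ M.C).card : ℝ) - (((M.DK K).filter fun d => M.inner d).card : ℝ) +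
      η * (((M.DK K).filter fun d => M.inner d).card : ℝ) / 3 -
      ((M.nb K : ℝ) - (((M.DK K).filter fun d => ¬ M.inner d).card : ℝ)) / 7) := by
    refine sum_le_sum fun K hK => ?_
    rw [hS, mem_image] at hK
    obtain ⟨d, _, hd⟩ := hK
    exact M.comp_bound G hη K ⟨d, M.mem_DK.2 hd⟩
  have e1 : ∑ K ∈ S, (∑ c ∈ M.CK K, (⌊M.psi c⌋ : ℝ)) = ∑ c ∈ M.C, (⌊M.psi c⌋ : ℝ) :=
    sum_fiberwise_of_maps_to (hmaps M.C) _
  have e2 : ∑ K ∈ S, ∑ d ∈ M.DK K, M.g d = 6 * Fintype.card V := by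
    have h1 : ∑ K ∈ S, ∑ d ∈ M.DK K, M.g d = ∑ d, M.g d :=
      sum_fiberwise_of_maps_to (hmaps univ) _
    rw [h1, ← sum_fiberwise_of_maps_to (s := univ) (t := univ) (g := M.tail)
      (fun _ _ => mem_univ _)]
    simp only [M.g_sum, sum_const, card_univ, nsmul_eq_mul]
    ring
  have cnt : ∀ (P : D → Prop) [DecidablePred P], ∑ K ∈ S, (((M.DK K).filter P).card : ℝ) =
      ((univ.filter P).card : ℝ) := by
    intro P _
    have : (univ.filter P).card = ∑ K ∈ S, ((univ.filter P).filter fun d => M.comp d = K).card :=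
      card_eq_sum_card_fiberwise (hmaps _)
    rw [this]
    push_cast
    refine sum_congr rfl fun K _ => ?_
    congr 2
    ext d; simp [DK, and_comm]
  have e3 : ∑ K ∈ S, ((M.DK K \ M.C).card : ℝ) = ((univ.filter fun d => d ∉ M.C).card : ℝ) := by
    rw [← cnt (fun d => d ∉ M.C)]
    refine sum_congr rfl fun K _ => ?_
    congr 2
    ext d; simp
  have e4 : ∑ K ∈ S, (M.nb K : ℝ) = ((univ.filter fun d => d ∈ M.C ∧ ¬ M.Perf d).card : ℝ) := by
    rw [← cnt (fun d => d ∈ M.C ∧ ¬ M.Perf d)]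
    refine sum_congr rfl fun K _ => ?_
    unfold nb
    congr 2
    ext d; simp only [CK_eq, mem_filter, mem_inter]; tauto
  have key2 : (∑ c ∈ M.C, (⌊M.psi c⌋ : ℝ)) - 6 * Fintype.card V ≤
      2 * ((univ.filter fun d => d ∉ M.C).card : ℝ) - ((univ.filter fun d => M.inner d).card : ℝ) +
      η * ((univ.filter fun d => M.inner d).card : ℝ) / 3 -
      (((univ.filter fun d => d ∈ M.C ∧ ¬ M.Perf d).card : ℝ) -
        ((univ.filter fun d => ¬ M.inner d).card : ℝ)) / 7 := by
    rw [← e1, ← e2, ← e3, ← e4, ← cnt (fun d => M.inner d), ← cnt (fun d => ¬ M.inner d),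
      ← sum_sub_distrib]
    refine key.trans (le_of_eq ?_)
    rw [sum_sub_distrib, sum_add_distrib, sum_sub_distrib, ← mul_sum, ← sum_div, ← mul_sum,
      ← sum_div, sum_sub_distrib]
  have hD1 : (univ.filter fun d => d ∉ M.C).card + M.C.card = Fintype.card D := by
    have := card_filter_add_card_filter_not (s := (univ : Finset D)) (fun d => d ∈ M.C)
    simp only [filter_univ_mem] at this
    rw [← card_univ]; omega
  have hD2 : (univ.filter fun d => M.inner d).card + (univ.filter fun d => ¬ M.inner d).card =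
      Fintype.card D := by
    rw [card_filter_add_card_filter_not, card_univ]
  have heu := M.euler
  have hv := M.vertex_sum
  have hB : (univ.filter fun v => ¬ M.GoodV v).card ≤
      (univ.filter fun v => ((M.CV v).card : ℤ) + ∑ c ∈ M.CV v, ⌊M.psi c⌋ ≠ 7).card +
      (univ.filter fun d => d ∈ M.C ∧ ¬ M.Perf d).card := by
    have h1 : (univ.filter fun v => ¬ M.GoodV v) ⊆
        (univ.filter fun v => ((M.CV v).card : ℤ) + ∑ c ∈ M.CV v, ⌊M.psi c⌋ ≠ 7) ∪
        (univ.filter fun d => d ∈ M.C ∧ ¬ M.Perf d).image M.tail := by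
      intro v hv
      simp only [mem_filter, mem_univ, true_and, mem_union, mem_image, GoodV, not_and_or] at hv ⊢
      rcases hv with hv | hv
      · right
        push Not at hv
        obtain ⟨c, hc, h1, h2⟩ := hv
        exact ⟨c, ⟨hc, h2⟩, h1⟩
      · left; exact hv
    exact (card_le_card h1).trans ((card_union_le _ _).trans (Nat.add_le_add_left card_image_le _))
  set b1 := (univ.filter fun v => ((M.CV v).card : ℤ) + ∑ c ∈ M.CV v, ⌊M.psi c⌋ ≠ 7).card
  set NB := (univ.filter fun d => d ∈ M.C ∧ ¬ M.Perf d).card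
  set I := (univ.filter fun d => M.inner d).card
  set H := (univ.filter fun d => ¬ M.inner d).card
  set N := (univ.filter fun d => d ∉ M.C).card
  set b := (univ.filter fun v => ¬ M.GoodV v).card
  have hvR : 7 * (Fintype.card V : ℝ) + b1 ≤ M.C.card + ∑ c ∈ M.C, (⌊M.psi c⌋ : ℝ) := by
    exact_mod_cast hv
  have hD1R : (N : ℝ) + M.C.card = Fintype.card D := by exact_mod_cast hD1
  have hD2R : (I : ℝ) + H = Fintype.card D := by exact_mod_cast hD2
  have heuR : (I : ℝ) + 3 * H ≤ 6 * Fintype.card V := by exact_mod_cast heu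
  have hBR : (b : ℝ) ≤ b1 + NB := by exact_mod_cast hB
  have hI : (0 : ℝ) ≤ I := by positivity
  have hH : (0 : ℝ) ≤ H := by positivity
  have hb1 : (0 : ℝ) ≤ b1 := by positivity
  have hη0 := G.η0
  have h5 : η * (I : ℝ) / 3 ≤ 2 * η * Fintype.card V := by
    have : (I : ℝ) ≤ 6 * Fintype.card V := by linarith
    have := mul_le_mul_of_nonneg_left this hη0
    linarith
  linarith

end CMap
end Pool.Agent.Helper888
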