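import Mathlib

set_option autoImplicit false
open Complex

/-! Basic notions for the average contact degree of hyperbolic disk packings.
A point `z` of the upper half plane is represented by `(X, Y) = (re z, |z|^2)`; geodesics are straight
lines in this chart. -/

namespace Pool.Agent.Helper888

abbrev Pt := ℝ × ℝ
noncomputable section

/-- polarised height form -/
def q (A B : Pt) : ℝ := (A.2 + B.2) / 2 - A.1 * B.1
/-- the height of a point -/
def ht (A : Pt) : ℝ := Real.sqrt (q A A)
/-- hyperbolic cosine of the distance -/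
def ch (A B : Pt) : ℝ := q A B / (ht A * ht B)
/-- orientation -/
def det (A B C : Pt) : ℝ := (B.1 - A.1) * (C.2 - A.2) - (B.2 - A.2) * (C.1 - A.1)
/-- direction of `A` seen from `V` -/
def dir (V A : Pt) : ℂ := ⟨A.2 - V.2 - 2 * V.1 * (A.1 - V.1), -(2 * ht V * (A.1 - V.1))⟩

/-- The hyperbolic angle at `V` between `A` and `B`. -/
def hang (A V B : Pt) : ℝ := InnerProductGeometry.angle (dir V A) (dir V B)

/-- A family of pairwise non-crossing empty segments with end points in `V`. -/
structure Adm (V : Finset Pt) (E : Finset (Pt × Pt)) : Prop where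
  mem : ∀ a b, (a, b) ∈ E → a ∈ V ∧ b ∈ V ∧ a ≠ b
  symm : ∀ a b, (a, b) ∈ E → (b, a) ∈ E
  empty : ∀ a b, (a, b) ∈ E → ∀ c ∈ V, c ∉ openSegment ℝ a b
  noncross : ∀ a b c d, (a, b) ∈ E → (c, d) ∈ E → (c, d) ≠ (a, b) → (c, d) ≠ (b, a) →
    Disjoint (openSegment ℝ a b) (openSegment ℝ c d)

/-- Maximality of such a family. -/
def Maxl (V : Finset Pt) (E : Finset (Pt × Pt)) : Prop :=
  ∀ a ∈ V, ∀ b ∈ V, a ≠ b → (∀ c ∈ V, c ∉ openSegment ℝ a b) →
    (∀ c d, (c, d) ∈ E → (c, d) ≠ (a, b) → (c, d) ≠ (b, a) →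
      Disjoint (openSegment ℝ a b) (openSegment ℝ c d)) →
    (a, b) ∈ E

/-- A set of points of the hyperbolic plane with pairwise distances at least `arccosh c`. -/
structure Packing (V : Finset Pt) (c : ℝ) : Prop where
  pos : ∀ v ∈ V, 0 < q v v
  sep : ∀ a ∈ V, ∀ b ∈ V, a ≠ b → c ≤ ch a b

/-- the angle of the equilateral triangle with side `arccosh c` -/
def alf (c : ℝ) : ℝ := Real.arccos (c / (1 + c))

theorem ht_sq {A : Pt} (h : 0 < q A A) : ht A ^ 2 = q A A := Real.sq_sqrt h.le
theorem ht_pos {A : Pt} (h : 0 < q A A) : 0 < ht A := Real.sqrt_pos.2 h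

theorem dir_im (V A B : Pt) : ((starRingEnd ℂ) (dir V A) * dir V B).im = 2 * ht V * det V A B := by
  simp [dir, det]; ring

theorem dir_re {V : Pt} (hV : 0 < q V V) (A B : Pt) :
    ((starRingEnd ℂ) (dir V A) * dir V B).re = 4 * (q V A * q V B - q V V * q A B) := by
  have h := ht_sq hV
  simp [dir]
  have : 2 * ht V * (A.1 - V.1) * (2 * ht V * (B.1 - V.1)) =
    4 * (ht V ^ 2) * (A.1 - V.1) * (B.1 - V.1) := by ring
  rw [this, h]; unfold q; ring

theorem det_cyc (A B C : Pt) : det A B C = det B C A := by unfold det; ring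
theorem det_swap (A B C : Pt) : det A B C = - det A C B := by unfold det; ring
theorem q_comm (A B : Pt) : q A B = q B A := by unfold q; ring
theorem ch_comm (A B : Pt) : ch A B = ch B A := by unfold ch; rw [q_comm, mul_comm]

/-- Gram determinant identity -/
theorem gram {V A B : Pt} :
    q V V * q A A * q B B + 2 * q V A * q A B * q V B - q V V * q A B ^ 2
      - q A A * q V B ^ 2 - q B B * q V A ^ 2 = det V A B ^ 2 / 4 := by
  unfold q det; ring

end
end Pool.Agent.Helper888
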