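import Pool.Agent.Helper888.Trig
set_option autoImplicit false
open Complex
namespace Pool.Agent.Helper888
noncomputable section

theorem ne_of_ch {A B : Pt} (hA : 0 < q A A) (h : 1 < ch A B) : A ≠ B := by
  rintro rfl
  rw [ch_self hA] at h
  exact lt_irrefl _ h


theorem eq_of_cos {x y : ℝ} (hx : 0 ≤ x) (hx' : x ≤ Real.pi) (hy : 0 ≤ y) (hy' : y ≤ Real.pi)
    (h : Real.cos x = Real.cos y) : x = y :=
  Real.injOn_cos ⟨hx, hx'⟩ ⟨hy, hy'⟩ h

theorem cos_alf {c : ℝ} (hc : 1 < c) : Real.cos (alf c) = c / (1 + c) := by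
  unfold alf
  have h1 : 0 ≤ c / (1 + c) := by positivity
  have h2 : c / (1 + c) ≤ 1 := by
    rw [div_le_one (by linarith)]; linarith
  exact Real.cos_arccos (by linarith) h2

theorem alf_pos {c : ℝ} (hc : 1 < c) : 0 < alf c := by
  unfold alf
  rw [Real.arccos_pos, div_lt_one (by linarith)]
  linarith

theorem alf_lt {c : ℝ} (hc : 1 < c) : alf c < Real.pi / 3 := by
  by_contra hcon
  push Not at hcon
  have h1 : Real.cos (alf c) ≤ Real.cos (Real.pi / 3) := by
    apply Real.cos_le_cos_of_nonneg_of_le_pi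
    · positivity
    · exact Real.arccos_le_pi _
    · exact hcon
  rw [cos_alf hc, Real.cos_pi_div_three, div_le_iff₀ (by linarith)] at h1
  linarith

theorem alf_tan {c : ℝ} (hc : 1 < c) :
    c * (Real.sin (alf c) * Real.sin (alf c / 2)) = Real.cos (alf c) * Real.cos (alf c / 2) := by
  have h1 := cos_alf hc
  have h2 : Real.cos (alf c) = 2 * Real.cos (alf c / 2) ^ 2 - 1 := by
    rw [← Real.cos_two_mul]; congr 1; ring
  have h3 : Real.sin (alf c) = 2 * Real.sin (alf c / 2) * Real.cos (alf c / 2) := by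
    rw [← Real.sin_two_mul]; congr 1; ring
  have h4 := Real.sin_sq_add_cos_sq (alf c / 2)
  have h5 : (1 + c) * Real.cos (alf c) = c := by
    rw [h1]; field_simp
  rw [h3]
  have h6 : c * (2 * Real.sin (alf c / 2) ^ 2) = Real.cos (alf c) := by
    have : 2 * Real.sin (alf c / 2) ^ 2 = 1 - Real.cos (alf c) := by
      rw [h2]; linarith
    rw [this]; linarith
  calc c * (2 * Real.sin (alf c / 2) * Real.cos (alf c / 2) * Real.sin (alf c / 2))
      = (c * (2 * Real.sin (alf c / 2) ^ 2)) * Real.cos (alf c / 2) := by ring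
    _ = _ := by rw [h6]

/-- monotonicity of the tangent relation -/
theorem tan_mono {c u w : ℝ} (hc : 1 < c) (hu' : u ≤ Real.pi / 2) (hw' : w ≤ Real.pi / 2)
    (h : Real.cos u * Real.cos w = c * (Real.sin u * Real.sin w)) (hw : alf c / 2 < w) :
    u < alf c := by
  by_contra hcon
  push Not at hcon
  have ha := alf_pos hc
  have ha' := alf_lt hc
  have hpi := Real.pi_pos
  have s1 : Real.sin (alf c) ≤ Real.sin u :=
    Real.sin_le_sin_of_le_of_le_pi_div_two (by linarith) hu' hcon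
  have s2 : Real.sin (alf c / 2) < Real.sin w :=
    Real.sin_lt_sin_of_lt_of_le_pi_div_two (by linarith) hw' hw
  have c1 : Real.cos u ≤ Real.cos (alf c) :=
    Real.cos_le_cos_of_nonneg_of_le_pi ha.le (by linarith) hcon
  have c2 : Real.cos w ≤ Real.cos (alf c / 2) :=
    Real.cos_le_cos_of_nonneg_of_le_pi (by linarith) (by linarith) hw.le
  have s3 : 0 < Real.sin (alf c) := Real.sin_pos_of_pos_of_lt_pi ha (by linarith)
  have s4 : 0 < Real.sin (alf c / 2) := Real.sin_pos_of_pos_of_lt_pi (by linarith) (by linarith)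
  have c3 : 0 ≤ Real.cos w := Real.cos_nonneg_of_mem_Icc ⟨by linarith, hw'⟩
  have c4 : 0 ≤ Real.cos u := Real.cos_nonneg_of_mem_Icc ⟨by linarith, hu'⟩
  have e := alf_tan hc
  have l1 : Real.sin (alf c) * Real.sin (alf c / 2) < Real.sin u * Real.sin w := by
    calc Real.sin (alf c) * Real.sin (alf c / 2) < Real.sin (alf c) * Real.sin w :=
          mul_lt_mul_of_pos_left s2 s3
      _ ≤ Real.sin u * Real.sin w := mul_le_mul_of_nonneg_right s1 (by linarith)
  have l2 : Real.cos u * Real.cos w ≤ Real.cos (alf c) * Real.cos (alf c / 2) :=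
    mul_le_mul c1 c2 c3 (by linarith)
  have l3 : c * (Real.sin (alf c) * Real.sin (alf c / 2)) < c * (Real.sin u * Real.sin w) :=
    mul_lt_mul_of_pos_left l1 (by linarith)
  linarith

theorem cos_apex {c : ℝ} (hc : 1 < c) {A V B : Pt} (hA : 0 < q A A) (hV : 0 < q V V)
    (hB : 0 < q B B) (h1 : ch V A = c) (h2 : ch V B = c) :
    Real.cos (hang A V B) = (c ^ 2 - ch A B) / (c ^ 2 - 1) := by
  have n1 : A ≠ V := (ne_of_ch hV (by rw [h1]; exact hc)).symm
  have n2 : B ≠ V := (ne_of_ch hV (by rw [h2]; exact hc)).symm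
  rw [cos_hang hV hA hB n1 n2, h1, h2, Real.mul_self_sqrt (by nlinarith)]
  ring

theorem cos_base {c Z : ℝ} (hc : 1 < c) (hZ : 1 < Z) {A V B : Pt} (hA : 0 < q A A)
    (hV : 0 < q V V) (hB : 0 < q B B) (h1 : ch V A = c) (h2 : ch V B = Z) (h3 : ch A B = c) :
    Real.cos (hang A V B) = (c * Z - c) / (Real.sqrt (c ^ 2 - 1) * Real.sqrt (Z ^ 2 - 1)) := by
  have n1 : A ≠ V := (ne_of_ch hV (by rw [h1]; exact hc)).symm
  have n2 : B ≠ V := (ne_of_ch hV (by rw [h2]; exact hZ)).symm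
  rw [cos_hang hV hA hB n1 n2, h1, h2, h3]


theorem gram_ch {V A B : Pt} (hV : 0 < q V V) (hA : 0 < q A A) (hB : 0 < q B B)
    (hne : det V A B ≠ 0) :
    0 < 1 + 2 * ch V A * ch A B * ch V B - ch A B ^ 2 - ch V B ^ 2 - ch V A ^ 2 := by
  have g := @gram V A B
  have e1 : q V A = ch V A * (ht V * ht A) := by
    unfold ch; have := ht_pos hV; have := ht_pos hA; field_simp
  have e2 : q A B = ch A B * (ht A * ht B) := by
    unfold ch; have := ht_pos hA; have := ht_pos hB; field_simp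
  have e3 : q V B = ch V B * (ht V * ht B) := by
    unfold ch; have := ht_pos hV; have := ht_pos hB; field_simp
  rw [e1, e2, e3, ← ht_sq hV, ← ht_sq hA, ← ht_sq hB] at g
  have hpos : 0 < (ht V * ht A * ht B) ^ 2 := by
    have := ht_pos hV; have := ht_pos hA; have := ht_pos hB; positivity
  have hd : 0 < det V A B ^ 2 / 4 := by positivity
  have e4 : (ht V * ht A * ht B) ^ 2 *
      (1 + 2 * ch V A * ch A B * ch V B - ch A B ^ 2 - ch V B ^ 2 - ch V A ^ 2)
      = det V A B ^ 2 / 4 := by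
    rw [← g]; ring
  rw [← e4] at hd
  exact (pos_iff_pos_of_mul_pos hd).1 hpos

/-- the trigonometric core of the rhombus lemma -/
theorem rhomb_core {c Z x β : ℝ} (hc : 1 < c) (hZ : 1 < Z) (x0 : 0 ≤ x) (x1 : x ≤ Real.pi)
    (β0 : 0 ≤ β) (β1 : β ≤ Real.pi) (hK : 0 < 2 * c ^ 2 - 1 - Z)
    (a1 : Real.cos x = (c ^ 2 - Z) / (c ^ 2 - 1))
    (b1 : Real.cos β = (c * Z - c) / (Real.sqrt (c ^ 2 - 1) * Real.sqrt (Z ^ 2 - 1))) :
    x + 2 * β < Real.pi ∧
    Real.pi - (x + 2 * β) ≤ 2 * Real.arcsin ((c - 1) / (c + 1)) ∧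
    (Real.pi / 3 ≤ 2 * β → x < 2 * alf c) ∧
    (Real.pi / 3 ≤ x → 2 * β < 2 * alf c) := by
  have hpi := Real.pi_pos
  have hc2 : 0 < c ^ 2 - 1 := by nlinarith
  have hZ2 : 0 < Z ^ 2 - 1 := by nlinarith
  have S2 : Real.sqrt (c ^ 2 - 1) ^ 2 = c ^ 2 - 1 := Real.sq_sqrt hc2.le
  have T2 : Real.sqrt (Z ^ 2 - 1) ^ 2 = Z ^ 2 - 1 := Real.sq_sqrt hZ2.le
  have Spos : 0 < Real.sqrt (c ^ 2 - 1) := Real.sqrt_pos.2 hc2
  have Tpos : 0 < Real.sqrt (Z ^ 2 - 1) := Real.sqrt_pos.2 hZ2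
  have cosβpos : 0 < Real.cos β := by
    rw [b1]; apply div_pos
    · nlinarith
    · positivity
  have cosβ2 : Real.cos β ^ 2 = c ^ 2 * (Z - 1) / ((c ^ 2 - 1) * (Z + 1)) := by
    rw [b1, div_pow, mul_pow, S2, T2]
    have h1 : Z ^ 2 - 1 = (Z - 1) * (Z + 1) := by ring
    have h2 : Z - 1 ≠ 0 := by linarith
    have h3 : Z + 1 ≠ 0 := by linarith
    rw [h1]
    field_simp
    try ring
  have sinβ2 : Real.sin β ^ 2 = (2 * c ^ 2 - 1 - Z) / ((c ^ 2 - 1) * (Z + 1)) := by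
    have h := Real.sin_sq_add_cos_sq β
    have h3 : Z + 1 ≠ 0 := by linarith
    have : Real.sin β ^ 2 = 1 - Real.cos β ^ 2 := by linarith
    rw [this, cosβ2]
    field_simp
    ring
  have hcx : Real.cos x = 2 * Real.cos (x / 2) ^ 2 - 1 := by
    rw [← Real.cos_two_mul]; congr 1; ring
  have cosx2 : Real.cos (x / 2) ^ 2 = (2 * c ^ 2 - 1 - Z) / (2 * (c ^ 2 - 1)) := by
    have : Real.cos (x / 2) ^ 2 = (1 + Real.cos x) / 2 := by linarith
    rw [this, a1]
    field_simp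
    ring
  have sinx2 : Real.sin (x / 2) ^ 2 = (Z - 1) / (2 * (c ^ 2 - 1)) := by
    have h := Real.sin_sq_add_cos_sq (x / 2)
    have : Real.sin (x / 2) ^ 2 = 1 - Real.cos (x / 2) ^ 2 := by linarith
    rw [this, cosx2]
    field_simp
    ring
  have cosx0 : 0 ≤ Real.cos (x / 2) := Real.cos_nonneg_of_mem_Icc ⟨by linarith, by linarith⟩
  have sinx0 : 0 ≤ Real.sin (x / 2) := Real.sin_nonneg_of_nonneg_of_le_pi (by linarith) (by linarith)
  have sinβ0 : 0 ≤ Real.sin β := Real.sin_nonneg_of_nonneg_of_le_pi β0 β1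
  have sinx : 0 < Real.sin (x / 2) := by
    rcases sinx0.lt_or_eq with h | h
    · exact h
    · exfalso
      have : 0 < (Z - 1) / (2 * (c ^ 2 - 1)) := div_pos (by linarith) (by linarith)
      rw [← sinx2, ← h] at this
      norm_num at this
  have sinβ : 0 < Real.sin β := by
    rcases sinβ0.lt_or_eq with h | h
    · exact h
    · exfalso
      have : 0 < (2 * c ^ 2 - 1 - Z) / ((c ^ 2 - 1) * (Z + 1)) := by
        apply div_pos hK; apply mul_pos hc2; linarith
      rw [← sinβ2, ← h] at this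
      norm_num at this
  have PQ2 : (Real.cos (x / 2) * Real.cos β) ^ 2 = (c * (Real.sin (x / 2) * Real.sin β)) ^ 2 := by
    rw [mul_pow, mul_pow, mul_pow, cosx2, cosβ2, sinx2, sinβ2]
    have h3 : Z + 1 ≠ 0 := by linarith
    field_simp
  have PQ : Real.cos (x / 2) * Real.cos β = c * (Real.sin (x / 2) * Real.sin β) := by
    have h1 : 0 ≤ Real.cos (x / 2) * Real.cos β := mul_nonneg cosx0 cosβpos.le
    have h2 : 0 ≤ c * (Real.sin (x / 2) * Real.sin β) := by positivity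
    exact (sq_eq_sq₀ h1 h2).1 PQ2
  have β2 : β ≤ Real.pi / 2 := by
    by_contra hcon
    push Not at hcon
    have := Real.cos_nonpos_of_pi_div_two_le_of_le hcon.le (by linarith)
    linarith
  have Qpos : 0 < Real.sin (x / 2) * Real.sin β := mul_pos sinx sinβ
  have cadd : Real.cos (x / 2 + β) = (c - 1) * (Real.sin (x / 2) * Real.sin β) := by
    rw [Real.cos_add, PQ]; ring
  have csub : Real.cos (x / 2 - β) = (c + 1) * (Real.sin (x / 2) * Real.sin β) := by
    rw [Real.cos_sub, PQ]; ring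
  have hsum : x / 2 + β < Real.pi / 2 := by
    by_contra hcon
    push Not at hcon
    have := Real.cos_nonpos_of_pi_div_two_le_of_le hcon (by linarith)
    rw [cadd] at this
    have : 0 < (c - 1) * (Real.sin (x / 2) * Real.sin β) := mul_pos (by linarith) Qpos
    linarith
  have Qle : Real.sin (x / 2) * Real.sin β ≤ 1 / (c + 1) := by
    rw [le_div_iff₀ (by linarith)]
    have := Real.cos_le_one (x / 2 - β)
    rw [csub] at this
    linarith
  refine ⟨by linarith, ?_, ?_, ?_⟩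
  · have h1 : Real.sin (Real.pi / 2 - (x / 2 + β)) ≤ (c - 1) / (c + 1) := by
      rw [Real.sin_pi_div_two_sub, cadd]
      calc (c - 1) * (Real.sin (x / 2) * Real.sin β) ≤ (c - 1) * (1 / (c + 1)) :=
            mul_le_mul_of_nonneg_left Qle (by linarith)
        _ = _ := by ring
    have h2 : Real.pi / 2 - (x / 2 + β) ≤ Real.arcsin ((c - 1) / (c + 1)) := by
      rw [Real.le_arcsin_iff_sin_le']
      · exact h1
      · constructor <;> linarith
    linarith
  · intro h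
    have := tan_mono (u := x / 2) (w := β) hc (by linarith) β2 PQ (by have := alf_lt hc; linarith)
    linarith
  · intro h
    have := tan_mono (u := β) (w := x / 2) hc β2 (by linarith) (by linarith)
      (by have := alf_lt hc; linarith)
    linarith

/-- TARGET 1: rhombus `v a b w` with side `c`, diagonal `va` -/
theorem rhomb {c : ℝ} (hc : 1 < c) {v a b w : Pt} (hv : 0 < q v v) (ha : 0 < q a a)
    (hb : 0 < q b b) (hw : 0 < q w w) (hab : ch a b = c) (hbv : ch b v = c) (hvw : ch v w = c)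
    (hwa : ch w a = c) (hva : c ≤ ch v a) (hne : det v a b ≠ 0) :
    hang v w a = hang v b a ∧ hang v a w = hang b a v ∧ hang a v b = hang b a v ∧
    hang w v a = hang b a v ∧ hang v b a + 2 * hang b a v < Real.pi ∧
    Real.pi - (hang v b a + 2 * hang b a v) ≤ 2 * Real.arcsin ((c - 1) / (c + 1)) ∧
    (Real.pi / 3 ≤ 2 * hang b a v → hang v b a < 2 * alf c) ∧
    (Real.pi / 3 ≤ hang v b a → 2 * hang b a v < 2 * alf c) := by
  set Z := ch v a with hZdef
  have hZ : 1 < Z := lt_of_lt_of_le hc hva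
  have hc2 : 0 < c ^ 2 - 1 := by nlinarith
  have hZ2 : 0 < Z ^ 2 - 1 := by nlinarith
  have hZa : ch a v = Z := by rw [ch_comm]
  have hba : ch b a = c := by rw [ch_comm]; exact hab
  have hvb : ch v b = c := by rw [ch_comm]; exact hbv
  have hwv : ch w v = c := by rw [ch_comm]; exact hvw
  have haw : ch a w = c := by rw [ch_comm]; exact hwa
  have a1 := cos_apex hc hv hb ha hbv hba
  have a2 := cos_apex hc hv hw ha hwv hwa
  have b1 := cos_base hc hZ hb ha hv hab hZa hbv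
  have b2 := cos_base hc hZ hw ha hv haw hZa hwv
  have b3 := cos_base hc hZ hb hv ha hvb hZdef.symm hba
  have b4 := cos_base hc hZ hw hv ha hvw hZdef.symm hwa
  have E1 : hang v w a = hang v b a :=
    eq_of_cos (hang_nonneg _ _ _) (hang_le_pi _ _ _) (hang_nonneg _ _ _) (hang_le_pi _ _ _)
      (by rw [a1, a2])
  have E2 : hang v a w = hang b a v := by
    rw [hang_comm]
    exact eq_of_cos (hang_nonneg _ _ _) (hang_le_pi _ _ _) (hang_nonneg _ _ _) (hang_le_pi _ _ _)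
      (by rw [b1, b2])
  have E3 : hang a v b = hang b a v := by
    rw [hang_comm]
    exact eq_of_cos (hang_nonneg _ _ _) (hang_le_pi _ _ _) (hang_nonneg _ _ _) (hang_le_pi _ _ _)
      (by rw [b1, b3])
  have E4 : hang w v a = hang b a v :=
    eq_of_cos (hang_nonneg _ _ _) (hang_le_pi _ _ _) (hang_nonneg _ _ _) (hang_le_pi _ _ _)
      (by rw [b1, b4])
  set x := hang v b a with hx
  set β := hang b a v with hβ
  have x0 : 0 ≤ x := hang_nonneg _ _ _
  have x1 : x ≤ Real.pi := hang_le_pi _ _ _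
  have β0 : 0 ≤ β := hang_nonneg _ _ _
  have β1 : β ≤ Real.pi := hang_le_pi _ _ _
  have hpi := Real.pi_pos
  have K := gram_ch hv ha hb hne
  rw [← hZdef, hab, hvb] at K
  have hK : 0 < 2 * c ^ 2 - 1 - Z := by
    have : 0 < (Z - 1) * (2 * c ^ 2 - 1 - Z) := by nlinarith
    exact (pos_iff_pos_of_mul_pos this).1 (by linarith)
  exact ⟨E1, E2, E3, E4, rhomb_core hc hZ x0 x1 β0 β1 hK a1 b1⟩

/-- TARGET 2: two adjacent angles of an equilateral pentagon are not both at least 120 degrees -/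
theorem pent_adj {c : ℝ} (hc : 1 < c) {p₀ p₁ p₂ p₃ p₄ : Pt} (h0 : 0 < q p₀ p₀) (h1 : 0 < q p₁ p₁)
    (h2 : 0 < q p₂ p₂) (h3 : 0 < q p₃ p₃) (h4 : 0 < q p₄ p₄) (h01 : ch p₀ p₁ = c)
    (h12 : ch p₁ p₂ = c) (h23 : ch p₂ p₃ = c) (h34 : ch p₃ p₄ = c) (h40 : ch p₄ p₀ = c) :
    ¬ (2 * Real.pi / 3 ≤ hang p₀ p₁ p₂ ∧ 2 * Real.pi / 3 ≤ hang p₁ p₂ p₃) := by
  rintro ⟨hA, hB⟩
  have hpi := Real.pi_pos
  have hc2 : 0 < c ^ 2 - 1 := by nlinarith
  have h10 : ch p₁ p₀ = c := by rw [ch_comm]; exact h01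
  have h21 : ch p₂ p₁ = c := by rw [ch_comm]; exact h12
  have h32 : ch p₃ p₂ = c := by rw [ch_comm]; exact h23
  have h43 : ch p₄ p₃ = c := by rw [ch_comm]; exact h34
  have a1 := cos_apex hc h0 h1 h2 h10 h12
  have n02 : p₀ ≠ p₂ := by
    rintro rfl
    rw [ch_self h0] at a1
    have : Real.cos (hang p₀ p₁ p₀) ≤ Real.cos (2 * Real.pi / 3) :=
      Real.cos_le_cos_of_nonneg_of_le_pi (by positivity) (hang_le_pi _ _ _) hA
    rw [a1, div_self hc2.ne'] at this
    have h3 : Real.cos (2 * Real.pi / 3) = - (1 / 2) := by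
      have : 2 * Real.pi / 3 = Real.pi - Real.pi / 3 := by ring
      rw [this, Real.cos_pi_sub, Real.cos_pi_div_three]
    linarith
  set Z := ch p₀ p₂ with hZdef
  have hZ : 1 < Z := one_lt_ch h0 h2 n02
  have h20 : ch p₂ p₀ = Z := by rw [ch_comm]
  have hcos : Real.cos (2 * Real.pi / 3) = - (1 / 2) := by
    have : 2 * Real.pi / 3 = Real.pi - Real.pi / 3 := by ring
    rw [this, Real.cos_pi_sub, Real.cos_pi_div_three]
  have Zge : (3 * c ^ 2 - 1) / 2 ≤ Z := by
    have : Real.cos (hang p₀ p₁ p₂) ≤ Real.cos (2 * Real.pi / 3) :=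
      Real.cos_le_cos_of_nonneg_of_le_pi (by positivity) (hang_le_pi _ _ _) hA
    rw [a1, hcos, div_le_iff₀ hc2] at this
    linarith
  have hZ2 : 0 < Z ^ 2 - 1 := by nlinarith
  have S2 : Real.sqrt (c ^ 2 - 1) ^ 2 = c ^ 2 - 1 := Real.sq_sqrt hc2.le
  have T2 : Real.sqrt (Z ^ 2 - 1) ^ 2 = Z ^ 2 - 1 := Real.sq_sqrt hZ2.le
  have Spos : 0 < Real.sqrt (c ^ 2 - 1) := Real.sqrt_pos.2 hc2
  have Tpos : 0 < Real.sqrt (Z ^ 2 - 1) := Real.sqrt_pos.2 hZ2
  have b1 := cos_base hc hZ h1 h2 h0 h21 h20 h10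
  have cosβpos : 0 < Real.cos (hang p₁ p₂ p₀) := by
    rw [b1]; apply div_pos
    · nlinarith
    · positivity
  have cosβ2 : Real.cos (hang p₁ p₂ p₀) ^ 2 = c ^ 2 * (Z - 1) / ((c ^ 2 - 1) * (Z + 1)) := by
    rw [b1, div_pow, mul_pow, S2, T2]
    have h1 : Z ^ 2 - 1 = (Z - 1) * (Z + 1) := by ring
    have h2 : Z - 1 ≠ 0 := by linarith
    have h3 : Z + 1 ≠ 0 := by linarith
    rw [h1]
    field_simp
    try ring
  have cosβge : 3 / 4 ≤ Real.cos (hang p₁ p₂ p₀) ^ 2 := by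
    rw [cosβ2, le_div_iff₀ (by nlinarith)]
    nlinarith [mul_le_mul_of_nonneg_right Zge (by positivity : (0:ℝ) ≤ c ^ 2 + 3),
      sq_nonneg (c ^ 2 - 1)]
  have hβ : hang p₁ p₂ p₀ ≤ Real.pi / 6 := by
    by_contra hcon
    push Not at hcon
    have h1 : Real.cos (hang p₁ p₂ p₀) < Real.cos (Real.pi / 6) :=
      Real.cos_lt_cos_of_nonneg_of_le_pi (by positivity) (hang_le_pi _ _ _) hcon
    rw [Real.cos_pi_div_six] at h1
    have h2 : Real.cos (hang p₁ p₂ p₀) ^ 2 < (Real.sqrt 3 / 2) ^ 2 :=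
      pow_lt_pow_left₀ h1 cosβpos.le (by norm_num)
    rw [div_pow, Real.sq_sqrt (by norm_num)] at h2
    linarith
  have htri : hang p₁ p₂ p₃ ≤ hang p₁ p₂ p₀ + hang p₀ p₂ p₃ :=
    InnerProductGeometry.angle_le_angle_add_angle _ _ _
  have hge : Real.pi / 2 ≤ hang p₀ p₂ p₃ := by linarith
  have hcle : Real.cos (hang p₀ p₂ p₃) ≤ 0 :=
    Real.cos_nonpos_of_pi_div_two_le_of_le hge (by have := hang_le_pi p₀ p₂ p₃; linarith)
  have n32 : p₃ ≠ p₂ := ne_of_ch h3 (by rw [h32]; exact hc)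
  rw [cos_hang h2 h0 h3 n02 n32, h20, h23] at hcle
  have hden : 0 < Real.sqrt (Z ^ 2 - 1) * Real.sqrt (c ^ 2 - 1) := by positivity
  have hW : Z * c ≤ ch p₀ p₃ := by
    by_contra hcon
    push Not at hcon
    have : 0 < (Z * c - ch p₀ p₃) / (Real.sqrt (Z ^ 2 - 1) * Real.sqrt (c ^ 2 - 1)) :=
      div_pos (by linarith) hden
    linarith
  have a4 := cos_apex hc h0 h4 h3 h40 h43
  have hW2 : ch p₀ p₃ ≤ 2 * c ^ 2 - 1 := by
    have := Real.neg_one_le_cos (hang p₀ p₄ p₃)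
    rw [a4, le_div_iff₀ hc2] at this
    linarith
  have : (3 * c ^ 2 - 1) / 2 * c ≤ Z * c := mul_le_mul_of_nonneg_right Zge (by linarith)
  have h5 : 0 < (c - 1) ^ 2 * (3 * c + 2) := by
    have : 0 < c - 1 := by linarith
    positivity
  have h6 : (3 * c ^ 2 - 1) / 2 * c - (2 * c ^ 2 - 1) = (c - 1) ^ 2 * (3 * c + 2) / 2 := by ring
  linarith

/-- TARGET 3: limits as `c` tends to `1` -/
theorem numerics (ε : ℝ) (hε : 0 < ε) : ∃ c₁ : ℝ, 1 < c₁ ∧ ∀ c : ℝ, 1 < c → c < c₁ →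
    Real.pi / 3 - ε < alf c ∧ alf c < Real.pi / 3 ∧ 2 * Real.arcsin ((c - 1) / (c + 1)) < ε ∧
    2 * Real.arcsin (Real.sqrt ((c - 1) / 2)) < ε ∧ 2 * Real.arcsin (Real.sqrt (c ^ 2 - 1)) < ε := by
  have e1 : ∀ᶠ c in nhds (1:ℝ), Real.pi / 3 - ε < alf c := by
    have hcont : ContinuousAt alf 1 := by
      unfold alf
      apply Real.continuous_arccos.continuousAt.comp
      apply ContinuousAt.div continuousAt_id (by fun_prop) (by norm_num)
    have hval : alf 1 = Real.pi / 3 := by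
      unfold alf
      have : (1:ℝ) / (1 + 1) = Real.cos (Real.pi / 3) := by
        rw [Real.cos_pi_div_three]; norm_num
      rw [this, Real.arccos_cos (by positivity) (by linarith [Real.pi_pos])]
    have := hcont.eventually (lt_mem_nhds (a := Real.pi / 3 - ε) (b := alf 1) (by rw [hval]; linarith))
    exact this
  have e2 : ∀ᶠ c in nhds (1:ℝ), 2 * Real.arcsin ((c - 1) / (c + 1)) < ε := by
    have hcont : ContinuousAt (fun c : ℝ => 2 * Real.arcsin ((c - 1) / (c + 1))) 1 := by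
      apply ContinuousAt.mul continuousAt_const
      apply ContinuousAt.comp (g := Real.arcsin) Real.continuous_arcsin.continuousAt
      apply ContinuousAt.div (by fun_prop) (by fun_prop) (by norm_num)
    exact hcont.eventually (gt_mem_nhds (by norm_num; exact hε))
  have e3 : ∀ᶠ c in nhds (1:ℝ), 2 * Real.arcsin (Real.sqrt ((c - 1) / 2)) < ε := by
    have hcont : Continuous (fun c : ℝ => 2 * Real.arcsin (Real.sqrt ((c - 1) / 2))) := by
      apply Continuous.mul continuous_const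
      apply Real.continuous_arcsin.comp
      fun_prop
    exact hcont.continuousAt.eventually (gt_mem_nhds (by norm_num; exact hε))
  have e4 : ∀ᶠ c in nhds (1:ℝ), 2 * Real.arcsin (Real.sqrt (c ^ 2 - 1)) < ε := by
    have hcont : Continuous (fun c : ℝ => 2 * Real.arcsin (Real.sqrt (c ^ 2 - 1))) := by
      apply Continuous.mul continuous_const
      apply Real.continuous_arcsin.comp
      fun_prop
    exact hcont.continuousAt.eventually (gt_mem_nhds (by norm_num; exact hε))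
  obtain ⟨δ, hδ, H⟩ := Metric.eventually_nhds_iff.1 (e1.and (e2.and (e3.and e4)))
  refine ⟨1 + δ, by linarith, fun c h1 h2 => ?_⟩
  have hd : dist c 1 < δ := by
    rw [Real.dist_eq, abs_of_pos (by linarith)]; linarith
  obtain ⟨g1, g2, g3, g4⟩ := H hd
  exact ⟨g1, alf_lt h1, g2, g3, g4⟩

end
end Pool.Agent.Helper888
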