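import Mathlib
set_option autoImplicit false
set_option linter.unusedVariables false
open Complex Real
namespace Pool.Agent.Helper888

/-- The direction `w` lies in the half-open sector of size `g` starting at the direction of `u`. -/
def Own (u : ℂ) (g : ℝ) (w : ℂ) : Prop :=
  ∃ t : ℝ, 0 ≤ t ∧ t < g ∧ w = Complex.exp (t * I) * (u / (‖u‖ : ℂ))

/-- counterclockwise angle in `(0, 2π]` -/
noncomputable def rotD (x y : ℝ) : ℝ := if x < y then y - x else y - x + 2 * π

theorem rotD_pos {x y : ℝ} (hx : x ≤ π) (hy : -π < y) : 0 < rotD x y := by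
  unfold rotD; split_ifs <;> linarith

theorem rotD_le {x y : ℝ} (hx : -π < x) (hy : y ≤ π) : rotD x y ≤ 2 * π := by
  unfold rotD; split_ifs <;> linarith

theorem rotD_sub {x y z : ℝ} (hx : -π < x) (hx' : x ≤ π) (hy : -π < y) (hy' : y ≤ π)
    (hz : -π < z) (hz' : z ≤ π) (h : rotD x y < rotD x z) : rotD y z = rotD x z - rotD x y := by
  unfold rotD at *; split_ifs at * <;> linarith

theorem rotD_add {x y z : ℝ} (hx : -π < x) (hx' : x ≤ π) (hy : -π < y) (hy' : y ≤ π)
    (hz : -π < z) (hz' : z ≤ π) (h : rotD x y + rotD y z < 2 * π) :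
    rotD x z = rotD x y + rotD y z := by
  unfold rotD at *; split_ifs at * <;> linarith

theorem rotD_inj {x y z : ℝ} (hx : -π < x) (hx' : x ≤ π) (hy : -π < y) (hy' : y ≤ π)
    (hz : -π < z) (hz' : z ≤ π) (h : rotD x y = rotD x z) : y = z := by
  unfold rotD at *; split_ifs at * <;> linarith

theorem rotD_self (x : ℝ) : rotD x x = 2 * π := by
  unfold rotD; simp

theorem rotD_sin (x y : ℝ) : Real.sin (rotD x y) = Real.sin (y - x) := by
  unfold rotD; split_ifs
  · rfl
  · rw [Real.sin_add_two_pi]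

theorem rotD_cos (x y : ℝ) : Real.cos (rotD x y) = Real.cos (y - x) := by
  unfold rotD; split_ifs
  · rfl
  · rw [Real.cos_add_two_pi]

theorem rotD_exp (x y : ℝ) : Complex.exp ((rotD x y : ℝ) * I) * Complex.exp (x * I) =
    Complex.exp (y * I) := by
  unfold rotD; split_ifs
  · rw [← Complex.exp_add]; congr 1; push_cast; ring
  · rw [← Complex.exp_add]
    have : (((y - x + 2 * π : ℝ) : ℂ) * I + x * I) = y * I + 2 * π * I := by push_cast; ring
    rw [this, Complex.exp_add, Complex.exp_two_pi_mul_I, mul_one]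

theorem rot_unit {z : ℂ} (hz : z ≠ 0) : z / (‖z‖ : ℂ) = Complex.exp (z.arg * I) := by
  have h1 : (‖z‖ : ℂ) ≠ 0 := by exact_mod_cast (norm_ne_zero_iff.mpr hz)
  rw [div_eq_iff h1, mul_comm]
  exact (Complex.norm_mul_exp_arg_mul_I z).symm

theorem rot_polar (z w : ℂ) : (starRingEnd ℂ) z * w =
    ((‖z‖ * ‖w‖ : ℝ) : ℂ) * Complex.exp ((w.arg - z.arg : ℝ) * I) := by
  conv_lhs => rw [← Complex.norm_mul_exp_arg_mul_I z, ← Complex.norm_mul_exp_arg_mul_I w]
  rw [map_mul, Complex.conj_ofReal, ← Complex.exp_conj, map_mul, Complex.conj_ofReal, Complex.conj_I]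
  push_cast
  rw [sub_mul, sub_eq_add_neg, Complex.exp_add, mul_neg]
  ring

theorem rot_im (z w : ℂ) : ((starRingEnd ℂ) z * w).im = ‖z‖ * ‖w‖ * Real.sin (w.arg - z.arg) := by
  rw [rot_polar, Complex.im_ofReal_mul, Complex.exp_ofReal_mul_I_im]

theorem rot_re (z w : ℂ) : ((starRingEnd ℂ) z * w).re = ‖z‖ * ‖w‖ * Real.cos (w.arg - z.arg) := by
  rw [rot_polar, Complex.re_ofReal_mul, Complex.exp_ofReal_mul_I_re]

theorem rot_im_pos {z w : ℂ} (hz : z ≠ 0) (hw : w ≠ 0) :
    0 < ((starRingEnd ℂ) z * w).im ↔ rotD z.arg w.arg < π := by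
  have h1 : 0 < ‖z‖ * ‖w‖ := mul_pos (norm_pos_iff.mpr hz) (norm_pos_iff.mpr hw)
  rw [rot_im, mul_pos_iff_of_pos_left h1, ← rotD_sin]
  have hp := rotD_pos (Complex.arg_le_pi z) (Complex.neg_pi_lt_arg w)
  have hl := rotD_le (Complex.neg_pi_lt_arg z) (Complex.arg_le_pi w)
  constructor
  · intro h
    by_contra hcon
    push Not at hcon
    have : Real.sin (rotD z.arg w.arg - π) ≥ 0 :=
      Real.sin_nonneg_of_nonneg_of_le_pi (by linarith) (by linarith)
    rw [Real.sin_sub_pi] at this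
    linarith
  · intro h
    exact Real.sin_pos_of_pos_of_lt_pi hp h

theorem rot_angle {z w : ℂ} (hz : z ≠ 0) (hw : w ≠ 0) (h : rotD z.arg w.arg < π) :
    rotD z.arg w.arg = InnerProductGeometry.angle z w := by
  have h1 : 0 < ‖z‖ * ‖w‖ := mul_pos (norm_pos_iff.mpr hz) (norm_pos_iff.mpr hw)
  have hp := rotD_pos (Complex.arg_le_pi z) (Complex.neg_pi_lt_arg w)
  unfold InnerProductGeometry.angle
  have h2 : inner ℝ z w = ((starRingEnd ℂ) z * w).re := by rw [Complex.inner, mul_comm]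
  rw [h2, rot_re, mul_div_cancel_left₀ _ h1.ne', ← rotD_cos, Real.arccos_cos hp.le h.le]

theorem rot_mod {x y : ℝ} {n : ℤ} (hx : 0 ≤ x) (hx' : x < 2 * π) (hy : 0 ≤ y) (hy' : y < 2 * π)
    (h : x = y + n * (2 * π)) : x = y := by
  have hpi := Real.pi_pos
  have h1 : n < 1 := by
    by_contra hcon
    push Not at hcon
    have : (1 : ℝ) ≤ n := by exact_mod_cast hcon
    nlinarith
  have h2 : -1 < n := by
    by_contra hcon
    push Not at hcon
    have : (n : ℝ) ≤ -1 := by exact_mod_cast hcon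
    nlinarith
  have h3 : n = 0 := by omega
  rw [h3] at h
  simpa using h

/-- ccw angle from x to y in [0, 2π) -/
noncomputable def rotE (x y : ℝ) : ℝ := if x ≤ y then y - x else y - x + 2 * π

theorem rotE_nonneg {x y : ℝ} (hx : x ≤ π) (hy : -π < y) : 0 ≤ rotE x y := by
  unfold rotE; split_ifs <;> linarith

theorem rotE_lt {x y : ℝ} (hx : -π < x) (hy : y ≤ π) : rotE x y < 2 * π := by
  unfold rotE; split_ifs <;> linarith

theorem rotE_exp (x y : ℝ) : Complex.exp ((rotE x y : ℝ) * I) * Complex.exp (x * I) =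
    Complex.exp (y * I) := by
  unfold rotE; split_ifs
  · rw [← Complex.exp_add]; congr 1; push_cast; ring
  · rw [← Complex.exp_add]
    have : (((y - x + 2 * π : ℝ) : ℂ) * I + x * I) = y * I + 2 * π * I := by push_cast; ring
    rw [this, Complex.exp_add, Complex.exp_two_pi_mul_I, mul_one]

/-- a real number in `[0, 2π)` is determined by its exponential -/
theorem rotE_unique {x y t : ℝ} (hx : -π < x) (hx' : x ≤ π) (hy : -π < y) (hy' : y ≤ π)
    (ht : 0 ≤ t) (ht' : t < 2 * π)
    (h : Complex.exp (y * I) = Complex.exp (t * I) * Complex.exp (x * I)) : t = rotE x y := by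
  rw [← rotE_exp x y] at h
  have h1 : Complex.exp ((rotE x y : ℝ) * I) = Complex.exp (t * I) :=
    mul_right_cancel₀ (Complex.exp_ne_zero _) h
  rw [Complex.exp_eq_exp_iff_exists_int] at h1
  obtain ⟨n, hn⟩ := h1
  have h2 : ((rotE x y : ℝ) : ℂ) = ((t + n * (2 * π) : ℝ) : ℂ) := by
    have h3 : ((rotE x y : ℝ) : ℂ) * I = ((t + n * (2 * π) : ℝ) : ℂ) * I := by
      rw [hn]; push_cast; ring
    exact mul_right_cancel₀ Complex.I_ne_zero h3
  have h3 : rotE x y = t + n * (2 * π) := by exact_mod_cast h2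
  exact (rot_mod (rotE_nonneg hx' hy) (rotE_lt hx hy') ht ht' h3).symm

theorem rotE_sub {x y z : ℝ} (hx : -π < x) (hx' : x ≤ π) (hy : -π < y) (hy' : y ≤ π)
    (hz : -π < z) (hz' : z ≤ π) (h : rotD x y ≤ rotE x z) : rotE y z = rotE x z - rotD x y := by
  unfold rotD rotE at *; split_ifs at * <;> linarith

theorem rotE_diff {x y z : ℝ} (hx : -π < x) (hx' : x ≤ π) (hy : -π < y) (hy' : y ≤ π)
    (hz : -π < z) (hz' : z ≤ π) (hxy : x ≠ y) (h : rotE x z ≤ rotE y z) :
    rotD y x = rotE y z - rotE x z := by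
  unfold rotD rotE at *
  rcases lt_or_gt_of_ne hxy with h1 | h1
  · split_ifs at * <;> linarith
  · split_ifs at * <;> linarith

theorem own_iff {u w : ℂ} {g : ℝ} (hu : u ≠ 0) (hw : ‖w‖ = 1) (hg : g ≤ 2 * π) :
    Own u g w ↔ rotE u.arg w.arg < g := by
  have hw0 : w ≠ 0 := by
    intro h; rw [h, norm_zero] at hw; norm_num at hw
  have hwe : w = Complex.exp (w.arg * I) := by
    rw [← rot_unit hw0, hw]; simp
  unfold Own
  rw [rot_unit hu]
  constructor
  · rintro ⟨t, ht, htg, h⟩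
    rw [hwe] at h
    rw [← rotE_unique (Complex.neg_pi_lt_arg u) (Complex.arg_le_pi u) (Complex.neg_pi_lt_arg w)
      (Complex.arg_le_pi w) ht (lt_of_lt_of_le htg hg) h]
    exact htg
  · intro h
    refine ⟨rotE u.arg w.arg, rotE_nonneg (Complex.arg_le_pi u) (Complex.neg_pi_lt_arg w), h, ?_⟩
    rw [rotE_exp]
    exact hwe

/-- cyclic order of finitely many directions -/
theorem rotation {α : Type*} [DecidableEq α] (N : Finset α) (hN : N.Nonempty) (u : α → ℂ)
    (h0 : ∀ a ∈ N, u a ≠ 0) (hinj : ∀ a ∈ N, ∀ b ∈ N, (u a).arg = (u b).arg → a = b) :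
    ∃ (nx : α → α) (gap : α → ℝ),
      Set.BijOn nx (N : Set α) (N : Set α) ∧
      (∀ a ∈ N, 0 < gap a) ∧
      (∑ a ∈ N, gap a = 2 * π) ∧
      (∀ a ∈ N, ∀ b ∈ N, ∃ k : ℕ, nx^[k] a = b) ∧
      (∀ a ∈ N, u (nx a) / (‖u (nx a)‖ : ℂ) = Complex.exp (gap a * I) * (u a / (‖u a‖ : ℂ))) ∧
      (∀ a ∈ N, gap a < π → 0 < ((starRingEnd ℂ) (u a) * u (nx a)).im ∧
        gap a = InnerProductGeometry.angle (u a) (u (nx a)) ∧
        ∀ c ∈ N, ¬ (0 < ((starRingEnd ℂ) (u a) * u c).im ∧
          0 < ((starRingEnd ℂ) (u c) * u (nx a)).im)) ∧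
      (∀ a ∈ N, ∀ b ∈ N, 0 < ((starRingEnd ℂ) (u a) * u b).im →
        (∀ c ∈ N, ¬ (0 < ((starRingEnd ℂ) (u a) * u c).im ∧
          0 < ((starRingEnd ℂ) (u c) * u b).im)) → nx a = b ∧ gap a < π) ∧
      (∀ w : ℂ, ‖w‖ = 1 → ∃! a, a ∈ N ∧ Own (u a) (gap a) w) := by
  classical
  have hpi := Real.pi_pos
  set θ : α → ℝ := fun a => (u a).arg with hθ
  have t1 : ∀ a, -π < θ a := fun a => Complex.neg_pi_lt_arg _
  have t2 : ∀ a, θ a ≤ π := fun a => Complex.arg_le_pi _
  have hex : ∀ a, ∃ b ∈ N, ∀ c ∈ N, rotD (θ a) (θ b) ≤ rotD (θ a) (θ c) := fun a =>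
    Finset.exists_min_image N (fun b => rotD (θ a) (θ b)) hN
  choose nx hnxN hnxm using hex
  set gap : α → ℝ := fun a => rotD (θ a) (θ (nx a)) with hgap
  have gpos : ∀ a, 0 < gap a := fun a => rotD_pos (t2 _) (t1 _)
  have gle : ∀ a, gap a ≤ 2 * π := fun a => rotD_le (t1 _) (t2 _)
  have gmin : ∀ a, ∀ c ∈ N, gap a ≤ rotD (θ a) (θ c) := hnxm
  -- stepping
  have hstep : ∀ a b, b ∈ N → nx a ≠ b →
      gap a < rotD (θ a) (θ b) ∧ rotD (θ (nx a)) (θ b) = rotD (θ a) (θ b) - gap a := by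
    intro a b hb hne
    have h1 : gap a < rotD (θ a) (θ b) := by
      rcases lt_or_eq_of_le (gmin a b hb) with h | h
      · exact h
      · exact absurd (hinj _ (hnxN a) _ hb (rotD_inj (t1 a) (t2 a) (t1 _) (t2 _) (t1 _) (t2 _) h)) hne
    exact ⟨h1, rotD_sub (t1 _) (t2 _) (t1 _) (t2 _) (t1 _) (t2 _) h1⟩
  have htrans : ∀ m : ℕ, ∀ a b, b ∈ N →
      (N.filter (fun c => rotD (θ a) (θ c) ≤ rotD (θ a) (θ b))).card = m →
      ∃ k : ℕ, nx^[k + 1] a = b := by
    intro m
    induction m using Nat.strong_induction_on with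
    | _ m ih =>
      intro a b hb hm
      by_cases hne : nx a = b
      · exact ⟨0, by simpa using hne⟩
      obtain ⟨h1, h2⟩ := hstep a b hb hne
      have hlt : (N.filter (fun c => rotD (θ (nx a)) (θ c) ≤ rotD (θ (nx a)) (θ b))).card < m := by
        rw [← hm]
        apply Finset.card_lt_card
        rw [Finset.ssubset_iff_of_subset]
        · refine ⟨nx a, ?_, ?_⟩
          · rw [Finset.mem_filter]
            exact ⟨hnxN a, h1.le⟩
          · rw [Finset.mem_filter, not_and]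
            intro _ h3
            rw [rotD_self, h2] at h3
            have h4 := gpos a
            have h5 : rotD (θ a) (θ b) ≤ 2 * π := rotD_le (t1 _) (t2 _)
            linarith
        · intro c hc
          rw [Finset.mem_filter] at hc ⊢
          refine ⟨hc.1, ?_⟩
          by_cases hca : nx a = c
          · rw [← hca]; exact h1.le
          · have h3 := (hstep a c hc.1 hca).2
            have h4 := hc.2
            rw [h2, h3] at h4
            linarith
      obtain ⟨k, hk⟩ := ih _ hlt (nx a) b hb rfl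
      exact ⟨k + 1, by rw [Function.iterate_succ_apply]; exact hk⟩
  have hmaps : Set.MapsTo nx (N : Set α) (N : Set α) := fun a _ => hnxN a
  have hsurj : Set.SurjOn nx (N : Set α) (N : Set α) := by
    intro b hb
    obtain ⟨k, hk⟩ := htrans _ b b hb rfl
    rw [Function.iterate_succ_apply'] at hk
    have hmem : ∀ k : ℕ, nx^[k] b ∈ (N : Set α) := by
      intro k
      induction k with
      | zero => exact hb
      | succ k ih => rw [Function.iterate_succ_apply']; exact hnxN _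
    exact ⟨_, hmem k, hk⟩
  have hbij : Set.BijOn nx (N : Set α) (N : Set α) := by
    refine ⟨hmaps, ?_, hsurj⟩
    exact Finset.injOn_of_surjOn_of_card_le nx hmaps hsurj le_rfl
  refine ⟨nx, gap, hbij, fun a _ => gpos a, ?_, ?_, ?_, ?_, ?_, ?_⟩
  · -- sum of gaps
    obtain ⟨M, hMN, hM⟩ := Finset.exists_max_image N θ hN
    have h1 : ∀ a ∈ N, gap a = (θ (nx a) - θ a) + if a = M then 2 * π else 0 := by
      intro a ha
      by_cases haM : a = M
      · subst haM
        rw [if_pos rfl]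
        have h2 := hM (nx a) (hnxN a)
        simp only [hgap]
        unfold rotD
        rw [if_neg (not_lt.mpr h2)]
      · rw [if_neg haM, add_zero]
        have h2 : θ a < θ M := lt_of_le_of_ne (hM a ha) fun h => haM (hinj a ha M hMN h)
        have h3 := gmin a M hMN
        simp only [hgap] at h3 ⊢
        unfold rotD at *
        rw [if_pos h2] at h3
        split_ifs at h3 ⊢ with h4
        · rfl
        · have := t1 (nx a); have := t2 M
          linarith
    rw [Finset.sum_congr rfl h1, Finset.sum_add_distrib, Finset.sum_sub_distrib,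
      Finset.sum_ite_eq' N M (fun _ => 2 * π), if_pos hMN]
    have h2 : ∑ a ∈ N, θ (nx a) = ∑ a ∈ N, θ a := by
      apply Finset.sum_nbij nx
      · intro a ha; exact hnxN a
      · exact hbij.2.1
      · exact hbij.2.2
      · intro a _; rfl
    rw [h2]; ring
  · intro a ha b hb
    obtain ⟨k, hk⟩ := htrans _ a b hb rfl
    exact ⟨k + 1, hk⟩
  · intro a ha
    rw [rot_unit (h0 _ (hnxN a)), rot_unit (h0 a ha)]
    exact (rotD_exp _ _).symm
  · intro a ha hga
    refine ⟨(rot_im_pos (h0 a ha) (h0 _ (hnxN a))).mpr hga,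
      rot_angle (h0 a ha) (h0 _ (hnxN a)) hga, ?_⟩
    rintro c hc ⟨hc1, hc2⟩
    rw [rot_im_pos (h0 a ha) (h0 c hc)] at hc1
    rw [rot_im_pos (h0 c hc) (h0 _ (hnxN a))] at hc2
    have h3 := rotD_add (t1 a) (t2 a) (t1 c) (t2 c) (t1 (nx a)) (t2 (nx a)) (by
      simp only [hθ]; linarith)
    have h4 : 0 < rotD (θ c) (θ (nx a)) := rotD_pos (t2 _) (t1 _)
    have h5 := gmin a c hc
    simp only [hgap] at h5
    linarith
  · intro a ha b hb hab hno
    rw [rot_im_pos (h0 a ha) (h0 b hb)] at hab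
    have h1 := gmin a b hb
    have hga : gap a < π := lt_of_le_of_lt h1 hab
    refine ⟨?_, hga⟩
    by_contra hne
    obtain ⟨h2, h3⟩ := hstep a b hb hne
    apply hno (nx a) (hnxN a)
    refine ⟨(rot_im_pos (h0 a ha) (h0 _ (hnxN a))).mpr hga, ?_⟩
    rw [rot_im_pos (h0 _ (hnxN a)) (h0 b hb)]
    have h4 := gpos a
    have h5 : rotD (θ a) (θ b) < π := hab
    show rotD (θ (nx a)) (θ b) < π
    linarith
  · intro w hw
    have e1 : -π < w.arg := Complex.neg_pi_lt_arg w
    have e2 : w.arg ≤ π := Complex.arg_le_pi w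
    obtain ⟨a, haN, ha⟩ := Finset.exists_min_image N (fun a => rotE (θ a) w.arg) hN
    refine ⟨a, ⟨haN, ?_⟩, ?_⟩
    · rw [own_iff (h0 a haN) hw (gle a)]
      by_contra hcon
      push Not at hcon
      have h1 : rotE (θ (nx a)) w.arg = rotE (θ a) w.arg - gap a :=
        rotE_sub (t1 _) (t2 _) (t1 _) (t2 _) e1 e2 hcon
      have h2 := ha (nx a) (hnxN a)
      have h3 := gpos a
      linarith
    · rintro b ⟨hbN, hb⟩
      rw [own_iff (h0 b hbN) hw (gle b)] at hb
      by_contra hne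
      have hne' : θ a ≠ θ b := fun h => hne (hinj a haN b hbN h).symm
      have h1 := rotE_diff (t1 a) (t2 a) (t1 b) (t2 b) e1 e2 hne' (ha b hbN)
      have h2 := gmin b a haN
      have h3 : 0 ≤ rotE (θ a) w.arg := rotE_nonneg (t2 _) e1
      have h4 : rotE (θ b) w.arg < gap b := hb
      linarith

/-- a direction between two directions at positive angle `< π` lies in the sector -/
theorem own_of_im {u u' w : ℂ} {g : ℝ} (hu : u ≠ 0) (hw : ‖w‖ = 1) (hg0 : 0 < g) (hg : g < π)
    (h : u' / (‖u'‖ : ℂ) = Complex.exp (g * I) * (u / (‖u‖ : ℂ)))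
    (h1 : 0 ≤ ((starRingEnd ℂ) u * w).im) (h2 : 0 < ((starRingEnd ℂ) w * u').im) :
    Own u g w := by
  have hpi := Real.pi_pos
  have hw0 : w ≠ 0 := by
    intro h; rw [h, norm_zero] at hw; norm_num at hw
  have hu' : u' ≠ 0 := by
    rintro rfl
    simp at h2
  rw [own_iff hu hw (by linarith)]
  set t := rotE u.arg w.arg with ht
  have ht0 : 0 ≤ t := rotE_nonneg (Complex.arg_le_pi u) (Complex.neg_pi_lt_arg w)
  have ht2 : t < 2 * π := rotE_lt (Complex.neg_pi_lt_arg u) (Complex.arg_le_pi w)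
  have hsin : Real.sin t = Real.sin (w.arg - u.arg) := by
    rw [ht]; unfold rotE; split_ifs
    · rfl
    · rw [Real.sin_add_two_pi]
  have h3 : 0 ≤ Real.sin t := by
    rw [rot_im, ← hsin] at h1
    have : 0 < ‖u‖ * ‖w‖ := mul_pos (norm_pos_iff.mpr hu) (norm_pos_iff.mpr hw0)
    exact nonneg_of_mul_nonneg_right h1 this
  have ht3 : t ≤ π := by
    by_contra hcon
    push Not at hcon
    have : 0 < Real.sin (t - π) := Real.sin_pos_of_pos_of_lt_pi (by linarith) (by linarith)
    rw [Real.sin_sub_pi] at this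
    linarith
  -- the product conj w * u'
  have h4 : (starRingEnd ℂ) w * u' = ((‖u'‖ : ℝ) : ℂ) * Complex.exp ((g - t : ℝ) * I) := by
    have e1 : u' = (‖u'‖ : ℂ) * (Complex.exp (g * I) * Complex.exp (u.arg * I)) := by
      rw [← rot_unit hu, ← h]
      have : (‖u'‖ : ℂ) ≠ 0 := by exact_mod_cast (norm_ne_zero_iff.mpr hu')
      field_simp
    have e2 : w = Complex.exp (t * I) * Complex.exp (u.arg * I) := by
      rw [ht, rotE_exp, ← rot_unit hw0, hw]; simp
    have e3 : (starRingEnd ℂ) w = Complex.exp (-(t * I)) * Complex.exp (-(u.arg * I)) := by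
      rw [e2, map_mul, ← Complex.exp_conj, ← Complex.exp_conj, map_mul, map_mul,
        Complex.conj_ofReal, Complex.conj_ofReal, Complex.conj_I, mul_neg, mul_neg]
    rw [e3]
    conv_lhs => rw [e1]
    have e4 : Complex.exp (-(u.arg * I)) * Complex.exp (u.arg * I) = 1 := by
      rw [← Complex.exp_add]; simp
    have e5 : Complex.exp ((g - t : ℝ) * I) = Complex.exp (-(t * I)) * Complex.exp (g * I) := by
      rw [← Complex.exp_add]; congr 1; push_cast; ring
    rw [e5]
    calc Complex.exp (-(t * I)) * Complex.exp (-(u.arg * I)) *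
          ((‖u'‖ : ℂ) * (Complex.exp (g * I) * Complex.exp (u.arg * I)))
        = (‖u'‖ : ℂ) * (Complex.exp (-(t * I)) * Complex.exp (g * I)) *
          (Complex.exp (-(u.arg * I)) * Complex.exp (u.arg * I)) := by ring
      _ = _ := by rw [e4, mul_one]
  rw [h4, Complex.im_ofReal_mul, Complex.exp_ofReal_mul_I_im] at h2
  have h5 : 0 < Real.sin (g - t) := by
    have : 0 < ‖u'‖ := norm_pos_iff.mpr hu'
    exact (mul_pos_iff_of_pos_left this).mp h2
  by_contra hcon
  push Not at hcon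
  have h6 : Real.sin (g - t) ≤ 0 := Real.sin_nonpos_of_nonpos_of_neg_pi_le (by linarith) (by linarith)
  linarith

/-- a half-open sector of size at least `π` contains one of two antipodal directions -/
theorem own_or_neg {u w : ℂ} {g : ℝ} (hu : u ≠ 0) (hw : ‖w‖ = 1) (hg : π ≤ g) :
    Own u g w ∨ Own u g (-w) := by
  have hpi := Real.pi_pos
  have hw0 : w ≠ 0 := by
    intro h; rw [h, norm_zero] at hw; norm_num at hw
  have ht0 : 0 ≤ rotE u.arg w.arg := rotE_nonneg (Complex.arg_le_pi u) (Complex.neg_pi_lt_arg w)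
  have ht2 : rotE u.arg w.arg < 2 * π := rotE_lt (Complex.neg_pi_lt_arg u) (Complex.arg_le_pi w)
  have e2 : w = Complex.exp ((rotE u.arg w.arg : ℝ) * I) * Complex.exp (u.arg * I) := by
    rw [rotE_exp, ← rot_unit hw0, hw]; simp
  by_cases h : rotE u.arg w.arg < π
  · left
    exact ⟨rotE u.arg w.arg, ht0, by linarith, by rw [rot_unit hu]; exact e2⟩
  · right
    push Not at h
    refine ⟨rotE u.arg w.arg - π, by linarith, by linarith, ?_⟩
    rw [rot_unit hu]
    conv_lhs => rw [e2]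
    have : Complex.exp (((rotE u.arg w.arg - π : ℝ) : ℂ) * I) =
        - Complex.exp ((rotE u.arg w.arg : ℝ) * I) := by
      push_cast
      rw [sub_mul, Complex.exp_sub, Complex.exp_pi_mul_I]
      ring
    rw [this]
    ring

end Pool.Agent.Helper888
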