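import Pool.Agent.Helper888.Defs
set_option autoImplicit false
namespace Pool.Agent.Helper888

namespace Sector

theorem os_iff {z p q : Pt} : z ∈ openSegment ℝ p q ↔
    ∃ s : ℝ, 0 < s ∧ s < 1 ∧ z = ((1 - s) * p.1 + s * q.1, (1 - s) * p.2 + s * q.2) := by
  constructor
  · rintro ⟨u, w, hu, hw, huw, rfl⟩
    refine ⟨w, hw, by linarith, ?_⟩
    have : u = 1 - w := by linarith
    subst this
    ext <;> simp
  · rintro ⟨s, h0, h1, rfl⟩
    refine ⟨1 - s, s, by linarith, h0, by ring, ?_⟩
    ext <;> simp

theorem detA_lin {v b p q : Pt} (s : ℝ) :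
    det v ((1 - s) * p.1 + s * q.1, (1 - s) * p.2 + s * q.2) b =
      (1 - s) * det v p b + s * det v q b := by
  simp only [det]; ring

theorem detB_lin {v a p q : Pt} (s : ℝ) :
    det v a ((1 - s) * p.1 + s * q.1, (1 - s) * p.2 + s * q.2) =
      (1 - s) * det v a p + s * det v a q := by
  simp only [det]; ring

theorem rec_eq {v a b z w : Pt} (hD : det v a b ≠ 0) (hA : det v z b = det v w b)
    (hB : det v a z = det v a w) : z = w := by
  simp only [det] at hA hB hD
  have h1 : (z.1 - w.1) * ((a.1 - v.1) * (b.2 - v.2) - (a.2 - v.2) * (b.1 - v.1)) = 0 := by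
    linear_combination (a.1 - v.1) * hA + (b.1 - v.1) * hB
  have h2 : (z.2 - w.2) * ((a.1 - v.1) * (b.2 - v.2) - (a.2 - v.2) * (b.1 - v.1)) = 0 := by
    linear_combination (a.2 - v.2) * hA + (b.2 - v.2) * hB
  rcases mul_eq_zero.1 h1 with h | h
  · rcases mul_eq_zero.1 h2 with h' | h'
    · ext <;> linarith
    · exact absurd h' hD
  · exact absurd h hD

theorem mem_os {v a b z p q : Pt} (hD : det v a b ≠ 0) {s : ℝ} (h0 : 0 < s) (h1 : s < 1)
    (hA : det v z b = (1 - s) * det v p b + s * det v q b)
    (hB : det v a z = (1 - s) * det v a p + s * det v a q) : z ∈ openSegment ℝ p q := by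
  rw [os_iff]
  refine ⟨s, h0, h1, ?_⟩
  apply rec_eq hD
  · rw [detA_lin, hA]
  · rw [detB_lin, hB]

theorem dAv (v b : Pt) : det v v b = 0 := by simp only [det]; ring
theorem dBv (v a : Pt) : det v a v = 0 := by simp only [det]; ring
theorem dAb (v b : Pt) : det v b b = 0 := by simp only [det]; ring

/-- point on the side `vb` -/
theorem on_vb {v a b z : Pt} (hD : 0 < det v a b) (hA : det v z b = 0) (h0 : 0 < det v a z)
    (h1 : det v a z < det v a b) : z ∈ openSegment ℝ v b := by
  apply mem_os hD.ne' (s := det v a z / det v a b) (by positivity) ((div_lt_one hD).2 h1)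
  · rw [dAv, dAb, hA]; ring
  · rw [dBv]; field_simp; ring

theorem on_va {v a b z : Pt} (hD : 0 < det v a b) (hB : det v a z = 0) (h0 : 0 < det v z b)
    (h1 : det v z b < det v a b) : z ∈ openSegment ℝ v a := by
  apply mem_os hD.ne' (s := det v z b / det v a b) (by positivity) ((div_lt_one hD).2 h1)
  · rw [dAv]; field_simp; ring
  · rw [dBv, dAb, hB]; ring

/-- exit lemma -/
theorem exit {v a b x p : Pt} (hD : 0 < det v a b) (hA : 0 < det v x b) (hB : 0 < det v a x)
    (hx : det v x b + det v a x ≤ det v a b) (hp : det v p b + det v a p ≤ det v a b)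
    (hlt : det v x b + det v a x < det v a b ∨ det v p b + det v a p < det v a b)
    (hout : det v p b < 0 ∨ det v a p < 0) :
    ∃ z ∈ openSegment ℝ x p, z = v ∨ z ∈ openSegment ℝ v a ∨ z ∈ openSegment ℝ v b := by
  have main : ∀ s : ℝ, 0 < s → s < 1 → ((1 - s) * det v x b + s * det v p b = 0 ∧
        0 ≤ (1 - s) * det v a x + s * det v a p ∨
        (1 - s) * det v a x + s * det v a p = 0 ∧ 0 ≤ (1 - s) * det v x b + s * det v p b) →
      ∃ z ∈ openSegment ℝ x p, z = v ∨ z ∈ openSegment ℝ v a ∨ z ∈ openSegment ℝ v b := by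
    intro s h0 h1 h
    refine ⟨_, os_iff.2 ⟨s, h0, h1, rfl⟩, ?_⟩
    have e1 := detA_lin (v := v) (b := b) (p := x) (q := p) s
    have e2 := detB_lin (v := v) (a := a) (p := x) (q := p) s
    have hT : (1 - s) * (det v x b + det v a x) + s * (det v p b + det v a p) < det v a b := by
      rcases hlt with h' | h'
      · have k1 : (1 - s) * (det v x b + det v a x) < (1 - s) * det v a b :=
          mul_lt_mul_of_pos_left h' (by linarith)
        have k2 : s * (det v p b + det v a p) ≤ s * det v a b :=
          mul_le_mul_of_nonneg_left hp h0.le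
        linarith
      · have k1 : (1 - s) * (det v x b + det v a x) ≤ (1 - s) * det v a b :=
          mul_le_mul_of_nonneg_left hx (by linarith)
        have k2 : s * (det v p b + det v a p) < s * det v a b :=
          mul_lt_mul_of_pos_left h' h0
        linarith
    rcases h with ⟨h, h'⟩ | ⟨h, h'⟩
    · rcases h'.eq_or_lt with h'' | h''
      · left
        apply rec_eq hD.ne'
        · rw [e1, h, dAv]
        · rw [e2, ← h'', dBv]
      · right; right
        apply on_vb hD
        · rw [e1, h]
        · rw [e2]; exact h''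
        · rw [e2]; linarith
    · rcases h'.eq_or_lt with h'' | h''
      · left
        apply rec_eq hD.ne'
        · rw [e1, ← h'', dAv]
        · rw [e2, h, dBv]
      · right; left
        apply on_va hD
        · rw [e2, h]
        · rw [e1]; exact h''
        · rw [e1]; linarith
  -- the two parameters
  have hsA : det v p b < 0 → 0 < det v x b / (det v x b - det v p b) ∧
      det v x b / (det v x b - det v p b) < 1 ∧
      (1 - det v x b / (det v x b - det v p b)) * det v x b +
        det v x b / (det v x b - det v p b) * det v p b = 0 := by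
    intro h
    have h' : 0 < det v x b - det v p b := by linarith
    refine ⟨by positivity, (div_lt_one h').2 (by linarith), ?_⟩
    field_simp
    ring
  have hsB : det v a p < 0 → 0 < det v a x / (det v a x - det v a p) ∧
      det v a x / (det v a x - det v a p) < 1 ∧
      (1 - det v a x / (det v a x - det v a p)) * det v a x +
        det v a x / (det v a x - det v a p) * det v a p = 0 := by
    intro h
    have h' : 0 < det v a x - det v a p := by linarith
    refine ⟨by positivity, (div_lt_one h').2 (by linarith), ?_⟩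
    field_simp
    ring
  -- monotonicity: before the parameter of B the value of B is nonnegative
  by_cases hpA : det v p b < 0
  · obtain ⟨a0, a1, a2⟩ := hsA hpA
    by_cases hpB : det v a p < 0
    · obtain ⟨b0, b1, b2⟩ := hsB hpB
      rcases le_total (det v x b / (det v x b - det v p b)) (det v a x / (det v a x - det v a p))
        with hle | hle
      · refine main _ a0 a1 (Or.inl ⟨a2, ?_⟩)
        nlinarith
      · refine main _ b0 b1 (Or.inr ⟨b2, ?_⟩)
        nlinarith
    · push Not at hpB
      refine main _ a0 a1 (Or.inl ⟨a2, ?_⟩)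
      have : 0 ≤ (1 - det v x b / (det v x b - det v p b)) * det v a x :=
        mul_nonneg (by linarith) hB.le
      have : 0 ≤ det v x b / (det v x b - det v p b) * det v a p := mul_nonneg a0.le hpB
      linarith
  · push Not at hpA
    have hpB : det v a p < 0 := by
      rcases hout with h | h
      · linarith
      · exact h
    obtain ⟨b0, b1, b2⟩ := hsB hpB
    refine main _ b0 b1 (Or.inr ⟨b2, ?_⟩)
    have : 0 ≤ (1 - det v a x / (det v a x - det v a p)) * det v x b :=
      mul_nonneg (by linarith) hA.le
    have : 0 ≤ det v a x / (det v a x - det v a p) * det v p b := mul_nonneg b0.le hpA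
    linarith

theorem os_sub {x p r z : Pt} (hx : x ∈ openSegment ℝ p r) (hz : z ∈ openSegment ℝ x p) :
    z ∈ openSegment ℝ p r := by
  rw [os_iff] at *
  obtain ⟨s, s0, s1, rfl⟩ := hx
  obtain ⟨t, t0, t1, rfl⟩ := hz
  refine ⟨(1 - t) * s, mul_pos (by linarith) s0, ?_, ?_⟩
  · nlinarith
  · ext <;> simp <;> ring

variable {V : Finset Pt} {E : Finset (Pt × Pt)} {v a b : Pt}

theorem cross (hA : Adm V E) (hva : (v, a) ∈ E) (hvb : (v, b) ∈ E) (hD : 0 < det v a b)
    {p r x : Pt} (hpr : (p, r) ∈ E) (hx : x ∈ openSegment ℝ p r)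
    (hAx : 0 < det v x b) (hBx : 0 < det v a x)
    (hTx : det v x b + det v a x ≤ det v a b) (hp : det v p b + det v a p ≤ det v a b)
    (hlt : det v x b + det v a x < det v a b ∨ det v p b + det v a p < det v a b) :
    0 ≤ det v p b ∧ 0 ≤ det v a p := by
  by_contra hcon
  have hout : det v p b < 0 ∨ det v a p < 0 := by
    by_contra h; push Not at h; exact hcon h
  obtain ⟨z, hz, hz'⟩ := exit hD hAx hBx hTx hp hlt hout
  have hz2 := os_sub hx hz
  have hBxa : x ∉ openSegment ℝ v a := by
    rw [os_iff]
    rintro ⟨s, _, _, rfl⟩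
    rw [detB_lin, dBv, dAb] at hBx
    linarith
  have hAxb : x ∉ openSegment ℝ v b := by
    rw [os_iff]
    rintro ⟨s, _, _, rfl⟩
    rw [detA_lin, dAv, dAb] at hAx
    linarith
  rcases hz' with rfl | hz' | hz'
  · exact hA.empty p r hpr z (hA.mem _ _ hva).1 hz2
  · have := hA.noncross v a p r hva hpr
      (by rintro h; rw [Prod.mk.injEq] at h; rw [h.1, h.2] at hx; exact hBxa hx)
      (by rintro h; rw [Prod.mk.injEq] at h; rw [h.1, h.2, openSegment_symm] at hx; exact hBxa hx)
    exact Set.disjoint_left.1 this hz' hz2
  · have := hA.noncross v b p r hvb hpr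
      (by rintro h; rw [Prod.mk.injEq] at h; rw [h.1, h.2] at hx; exact hAxb hx)
      (by rintro h; rw [Prod.mk.injEq] at h; rw [h.1, h.2, openSegment_symm] at hx; exact hAxb hx)
    exact Set.disjoint_left.1 this hz' hz2

/-- points of the closed triangle are corners or interior -/
theorem tri_cases (hA : Adm V E) (hva : (v, a) ∈ E) (hvb : (v, b) ∈ E) (hD : 0 < det v a b)
    {c : Pt} (hc : c ∈ V) (h1 : 0 ≤ det v c b) (h2 : 0 ≤ det v a c)
    (h3 : det v c b + det v a c ≤ det v a b) :
    c = v ∨ c = a ∨ c = b ∨ (0 < det v c b ∧ 0 < det v a c) := by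
  rcases h1.eq_or_lt with h | h
  · rcases h2.eq_or_lt with h' | h'
    · left
      apply rec_eq hD.ne'
      · rw [← h, dAv]
      · rw [← h', dBv]
    · have h3' : det v a c ≤ det v a b := by linarith
      rcases h3'.eq_or_lt with h'' | h''
      · right; right; left
        apply rec_eq hD.ne'
        · rw [← h, dAb]
        · rw [h'']
      · exact absurd (on_vb hD h.symm h' h'') (hA.empty _ _ hvb c hc)
  · rcases h2.eq_or_lt with h' | h'
    · have h3' : det v c b ≤ det v a b := by linarith
      rcases h3'.eq_or_lt with h'' | h''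
      · right; left
        apply rec_eq hD.ne'
        · rw [h'']
        · rw [← h', dAb]
      · exact absurd (on_va hD h'.symm h h'') (hA.empty _ _ hva c hc)
    · right; right; right
      exact ⟨h, h'⟩

/-- an edge at `v` cannot point into the sector -/
theorem no_sector (hcons : ∀ c, (v, c) ∈ E → ¬ (0 < det v a c ∧ 0 < det v c b))
    {r x : Pt} (hr : (v, r) ∈ E) (hx : x ∈ openSegment ℝ v r)
    (hAx : 0 < det v x b) (hBx : 0 < det v a x) : False := by
  rw [os_iff] at hx
  obtain ⟨s, s0, s1, rfl⟩ := hx
  rw [detA_lin, dAv] at hAx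
  rw [detB_lin, dBv] at hBx
  refine hcons r hr ⟨?_, ?_⟩
  · by_contra h; push Not at h; nlinarith
  · by_contra h; push Not at h; nlinarith

theorem tri_empty (hA : Adm V E) (hM : Maxl V E) (hva : (v, a) ∈ E) (hvb : (v, b) ∈ E)
    (hD : 0 < det v a b) (hcons : ∀ c, (v, c) ∈ E → ¬ (0 < det v a c ∧ 0 < det v c b))
    {c : Pt} (hc : c ∈ V) (h1 : 0 ≤ det v c b) (h2 : 0 ≤ det v a c)
    (h3 : det v c b + det v a c ≤ det v a b) : c = v ∨ c = a ∨ c = b := by
  classical
  have hS : ¬ (V.filter (fun c => 0 < det v c b ∧ 0 < det v a c ∧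
      det v c b + det v a c ≤ det v a b)).Nonempty := by
    intro hne
    obtain ⟨d, hd, hmin⟩ := Finset.exists_min_image _ (fun c => det v c b + det v a c) hne
    rw [Finset.mem_filter] at hd
    obtain ⟨hdV, d1, d2, d3⟩ := hd
    have hmin' : ∀ e ∈ V, 0 < det v e b → 0 < det v a e → det v e b + det v a e <
        det v d b + det v a d → False := by
      intro e he e1 e2 e3
      have := hmin e (Finset.mem_filter.2 ⟨he, e1, e2, by linarith⟩)
      linarith
    have hvd : v ≠ d := by rintro rfl; rw [dAv] at d1; exact lt_irrefl _ d1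
    have hseg : ∀ e, e ∈ openSegment ℝ v d → 0 < det v e b ∧ 0 < det v a e ∧
        det v e b + det v a e < det v d b + det v a d := by
      intro e he
      rw [os_iff] at he
      obtain ⟨s, s0, s1, rfl⟩ := he
      rw [detA_lin, detB_lin, dAv, dBv]
      refine ⟨by nlinarith, by nlinarith, by nlinarith⟩
    have hnot : (v, d) ∉ E := fun h => hcons d h ⟨d2, d1⟩
    have hex : ∃ p r, (p, r) ∈ E ∧ ∃ x, x ∈ openSegment ℝ v d ∧ x ∈ openSegment ℝ p r := by
      by_contra hcon
      apply hnot
      apply hM v (hA.mem _ _ hva).1 d hdV hvd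
      · intro e he he'
        obtain ⟨e1, e2, e3⟩ := hseg e he'
        exact hmin' e he e1 e2 e3
      · intro p r hpr _ _
        rw [Set.disjoint_left]
        intro x hx hx'
        exact hcon ⟨p, r, hpr, x, hx, hx'⟩
    have key : ∀ p r, (p, r) ∈ E → ∀ x, x ∈ openSegment ℝ v d → x ∈ openSegment ℝ p r →
        det v p b + det v a p ≤ det v x b + det v a x → False := by
      intro p r hpr x hx hx' hle
      obtain ⟨x1, x2, x3⟩ := hseg x hx
      obtain ⟨p1, p2⟩ := cross hA hva hvb hD hpr hx' x1 x2 (by linarith) (by linarith)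
        (Or.inl (by linarith))
      rcases tri_cases hA hva hvb hD (hA.mem _ _ hpr).1 p1 p2 (by linarith) with h | h | h | h
      · subst h
        exact no_sector hcons hpr hx' x1 x2
      · subst h
        rw [dAb] at hle
        linarith
      · subst h
        rw [dAb] at hle
        linarith
      · exact hmin' p (hA.mem _ _ hpr).1 h.1 h.2 (by linarith)
    obtain ⟨p, r, hpr, x, hx, hx'⟩ := hex
    have hsum : ∃ s : ℝ, 0 < s ∧ s < 1 ∧ det v x b + det v a x =
        (1 - s) * (det v p b + det v a p) + s * (det v r b + det v a r) := by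
      rw [os_iff] at hx'
      obtain ⟨s, s0, s1, rfl⟩ := hx'
      exact ⟨s, s0, s1, by rw [detA_lin, detB_lin]; ring⟩
    rcases le_or_gt (det v p b + det v a p) (det v x b + det v a x) with h | h
    · exact key p r hpr x hx hx' h
    · refine key r p (hA.symm _ _ hpr) x hx (by rw [openSegment_symm]; exact hx') ?_
      obtain ⟨s, s0, s1, hs⟩ := hsum
      by_contra hcon
      push Not at hcon
      nlinarith
  rcases tri_cases hA hva hvb hD hc h1 h2 h3 with h | h | h | h
  · exact Or.inl h
  · exact Or.inr (Or.inl h)
  · exact Or.inr (Or.inr h)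
  · exact absurd ⟨c, Finset.mem_filter.2 ⟨hc, h.1, h.2, h3⟩⟩ hS

theorem edge_ab (hA : Adm V E) (hM : Maxl V E) (hva : (v, a) ∈ E) (hvb : (v, b) ∈ E)
    (hD : 0 < det v a b) (hcons : ∀ c, (v, c) ∈ E → ¬ (0 < det v a c ∧ 0 < det v c b)) :
    (a, b) ∈ E := by
  have hab : a ≠ b := by rintro rfl; rw [dAb] at hD; exact lt_irrefl _ hD
  have haV := (hA.mem _ _ hva).2.1
  have hbV := (hA.mem _ _ hvb).2.1
  have hseg : ∀ e, e ∈ openSegment ℝ a b → 0 < det v e b ∧ 0 < det v a e ∧
        det v e b + det v a e = det v a b := by
    intro e he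
    rw [os_iff] at he
    obtain ⟨s, s0, s1, rfl⟩ := he
    rw [detA_lin, detB_lin, dAb, dAb]
    refine ⟨by nlinarith, by nlinarith, by ring⟩
  have hempty : ∀ c ∈ V, c ∉ openSegment ℝ a b := by
    intro c hc hc'
    obtain ⟨c1, c2, c3⟩ := hseg c hc'
    rcases tri_empty hA hM hva hvb hD hcons hc c1.le c2.le c3.le with h | h | h
    · subst h; rw [dAv] at c1; exact lt_irrefl _ c1
    · subst h; rw [dAb] at c2; exact lt_irrefl _ c2
    · subst h; rw [dAb] at c1; exact lt_irrefl _ c1
  apply hM a haV b hbV hab hempty
  intro p r hpr hne1 hne2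
  rw [Set.disjoint_left]
  intro x hx hx'
  obtain ⟨x1, x2, x3⟩ := hseg x hx
  have key : ∀ p r, (p, r) ∈ E → x ∈ openSegment ℝ p r →
      det v p b + det v a p < det v a b → False := by
    intro p r hpr hx' hlt
    obtain ⟨p1, p2⟩ := cross hA hva hvb hD hpr hx' x1 x2 x3.le hlt.le (Or.inr hlt)
    rcases tri_empty hA hM hva hvb hD hcons (hA.mem _ _ hpr).1 p1 p2 hlt.le with h | h | h
    · subst h
      exact no_sector hcons hpr hx' x1 x2
    · subst h; rw [dAb] at hlt; linarith
    · subst h; rw [dAb] at hlt; linarith
  have hp : det v a b ≤ det v p b + det v a p := by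
    by_contra h; push Not at h; exact key p r hpr hx' h
  have hr : det v a b ≤ det v r b + det v a r := by
    by_contra h; push Not at h
    exact key r p (hA.symm _ _ hpr) (by rw [openSegment_symm]; exact hx') h
  -- both on the line
  have hline : ∃ s : ℝ, 0 < s ∧ s < 1 ∧ det v x b = (1 - s) * det v p b + s * det v r b ∧
      det v a x = (1 - s) * det v a p + s * det v a r := by
    rw [os_iff] at hx'
    obtain ⟨s, s0, s1, rfl⟩ := hx'
    exact ⟨s, s0, s1, detA_lin s, detB_lin s⟩
  obtain ⟨s, s0, s1, sA, sB⟩ := hline
  have hp' : det v p b + det v a p = det v a b := by nlinarith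
  have hr' : det v r b + det v a r = det v a b := by nlinarith
  -- membership in the open segment ab through B
  have hin : ∀ q : Pt, det v q b + det v a q = det v a b → 0 < det v a q →
      det v a q < det v a b → q ∈ openSegment ℝ a b := by
    intro q hq q0 q1
    apply mem_os hD.ne' (s := det v a q / det v a b) (by positivity) ((div_lt_one hD).2 q1)
    · have e : det v q b = det v a b - det v a q := by linarith
      rw [dAb, e]; field_simp; ring
    · rw [dAb]; field_simp; ring
  have key2 : ∀ p r, (p, r) ∈ E → det v p b + det v a p = det v a b →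
      det v r b + det v a r = det v a b → det v a p ≤ 0 → det v a b ≤ det v a r → p = a ∧ r = b := by
    intro p r hpr hp' hr' hp0 hr1
    have hpos : 0 < det v a r - det v a p := by linarith
    constructor
    · rcases hp0.eq_or_lt with h | h
      · apply rec_eq hD.ne'
        · linarith
        · rw [dAb, h]
      · exfalso
        apply hA.empty p r hpr a haV
        apply mem_os hD.ne' (s := -det v a p / (det v a r - det v a p))
          (div_pos (by linarith) hpos) ((div_lt_one hpos).2 (by linarith))
        · have e1 : det v p b = det v a b - det v a p := by linarith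
          have e2 : det v r b = det v a b - det v a r := by linarith
          rw [e1, e2]; field_simp; ring
        · rw [dAb]; field_simp; ring
    · rcases hr1.eq_or_lt with h | h
      · apply rec_eq hD.ne'
        · rw [dAb]; linarith
        · exact h.symm
      · exfalso
        apply hA.empty p r hpr b hbV
        apply mem_os hD.ne' (s := (det v a b - det v a p) / (det v a r - det v a p))
          (div_pos (by linarith) hpos) ((div_lt_one hpos).2 (by linarith))
        · have e1 : det v p b = det v a b - det v a p := by linarith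
          have e2 : det v r b = det v a b - det v a r := by linarith
          rw [e1, e2, dAb]; field_simp; ring
        · field_simp; ring
  have hpo : det v a p ≤ 0 ∨ det v a b ≤ det v a p := by
    by_contra h; push Not at h
    exact hempty p (hA.mem _ _ hpr).1 (hin p hp' h.1 h.2)
  have hro : det v a r ≤ 0 ∨ det v a b ≤ det v a r := by
    by_contra h; push Not at h
    exact hempty r (hA.mem _ _ hpr).2.1 (hin r hr' h.1 h.2)
  have hx1 : det v a x < det v a b := by linarith
  rcases hpo with h | h
  · rcases hro with h' | h'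
    · nlinarith
    · obtain ⟨rfl, rfl⟩ := key2 p r hpr hp' hr' h h'
      exact hne1 rfl
  · rcases hro with h' | h'
    · obtain ⟨rfl, rfl⟩ := key2 r p (hA.symm _ _ hpr) hr' hp' h' h
      exact hne2 rfl
    · nlinarith

end Sector

open Sector in
/-- In a maximal family, two consecutive edges `va`, `vb` at `v` with positively oriented angle
(less than a half turn) span a triangular cell. -/
theorem sector {V : Finset Pt} {E : Finset (Pt × Pt)} (hA : Adm V E) (hM : Maxl V E) {v a b : Pt}
    (hva : (v, a) ∈ E) (hvb : (v, b) ∈ E) (hdet : 0 < det v a b)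
    (hcons : ∀ c, (v, c) ∈ E → ¬ (0 < det v a c ∧ 0 < det v c b)) :
    (a, b) ∈ E ∧ (∀ c, (a, c) ∈ E → ¬ (0 < det a b c ∧ 0 < det a c v)) ∧
      (∀ c, (b, c) ∈ E → ¬ (0 < det b v c ∧ 0 < det b c a)) := by
  have hav : a ≠ v := by rintro rfl; rw [dAv] at hdet; exact lt_irrefl _ hdet
  have hbv : b ≠ v := by rintro rfl; rw [dBv] at hdet; exact lt_irrefl _ hdet
  have hab : a ≠ b := by rintro rfl; rw [dAb] at hdet; exact lt_irrefl _ hdet
  refine ⟨edge_ab hA hM hva hvb hdet hcons, ?_, ?_⟩
  · rintro c hc ⟨h1, h2⟩
    have e1 : det a b c = det v a b - (det v c b + det v a c) := by simp only [det]; ring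
    have e2 : det a c v = det v a c := by simp only [det]; ring
    rw [e1] at h1
    rw [e2] at h2
    have hcV := (hA.mem _ _ hc).2.1
    rcases le_or_gt 0 (det v c b) with h | h
    · rcases tri_empty hA hM hva hvb hdet hcons hcV h h2.le (by linarith) with h' | h' | h'
      · subst h'; rw [dBv] at h2; exact lt_irrefl _ h2
      · subst h'; rw [dAb] at h2; exact lt_irrefl _ h2
      · subst h'; rw [dAb] at h1; linarith
    · have hpos : 0 < det v a b - det v c b := by linarith
      have s0 : 0 < det v a b / (det v a b - det v c b) := by positivity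
      have s1 : det v a b / (det v a b - det v c b) < 1 := (div_lt_one hpos).2 (by linarith)
      set s := det v a b / (det v a b - det v c b) with hs
      have hsA : (1 - s) * det v a b + s * det v c b = 0 := by
        rw [hs]; field_simp; ring
      have hz : ((1 - s) * a.1 + s * c.1, (1 - s) * a.2 + s * c.2) ∈ openSegment ℝ a c :=
        os_iff.2 ⟨s, s0, s1, rfl⟩
      have hz' : ((1 - s) * a.1 + s * c.1, (1 - s) * a.2 + s * c.2) ∈ openSegment ℝ v b := by
        apply on_vb hdet
        · rw [detA_lin, hsA]
        · rw [detB_lin, dAb]; nlinarith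
        · rw [detB_lin, dAb]; nlinarith
      have := hA.noncross v b a c hvb hc
        (by intro h; rw [Prod.mk.injEq] at h; exact hav h.1)
        (by intro h; rw [Prod.mk.injEq] at h; exact hab h.1)
      exact Set.disjoint_left.1 this hz' hz
  · rintro c hc ⟨h1, h2⟩
    have e1 : det b v c = det v c b := by simp only [det]; ring
    have e2 : det b c a = det v a b - (det v c b + det v a c) := by simp only [det]; ring
    rw [e1] at h1
    rw [e2] at h2
    have hcV := (hA.mem _ _ hc).2.1
    rcases le_or_gt 0 (det v a c) with h | h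
    · rcases tri_empty hA hM hva hvb hdet hcons hcV h1.le h (by linarith) with h' | h' | h'
      · subst h'; rw [dAv] at h1; exact lt_irrefl _ h1
      · subst h'; rw [dAb] at h2; linarith
      · subst h'; rw [dAb] at h1; exact lt_irrefl _ h1
    · have hpos : 0 < det v a b - det v a c := by linarith
      have s0 : 0 < det v a b / (det v a b - det v a c) := by positivity
      have s1 : det v a b / (det v a b - det v a c) < 1 := (div_lt_one hpos).2 (by linarith)
      set s := det v a b / (det v a b - det v a c) with hs
      have hsB : (1 - s) * det v a b + s * det v a c = 0 := by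
        rw [hs]; field_simp; ring
      have hz : ((1 - s) * b.1 + s * c.1, (1 - s) * b.2 + s * c.2) ∈ openSegment ℝ b c :=
        os_iff.2 ⟨s, s0, s1, rfl⟩
      have hz' : ((1 - s) * b.1 + s * c.1, (1 - s) * b.2 + s * c.2) ∈ openSegment ℝ v a := by
        apply on_va hdet
        · rw [detB_lin, hsB]
        · rw [detA_lin, dAb]; nlinarith
        · rw [detA_lin, dAb]; nlinarith
      have := hA.noncross v a b c hva hc
        (by intro h; rw [Prod.mk.injEq] at h; exact hbv h.1)
        (by intro h; rw [Prod.mk.injEq] at h; exact hab h.1.symm)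
      exact Set.disjoint_left.1 this hz' hz

end Pool.Agent.Helper888
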