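import Pool.Agent.Helper888.Count6
import Pool.Agent.Helper888.Rot
import Pool.Agent.Helper888.Sector
import Pool.Agent.Helper888.Contacts
import Pool.Agent.Helper888.Rhomb
set_option autoImplicit false
open Finset
open scoped Classical Real

namespace Pool.Agent.Helper888

/-- The standing assumptions. -/
structure Cfg (V : Finset Pt) (E : Finset (Pt × Pt)) (c : ℝ) : Prop where
  hc : 1 < c
  pack : Packing V c
  sub : contacts V c ⊆ E
  adm : Adm V E
  maxl : Maxl V E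
  iso : ∀ v ∈ V, ∃ a ∈ V, a ≠ v ∧ ch v a = c

/-- neighbours of `v` -/
noncomputable def Nb (E : Finset (Pt × Pt)) (v : Pt) : Finset Pt :=
  (E.filter fun p => p.1 = v).image Prod.snd

theorem mem_Nb {E : Finset (Pt × Pt)} {v a : Pt} : a ∈ Nb E v ↔ (v, a) ∈ E := by
  unfold Nb
  simp only [mem_image, mem_filter, Prod.exists, exists_eq_right]

/-- properties of the rotation at a vertex -/
structure RotProp (N : Finset Pt) (u : Pt → ℂ) (nx : Pt → Pt) (gap : Pt → ℝ) : Prop where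
  bij : Set.BijOn nx (N : Set Pt) (N : Set Pt)
  pos : ∀ a ∈ N, 0 < gap a
  sum : ∑ a ∈ N, gap a = 2 * π
  trans : ∀ a ∈ N, ∀ b ∈ N, ∃ k : ℕ, nx^[k] a = b
  rot : ∀ a ∈ N, u (nx a) / (‖u (nx a)‖ : ℂ) =
    Complex.exp (gap a * Complex.I) * (u a / (‖u a‖ : ℂ))
  small : ∀ a ∈ N, gap a < π → 0 < ((starRingEnd ℂ) (u a) * u (nx a)).im ∧
        gap a = InnerProductGeometry.angle (u a) (u (nx a)) ∧
        ∀ c ∈ N, ¬ (0 < ((starRingEnd ℂ) (u a) * u c).im ∧
          0 < ((starRingEnd ℂ) (u c) * u (nx a)).im)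
  conv : ∀ a ∈ N, ∀ b ∈ N, 0 < ((starRingEnd ℂ) (u a) * u b).im →
        (∀ c ∈ N, ¬ (0 < ((starRingEnd ℂ) (u a) * u c).im ∧
          0 < ((starRingEnd ℂ) (u c) * u b).im)) → nx a = b ∧ gap a < π
  own : ∀ w : ℂ, ‖w‖ = 1 → ∃! a, a ∈ N ∧ Own (u a) (gap a) w

theorem dir_ne {v a : Pt} (hv : 0 < q v v) (h : a ≠ v) : dir v a ≠ 0 := by
  intro h0
  have hp := ht_pos hv
  have h1 := congrArg Complex.im h0
  have h2 := congrArg Complex.re h0
  simp only [dir, Complex.zero_im, Complex.zero_re, neg_eq_zero, mul_eq_zero] at h1 h2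
  apply h
  have h3 : a.1 = v.1 := by
    rcases h1 with (h1 | h1) | h1
    · norm_num at h1
    · exact absurd h1 hp.ne'
    · linarith
  rw [h3] at h2
  exact Prod.ext h3 (by linarith)

theorem dir_ray {v a b : Pt} (hv : 0 < q v v) {t : ℝ} (h : dir v b = (t : ℂ) * dir v a) :
    b = v + t • (a - v) := by
  have hp := ht_pos hv
  have h1 := congrArg Complex.im h
  have h2 := congrArg Complex.re h
  simp only [dir, Complex.mul_im, Complex.mul_re, Complex.ofReal_re, Complex.ofReal_im, zero_mul,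
    add_zero, sub_zero] at h1 h2
  have h3 : b.1 - v.1 = t * (a.1 - v.1) := by
    have : 2 * ht v * ((b.1 - v.1) - t * (a.1 - v.1)) = 0 := by linarith
    rcases mul_eq_zero.1 this with h | h
    · linarith
    · linarith
  have h4 : b.2 - v.2 = t * (a.2 - v.2) := by
    rw [h3] at h2; linarith
  refine Prod.ext ?_ ?_
  · simp; linarith
  · simp; linarith

theorem Cfg.arg_inj {V : Finset Pt} {E : Finset (Pt × Pt)} {c : ℝ} (h : Cfg V E c) {v : Pt}
    {a b : Pt} (ha : a ∈ Nb E v) (hb : b ∈ Nb E v)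
    (hab : (dir v a).arg = (dir v b).arg) : a = b := by
  rw [mem_Nb] at ha hb
  obtain ⟨hv, haV, hva⟩ := h.adm.mem _ _ ha
  obtain ⟨_, hbV, hvb⟩ := h.adm.mem _ _ hb
  have hq := h.pack.pos v hv
  have h1 := dir_ne hq hva.symm
  have h2 := dir_ne hq hvb.symm
  have n1 : 0 < ‖dir v a‖ := norm_pos_iff.2 h1
  have n2 : 0 < ‖dir v b‖ := norm_pos_iff.2 h2
  have e : dir v b = ((‖dir v b‖ / ‖dir v a‖ : ℝ) : ℂ) * dir v a := by
    have e1 := Complex.norm_mul_exp_arg_mul_I (dir v a)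
    have e2 := Complex.norm_mul_exp_arg_mul_I (dir v b)
    rw [← hab] at e2
    rw [← e2]
    conv_rhs => rw [← e1]
    simp only [Complex.norm_mul, Complex.norm_real, norm_norm, Complex.norm_exp_ofReal_mul_I,
      mul_one]
    push_cast
    have : (‖dir v a‖ : ℂ) ≠ 0 := by exact_mod_cast n1.ne'
    field_simp
  set t := ‖dir v b‖ / ‖dir v a‖ with ht
  have htp : 0 < t := div_pos n2 n1
  have hb' := dir_ray hq e
  rcases lt_trichotomy t 1 with ht1 | ht1 | ht1
  · exfalso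
    refine h.adm.empty _ _ ha b hbV ?_
    refine ⟨1 - t, t, by linarith, htp, by ring, ?_⟩
    rw [hb']; ext <;> simp <;> ring
  · rw [ht1] at hb'; rw [hb']; ext <;> simp
  · exfalso
    refine h.adm.empty _ _ hb a haV ?_
    refine ⟨1 - 1 / t, 1 / t, ?_, by positivity, by ring, ?_⟩
    · have : 1 / t < 1 := by rw [div_lt_one htp]; exact ht1
      linarith
    · rw [hb']; ext <;> simp <;> field_simp <;> ring

theorem Cfg.exists_rot {V : Finset Pt} {E : Finset (Pt × Pt)} {c : ℝ} (h : Cfg V E c) :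
    ∃ (nx : Pt → Pt → Pt) (gap : Pt → Pt → ℝ), ∀ v ∈ V,
      RotProp (Nb E v) (dir v) (nx v) (gap v) := by
  have : ∀ v : Pt, ∃ (p : (Pt → Pt) × (Pt → ℝ)), v ∈ V → RotProp (Nb E v) (dir v) p.1 p.2 := by
    intro v
    by_cases hv : v ∈ V
    · have hne : (Nb E v).Nonempty := by
        obtain ⟨a, ha, h1, h2⟩ := h.iso v hv
        refine ⟨a, mem_Nb.2 (h.sub ?_)⟩
        simp only [contacts, mem_filter, mem_product]
        exact ⟨⟨hv, ha⟩, h1.symm, h2⟩
      obtain ⟨nx, gap, h1, h2, h3, h4, h5, h6, h7, h8⟩ := rotation (Nb E v) hne (dir v)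
        (fun a ha => dir_ne (h.pack.pos v hv) ((h.adm.mem _ _ (mem_Nb.1 ha)).2.2).symm)
        (fun a ha b hb hab => h.arg_inj ha hb hab)
      exact ⟨(nx, gap), fun _ => ⟨h1, h2, h3, h4, h5, h6, h7, h8⟩⟩
    · exact ⟨(id, fun _ => 0), fun h => absurd h hv⟩
  choose p hp using this
  exact ⟨fun v => (p v).1, fun v => (p v).2, hp⟩

end Pool.Agent.Helper888
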