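import Pool.Agent.Helper888.Geom1
set_option autoImplicit false
open Finset
open scoped Classical Real

namespace Pool.Agent.Helper888

/-- configuration with a rotation system -/
structure RCfg (V : Finset Pt) (E : Finset (Pt × Pt)) (c : ℝ) (nx : Pt → Pt → Pt)
    (gap : Pt → Pt → ℝ) : Prop extends Cfg V E c where
  rotp : ∀ v ∈ V, RotProp (Nb E v) (dir v) (nx v) (gap v)

variable {V : Finset Pt} {E : Finset (Pt × Pt)} {c : ℝ} {nx : Pt → Pt → Pt} {gap : Pt → Pt → ℝ}

theorem conj_im_pos {v a b : Pt} (hv : 0 < q v v) :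
    0 < ((starRingEnd ℂ) (dir v a) * dir v b).im ↔ 0 < det v a b := by
  rw [dir_im]
  have := ht_pos hv
  constructor
  · intro h; by_contra hc; push Not at hc
    have : 2 * ht v * det v a b ≤ 0 := mul_nonpos_of_nonneg_of_nonpos (by linarith) hc
    linarith
  · intro h; positivity

namespace RCfg
variable (h : RCfg V E c nx gap)
include h

theorem vmem {v a : Pt} (ha : (v, a) ∈ E) : v ∈ V := (h.adm.mem _ _ ha).1
theorem qpos {v : Pt} (hv : v ∈ V) : 0 < q v v := h.pack.pos v hv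

theorem nx_mem {v a : Pt} (ha : (v, a) ∈ E) : (v, nx v a) ∈ E :=
  mem_Nb.1 ((h.rotp v (h.vmem ha)).bij.mapsTo (mem_Nb.2 ha))

theorem nx_inj {v a b : Pt} (ha : (v, a) ∈ E) (hb : (v, b) ∈ E) (hab : nx v a = nx v b) : a = b :=
  (h.rotp v (h.vmem ha)).bij.injOn (mem_Nb.2 ha) (mem_Nb.2 hb) hab

/-- the triangular cell at an inner dart -/
theorem cell {v a : Pt} (ha : (v, a) ∈ E) (hg : gap v a < π) :
    (a, nx v a) ∈ E ∧ (nx v a, v) ∈ E ∧ nx a (nx v a) = v ∧ gap a (nx v a) < π ∧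
    nx (nx v a) v = a ∧ gap (nx v a) v < π ∧ 0 < det v a (nx v a) ∧
    gap v a = hang a v (nx v a) := by
  have hv := h.vmem ha
  have R := h.rotp v hv
  obtain ⟨h1, h2, h3⟩ := R.small a (mem_Nb.2 ha) hg
  have hb := h.nx_mem ha
  set b := nx v a with hbdef
  have hdet : 0 < det v a b := (conj_im_pos (h.qpos hv)).1 h1
  obtain ⟨k1, k2, k3⟩ := sector h.adm h.maxl ha hb hdet (by
    intro c hc
    have := h3 c (mem_Nb.2 hc)
    rwa [conj_im_pos (h.qpos hv), conj_im_pos (h.qpos hv)] at this)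
  have haV := h.vmem k1
  have hbV := (h.adm.mem _ _ k1).2.1
  have hav := h.adm.symm _ _ ha
  have hbv := h.adm.symm _ _ hb
  have hba := h.adm.symm _ _ k1
  have c1 := (h.rotp a haV).conv b (mem_Nb.2 k1) v (mem_Nb.2 hav)
    ((conj_im_pos (h.qpos haV)).2 (by rw [← det_cyc]; exact hdet)) (by
      intro c hc
      rw [conj_im_pos (h.qpos haV), conj_im_pos (h.qpos haV)]
      exact k2 c (mem_Nb.1 hc))
  have c2 := (h.rotp b hbV).conv v (mem_Nb.2 hbv) a (mem_Nb.2 hba)
    ((conj_im_pos (h.qpos hbV)).2 (by rw [det_cyc]; exact hdet)) (by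
      intro c hc
      rw [conj_im_pos (h.qpos hbV), conj_im_pos (h.qpos hbV)]
      exact k3 c (mem_Nb.1 hc))
  exact ⟨k1, hbv, c1.1, c1.2, c2.1, c2.2, hdet, h2⟩

/-- number of vertical directions in the sector -/
noncomputable def Uf (gap : Pt → Pt → ℝ) (v a : Pt) : ℕ :=
  (if Own (dir v a) (gap v a) 1 then 1 else 0) + (if Own (dir v a) (gap v a) (-1) then 1 else 0)

theorem U_sum_v {v : Pt} (hv : v ∈ V) : ∑ a ∈ Nb E v, Uf gap v a = 2 := by
  unfold Uf
  have key : ∀ w : ℂ, ‖w‖ = 1 →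
      ∑ a ∈ Nb E v, (if Own (dir v a) (gap v a) w then 1 else 0) = 1 := by
    intro w hw
    obtain ⟨a, ⟨ha, hown⟩, huniq⟩ := (h.rotp v hv).own w hw
    rw [sum_eq_single_of_mem a ha]
    · simp [hown]
    · intro b hb hne
      have : ¬ Own (dir v b) (gap v b) w := fun hb' => hne (huniq b ⟨hb, hb'⟩)
      simp [this]
  rw [sum_add_distrib, key 1 (by simp), key (-1) (by simp)]

theorem U_outer {v a : Pt} (ha : (v, a) ∈ E) (hg : π ≤ gap v a) : 1 ≤ Uf gap v a := by
  have hv := h.vmem ha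
  have hne := dir_ne (h.qpos hv) (h.adm.mem _ _ ha).2.2.symm
  unfold Uf
  rcases own_or_neg (w := 1) hne (by simp) hg with h1 | h1
  · simp [h1]
  · simp [h1]

theorem U_corner {v a : Pt} (ha : (v, a) ∈ E) (hg : gap v a < π)
    (hx : ((nx v a).1 < v.1 ∧ v.1 ≤ a.1) ∨ (a.1 ≤ v.1 ∧ v.1 < (nx v a).1)) :
    1 ≤ Uf gap v a := by
  have hv := h.vmem ha
  have hht := ht_pos (h.qpos hv)
  have hne := dir_ne (h.qpos hv) (h.adm.mem _ _ ha).2.2.symm
  have R := h.rotp v hv
  have hpos := R.pos a (mem_Nb.2 ha)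
  have hrot := R.rot a (mem_Nb.2 ha)
  unfold Uf
  rcases hx with ⟨h1, h2⟩ | ⟨h1, h2⟩
  · have : Own (dir v a) (gap v a) 1 := by
      refine own_of_im hne (by simp) hpos hg hrot ?_ ?_
      · simp only [dir, mul_one, Complex.conj_im, neg_neg]
        have : 0 ≤ a.1 - v.1 := by linarith
        positivity
      · simp only [dir, map_one, one_mul]
        have : 0 < v.1 - (nx v a).1 := by linarith
        have h3 : 0 < 2 * ht v * (v.1 - (nx v a).1) := by positivity
        linarith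
    simp [this]
  · have : Own (dir v a) (gap v a) (-1) := by
      refine own_of_im hne (by simp) hpos hg hrot ?_ ?_
      · simp only [dir, mul_neg, mul_one, Complex.neg_im, Complex.conj_im, neg_neg]
        have : 0 ≤ v.1 - a.1 := by linarith
        have h3 : 0 ≤ 2 * ht v * (v.1 - a.1) := by positivity
        linarith
      · simp only [dir, map_neg, map_one, neg_mul, one_mul, Complex.neg_im, neg_neg]
        have : 0 < (nx v a).1 - v.1 := by linarith
        positivity
    simp [this]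

theorem U_inner {v a : Pt} (ha : (v, a) ∈ E) (hg : gap v a < π) :
    1 ≤ Uf gap v a + Uf gap a (nx v a) + Uf gap (nx v a) v := by
  obtain ⟨k1, k2, k3, k4, k5, k6, hdet, _⟩ := h.cell ha hg
  have u1 := h.U_corner ha hg
  have u2 := h.U_corner k1 k4
  have u3 := h.U_corner k2 k6
  rw [k3] at u2
  rw [k5] at u3
  set b := nx v a
  by_contra hcon
  push Not at hcon
  have n1 : ¬ ((b.1 < v.1 ∧ v.1 ≤ a.1) ∨ (a.1 ≤ v.1 ∧ v.1 < b.1)) := fun hx => by
    have := u1 hx; omega
  have n2 : ¬ ((v.1 < a.1 ∧ a.1 ≤ b.1) ∨ (b.1 ≤ a.1 ∧ a.1 < v.1)) := fun hx => by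
    have := u2 hx; omega
  have n3 : ¬ ((a.1 < b.1 ∧ b.1 ≤ v.1) ∨ (v.1 ≤ b.1 ∧ b.1 < a.1)) := fun hx => by
    have := u3 hx; omega
  push Not at n1 n2 n3
  have e1 : v.1 = a.1 := by
    rcases lt_trichotomy v.1 a.1 with h1 | h1 | h1
    · exfalso
      have h2 := n2.1 h1
      rcases lt_or_ge v.1 b.1 with h3 | h3
      · have := n3.2 h3.le; linarith
      · rcases eq_or_lt_of_le h3 with h4 | h4
        · have := n3.2 h4.ge; linarith
        · have := n1.1 h4; linarith
    · exact h1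
    · exfalso
      rcases lt_or_ge a.1 b.1 with h3 | h3
      · rcases le_or_gt b.1 v.1 with h4 | h4
        · have := n3.1 h3; linarith
        · have := n1.2 h1.le; linarith
      · have := n2.2 h3; linarith
  have e2 : b.1 = v.1 := by
    rcases lt_trichotomy v.1 b.1 with h1 | h1 | h1
    · exfalso; have := n1.2 (by linarith); linarith
    · exact h1.symm
    · exfalso; have := n1.1 h1; linarith
  have : det v a b = 0 := by unfold det; rw [← e1, e2]; ring
  linarith

end RCfg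
end Pool.Agent.Helper888
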