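import Pool.Agent.Helper888.Geom2
set_option autoImplicit false
open Finset
open scoped Classical Real

namespace Pool.Agent.Helper888
variable {V : Finset Pt} {E : Finset (Pt × Pt)} {c : ℝ} {nx : Pt → Pt → Pt} {gap : Pt → Pt → ℝ}

namespace RCfg
variable (h : RCfg V E c nx gap)

/-- the rotation as a permutation of the darts -/
noncomputable def sig : Equiv.Perm {p : Pt × Pt // p ∈ E} :=
  Equiv.ofBijective (fun p => ⟨(p.1.1, nx p.1.1 p.1.2), h.nx_mem (v := p.1.1) (a := p.1.2) p.2⟩) (by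
    rw [← Finite.injective_iff_bijective]
    rintro ⟨⟨v, a⟩, hp⟩ ⟨⟨w, b⟩, hq⟩ heq
    simp only [Subtype.mk.injEq, Prod.mk.injEq] at heq ⊢
    obtain ⟨rfl, h2⟩ := heq
    exact ⟨rfl, h.nx_inj hp hq h2⟩)

/-- reversal of darts -/
def rev : Equiv.Perm {p : Pt × Pt // p ∈ E} :=
  Function.Involutive.toPerm (fun p => ⟨(p.1.2, p.1.1), h.adm.symm _ _ p.2⟩) (by
    rintro ⟨⟨v, a⟩, hp⟩; rfl)

theorem sig_mk {v a : Pt} (ha : (v, a) ∈ E) : h.sig ⟨(v, a), ha⟩ = ⟨(v, nx v a), h.nx_mem ha⟩ := rfl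
theorem rev_mk {v a : Pt} (ha : (v, a) ∈ E) : h.rev ⟨(v, a), ha⟩ = ⟨(a, v), h.adm.symm _ _ ha⟩ := rfl

theorem mk_eq {v a w b : Pt} (ha : (v, a) ∈ E) (hb : (w, b) ∈ E) (h1 : v = w) (h2 : a = b) :
    (⟨(v, a), ha⟩ : {p : Pt × Pt // p ∈ E}) = ⟨(w, b), hb⟩ := by subst h1; subst h2; rfl

theorem phi_mk {v a : Pt} (ha : (v, a) ∈ E) (hg : gap v a < π) :
    (h.sig⁻¹ * h.rev) ⟨(v, a), ha⟩ = ⟨(a, nx v a), (h.cell ha hg).1⟩ := by
  obtain ⟨k1, k2, k3, k4, k5, k6, hdet, _⟩ := h.cell ha hg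
  rw [Equiv.Perm.mul_apply, Equiv.Perm.inv_eq_iff_eq, h.rev_mk, h.sig_mk]
  exact mk_eq _ _ rfl k3.symm

theorem fiber_sum {β : Type*} [AddCommMonoid β] (F : Pt → Pt → β) (v : Pt) :
    ∑ d : {p : Pt × Pt // p ∈ E} with d.1.1 = v, F d.1.1 d.1.2 = ∑ a ∈ Nb E v, F v a := by
  refine sum_bij' (fun d _ => d.1.2) (fun a ha => ⟨(v, a), mem_Nb.1 ha⟩) ?_ ?_ ?_ ?_ ?_
  · rintro ⟨⟨w, b⟩, hp⟩ hd
    simp only [mem_filter, mem_univ, true_and] at hd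
    subst hd
    exact mem_Nb.2 hp
  · intro a ha; simp
  · rintro ⟨⟨w, b⟩, hp⟩ hd
    simp only [mem_filter, mem_univ, true_and] at hd
    subst hd; rfl
  · intro a ha; rfl
  · rintro ⟨⟨w, b⟩, hp⟩ hd
    simp only [mem_filter, mem_univ, true_and] at hd
    subst hd; rfl

theorem iter_sig {v a : Pt} (ha : (v, a) ∈ E) (k : ℕ) :
    ∃ hk : (v, (nx v)^[k] a) ∈ E, (h.sig ^ k) ⟨(v, a), ha⟩ = ⟨(v, (nx v)^[k] a), hk⟩ := by
  induction k with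
  | zero => exact ⟨ha, rfl⟩
  | succ k ih =>
    obtain ⟨hk, e⟩ := ih
    have e2 : (nx v)^[k + 1] a = nx v ((nx v)^[k] a) := Function.iterate_succ_apply' _ _ _
    refine ⟨by rw [e2]; exact h.nx_mem hk, ?_⟩
    rw [pow_succ', Equiv.Perm.mul_apply, e, h.sig_mk]
    exact mk_eq _ _ rfl e2.symm

/-- the combinatorial map of the configuration -/
noncomputable def map : CMap {p : Pt × Pt // p ∈ E} {v : Pt // v ∈ V} where
  σ := h.sig
  τ := h.rev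
  tail d := ⟨d.1.1, h.vmem (a := d.1.2) d.2⟩
  C := univ.filter fun d => ch d.1.1 d.1.2 = c
  g d := 3 / π * gap d.1.1 d.1.2
  inner d := gap d.1.1 d.1.2 < π
  U d := Uf gap d.1.1 d.1.2
  τ_inv := by rintro ⟨⟨v, a⟩, hp⟩; rfl
  τ_ne := by
    rintro ⟨⟨v, a⟩, hp⟩ heq
    rw [h.rev_mk] at heq
    simp only [Subtype.mk.injEq] at heq
    exact (h.adm.mem _ _ hp).2.2 heq.symm
  tail_σ := by rintro ⟨⟨v, a⟩, hp⟩; rfl
  cyc := by
    rintro ⟨⟨v, a⟩, hp⟩ ⟨⟨w, b⟩, hq⟩ heq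
    simp only [Subtype.mk.injEq] at heq
    subst heq
    obtain ⟨k, hk⟩ := (h.rotp v (h.vmem hp)).trans a (mem_Nb.2 hp) b (mem_Nb.2 hq)
    obtain ⟨hk', e⟩ := h.iter_sig hp k
    exact ⟨k, by rw [e]; exact mk_eq _ _ rfl hk⟩
  C_τ := by
    rintro ⟨⟨v, a⟩, hp⟩ hd
    simp only [mem_filter, mem_univ, true_and] at hd ⊢
    rw [h.rev_mk]
    simp only
    rw [ch_comm]; exact hd
  surj := by
    rintro ⟨v, hv⟩
    obtain ⟨a, ha, h1, h2⟩ := h.iso v hv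
    refine ⟨⟨(v, a), h.sub ?_⟩, ?_, rfl⟩
    · simp only [contacts, mem_filter, mem_product]
      exact ⟨⟨hv, ha⟩, h1.symm, h2⟩
    · simp [h2]
  g_pos := by
    rintro ⟨⟨v, a⟩, hp⟩
    have := (h.rotp v (h.vmem hp)).pos a (mem_Nb.2 hp)
    have hpi := Real.pi_pos
    simp only
    positivity
  g_sum := by
    rintro ⟨v, hv⟩
    refine (sum_congr (s₂ := univ.filter fun d : {p : Pt × Pt // p ∈ E} => d.1.1 = v)
      (by ext d; simp) fun _ _ => rfl).trans ?_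
    rw [fiber_sum (fun v a => 3 / π * gap v a) v, ← mul_sum, (h.rotp v hv).sum]
    field_simp
    norm_num
  inner_φ := by
    rintro ⟨⟨v, a⟩, hp⟩ hd
    simp only at hd
    rw [h.phi_mk hp hd]
    exact (h.cell hp hd).2.2.2.1
  φ3 := by
    rintro ⟨⟨v, a⟩, hp⟩ hd
    simp only at hd
    obtain ⟨k1, k2, k3, k4, k5, k6, hdet, _⟩ := h.cell hp hd
    rw [h.phi_mk hp hd, h.phi_mk k1 k4]
    have e : (⟨(nx v a, nx a (nx v a)), (h.cell k1 k4).1⟩ : {p : Pt × Pt // p ∈ E}) =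
      ⟨(nx v a, v), k2⟩ := mk_eq _ _ rfl k3
    rw [e, h.phi_mk k2 k6]
    exact mk_eq _ _ rfl k5
  U_sum := by
    rw [← sum_fiberwise_of_maps_to (s := univ) (t := V)
      (g := fun d : {p : Pt × Pt // p ∈ E} => d.1.1) (fun d _ => h.vmem (a := d.1.2) d.2)]
    have : ∀ v ∈ V, ∑ d : {p : Pt × Pt // p ∈ E} with d.1.1 = v, Uf gap d.1.1 d.1.2 = 2 := by
      intro v hv
      rw [fiber_sum (fun v a => Uf gap v a) v, h.U_sum_v hv]
    rw [sum_congr rfl this]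
    simp [mul_comm]
  U_outer := by
    rintro ⟨⟨v, a⟩, hp⟩ hd
    simp only [not_lt] at hd ⊢
    exact h.U_outer hp hd
  U_inner := by
    rintro ⟨⟨v, a⟩, hp⟩ hd
    simp only at hd
    obtain ⟨k1, k2, k3, k4, k5, k6, hdet, _⟩ := h.cell hp hd
    rw [h.phi_mk hp hd, h.phi_mk k1 k4]
    simp only
    rw [k3]
    exact h.U_inner hp hd

end RCfg
end Pool.Agent.Helper888
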