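import Pool.Agent.Helper888.Rhomb
set_option autoImplicit false
open Complex
namespace Pool.Agent.Helper888
noncomputable section
namespace HB

theorem hang_tri (A V B C : Pt) : hang A V C ≤ hang A V B + hang B V C := by
  unfold hang
  exact InnerProductGeometry.angle_le_angle_add_angle _ _ _

theorem ne_of_ch {x y : Pt} {c : ℝ} (hc : 1 < c) (hx : 0 < q x x) (h : ch x y = c) : x ≠ y := by
  rintro rfl
  rw [ch_self hx] at h
  linarith

theorem hle {V : Finset Pt} {c : ℝ} (hc : 1 < c) (hV : Packing V c) {x v y : Pt}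
    (hx : x ∈ V) (hv : v ∈ V) (hy : y ∈ V) (hxy : ch x y = c) (h1 : v ≠ x) (h2 : v ≠ y) :
    hang x v y ≤ alf c :=
  hang_le_alf hc (hV.pos v hv) (hV.pos x hx) (hV.pos y hy) hxy (hV.sep v hv x hx h1)
    (hV.sep v hv y hy h2)

/-- TARGET 0 -/
theorem ch_le_two {c : ℝ} (hc : 1 < c) {v a w : Pt} (hv : 0 < q v v) (ha : 0 < q a a)
    (hw : 0 < q w w) (h1 : ch v w = c) (h2 : ch w a = c) : ch v a ≤ 2 * c ^ 2 - 1 := by
  by_cases hva : v = a
  · subst hva
    rw [ch_self hv]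
    nlinarith
  · have hvw : v ≠ w := ne_of_ch hc hv h1
    have hwa : w ≠ a := ne_of_ch hc hw h2
    have h3 := cos_hang (V := w) (A := v) (B := a) hw hv ha hvw hwa.symm
    have h4 := Real.neg_one_le_cos (hang v w a)
    rw [h3, ch_comm w v, h1, h2] at h4
    have h5 : 0 < c ^ 2 - 1 := by nlinarith
    rw [Real.mul_self_sqrt h5.le, le_div_iff₀ h5] at h4
    nlinarith

/-- TARGET 1: angles of a rhombus `v a b w` (sides `ab, bv, vw, wa`) -/
theorem quad_bound {V : Finset Pt} {c : ℝ} (hc : 1 < c) (hV : Packing V c) {v a b w : Pt}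
    (hv : v ∈ V) (ha : a ∈ V) (hb : b ∈ V) (hw : w ∈ V) (hva : v ≠ a) (hbw : b ≠ w)
    (hab : ch a b = c) (hbv : ch b v = c) (hvw : ch v w = c) (hwa : ch w a = c) :
    hang v b a ≤ 2 * alf c ∧ hang b a v + hang v a w ≤ 2 * alf c := by
  have nab : a ≠ b := ne_of_ch hc (hV.pos a ha) hab
  have nbv : b ≠ v := ne_of_ch hc (hV.pos b hb) hbv
  have nvw : v ≠ w := ne_of_ch hc (hV.pos v hv) hvw
  have nwa : w ≠ a := ne_of_ch hc (hV.pos w hw) hwa
  constructor
  · have h1 := hang_tri v b w a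
    have h2 := hle hc hV hv hb hw hvw nbv hbw
    have h3 := hle hc hV hw hb ha hwa hbw nab.symm
    linarith
  · have h2 := hle hc hV hb ha hv hbv nab hva.symm
    have h3 := hle hc hV hv ha hw hvw hva.symm nwa.symm
    linarith

/-- TARGET 2: angles of a pentagon `v w a w' b` (sides `vw, wa, aw', w'b, bv`) -/
theorem pent_le {V : Finset Pt} {c : ℝ} (hc : 1 < c) (hV : Packing V c) {v a b w w' : Pt}
    (hv : v ∈ V) (ha : a ∈ V) (hb : b ∈ V) (hw : w ∈ V) (hw' : w' ∈ V) (hva : v ≠ a)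
    (hab : a ≠ b) (hwb : w ≠ b) (hw'v : w' ≠ v) (hvw : ch v w = c)
    (hwa : ch w a = c) (haw' : ch a w' = c) (hw'b : ch w' b = c) (hbv : ch b v = c) :
    hang w v a + hang a v b ≤ 3 * alf c ∧
    hang w' a b + hang b a v + hang v a w ≤ 3 * alf c ∧
    hang v b a + hang a b w' ≤ 3 * alf c ∧
    (w ≠ w' → hang a w v ≤ 3 * alf c ∧ hang b w' a ≤ 3 * alf c) := by
  have nvw : v ≠ w := ne_of_ch hc (hV.pos v hv) hvw
  have nwa : w ≠ a := ne_of_ch hc (hV.pos w hw) hwa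
  have naw' : a ≠ w' := ne_of_ch hc (hV.pos a ha) haw'
  have nw'b : w' ≠ b := ne_of_ch hc (hV.pos w' hw') hw'b
  have nbv : b ≠ v := ne_of_ch hc (hV.pos b hb) hbv
  refine ⟨?_, ?_, ?_, fun nww' => ⟨?_, ?_⟩⟩
  · have h1 := hle hc hV hw hv ha hwa nvw hva
    have h2 := hang_tri a v w' b
    have h3 := hle hc hV ha hv hw' haw' hva hw'v.symm
    have h4 := hle hc hV hw' hv hb hw'b hw'v.symm nbv.symm
    linarith
  · have h1 := hle hc hV hw' ha hb hw'b naw' hab
    have h2 := hle hc hV hb ha hv hbv hab hva.symm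
    have h3 := hle hc hV hv ha hw hvw hva.symm nwa.symm
    linarith
  · have h1 := hang_tri v b w a
    have h2 := hle hc hV hv hb hw hvw nbv hwb.symm
    have h3 := hle hc hV hw hb ha hwa hwb.symm hab.symm
    have h4 := hle hc hV ha hb hw' haw' hab.symm nw'b.symm
    linarith
  · have h1 := hang_tri a w w' v
    have h2 := hang_tri w' w b v
    have h3 := hle hc hV ha hw hw' haw' nwa nww'
    have h4 := hle hc hV hw' hw hb hw'b nww' hwb
    have h5 := hle hc hV hb hw hv hbv hwb nvw.symm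
    linarith
  · have h1 := hang_tri b w' v a
    have h2 := hang_tri v w' w a
    have h3 := hle hc hV hb hw' hv hbv nw'b hw'v
    have h4 := hle hc hV hv hw' hw hvw hw'v nww'.symm
    have h5 := hle hc hV hw hw' ha hwa nww'.symm naw'.symm
    linarith

theorem floor_le_two {c t : ℝ} (hc : 1 < c) (ht : t ≤ 3 * alf c) : ⌊3 / Real.pi * t⌋ ≤ 2 := by
  have h1 := alf_lt hc
  have hpi := Real.pi_pos
  have h2 : 3 / Real.pi * t < 3 := by
    rw [div_mul_eq_mul_div, div_lt_iff₀ hpi]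
    linarith
  have h3 : ⌊3 / Real.pi * t⌋ < 3 := by
    rw [Int.floor_lt]
    exact_mod_cast h2
  omega

theorem floor_ge_two {t : ℝ} (ht : 2 ≤ ⌊3 / Real.pi * t⌋) : 2 * Real.pi / 3 ≤ t := by
  have hpi := Real.pi_pos
  rw [Int.le_floor] at ht
  push_cast at ht
  rw [div_mul_eq_mul_div, le_div_iff₀ hpi] at ht
  linarith

/-- TARGET 3 -/
theorem pent_floor {V : Finset Pt} {c : ℝ} (hc : 1 < c) (hV : Packing V c) {v a b w w' : Pt}
    (hv : v ∈ V) (ha : a ∈ V) (hb : b ∈ V) (hw : w ∈ V) (hw' : w' ∈ V) (hva : v ≠ a)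
    (hab : a ≠ b) (hwb : w ≠ b) (hw'v : w' ≠ v) (hww' : w ≠ w') (hvw : ch v w = c)
    (hwa : ch w a = c) (haw' : ch a w' = c) (hw'b : ch w' b = c) (hbv : ch b v = c)
    (e0 : hang w v a + hang a v b = hang w v b)
    (e2 : hang w' a b + hang b a v + hang v a w = hang w' a w)
    (e4 : hang v b a + hang a b w' = hang v b w') :
    ⌊3 / Real.pi * (hang w v a + hang a v b)⌋ + ⌊3 / Real.pi * hang a w v⌋ +
      ⌊3 / Real.pi * (hang w' a b + hang b a v + hang v a w)⌋ +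
      ⌊3 / Real.pi * hang b w' a⌋ + ⌊3 / Real.pi * (hang v b a + hang a b w')⌋ ≤ 7 := by
  obtain ⟨h0, h2, h4, h13⟩ := pent_le hc hV hv ha hb hw hw' hva hab hwb hw'v hvw hwa haw' hw'b hbv
  obtain ⟨h1, h3⟩ := h13 hww'
  have f0 := floor_le_two hc h0
  have f1 := floor_le_two hc h1
  have f2 := floor_le_two hc h2
  have f3 := floor_le_two hc h3
  have f4 := floor_le_two hc h4
  have pv := hV.pos v hv
  have pa := hV.pos a ha
  have pb := hV.pos b hb
  have pw := hV.pos w hw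
  have pw' := hV.pos w' hw'
  have a12 : ¬ (2 ≤ ⌊3 / Real.pi * hang a w v⌋ ∧
      2 ≤ ⌊3 / Real.pi * (hang w' a b + hang b a v + hang v a w)⌋) := by
    rintro ⟨x1, x2⟩
    apply pent_adj hc pv pw pa pw' pb hvw hwa haw' hw'b hbv
    refine ⟨?_, ?_⟩
    · rw [hang_comm v w a]; exact floor_ge_two x1
    · rw [hang_comm w a w', ← e2]; exact floor_ge_two x2
  have a23 : ¬ (2 ≤ ⌊3 / Real.pi * (hang w' a b + hang b a v + hang v a w)⌋ ∧
      2 ≤ ⌊3 / Real.pi * hang b w' a⌋) := by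
    rintro ⟨x1, x2⟩
    apply pent_adj hc pw pa pw' pb pv hwa haw' hw'b hbv hvw
    refine ⟨?_, ?_⟩
    · rw [hang_comm w a w', ← e2]; exact floor_ge_two x1
    · rw [hang_comm a w' b]; exact floor_ge_two x2
  have a34 : ¬ (2 ≤ ⌊3 / Real.pi * hang b w' a⌋ ∧
      2 ≤ ⌊3 / Real.pi * (hang v b a + hang a b w')⌋) := by
    rintro ⟨x1, x2⟩
    apply pent_adj hc pa pw' pb pv pw haw' hw'b hbv hvw hwa
    refine ⟨?_, ?_⟩
    · rw [hang_comm a w' b]; exact floor_ge_two x1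
    · rw [hang_comm w' b v, ← e4]; exact floor_ge_two x2
  have a40 : ¬ (2 ≤ ⌊3 / Real.pi * (hang v b a + hang a b w')⌋ ∧
      2 ≤ ⌊3 / Real.pi * (hang w v a + hang a v b)⌋) := by
    rintro ⟨x1, x2⟩
    apply pent_adj hc pw' pb pv pw pa hw'b hbv hvw hwa haw'
    refine ⟨?_, ?_⟩
    · rw [hang_comm w' b v, ← e4]; exact floor_ge_two x1
    · rw [hang_comm b v w, ← e0]; exact floor_ge_two x2
  have a01 : ¬ (2 ≤ ⌊3 / Real.pi * (hang w v a + hang a v b)⌋ ∧
      2 ≤ ⌊3 / Real.pi * hang a w v⌋) := by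
    rintro ⟨x1, x2⟩
    apply pent_adj hc pb pv pw pa pw' hbv hvw hwa haw' hw'b
    refine ⟨?_, ?_⟩
    · rw [hang_comm b v w, ← e0]; exact floor_ge_two x1
    · rw [hang_comm v w a]; exact floor_ge_two x2
  omega

end HB
end
end Pool.Agent.Helper888
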