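import Pool.Agent.Helper888.Geom3
import Pool.Agent.Helper888.Quad
set_option autoImplicit false
open Finset
open scoped Classical Real

namespace Pool.Agent.Helper888

/-- If `u'` is obtained from `u` by rotation by `θ ∈ [0, π]`, the angle is `θ`. -/
theorem angle_of_rot {u u' : ℂ} (hu : u ≠ 0) (hu' : u' ≠ 0) {θ : ℝ} (h0 : 0 ≤ θ) (h1 : θ ≤ π)
    (h : u' / (‖u'‖ : ℂ) = Complex.exp (θ * Complex.I) * (u / (‖u‖ : ℂ))) :
    InnerProductGeometry.angle u u' = θ := by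
  have n1 : (0 : ℝ) < ‖u‖ := norm_pos_iff.2 hu
  have n2 : (0 : ℝ) < ‖u'‖ := norm_pos_iff.2 hu'
  have e1 : (‖u‖ : ℂ) ≠ 0 := by exact_mod_cast n1.ne'
  have hre : ((starRingEnd ℂ) u * u').re = ‖u‖ * ‖u'‖ * Real.cos θ := by
    obtain ⟨m, hm⟩ : ∃ m : ℝ, m = ‖u'‖ := ⟨_, rfl⟩
    rw [← hm] at h n2 ⊢
    have e2 : (m : ℂ) ≠ 0 := by exact_mod_cast n2.ne'
    have h2 : u' = ((m / ‖u‖ : ℝ) : ℂ) * (Complex.exp (θ * Complex.I) * u) := by
      rw [div_eq_iff e2] at h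
      rw [h]; push_cast; field_simp
    have e3 : (starRingEnd ℂ) u * u = ((‖u‖ ^ 2 : ℝ) : ℂ) := by
      rw [mul_comm, Complex.mul_conj, Complex.normSq_eq_norm_sq]
    have e4 : (starRingEnd ℂ) u * u' =
        ((m / ‖u‖ * ‖u‖ ^ 2 : ℝ) : ℂ) * Complex.exp (θ * Complex.I) := by
      rw [h2]
      have : (starRingEnd ℂ) u * (((m / ‖u‖ : ℝ) : ℂ) * (Complex.exp (θ * Complex.I) * u)) =
        ((m / ‖u‖ : ℝ) : ℂ) * ((starRingEnd ℂ) u * u) * Complex.exp (θ * Complex.I) := by ring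
      rw [this, e3]; push_cast; ring
    rw [e4, Complex.re_ofReal_mul, Complex.exp_ofReal_mul_I_re]
    field_simp
  unfold InnerProductGeometry.angle
  have hin : inner ℝ u u' = ((starRingEnd ℂ) u * u').re := by
    rw [Complex.inner]
    try rw [mul_comm]
  rw [hin, hre]
  have : ‖u‖ * ‖u'‖ * Real.cos θ / (‖u‖ * ‖u'‖) = Real.cos θ := by field_simp
  rw [this, Real.arccos_cos h0 h1]

theorem rot_comp {z1 z2 z3 : ℂ} {s t : ℝ} (h1 : z2 = Complex.exp (s * Complex.I) * z1)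
    (h2 : z3 = Complex.exp (t * Complex.I) * z2) :
    z3 = Complex.exp (((s + t : ℝ) : ℂ) * Complex.I) * z1 := by
  rw [h2, h1, ← mul_assoc, ← Complex.exp_add]; congr 2; push_cast; ring

theorem rot_ne {u : ℂ} (hu : u ≠ 0) {θ : ℝ} (h0 : 0 < θ) (h1 : θ < π)
    (h : u / (‖u‖ : ℂ) = Complex.exp (θ * Complex.I) * (u / (‖u‖ : ℂ))) : False := by
  have := angle_of_rot hu hu h0.le h1.le h
  rw [InnerProductGeometry.angle_self hu] at this
  linarith

theorem small_aux {x t η : ℝ} (h0 : 0 ≤ x) (h1 : x ≤ π / 2) (h2 : Real.sin x ^ 2 ≤ t)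
    (h3 : 2 * Real.arcsin (Real.sqrt t) < η) : 2 * x < η := by
  have hs : Real.sin x ≤ Real.sqrt t := Real.le_sqrt_of_sq_le h2
  have := Real.monotone_arcsin hs
  rw [Real.arcsin_sin (by linarith) h1] at this
  linarith

/-- smallness assumptions on `c` -/
structure Small (c η : ℝ) : Prop where
  η_pos : 0 < η
  s1 : 2 * Real.arcsin (Real.sqrt ((c - 1) / 2)) < η
  s2 : 2 * Real.arcsin (Real.sqrt (c ^ 2 - 1)) < η

variable {V : Finset Pt} {E : Finset (Pt × Pt)} {c : ℝ} {nx : Pt → Pt → Pt} {gap : Pt → Pt → ℝ}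

namespace RCfg
variable (h : RCfg V E c nx gap)

theorem φ_mk {v a : Pt} (ha : (v, a) ∈ E) (hg : gap v a < π) :
    h.map.φ ⟨(v, a), ha⟩ = ⟨(a, nx v a), (h.cell ha hg).1⟩ := h.phi_mk ha hg

theorem φφ_mk {v a : Pt} (ha : (v, a) ∈ E) (hg : gap v a < π) :
    h.map.φ (h.map.φ ⟨(v, a), ha⟩) = ⟨(nx v a, v), (h.cell ha hg).2.1⟩ := by
  obtain ⟨k1, k2, k3, k4, k5, k6, hdet, _⟩ := h.cell ha hg
  rw [h.φ_mk ha hg, h.φ_mk k1 k4]
  exact mk_eq _ _ rfl k3

theorem τ_mk {v a : Pt} (ha : (v, a) ∈ E) :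
    h.map.τ ⟨(v, a), ha⟩ = ⟨(a, v), h.adm.symm _ _ ha⟩ := rfl

theorem inner_mk {v a : Pt} (ha : (v, a) ∈ E) :
    h.map.inner ⟨(v, a), ha⟩ ↔ gap v a < π := Iff.rfl

theorem g_mk {v a : Pt} (ha : (v, a) ∈ E) : h.map.g ⟨(v, a), ha⟩ = 3 / π * gap v a := rfl

theorem C_mk {v a : Pt} (ha : (v, a) ∈ E) : (⟨(v, a), ha⟩ ∈ h.map.C) ↔ ch v a = c := by
  unfold map; simp

include h in
theorem gaps {v a : Pt} (ha : (v, a) ∈ E) (hg : gap v a < π) :
    gap v a = hang a v (nx v a) ∧ gap a (nx v a) = hang (nx v a) a v ∧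
    gap (nx v a) v = hang v (nx v a) a := by
  obtain ⟨k1, k2, k3, k4, k5, k6, hdet, e⟩ := h.cell ha hg
  refine ⟨e, ?_, ?_⟩
  · have := (h.cell k1 k4).2.2.2.2.2.2.2
    rwa [k3] at this
  · have := (h.cell k2 k6).2.2.2.2.2.2.2
    rwa [k5] at this

theorem s3_mk {v a : Pt} (ha : (v, a) ∈ E) (hg : gap v a < π) :
    h.map.s3 ⟨(v, a), ha⟩ =
      3 / π * (hang a v (nx v a) + hang v (nx v a) a + hang (nx v a) a v) := by
  obtain ⟨g1, g2, g3⟩ := h.gaps ha hg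
  unfold CMap.s3
  rw [h.φφ_mk ha hg, h.φ_mk ha hg, h.g_mk, h.g_mk, h.g_mk, g1, g2, g3]
  ring

theorem defect {v a : Pt} (ha : (v, a) ∈ E) (hg : gap v a < π) {η t : ℝ}
    (ht : (ch v a - 1) / 2 ≤ t) (h3 : 2 * Real.arcsin (Real.sqrt t) < η) :
    3 - η ≤ h.map.s3 ⟨(v, a), ha⟩ := by
  obtain ⟨k1, k2, k3, k4, k5, k6, hdet, _⟩ := h.cell ha hg
  have hv := h.qpos (h.vmem ha)
  have ha' := h.qpos (h.vmem k1)
  have hb' := h.qpos (h.vmem k2)
  obtain ⟨s1, s2⟩ := hang_sum hv ha' hb' hdet.ne'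
  rw [h.s3_mk ha hg]
  set S := hang a v (nx v a) + hang v (nx v a) a + hang (nx v a) a v
  have hS0 : 0 ≤ S := by
    have := hang_nonneg a v (nx v a); have := hang_nonneg v (nx v a) a
    have := hang_nonneg (nx v a) a v
    positivity
  have hpi := Real.pi_gt_three
  have := small_aux (x := (π - S) / 2) (by linarith) (by linarith) (s2.trans ht) h3
  have h4 : π - η < S := by linarith
  have h5 : 3 / π * (π - η) ≤ 3 / π * S := by gcongr
  have h6 : 3 - η ≤ 3 / π * (π - η) := by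
    have : 3 / π * (π - η) = 3 - 3 / π * η := by field_simp
    rw [this]
    have hη : 0 ≤ η := by
      have := Real.arcsin_nonneg.2 (Real.sqrt_nonneg t)
      linarith
    have h7 : 3 / π ≤ 1 := by rw [div_le_one (by positivity)]; linarith
    have : 3 / π * η ≤ 1 * η := by gcongr
    linarith
  linarith

theorem lt_units {x k : ℝ} (hx : x < k * π / 3) : 3 / π * x < k := by
  have hpi := Real.pi_pos
  have : 3 / π * x < 3 / π * (k * π / 3) := by gcongr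
  have e : 3 / π * (k * π / 3) = k := by field_simp
  linarith

theorem geo {η : ℝ} (hs : Small c η) : h.map.Geo η where
  η0 := hs.η_pos.le
  small1 := by
    rintro ⟨⟨v, a⟩, hp⟩ hin hC
    rw [h.C_mk] at hC
    rw [h.inner_mk] at hin
    exact h.defect hp hin (by rw [hC]) hs.s1
  small2 := by
    rintro ⟨⟨v, a⟩, hp⟩ hin hin' h1 h2
    rw [h.τ_mk, h.inner_mk] at hin'
    rw [h.inner_mk] at hin
    rw [h.τ_mk, h.φ_mk _ hin', h.C_mk] at h1
    rw [h.τ_mk, h.φφ_mk _ hin', h.C_mk] at h2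
    have hav := h.adm.symm _ _ hp
    obtain ⟨k1, k2, _⟩ := h.cell hav hin'
    have := HB.ch_le_two h.hc (h.qpos (h.vmem k1)) (h.qpos (h.vmem hav)) (h.qpos (h.vmem k2)) h1 h2
    exact h.defect hp hin (t := c ^ 2 - 1) (by linarith) hs.s2
  lt3 := by
    rintro ⟨⟨v, a⟩, hp⟩ hin
    rw [h.inner_mk] at hin
    obtain ⟨k1, k2, k3, k4, k5, k6, hdet, _⟩ := h.cell hp hin
    obtain ⟨s1, _⟩ := hang_sum (h.qpos (h.vmem hp)) (h.qpos (h.vmem k1)) (h.qpos (h.vmem k2)) hdet.ne'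
    rw [h.s3_mk hp hin]
    exact lt_units (by linarith)
  tri := by
    rintro ⟨⟨v, a⟩, hp⟩ hin h1 h2 h3
    rw [h.inner_mk] at hin
    rw [h.C_mk] at h1
    rw [h.φ_mk _ hin, h.C_mk] at h2
    rw [h.φφ_mk _ hin, h.C_mk] at h3
    obtain ⟨k1, k2, k3, k4, k5, k6, hdet, _⟩ := h.cell hp hin
    rw [h.g_mk, (h.gaps hp hin).1, hang_eq_alf h.hc (h.qpos (h.vmem hp)) (h.qpos (h.vmem k1))
      (h.qpos (h.vmem k2)) h2 h1 (by rw [ch_comm]; exact h3)]
    have := alf_lt h.hc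
    exact lt_units (by linarith)
  rh := by
    rintro ⟨⟨v, a⟩, hp⟩ hin hin' _ h1 h2 h3 h4
    rw [h.τ_mk, h.inner_mk] at hin'
    rw [h.inner_mk] at hin
    rw [h.φ_mk _ hin, h.C_mk] at h1
    rw [h.φφ_mk _ hin, h.C_mk] at h2
    rw [h.τ_mk, h.φ_mk _ hin', h.C_mk] at h3
    rw [h.τ_mk, h.φφ_mk _ hin', h.C_mk] at h4
    have hav := h.adm.symm _ _ hp
    obtain ⟨k1, k2, k3, k4, k5, k6, hdet, _⟩ := h.cell hp hin
    obtain ⟨l1, l2, l3, l4, l5, l6, hdet', _⟩ := h.cell hav hin'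
    have hbw : nx v a ≠ nx a v := by
      intro heq
      rw [← heq] at hdet'
      have : det v a (nx v a) = - det a v (nx v a) := by unfold det; ring
      linarith
    obtain ⟨b1, b2⟩ := HB.quad_bound h.hc h.pack (h.vmem hp) (h.vmem k1) (h.vmem k2) (h.vmem l2)
      (h.adm.mem _ _ hp).2.2 hbw h1 h2 h3 h4
    obtain ⟨g1, g2, g3⟩ := h.gaps hp hin
    obtain ⟨g1', _, _⟩ := h.gaps hav hin'
    rw [h.φφ_mk _ hin, h.φ_mk _ hin, h.τ_mk, h.g_mk, h.g_mk, h.g_mk, g2, g3, g1']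
    have := alf_lt h.hc
    constructor
    · exact lt_units (by linarith)
    · rw [← mul_add]; exact lt_units (by linarith)
  pent := by
    rintro ⟨⟨v, a⟩, hp⟩ hin hin' hin'' _ _ c1 c2 c3 c4 c5
    rw [h.inner_mk] at hin
    rw [h.τ_mk, h.inner_mk] at hin'
    have hav := h.adm.symm _ _ hp
    obtain ⟨k1, k2, k3, k4, k5, k6, hdet, _⟩ := h.cell hp hin
    obtain ⟨l1, l2, l3, l4, l5, l6, hdet', _⟩ := h.cell hav hin'
    rw [h.φ_mk _ hin, h.τ_mk, h.inner_mk] at hin''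
    have hba := h.adm.symm _ _ k1
    obtain ⟨m1, m2, m3, m4, m5, m6, hdet'', _⟩ := h.cell hba hin''
    rw [h.φφ_mk _ hin, h.C_mk] at c1
    rw [h.τ_mk, h.φ_mk _ hin', h.C_mk] at c2
    rw [h.τ_mk, h.φφ_mk _ hin', h.C_mk] at c3
    rw [h.φ_mk _ hin, h.τ_mk, h.φ_mk _ hin'', h.C_mk] at c4
    rw [h.φ_mk _ hin, h.τ_mk, h.φφ_mk _ hin'', h.C_mk] at c5
    obtain ⟨g1, g2, g3⟩ := h.gaps hp hin
    obtain ⟨p1, p2, p3⟩ := h.gaps hav hin'
    obtain ⟨q1, q2, q3⟩ := h.gaps hba hin''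
    rw [h.φφ_mk _ hin, h.φ_mk _ hin, h.τ_mk, h.φφ_mk _ hin', h.φ_mk _ hin', h.τ_mk,
      h.φφ_mk _ hin'', h.φ_mk _ hin'']
    simp only [h.g_mk]
    have r1 := (h.rotp v (h.vmem hp)).rot
    have r2 := (h.rotp a (h.vmem k1)).rot
    have r3 := (h.rotp (nx v a) (h.vmem k2)).rot
    have R1 := (h.rotp v (h.vmem hp)).pos
    have R2 := (h.rotp a (h.vmem k1)).pos
    have R3 := (h.rotp (nx v a) (h.vmem k2)).pos
    set b := nx v a with hb
    set w := nx a v with hw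
    set w' := nx b a with hw'
    have n_va := (h.adm.mem _ _ hp).2.2
    have n_ab := (h.adm.mem _ _ k1).2.2
    have n_vb : v ≠ b := (h.adm.mem _ _ k2).2.2.symm
    have hbw : w ≠ b := by
      intro heq
      rw [heq] at hdet'
      have : det v a b = - det a v b := by unfold det; ring
      linarith
    have hwv' : w' ≠ v := by
      intro heq
      rw [heq] at hdet''
      have : det v a b = - det b a v := by unfold det; ring
      linarith
    obtain ⟨t0, t2, t4, -⟩ := HB.pent_le h.hc h.pack (h.vmem hp) (h.vmem k1) (h.vmem k2)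
      (h.vmem l2) (h.vmem m2) n_va n_ab hbw hwv' c2 c3 c4 c5 c1
    have hpi := alf_lt h.hc
    have hv := h.qpos (h.vmem hp)
    have ha := h.qpos (h.vmem k1)
    have hbq := h.qpos (h.vmem k2)
    -- rotation relations
    have vw : (v, w) ∈ E := l1
    have aw' : (a, w') ∈ E := m1
    have ab : (a, b) ∈ E := k1
    have bv : (b, v) ∈ E := k2
    have x1 := r1 w (mem_Nb.2 vw)
    have x2 := r1 a (mem_Nb.2 hp)
    rw [l3] at x1
    rw [← hb] at x2
    have y1 := r2 w' (mem_Nb.2 aw')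
    have y2 := r2 b (mem_Nb.2 ab)
    have y3 := r2 v (mem_Nb.2 hav)
    rw [m3] at y1
    rw [k3] at y2
    rw [← hw] at y3
    have z1 := r3 v (mem_Nb.2 bv)
    have z2 := r3 a (mem_Nb.2 hba)
    rw [k5] at z1
    rw [← hw'] at z2
    have X := rot_comp x1 x2
    have Y := rot_comp (rot_comp y1 y2) y3
    have Z := rot_comp z1 z2
    have d_vw := dir_ne hv (h.adm.mem _ _ vw).2.2.symm
    have d_vb := dir_ne hv n_vb.symm
    have d_aw := dir_ne ha (h.adm.mem _ _ l2).2.2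
    have d_aw' := dir_ne ha (h.adm.mem _ _ aw').2.2.symm
    have d_bv := dir_ne hbq n_vb
    have d_bw' := dir_ne hbq (h.adm.mem _ _ m2).2.2
    have P1 := R1 w (mem_Nb.2 vw)
    have P2 := R1 a (mem_Nb.2 hp)
    have P3 := R2 w' (mem_Nb.2 aw')
    have P4 := R2 b (mem_Nb.2 ab)
    have P5 := R2 v (mem_Nb.2 hav)
    have P6 := R3 v (mem_Nb.2 bv)
    have P7 := R3 a (mem_Nb.2 hba)
    have e0 : hang w v a + hang a v b = hang w v b := by
      rw [← p2, ← g1]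
      exact (angle_of_rot d_vw d_vb (by linarith) (by rw [p2, g1]; linarith) X).symm
    have hww' : w ≠ w' := by
      intro heq
      rw [← heq] at Y
      refine rot_ne d_aw (θ := gap a w + gap a b + gap a v) ?_ ?_ Y
      · rw [← heq] at P3; linarith
      · rw [heq]
        rw [q2, g2, p1]; linarith
    have e2 : hang w' a b + hang b a v + hang v a w = hang w' a w := by
      rw [← q2, ← g2, ← p1]
      exact (angle_of_rot d_aw' d_aw (by linarith) (by rw [q2, g2, p1]; linarith) Y).symm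
    have e4 : hang v b a + hang a b w' = hang v b w' := by
      rw [← g3, ← q1]
      exact (angle_of_rot d_bv d_bw' (by linarith) (by rw [g3, q1]; linarith) Z).symm
    have fin := HB.pent_floor h.hc h.pack (h.vmem hp) (h.vmem k1) (h.vmem k2)
      (h.vmem l2) (h.vmem m2) n_va n_ab hbw hwv' hww' c2 c3 c4 c5 c1 e0 e2 e4
    rw [p2, g1, p3, q2, g2, p1, q3, g3, q1, ← mul_add, ← mul_add, ← mul_add, ← mul_add]
    exact fin

end RCfg
end Pool.Agent.Helper888
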