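import Pool.Agent.Helper888.Geom4
import Pool.Agent.Helper888.Bridge
set_option autoImplicit false
open Finset
open scoped Classical Real

namespace Pool.Agent.Helper888

variable {V : Finset Pt} {E : Finset (Pt × Pt)} {c : ℝ} {nx : Pt → Pt → Pt} {gap : Pt → Pt → ℝ}

theorem units_lt {x k : ℝ} (hx : k * π / 3 < x) : k < 3 / π * x := by
  have hpi := Real.pi_pos
  have : 3 / π * (k * π / 3) < 3 / π * x := by gcongr
  have e : 3 / π * (k * π / 3) = k := by field_simp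
  linarith

theorem le_of_units {x k : ℝ} (hx : k ≤ 3 / π * x) : k * π / 3 ≤ x := by
  have hpi := Real.pi_pos
  have : π / 3 * k ≤ π / 3 * (3 / π * x) := by gcongr
  have e : π / 3 * (3 / π * x) = x := by field_simp
  linarith

namespace RCfg
variable (h : RCfg V E c nx gap)

theorem iter_mem (h : RCfg V E c nx gap) {v a : Pt} (ha : (v, a) ∈ E) (k : ℕ) :
    (v, (nx v)^[k] a) ∈ E := (h.iter_sig ha k).1

theorem iter_rot (h : RCfg V E c nx gap) {v a : Pt} (ha : (v, a) ∈ E) (k : ℕ) :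
    dir v ((nx v)^[k] a) / (‖dir v ((nx v)^[k] a)‖ : ℂ) =
      Complex.exp (((∑ j ∈ range k, gap v ((nx v)^[j] a) : ℝ) : ℂ) * Complex.I) *
        (dir v a / (‖dir v a‖ : ℂ)) := by
  induction k with
  | zero => simp
  | succ k ih =>
    have h1 := (h.rotp v (h.vmem ha)).rot _ (mem_Nb.2 (h.iter_mem ha k))
    rw [← Function.iterate_succ_apply' (nx v) k a] at h1
    have := rot_comp ih h1
    rw [this, sum_range_succ]

/-- contact corners are not too small -/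
theorem psi_ge {d : {p : Pt × Pt // p ∈ E}} (hd : d ∈ h.map.C) :
    3 / π * alf c ≤ h.map.psi d := by
  obtain ⟨⟨v, a⟩, hp⟩ := d
  have hex : ∃ m : ℕ, 1 ≤ m ∧ (h.map.σ ^ m) ⟨(v, a), hp⟩ ∈ h.map.C :=
    ⟨orderOf h.map.σ, orderOf_pos _, by rw [pow_orderOf_eq_one]; exact hd⟩
  obtain ⟨h1, h2⟩ := Nat.find_spec hex
  set m := Nat.find hex with hm
  have hmin : ∀ j, 0 < j → j < m → (h.map.σ ^ j) ⟨(v, a), hp⟩ ∉ h.map.C := by
    intro j hj0 hj hc
    exact Nat.find_min hex (hm ▸ hj) ⟨hj0, hc⟩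
  have hpsi := h.map.psi_eq hd h1 h2 hmin
  have hg : ∀ j, h.map.g ((h.map.σ ^ j) ⟨(v, a), hp⟩) = 3 / π * gap v ((nx v)^[j] a) := by
    intro j
    obtain ⟨hk, e⟩ := h.iter_sig hp j
    have e' : (h.map.σ ^ j) ⟨(v, a), hp⟩ = ⟨(v, (nx v)^[j] a), hk⟩ := e
    rw [e']; rfl
  rw [hpsi, sum_congr rfl (fun j _ => hg j), ← mul_sum]
  have hpi := Real.pi_pos
  set θ := ∑ j ∈ range m, gap v ((nx v)^[j] a) with hθ
  have halt := alf_lt h.hc
  have hv := h.vmem hp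
  have hθ0 : 0 < θ := by
    refine sum_pos (fun j _ => (h.rotp v hv).pos _ (mem_Nb.2 (h.iter_mem hp j))) ?_
    exact ⟨0, by rw [mem_range]; omega⟩
  have hchva : ch v a = c := (h.C_mk hp).1 hd
  suffices alf c ≤ θ by gcongr
  by_cases hbig : π ≤ θ
  · linarith
  push Not at hbig
  have hrot := h.iter_rot hp m
  obtain ⟨hk, e⟩ := h.iter_sig hp m
  have e' : (h.map.σ ^ m) ⟨(v, a), hp⟩ = ⟨(v, (nx v)^[m] a), hk⟩ := e
  rw [e', h.C_mk] at h2
  set b := (nx v)^[m] a with hb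
  have hqv := h.qpos hv
  have hna := (h.adm.mem _ _ hp).2.2
  have hnb := (h.adm.mem _ _ hk).2.2
  have da := dir_ne hqv hna.symm
  have db := dir_ne hqv hnb.symm
  have hang_eq : hang a v b = θ := angle_of_rot da db hθ0.le hbig.le hrot
  have hab : a ≠ b := by
    intro heq
    rw [← heq] at hrot
    exact rot_ne da hθ0 hbig hrot
  have haV := (h.adm.mem _ _ hp).2.1
  have hbV := (h.adm.mem _ _ hk).2.1
  rw [← hang_eq]
  exact alf_le_hang h.hc hqv (h.qpos haV) (h.qpos hbV) (h.pack.sep a haV b hbV hab) hchva h2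

theorem deg_le (ha : 6 / 7 < 3 / π * alf c) (v : {v : Pt // v ∈ V}) : (h.map.CV v).card ≤ 6 := by
  by_contra hcon
  push Not at hcon
  have h1 : ∑ x ∈ h.map.CV v, h.map.psi x = 6 := h.map.psi_sum_tail v
  have h2 : ∑ x ∈ h.map.CV v, (6 / 7 : ℝ) < ∑ x ∈ h.map.CV v, h.map.psi x := by
    refine sum_lt_sum_of_nonempty (h.map.CV_nonempty v) fun x hx => ?_
    simp only [CMap.CV, mem_filter] at hx
    exact ha.trans_le (h.psi_ge hx.1)
  rw [h1, sum_const, nsmul_eq_mul] at h2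
  have h3' : 7 ≤ (h.map.CV v).card := hcon
  have h3 : (7 : ℝ) ≤ ((h.map.CV v).card : ℝ) := by
    exact_mod_cast h3'
  linarith

/-- second smallness assumption -/
structure Small2 (c ε : ℝ) : Prop where
  ε_pos : 0 < ε
  ε_lt : ε ≤ 1 / 100
  t1 : π / 3 - ε < alf c
  t2 : 2 * Real.arcsin ((c - 1) / (c + 1)) < ε

theorem pgeo {ε : ℝ} (hs : Small2 c ε) : h.map.PGeo (3 / π * alf c) ε := by
  have hpi := Real.pi_gt_three
  have halt := alf_lt h.hc
  have h3pi : 3 / π ≤ 1 := by rw [div_le_one (by positivity)]; linarith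
  have hag : 1 - ε < 3 / π * alf c := by
    have h1 : 3 / π * (π / 3 - ε) < 3 / π * alf c := by
      have := hs.t1; gcongr
    have e : 3 / π * (π / 3 - ε) = 1 - 3 / π * ε := by field_simp
    have : 3 / π * ε ≤ 1 * ε := by
      have := hs.ε_pos
      gcongr
    linarith
  -- data of a perfect rhombus
  have key : ∀ d, h.map.RB d → ∃ x y : ℝ, h.map.psi (h.map.φ d) = 3 / π * (2 * y) ∧
      h.map.psi (h.map.φ (h.map.φ d)) = 3 / π * x ∧
      h.map.psi (h.map.φ (h.map.τ d)) = 3 / π * (2 * y) ∧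
      h.map.psi (h.map.φ (h.map.φ (h.map.τ d))) = 3 / π * x ∧
      x + 2 * y < π ∧ π - (x + 2 * y) ≤ 2 * Real.arcsin ((c - 1) / (c + 1)) ∧
      x < 2 * alf c ∧ 2 * y < 2 * alf c := by
    rintro ⟨⟨v, a⟩, hp⟩ ⟨hin, hin', hdC, h1, h2, h3, h4, f1, f2, f3, f4⟩
    have hττ : h.map.τ (h.map.τ ⟨(v, a), hp⟩) = ⟨(v, a), hp⟩ := h.map.τ_inv _
    have p1 := h.map.psi_long hin hin' hdC h1 h4
    have p2 := h.map.psi_short hin h1 h2
    have p3 := h.map.psi_long hin' (by rwa [hττ]) (fun h' => hdC (h.map.C_τ_iff.1 h')) h3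
      (by rwa [hττ])
    rw [hττ] at p3
    have p4 := h.map.psi_short hin' h3 h4
    rw [p1] at f1 ⊢
    rw [p2] at f2 ⊢
    rw [p3, p4]
    clear f3 f4 p1 p2 p3 p4
    have hav := h.adm.symm _ _ hp
    rw [h.inner_mk] at hin
    rw [h.τ_mk, h.inner_mk] at hin'
    obtain ⟨k1, k2, k3, k4, k5, k6, hdet, _⟩ := h.cell hp hin
    obtain ⟨l1, l2, l3, l4, l5, l6, hdet', _⟩ := h.cell hav hin'
    obtain ⟨g1, g2, g3⟩ := h.gaps hp hin
    obtain ⟨q1, q2, q3⟩ := h.gaps hav hin'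
    rw [h.φ_mk _ hin, h.C_mk] at h1
    rw [h.φφ_mk _ hin, h.C_mk] at h2
    rw [h.τ_mk, h.φ_mk _ hin', h.C_mk] at h3
    rw [h.τ_mk, h.φφ_mk _ hin', h.C_mk] at h4
    rw [h.φ_mk _ hin, h.τ_mk, h.g_mk, h.g_mk, g2, q1] at f1
    rw [h.φφ_mk _ hin, h.g_mk, g3] at f2
    rw [h.φφ_mk _ hin, h.φ_mk _ hin, h.τ_mk, h.φφ_mk _ hin', h.φ_mk _ hin']
    simp only [h.g_mk]
    rw [g1, g2, g3, q1, q2, q3]
    obtain ⟨r1, r2, r3, r4, r5, r6, r7, r8⟩ := rhomb h.hc (h.qpos (h.vmem hp)) (h.qpos (h.vmem k1))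
      (h.qpos (h.vmem k2)) (h.qpos (h.vmem l2)) h1 h2 h3 h4
      (h.pack.sep _ (h.vmem hp) _ (h.vmem k1) (h.adm.mem _ _ hp).2.2) hdet.ne'
    have r1' : hang a (nx a v) v = hang v (nx v a) a := by rw [hang_comm]; exact r1
    rw [r2] at f1 ⊢
    rw [r3, r4, r1']
    refine ⟨hang v (nx v a) a, hang (nx v a) a v, by ring, by ring, by ring, by ring, r5, r6,
      r7 ?_, r8 ?_⟩
    · have := le_of_units (k := 1) (x := 2 * hang (nx v a) a v) (by linarith)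
      linarith
    · have := le_of_units (k := 1) f2
      linarith
  refine ⟨?_, ?_, ?_, ?_, ?_, ?_, ?_, ?_, hag, hs.ε_pos, hs.ε_lt, ?_⟩
  · rintro ⟨⟨v, a⟩, hp⟩ ⟨hin, h1, h2, h3⟩
    have hσ : h.map.σ ⟨(v, a), hp⟩ ∈ h.map.C := by
      rw [h.map.σ_eq hin]; exact h.map.C_τ _ h3
    rw [h.map.psi_one h1 hσ]
    rw [h.inner_mk] at hin
    rw [h.C_mk] at h1
    rw [h.φ_mk _ hin, h.C_mk] at h2
    rw [h.φφ_mk _ hin, h.C_mk] at h3
    obtain ⟨k1, k2, _⟩ := h.cell hp hin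
    rw [h.g_mk, (h.gaps hp hin).1, hang_eq_alf h.hc (h.qpos (h.vmem hp)) (h.qpos (h.vmem k1))
      (h.qpos (h.vmem k2)) h2 h1 (by rw [ch_comm]; exact h3)]
  · intro d hd
    obtain ⟨x, y, e1, e2, e3, e4, -⟩ := key d hd
    rw [e1, e3]
  · intro d hd
    obtain ⟨x, y, e1, e2, e3, e4, -⟩ := key d hd
    rw [e2, e4]
  · intro d hd
    obtain ⟨x, y, e1, e2, e3, e4, s1, s2, s3, s4⟩ := key d hd
    rw [e1, e2, ← mul_add]
    have h1 : π - ε < 2 * y + x := by linarith [hs.t2]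
    have h2 : 3 / π * (π - ε) < 3 / π * (2 * y + x) := by gcongr
    have e : 3 / π * (π - ε) = 3 - 3 / π * ε := by field_simp
    have : 3 / π * ε ≤ 1 * ε := by
      have := hs.ε_pos
      gcongr
    linarith
  · intro d hd
    obtain ⟨x, y, e1, e2, e3, e4, s1, s2, s3, s4⟩ := key d hd
    rw [e1, e2, ← mul_add]
    exact lt_units (by linarith)
  · intro d hd
    obtain ⟨x, y, e1, e2, e3, e4, s1, s2, s3, s4⟩ := key d hd
    rw [e1]
    have : 3 / π * (2 * y) < 3 / π * (2 * alf c) := by gcongr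
    linarith
  · intro d hd
    obtain ⟨x, y, e1, e2, e3, e4, s1, s2, s3, s4⟩ := key d hd
    rw [e2]
    have : 3 / π * x < 3 / π * (2 * alf c) := by gcongr
    linarith
  · exact lt_units (by linarith)
  · exact h.deg_le (by have := hs.ε_lt; linarith)

end RCfg

/-- The main estimate in the chart. -/
theorem main_chart : ∃ c₁ : ℝ, 1 < c₁ ∧ ∀ c : ℝ, 1 < c → c < c₁ → ∀ V : Finset Pt, Packing V c →
    (∀ v ∈ V, ∃ a ∈ V, a ≠ v ∧ ch v a = c) →
      ((contacts V c).card : ℝ) ≤ (5 - 1 / 10 ^ 6) * (V.card : ℝ) := by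
  obtain ⟨c₁, hc₁, H⟩ := numerics (1 / 10 ^ 6) (by norm_num)
  refine ⟨c₁, hc₁, fun c hc hcc V hV hiso => ?_⟩
  obtain ⟨n1, n2, n3, n4, n5⟩ := H c hc hcc
  obtain ⟨E, hE0, hEA, hEM⟩ := CAdm.exists_maxl (CAdm.contacts_adm hc hV)
  have hcfg : Cfg V E c := ⟨hc, hV, hE0, hEA, hEM, hiso⟩
  obtain ⟨nx, gap, hrot⟩ := hcfg.exists_rot
  have h : RCfg V E c nx gap := ⟨hcfg, hrot⟩
  have hG := h.geo (η := 1 / 10 ^ 6) ⟨by norm_num, n4, n5⟩
  have hP := h.pgeo (ε := 1 / 10 ^ 6) ⟨by norm_num, by norm_num, n1, n3⟩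
  have hmain := h.map.strict hG hP le_rfl
  have hcard : h.map.C.card = (contacts V c).card := by
    refine card_bij (fun d _ => d.1) ?_ ?_ ?_
    · rintro ⟨⟨v, a⟩, hp⟩ hd
      rw [h.C_mk] at hd
      obtain ⟨m1, m2, m3⟩ := h.adm.mem _ _ hp
      simp only [contacts, mem_filter, mem_product]
      exact ⟨⟨m1, m2⟩, m3, hd⟩
    · intro a _ b _ hab; exact Subtype.ext hab
    · rintro ⟨v, a⟩ hp
      refine ⟨⟨(v, a), hE0 hp⟩, ?_, rfl⟩
      rw [h.C_mk]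
      simp only [contacts, mem_filter, mem_product] at hp
      exact hp.2.2
  rw [hcard] at hmain
  simpa using hmain

end Pool.Agent.Helper888
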