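import Mathlib

set_option autoImplicit false

namespace Pool.Agent.Helper888.PGLCore

variable {k : Type*} [Field k]

/-- a non-trivial relation between five vectors of a four-dimensional space -/
theorem exists_rel (p q r u v w x y z A B C D : k) :
    ∃ α β γ δ κ : k, ¬ (α = 0 ∧ β = 0 ∧ γ = 0 ∧ δ = 0 ∧ κ = 0) ∧
      α + β * p + γ * u + δ * A + κ * x = 0 ∧
      β * q + γ * v + δ * B + κ * y = 0 ∧
      β * r + γ * w + δ * C + κ * z = 0 ∧
      α + β * (-1 - p) + γ * (-1 - u) + δ * D - κ * x = 0 := by
  classical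
  let M : Matrix (Fin 4) (Fin 5) k :=
    !![1, p, u, A, x; 0, q, v, B, y; 0, r, w, C, z; 1, -1 - p, -1 - u, D, -x]
  have h := LinearMap.ker_ne_bot_of_finrank_lt (f := Matrix.toLin' M) (by simp)
  obtain ⟨g, hg, hg0⟩ := (Submodule.ne_bot_iff _).mp h
  rw [LinearMap.mem_ker, Matrix.toLin'_apply] at hg
  have e0 := congrFun hg 0
  have e1 := congrFun hg 1
  have e2 := congrFun hg 2
  have e3 := congrFun hg 3
  simp [M, Matrix.mulVec, dotProduct, Fin.sum_univ_succ] at e0 e1 e2 e3
  refine ⟨g 0, g 1, g 2, g 3, g 4, ?_, ?_, ?_, ?_, ?_⟩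
  · rintro ⟨h0, h1, h2, h3, h4⟩
    apply hg0
    funext i
    fin_cases i <;> simpa
  · linear_combination e0
  · linear_combination e1
  · linear_combination e2
  · linear_combination e3

/-- The trace `t` of `a b` is not `2`. -/
theorem t_ne_two (p q r u v w x y z e : k)
    (ha : p * (-1 - p) - q * r = 1) (hb : u * (-1 - u) - v * w = 1)
    (h1 : p * x + q * z + r * y + (1 + p) * x = 1)
    (h2 : u * x + v * z + w * y + (1 + u) * x = e) (he : e ^ 2 = 1)
    (hZ : (p * u + q * w) * x + (p * v - q * (1 + u)) * z + (r * u - (1 + p) * w) * y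
      - (r * v + (1 + p) * (1 + u)) * x = -(p * u + q * w + r * v + (1 + p) * (1 + u)) - e)
    (hW : (u * p + v * r) * x + (u * q - v * (1 + p)) * z + (w * p - (1 + u) * r) * y
      - (w * q + (1 + u) * (1 + p)) * x
      = -(p * u + q * w + r * v + (1 + p) * (1 + u)) * e - 1) :
    p * u + q * w + r * v + (1 + p) * (1 + u) ≠ 2 := by
  intro hT
  have hTe : (2 : k) * (1 + e) = 0 := by
    linear_combination hZ + hW + h1 + h2 - (1 + e) * hT
  have he1 : e = -1 := by
    by_contra hne
    have h3 : (e + 1) ≠ 0 := fun h => hne (by linear_combination h)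
    have h4 : (e + 1) * (e - 1) = 0 := by linear_combination he
    have h5 : e = 1 := by
      rcases mul_eq_zero.mp h4 with h | h
      · exact absurd h h3
      · linear_combination h
    have h6 : (2 : k) = 0 := by
      rcases mul_eq_zero.mp hTe with h | h
      · exact h
      · exact absurd (by linear_combination h) h3
    apply hne
    rw [h5]
    linear_combination h6
  subst he1
  -- n = a b - 1, m = b a - 1
  obtain ⟨N0, hN0⟩ : ∃ N0, N0 = p * u + q * w - 1 := ⟨_, rfl⟩
  obtain ⟨N1, hN1⟩ : ∃ N1, N1 = p * v - q * (1 + u) := ⟨_, rfl⟩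
  obtain ⟨N2, hN2⟩ : ∃ N2, N2 = r * u - (1 + p) * w := ⟨_, rfl⟩
  obtain ⟨M0, hM0⟩ : ∃ M0, M0 = u * p + v * r - 1 := ⟨_, rfl⟩
  obtain ⟨M1, hM1⟩ : ∃ M1, M1 = u * q - v * (1 + p) := ⟨_, rfl⟩
  obtain ⟨M2, hM2⟩ : ∃ M2, M2 = w * p - (1 + u) * r := ⟨_, rfl⟩
  have hn : N0 ^ 2 + N1 * N2 = 0 := by
    rw [hN0, hN1, hN2]
    linear_combination (-(u * (-1 - u) - v * w)) * ha - hb + (p * u + q * w) * hT
  have hm : M0 ^ 2 + M1 * M2 = 0 := by
    rw [hM0, hM1, hM2]
    linear_combination (-(u * (-1 - u) - v * w)) * ha - hb + (u * p + v * r) * hT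
  have hnm : 2 * N0 * M0 + N1 * M2 + N2 * M1 = 0 := by
    rw [hN0, hN1, hN2, hM0, hM1, hM2]
    linear_combination (2 * (u * (-1 - u) - v * w) - 1) * ha + hb - hT
      - (p * u + q * w + r * v + (1 + p) * (1 + u) - 2) * hT
      + ((p * u + q * w - 1) + (u * p + v * r - 1)) * hT
  have S1 : N1 * M2 - N2 * M1 = 0 := by
    have : (N1 * M2 - N2 * M1) ^ 2 = 0 := by
      linear_combination (N1 * M2 + N2 * M1 - 2 * N0 * M0) * hnm + 4 * N0 ^ 2 * hm
        - 4 * M1 * M2 * hn
    exact pow_eq_zero_iff (two_ne_zero) |>.mp this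
  have S2 : N0 * M1 - M0 * N1 = 0 := by
    have : (N0 * M1 - M0 * N1) ^ 2 = 0 := by
      linear_combination M1 ^ 2 * hn + N1 ^ 2 * hm - N1 * M1 * hnm
    exact pow_eq_zero_iff (two_ne_zero) |>.mp this
  have S3 : N0 * M2 - M0 * N2 = 0 := by
    have : (N0 * M2 - M0 * N2) ^ 2 = 0 := by
      linear_combination M2 ^ 2 * hn + N2 ^ 2 * hm - N2 * M2 * hnm
    exact pow_eq_zero_iff (two_ne_zero) |>.mp this
  have trN : 2 * N0 * x + N1 * z + N2 * y = -1 := by
    rw [hN0, hN1, hN2]
    linear_combination hZ - hT + x * hT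
  have trM : 2 * M0 * x + M1 * z + M2 * y = 1 := by
    rw [hM0, hM1, hM2]
    linear_combination hW + hT + x * hT
  have A0 : N0 + M0 = 0 := by
    linear_combination -N0 * trM + M0 * trN + z * S2 + y * S3
  have A1 : N1 + M1 = 0 := by
    linear_combination -N1 * trM + M1 * trN - 2 * x * S2 + y * S1
  have A2 : N2 + M2 = 0 := by
    linear_combination -N2 * trM + M2 * trN - 2 * x * S3 - z * S1
  have hu : u = -1 - p := by
    rw [hN0, hM0] at A0
    linear_combination hT - A0
  have hv : v = -q := by
    rw [hN1, hM1] at A1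
    linear_combination -A1
  have hw : w = -r := by
    rw [hN2, hM2] at A2
    linear_combination -A2
  rw [hN0, hN1, hN2, hu, hv, hw] at trN
  have : (1 : k) = 0 := by
    linear_combination trN - 2 * x * ha
  exact one_ne_zero this

/-- If `t` is neither `2` nor `-1` then the characteristic is not two and `2 t^2 - 4 t + 1 = 0`. -/
theorem t_quad (p q r u v w x y z e : k)
    (ha : p * (-1 - p) - q * r = 1) (hb : u * (-1 - u) - v * w = 1) (hc : -x * x - y * z = 1)
    (h1 : p * x + q * z + r * y + (1 + p) * x = 1)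
    (h2 : u * x + v * z + w * y + (1 + u) * x = e) (he : e ^ 2 = 1)
    (hZ : (p * u + q * w) * x + (p * v - q * (1 + u)) * z + (r * u - (1 + p) * w) * y
      - (r * v + (1 + p) * (1 + u)) * x = -(p * u + q * w + r * v + (1 + p) * (1 + u)) - e)
    (hW : (u * p + v * r) * x + (u * q - v * (1 + p)) * z + (w * p - (1 + u) * r) * y
      - (w * q + (1 + u) * (1 + p)) * x
      = -(p * u + q * w + r * v + (1 + p) * (1 + u)) * e - 1)
    (T : k) (hT : p * u + q * w + r * v + (1 + p) * (1 + u) = T) (hT2 : T ≠ 2) (hT1 : T ≠ -1) :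
    (2 : k) ≠ 0 ∧ 2 * T ^ 2 - 4 * T + 1 = 0 := by
  have hTe : T * (1 + e) = 0 := by
    linear_combination hZ + hW + h1 + h2 - (1 + e) * hT
  obtain ⟨α, β, γ, δ, κ, hne, E0, E1, E2, E3⟩ :=
    exists_rel p q r u v w x y z (p * u + q * w) (p * v - q * (1 + u)) (r * u - (1 + p) * w)
      (r * v + (1 + p) * (1 + u))
  have L1 : 2 * α - β - γ + δ * T = 0 := by
    linear_combination E0 + E3 - δ * hT
  have L2 : -α - β + γ * T + δ * (1 - T) + κ = 0 := by
    linear_combination p * E0 + q * E2 + r * E1 + (-1 - p) * E3 + (2 * β - δ) * ha - κ * h1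
      - γ * hT + δ * hT
  have L3 : -α + β * T - γ + δ * (1 - T) + κ * e = 0 := by
    linear_combination u * E0 + v * E2 + w * E1 + (-1 - u) * E3 + (2 * γ - δ) * hb - κ * h2
      - β * hT + δ * hT
  have L4 : α * T + (1 - T) * (β + γ) + (T ^ 2 - 2) * δ + κ * (-T - e) = 0 := by
    subst hT
    linear_combination (p * u + q * w) * E0 + (p * v - q * (1 + u)) * E2
      + (r * u - (1 + p) * w) * E1 + (r * v + (1 + p) * (1 + u)) * E3 - β * ha - γ * hb
      + 2 * δ * ((u * (-1 - u) - v * w) * ha + hb) - κ * hZ
  have L5 : β + γ * e + δ * (-T - e) - 2 * κ = 0 := by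
    subst hT
    linear_combination x * E0 + y * E2 + z * E1 - x * E3 - β * h1 - γ * h2 - δ * hZ
      + 2 * κ * hc
  by_cases he1 : e = -1
  · subst he1
    have S : (T - 2) * (β + γ - δ) = 0 := by linear_combination L1 + L2 + L3
    have hδ : δ = β + γ := by
      rcases mul_eq_zero.mp S with h | h
      · exact absurd (by linear_combination h) hT2
      · linear_combination -h
    have A : (1 - T ^ 2) * δ - 2 * T * κ = 0 := by
      linear_combination (1 + T) * L5 + L2 - L3
    have B : (T - 2) * (T + 1) * δ + 2 * (1 - T) * κ = 0 := by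
      linear_combination 2 * L4 - T * L1 + (2 - T) * hδ
    have Q : 2 * κ * (2 * T ^ 2 - 4 * T + 1) = 0 := by
      linear_combination (1 - T) * B - (T - 2) * A
    have D : (1 + T) * (γ - β) + 2 * κ = 0 := by linear_combination L2 - L3
    have hT2' : T - 2 ≠ 0 := fun h => hT2 (by linear_combination h)
    have hT1' : T + 1 ≠ 0 := fun h => hT1 (by linear_combination h)
    by_cases h20 : (2 : k) = 0
    · exfalso
      have hm1 : 1 - T ≠ 0 := fun h => hT1 (by linear_combination -h + h20)
      have hδ0 : δ = 0 := by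
        have h3 : (1 - T) * ((T + 1) * δ) = 0 := by linear_combination A + T * κ * h20
        rcases mul_eq_zero.mp h3 with h | h
        · exact absurd h hm1
        · rcases mul_eq_zero.mp h with h | h
          · exact absurd h hT1'
          · exact h
      have hγ : γ = -β := by linear_combination hδ0 - hδ
      have hα : α = -(1 + T) * β + κ := by
        rw [hδ0, hγ] at L2
        linear_combination -L2
      have hκ : κ = T * (1 + T) * β := by
        rw [hδ0, hγ, hα] at L4
        linear_combination L4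
      have hβ : β ≠ 0 := by
        intro hβ
        apply hne
        refine ⟨?_, hβ, ?_, hδ0, ?_⟩
        · rw [hα, hκ, hβ]; ring
        · rw [hγ, hβ]; ring
        · rw [hκ, hβ]; ring
      have F0 : (T ^ 2 - 1) + p - u + T * (1 + T) * x = 0 := by
        have : β * ((T ^ 2 - 1) + p - u + T * (1 + T) * x) = 0 := by
          rw [hδ0, hγ, hα, hκ] at E0
          linear_combination E0
        rcases mul_eq_zero.mp this with h | h
        · exact absurd h hβ
        · exact h
      have F1 : q - v + T * (1 + T) * y = 0 := by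
        have : β * (q - v + T * (1 + T) * y) = 0 := by
          rw [hδ0, hγ, hκ] at E1
          linear_combination E1
        rcases mul_eq_zero.mp this with h | h
        · exact absurd h hβ
        · exact h
      have F2 : r - w + T * (1 + T) * z = 0 := by
        have : β * (r - w + T * (1 + T) * z) = 0 := by
          rw [hδ0, hγ, hκ] at E2
          linear_combination E2
        rcases mul_eq_zero.mp this with h | h
        · exact absurd h hβ
        · exact h
      have F3 : (T ^ 2 - 1) - p + u - T * (1 + T) * x = 0 := by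
        have : β * ((T ^ 2 - 1) - p + u - T * (1 + T) * x) = 0 := by
          rw [hδ0, hγ, hα, hκ] at E3
          linear_combination E3
        rcases mul_eq_zero.mp this with h | h
        · exact absurd h hβ
        · exact h
      have K2 : (T * (1 + T)) ^ 2 = (T ^ 2 - 1) ^ 2 + 1 + T := by
        linear_combination -(T * (1 + T)) ^ 2 * hc + (u - p - (T ^ 2 - 1)) * F3
          - (T * (1 + T) * x) * F0 - (v - q) * F2 - (T * (1 + T) * z) * F1 + ha + hb + hT
      have K3 : (T + 1) * (2 * T ^ 2 + T - 2) = 0 := by linear_combination K2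
      rcases mul_eq_zero.mp K3 with h | h
      · exact hT1' h
      · exact hT2 (by linear_combination h - T ^ 2 * h20)
    · refine ⟨h20, ?_⟩
      have hκ : κ ≠ 0 := by
        intro hκ
        rw [hκ] at B D
        have hδ0 : δ = 0 := by
          have h3 : (T - 2) * ((T + 1) * δ) = 0 := by linear_combination B
          rcases mul_eq_zero.mp h3 with h | h
          · exact absurd h hT2'
          · rcases mul_eq_zero.mp h with h | h
            · exact absurd h hT1'
            · exact h
        have hγβ : γ = β := by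
          have h3 : (T + 1) * (γ - β) = 0 := by linear_combination D
          rcases mul_eq_zero.mp h3 with h | h
          · exact absurd h hT1'
          · linear_combination h
        have hβ : β = 0 := by
          have h3 : 2 * β = 0 := by linear_combination hδ0 - hδ - hγβ
          rcases mul_eq_zero.mp h3 with h | h
          · exact absurd h h20
          · exact h
        have hα : α = 0 := by
          have h3 : 2 * α = 0 := by
            rw [hδ0, hγβ, hβ] at L1
            linear_combination L1
          rcases mul_eq_zero.mp h3 with h | h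
          · exact absurd h h20
          · exact h
        exact hne ⟨hα, hβ, by rw [hγβ, hβ], hδ0, hκ⟩
      rcases mul_eq_zero.mp Q with h | h
      · rcases mul_eq_zero.mp h with h | h
        · exact absurd h h20
        · exact absurd h hκ
      · exact h
  · exfalso
    have h3 : (e + 1) ≠ 0 := fun h => he1 (by linear_combination h)
    have h4 : (e + 1) * (e - 1) = 0 := by linear_combination he
    have h5 : e = 1 := by
      rcases mul_eq_zero.mp h4 with h | h
      · exact absurd h h3
      · linear_combination h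
    subst h5
    have h20 : (2 : k) ≠ 0 := fun h => he1 (by linear_combination h)
    have hT0 : T = 0 := by
      rcases mul_eq_zero.mp hTe with h | h
      · exact h
      · exact absurd (by linear_combination h) h20
    rw [hT0] at L1 L2 L3 L4 L5
    have hγβ : γ = β := by linear_combination L2 - L3
    have hδκ : δ = κ := by linear_combination L5 - L4
    have hαβ : α = β := by
      have h6 : 2 * (α - β) = 0 := by linear_combination L1 + hγβ
      rcases mul_eq_zero.mp h6 with h | h
      · exact absurd h h20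
      · linear_combination h
    have hβκ : β = κ := by
      have h6 : 2 * (β - κ) = 0 := by linear_combination -L2 - hαβ + hδκ
      rcases mul_eq_zero.mp h6 with h | h
      · exact absurd h h20
      · linear_combination h
    have hκ : κ = 0 := by linear_combination -L4 + hγβ + 2 * hβκ - 2 * hδκ
    exact hne ⟨by rw [hαβ, hβκ, hκ], by rw [hβκ, hκ], by rw [hγβ, hβκ, hκ], by rw [hδκ, hκ], hκ⟩


open Matrix

/-- Scalar conditions for a pair `a`, `b` (trace `-1`, determinant `1`) and `c`. -/
theorem pair (a b c : Matrix (Fin 2) (Fin 2) k) (e : k)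
    (ta : a.trace = -1) (da : a.det = 1) (tb : b.trace = -1) (db : b.det = 1)
    (tc : c.trace = 0) (dc : c.det = 1) (h1 : (a * c).trace = 1) (h2 : (b * c).trace = e)
    (he : e ^ 2 = 1) (h3 : (a * b * (-1 - a) * c).trace = 0)
    (h4 : (b * a * (-1 - b) * c).trace = 0) :
    (a * b).trace ≠ 2 ∧
      ((a * b).trace ≠ -1 → (2 : k) ≠ 0 ∧ 2 * (a * b).trace ^ 2 - 4 * (a * b).trace + 1 = 0) := by
  obtain ⟨p, q, r, s, rfl⟩ : ∃ p q r s, a = !![p, q; r, s] := ⟨_, _, _, _, a.eta_fin_two⟩
  obtain ⟨u, v, w, s', rfl⟩ : ∃ p q r s, b = !![p, q; r, s] := ⟨_, _, _, _, b.eta_fin_two⟩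
  obtain ⟨x, y, z, s'', rfl⟩ : ∃ p q r s, c = !![p, q; r, s] := ⟨_, _, _, _, c.eta_fin_two⟩
  rw [Matrix.trace_fin_two_of] at ta tb tc
  rw [Matrix.det_fin_two_of] at da db dc
  obtain rfl : s = -1 - p := by linear_combination ta
  obtain rfl : s' = -1 - u := by linear_combination tb
  obtain rfl : s'' = -x := by linear_combination tc
  have hone : (-1 : Matrix (Fin 2) (Fin 2) k) = !![-1, 0; 0, -1] := by
    ext i j
    fin_cases i <;> fin_cases j <;> simp
  have ia : (-1 - !![p, q; r, -1 - p] : Matrix (Fin 2) (Fin 2) k) = !![-1 - p, -q; -r, p] := by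
    rw [hone]
    ext i j
    fin_cases i <;> fin_cases j <;> simp
  have ib : (-1 - !![u, v; w, -1 - u] : Matrix (Fin 2) (Fin 2) k) = !![-1 - u, -v; -w, u] := by
    rw [hone]
    ext i j
    fin_cases i <;> fin_cases j <;> simp
  rw [ia] at h3
  rw [ib] at h4
  simp only [Matrix.mul_fin_two, Matrix.trace_fin_two_of] at h1 h2 h3 h4 ⊢
  have g1 : p * x + q * z + r * y + (1 + p) * x = 1 := by linear_combination h1
  have g2 : u * x + v * z + w * y + (1 + u) * x = e := by linear_combination h2
  have hZ : (p * u + q * w) * x + (p * v - q * (1 + u)) * z + (r * u - (1 + p) * w) * y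
      - (r * v + (1 + p) * (1 + u)) * x
      = -(p * u + q * w + r * v + (1 + p) * (1 + u)) - e := by
    linear_combination -h3 - (p * u + q * w + r * v + (1 + p) * (1 + u)) * g1
      - (p * (-1 - p) - q * r) * g2 - e * da
  have hW : (u * p + v * r) * x + (u * q - v * (1 + p)) * z + (w * p - (1 + u) * r) * y
      - (w * q + (1 + u) * (1 + p)) * x
      = -(p * u + q * w + r * v + (1 + p) * (1 + u)) * e - 1 := by
    linear_combination -h4 - (p * u + q * w + r * v + (1 + p) * (1 + u)) * g2
      - (u * (-1 - u) - v * w) * g1 - db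
  have dc' : -x * x - y * z = 1 := by linear_combination dc
  have key : p * u + q * w + (r * v + (-1 - p) * (-1 - u))
      = p * u + q * w + r * v + (1 + p) * (1 + u) := by ring
  rw [key]
  refine ⟨t_ne_two p q r u v w x y z e da db g1 g2 he hZ hW, fun hne => ?_⟩
  by_cases h2' : p * u + q * w + r * v + (1 + p) * (1 + u) = 2
  · exact absurd h2' (t_ne_two p q r u v w x y z e da db g1 g2 he hZ hW)
  · exact t_quad p q r u v w x y z e da db dc' g1 g2 he hZ hW _ rfl h2' hne

end Pool.Agent.Helper888.PGLCore
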