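import Mathlib
import Pool.Agent.Helper888.PGLCore

set_option autoImplicit false

namespace Pool.Agent.Helper888.PGLTwo

open Matrix
open scoped MatrixGroups

variable {k : Type*} [Field k]

theorem trace_sq_of_cube (M : Matrix (Fin 2) (Fin 2) k) (h : ∀ s : k, M ≠ Matrix.scalar (Fin 2) s)
    (s : k) (hs : M ^ 3 = Matrix.scalar (Fin 2) s) : M.trace ^ 2 = M.det := by
  obtain ⟨p, q, r, t, rfl⟩ : ∃ p q r s, M = !![p, q; r, s] := ⟨_, _, _, _, M.eta_fin_two⟩
  rw [Matrix.trace_fin_two_of, Matrix.det_fin_two_of]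
  by_contra hne
  have hD : (p + t) ^ 2 - (p * t - q * r) ≠ 0 := fun h => hne (by linear_combination h)
  have e00 := congrFun (congrFun hs 0) 0
  have e01 := congrFun (congrFun hs 0) 1
  have e10 := congrFun (congrFun hs 1) 0
  have e11 := congrFun (congrFun hs 1) 1
  simp [pow_succ, Matrix.mul_apply, Fin.sum_univ_succ] at e00 e01 e10 e11
  have hq : q = 0 := by
    have : ((p + t) ^ 2 - (p * t - q * r)) * q = 0 := by linear_combination e01
    rcases mul_eq_zero.mp this with h | h
    · exact absurd h hD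
    · exact h
  have hr : r = 0 := by
    have : ((p + t) ^ 2 - (p * t - q * r)) * r = 0 := by linear_combination e10
    rcases mul_eq_zero.mp this with h | h
    · exact absurd h hD
    · exact h
  have ht : p = t := by
    have : ((p + t) ^ 2 - (p * t - q * r)) * (p - t) = 0 := by linear_combination e00 - e11
    rcases mul_eq_zero.mp this with h | h
    · exact absurd h hD
    · linear_combination h
  apply h p
  subst ht hq hr
  ext i j
  fin_cases i <;> fin_cases j <;> simp

theorem trace_zero_of_sq (M : Matrix (Fin 2) (Fin 2) k) (h : ∀ s : k, M ≠ Matrix.scalar (Fin 2) s)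
    (s : k) (hs : M ^ 2 = Matrix.scalar (Fin 2) s) : M.trace = 0 := by
  obtain ⟨p, q, r, t, rfl⟩ : ∃ p q r s, M = !![p, q; r, s] := ⟨_, _, _, _, M.eta_fin_two⟩
  rw [Matrix.trace_fin_two_of]
  by_contra hne
  have e00 := congrFun (congrFun hs 0) 0
  have e01 := congrFun (congrFun hs 0) 1
  have e10 := congrFun (congrFun hs 1) 0
  have e11 := congrFun (congrFun hs 1) 1
  simp [pow_succ, Matrix.mul_apply, Fin.sum_univ_succ] at e00 e01 e10 e11
  have hq : q = 0 := by
    have : (p + t) * q = 0 := by linear_combination e01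
    rcases mul_eq_zero.mp this with h | h
    · exact absurd h hne
    · exact h
  have hr : r = 0 := by
    have : (p + t) * r = 0 := by linear_combination e10
    rcases mul_eq_zero.mp this with h | h
    · exact absurd h hne
    · exact h
  have ht : p = t := by
    have : (p + t) * (p - t) = 0 := by linear_combination e00 - e11
    rcases mul_eq_zero.mp this with h | h
    · exact absurd h hne
    · linear_combination h
  apply h p
  subst ht hq hr
  ext i j
  fin_cases i <;> fin_cases j <;> simp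

theorem mul_inv_two (a : Matrix (Fin 2) (Fin 2) k) (ta : a.trace = -1) (da : a.det = 1) :
    a * (-1 - a) = 1 := by
  obtain ⟨p, q, r, t, rfl⟩ : ∃ p q r s, a = !![p, q; r, s] := ⟨_, _, _, _, a.eta_fin_two⟩
  rw [Matrix.trace_fin_two_of] at ta
  rw [Matrix.det_fin_two_of] at da
  have hm : (-1 - !![p, q; r, t] : Matrix (Fin 2) (Fin 2) k) = !![-1 - p, -q; -r, -1 - t] := by
    have hone : (-1 : Matrix (Fin 2) (Fin 2) k) = !![-1, 0; 0, -1] := by
      ext i j
      fin_cases i <;> fin_cases j <;> simp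
    rw [hone]
    ext i j
    fin_cases i <;> fin_cases j <;> simp
  have c1 : p * (-1 - p) + q * -r = 1 := by linear_combination da - p * ta
  have c2 : p * -q + q * (-1 - t) = 0 := by linear_combination -q * ta
  have c3 : r * (-1 - p) + t * -r = 0 := by linear_combination -r * ta
  have c4 : r * -q + t * (-1 - t) = 1 := by linear_combination da - t * ta
  rw [hm, Matrix.mul_fin_two, c1, c2, c3, c4, ← Matrix.one_fin_two]

theorem no_four (a b c d : Matrix (Fin 2) (Fin 2) k)
    (ta : a.trace = -1) (da : a.det = 1) (tb : b.trace = -1) (db : b.det = 1)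
    (tc : c.trace = 0) (dc : c.det ≠ 0) (hac : (a * c).trace ^ 2 = c.det)
    (hbc : (b * c).trace ^ 2 = c.det) (h3 : (a * b * (-1 - a) * c).trace = 0)
    (h4 : (b * a * (-1 - b) * c).trace = 0)
    (td : d.trace = 0) (dd : d.det ≠ 0) (had : (a * d).trace ^ 2 = d.det)
    (hbd : (b * d).trace ^ 2 = d.det) (h5 : (a * b * (-1 - a) * d).trace = 0)
    (h6 : ((-1 - b) * a * b * d).trace = 0) : False := by
  -- normalise c
  have hc0 : (a * c).trace ≠ 0 := fun h => dc (by rw [← hac, h]; ring)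
  have hd0 : (a * d).trace ≠ 0 := fun h => dd (by rw [← had, h]; ring)
  have P1 := Pool.Agent.Helper888.PGLCore.pair a b ((a * c).trace⁻¹ • c)
    ((a * c).trace⁻¹ * (b * c).trace) ta da tb db
    (by rw [Matrix.trace_smul, tc, smul_zero])
    (by rw [Matrix.det_smul, Fintype.card_fin, ← hac]; field_simp)
    (by rw [Matrix.mul_smul, Matrix.trace_smul, smul_eq_mul, inv_mul_cancel₀ hc0])
    (by rw [Matrix.mul_smul, Matrix.trace_smul, smul_eq_mul])
    (by rw [mul_pow, hbc, ← hac]; field_simp)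
    (by rw [Matrix.mul_smul, Matrix.trace_smul, h3, smul_zero])
    (by rw [Matrix.mul_smul, Matrix.trace_smul, h4, smul_zero])
  have tb' : (-1 - b).trace = -1 := by
    rw [Matrix.trace_sub, Matrix.trace_neg, tb, Matrix.trace_one, Fintype.card_fin]; norm_num
  have db' : (-1 - b).det = 1 := by
    obtain ⟨p, q, r, t, rfl⟩ : ∃ p q r s, b = !![p, q; r, s] := ⟨_, _, _, _, b.eta_fin_two⟩
    rw [Matrix.trace_fin_two_of] at tb
    rw [Matrix.det_fin_two_of] at db
    rw [Matrix.det_fin_two]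
    simp
    linear_combination tb + db
  have aa : a * (-1 - a) = 1 := mul_inv_two a ta da
  have hab' : (a * (-1 - b)).trace = 1 - (a * b).trace := by
    rw [mul_sub, Matrix.trace_sub, mul_neg, mul_one, Matrix.trace_neg, ta]; ring
  have hb'd : ((-1 - b) * d).trace = -(b * d).trace := by
    rw [sub_mul, Matrix.trace_sub, neg_mul, one_mul, Matrix.trace_neg, td]; ring
  have P2 := Pool.Agent.Helper888.PGLCore.pair a (-1 - b) ((a * d).trace⁻¹ • d)
    (-((a * d).trace⁻¹ * (b * d).trace)) ta da tb' db'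
    (by rw [Matrix.trace_smul, td, smul_zero])
    (by rw [Matrix.det_smul, Fintype.card_fin, ← had]; field_simp)
    (by rw [Matrix.mul_smul, Matrix.trace_smul, smul_eq_mul, inv_mul_cancel₀ hd0])
    (by rw [Matrix.mul_smul, Matrix.trace_smul, smul_eq_mul, hb'd]; ring)
    (by rw [neg_sq, mul_pow, hbd, ← had]; field_simp)
    (by
      rw [Matrix.mul_smul, Matrix.trace_smul]
      have : a * (-1 - b) * (-1 - a) * d = -d - a * b * (-1 - a) * d := by
        calc a * (-1 - b) * (-1 - a) * d = -(a * (-1 - a)) * d - a * b * (-1 - a) * d := by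
              noncomm_ring
          _ = _ := by rw [aa]; noncomm_ring
      rw [this, Matrix.trace_sub, Matrix.trace_neg, td, h5]; simp)
    (by
      rw [Matrix.mul_smul, Matrix.trace_smul]
      have : (-1 - b) * a * (-1 - (-1 - b)) * d = (-1 - b) * a * b * d := by noncomm_ring
      rw [this, h6, smul_zero])
  rw [hab'] at P2
  set T := (a * b).trace with hT
  have hT1 : T ≠ -1 := fun h => P2.1 (by rw [h]; ring)
  have hT2 : 1 - T ≠ -1 := fun h => P1.1 (by linear_combination -h)
  obtain ⟨h20, Q1⟩ := P1.2 hT1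
  obtain ⟨_, Q2⟩ := P2.2 hT2
  have Q3 : 2 * (2 * T - 1) = 0 := by linear_combination -Q1 + Q2
  have Q4 : 2 * T = 1 := by
    rcases mul_eq_zero.mp Q3 with h | h
    · exact absurd h h20
    · linear_combination h
  have Q5 : (1 : k) = 0 := by
    linear_combination -2 * Q1 + (2 * T - 3) * Q4
  exact one_ne_zero Q5

theorem one_of_sq_cube {G : Type*} [Group G] {x : G} (h2 : x ^ 2 = 1) (h3 : x ^ 3 = 1) :
    x = 1 := by
  calc x = x ^ 3 * (x ^ 2)⁻¹ := by group
    _ = 1 := by rw [h2, h3]; simp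

theorem mk_ne_one {g : GL (Fin 2) k} (h : ProjGenLinGroup.mk g ≠ 1) (s : k) :
    g.val ≠ Matrix.scalar (Fin 2) s := by
  intro hs
  apply h
  rw [ProjGenLinGroup.mk_eq_one, GeneralLinearGroup.mem_center_iff_val_mem_range_scalar]
  exact ⟨s, hs.symm⟩

theorem mk_cube {g : GL (Fin 2) k} (h : ProjGenLinGroup.mk g ≠ 1)
    (h3 : ProjGenLinGroup.mk g ^ 3 = 1) : g.val.trace ^ 2 = g.val.det := by
  rw [← map_pow, ProjGenLinGroup.mk_eq_one,
    GeneralLinearGroup.mem_center_iff_val_mem_range_scalar] at h3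
  obtain ⟨s, hs⟩ := h3
  exact trace_sq_of_cube _ (mk_ne_one h) s (by rw [hs]; simp)

theorem mk_sq {g : GL (Fin 2) k} (h : ProjGenLinGroup.mk g ≠ 1)
    (h3 : ProjGenLinGroup.mk g ^ 2 = 1) : g.val.trace = 0 := by
  rw [← map_pow, ProjGenLinGroup.mk_eq_one,
    GeneralLinearGroup.mem_center_iff_val_mem_range_scalar] at h3
  obtain ⟨s, hs⟩ := h3
  exact trace_zero_of_sq _ (mk_ne_one h) s (by rw [hs]; simp)

theorem det_ne (g : GL (Fin 2) k) : g.val.det ≠ 0 := by
  have := g.det.ne_zero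
  simpa using this

/-- the scaled lift -/
theorem scaled (g : GL (Fin 2) k) (h : g.val.trace ^ 2 = g.val.det) :
    g.val.trace ≠ 0 ∧ ((-g.val.trace⁻¹) • g.val).trace = -1 ∧
      ((-g.val.trace⁻¹) • g.val).det = 1 ∧
      -1 - (-g.val.trace⁻¹) • g.val = (-g.val.trace) • (g⁻¹).val := by
  have h0 : g.val.trace ≠ 0 := fun h1 => det_ne g (by rw [← h, h1]; ring)
  have ht : ((-g.val.trace⁻¹) • g.val).trace = -1 := by
    rw [Matrix.trace_smul, smul_eq_mul]
    field_simp
  have hd : ((-g.val.trace⁻¹) • g.val).det = 1 := by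
    rw [Matrix.det_smul, Fintype.card_fin, ← h]
    field_simp
  refine ⟨h0, ht, hd, ?_⟩
  have haa := mul_inv_two _ ht hd
  have hinv : (g⁻¹).val * g.val = 1 := by
    rw [← Units.val_mul, inv_mul_cancel, Units.val_one]
  have h2 : ((-g.val.trace) • (g⁻¹).val) * ((-g.val.trace⁻¹) • g.val) = 1 := by
    rw [Matrix.smul_mul, Matrix.mul_smul, smul_smul, hinv]
    have : -g.val.trace * -g.val.trace⁻¹ = 1 := by field_simp
    rw [this, one_smul]
  calc -1 - (-g.val.trace⁻¹) • g.val
      = (((-g.val.trace) • (g⁻¹).val) * ((-g.val.trace⁻¹) • g.val)) *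
          (-1 - (-g.val.trace⁻¹) • g.val) := by rw [h2, one_mul]
    _ = ((-g.val.trace) • (g⁻¹).val) *
          (((-g.val.trace⁻¹) • g.val) * (-1 - (-g.val.trace⁻¹) • g.val)) := by
        rw [mul_assoc]
    _ = _ := by rw [haa, mul_one]

theorem A_eq_one (A B C D : PGL(2, k)) (hA : A ^ 3 = 1) (hB : B ^ 3 = 1) (hC : C ^ 2 = 1)
    (hD : D ^ 2 = 1) (hAC : (A * C) ^ 3 = 1) (hAD : (A * D) ^ 3 = 1) (hBC : (B * C) ^ 3 = 1)
    (hBD : (B * D) ^ 3 = 1) (h1 : (A * B * A⁻¹ * C) ^ 2 = 1) (h2 : (A * B * A⁻¹ * D) ^ 2 = 1)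
    (h3 : (B * A * B⁻¹ * C) ^ 2 = 1) (h4 : (B⁻¹ * A * B * D) ^ 2 = 1) : A = 1 := by
  by_contra nA
  have nC : C ≠ 1 := by
    rintro rfl
    apply nA
    refine one_of_sq_cube ?_ hA
    calc A ^ 2 = B⁻¹ * (B * A * B⁻¹ * 1) ^ 2 * B := by
          simp only [pow_succ, pow_zero, one_mul, mul_one]
          group
      _ = 1 := by rw [h3]; group
  have nD : D ≠ 1 := by
    rintro rfl
    apply nA
    refine one_of_sq_cube ?_ hA
    calc A ^ 2 = B * (B⁻¹ * A * B * 1) ^ 2 * B⁻¹ := by
          simp only [pow_succ, pow_zero, one_mul, mul_one]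
          group
      _ = 1 := by rw [h4]; group
  have inv_sq : ∀ X Y : PGL(2, k), X * Y = 1 → Y ^ 2 = 1 → X ^ 3 = 1 → X = 1 := by
    intro X Y hXY hY hX
    have hX' : X = Y⁻¹ := eq_inv_of_mul_eq_one_left hXY
    refine one_of_sq_cube ?_ hX
    rw [hX', inv_pow, hY, inv_one]
  have nB : B ≠ 1 := by
    rintro rfl
    apply nA
    have hACs : (A * C) ^ 2 = 1 := by
      calc (A * C) ^ 2 = (1 * A * 1⁻¹ * C) ^ 2 := by group
        _ = 1 := h3
    exact inv_sq A C (one_of_sq_cube hACs hAC) hC hA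
  have nAC : A * C ≠ 1 := fun h => nA (inv_sq A C h hC hA)
  have nAD : A * D ≠ 1 := fun h => nA (inv_sq A D h hD hA)
  have nBC : B * C ≠ 1 := fun h => nB (inv_sq B C h hC hB)
  have nBD : B * D ≠ 1 := fun h => nB (inv_sq B D h hD hB)
  have n1 : A * B * A⁻¹ * C ≠ 1 := by
    intro h
    apply nB
    have := inv_sq (A * B * A⁻¹) C h hC (by
      calc (A * B * A⁻¹) ^ 3 = A * B ^ 3 * A⁻¹ := by
            simp only [pow_succ, pow_zero, one_mul, mul_one]
            group
        _ = 1 := by rw [hB]; group)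
    calc B = A⁻¹ * (A * B * A⁻¹) * A := by group
      _ = 1 := by rw [this]; group
  have n2 : A * B * A⁻¹ * D ≠ 1 := by
    intro h
    apply nB
    have := inv_sq (A * B * A⁻¹) D h hD (by
      calc (A * B * A⁻¹) ^ 3 = A * B ^ 3 * A⁻¹ := by
            simp only [pow_succ, pow_zero, one_mul, mul_one]
            group
        _ = 1 := by rw [hB]; group)
    calc B = A⁻¹ * (A * B * A⁻¹) * A := by group
      _ = 1 := by rw [this]; group
  have n3 : B * A * B⁻¹ * C ≠ 1 := by
    intro h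
    apply nA
    have := inv_sq (B * A * B⁻¹) C h hC (by
      calc (B * A * B⁻¹) ^ 3 = B * A ^ 3 * B⁻¹ := by
            simp only [pow_succ, pow_zero, one_mul, mul_one]
            group
        _ = 1 := by rw [hA]; group)
    calc A = B⁻¹ * (B * A * B⁻¹) * B := by group
      _ = 1 := by rw [this]; group
  have n4 : B⁻¹ * A * B * D ≠ 1 := by
    intro h
    apply nA
    have := inv_sq (B⁻¹ * A * B) D h hD (by
      calc (B⁻¹ * A * B) ^ 3 = B⁻¹ * A ^ 3 * B := by
            simp only [pow_succ, pow_zero, one_mul, mul_one]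
            group
        _ = 1 := by rw [hA]; group)
    calc A = B * (B⁻¹ * A * B) * B⁻¹ := by group
      _ = 1 := by rw [this]; group
  obtain ⟨a, rfl⟩ := ProjGenLinGroup.mk_surjective A
  obtain ⟨b, rfl⟩ := ProjGenLinGroup.mk_surjective B
  obtain ⟨c, rfl⟩ := ProjGenLinGroup.mk_surjective C
  obtain ⟨d, rfl⟩ := ProjGenLinGroup.mk_surjective D
  simp only [← map_mul, ← map_inv] at nAC nAD nBC nBD n1 n2 n3 n4 hAC hAD hBC hBD h1 h2 h3 h4
  have ta := mk_cube nA hA
  have tb := mk_cube nB hB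
  have tc := mk_sq nC hC
  have td := mk_sq nD hD
  have tac := mk_cube nAC hAC
  have tad := mk_cube nAD hAD
  have tbc := mk_cube nBC hBC
  have tbd := mk_cube nBD hBD
  have t1 := mk_sq n1 h1
  have t2 := mk_sq n2 h2
  have t3 := mk_sq n3 h3
  have t4 := mk_sq n4 h4
  simp only [Units.val_mul, Matrix.det_mul] at tac tad tbc tbd t1 t2 t3 t4
  obtain ⟨a0, a1, a2, a3⟩ := scaled a ta
  obtain ⟨b0, b1, b2, b3⟩ := scaled b tb
  refine no_four _ _ c.val d.val a1 a2 b1 b2 tc (det_ne c) ?_ ?_ ?_ ?_ td (det_ne d) ?_ ?_ ?_ ?_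
  · rw [Matrix.smul_mul, Matrix.trace_smul, smul_eq_mul, mul_pow, tac, ← ta]
    field_simp
  · rw [Matrix.smul_mul, Matrix.trace_smul, smul_eq_mul, mul_pow, tbc, ← tb]
    field_simp
  · rw [a3]
    simp only [Matrix.smul_mul, Matrix.mul_smul, Matrix.trace_smul, smul_eq_mul, t1, mul_zero]
  · rw [b3]
    simp only [Matrix.smul_mul, Matrix.mul_smul, Matrix.trace_smul, smul_eq_mul, t3, mul_zero]
  · rw [Matrix.smul_mul, Matrix.trace_smul, smul_eq_mul, mul_pow, tad, ← ta]
    field_simp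
  · rw [Matrix.smul_mul, Matrix.trace_smul, smul_eq_mul, mul_pow, tbd, ← tb]
    field_simp
  · rw [a3]
    simp only [Matrix.smul_mul, Matrix.mul_smul, Matrix.trace_smul, smul_eq_mul, t2, mul_zero]
  · rw [b3]
    simp only [Matrix.smul_mul, Matrix.mul_smul, Matrix.trace_smul, smul_eq_mul, t4, mul_zero]

end Pool.Agent.Helper888.PGLTwo
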