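import Mathlib

/-!
# Pseudoradial spaces and `C_p([0,1])`: the definitions
-/

set_option autoImplicit false

open Set Filter Topology

namespace Pool.Agent.Helper888.PR

universe u

/-- The transfinite sequence `(s α)_{α < κ}` converges to `x`: every neighbourhood of `x` contains
`s α` for all sufficiently large `α < κ`. -/
def TransConverges {Z : Type u} [TopologicalSpace Z] (κ : Ordinal.{u}) (s : Ordinal.{u} → Z)
    (x : Z) : Prop :=
  ∀ U ∈ 𝓝 x, ∃ β < κ, ∀ α, β ≤ α → α < κ → s α ∈ U

/-- `A` is radially closed: every point to which some transfinite sequence of points of `A`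
converges lies in `A`. -/
def RadiallyClosed {Z : Type u} [TopologicalSpace Z] (A : Set Z) : Prop :=
  ∀ (κ : Ordinal.{u}) (s : Ordinal.{u} → Z) (x : Z),
    (∀ α < κ, s α ∈ A) → TransConverges κ s x → x ∈ A

/-- `Z` is pseudoradial: every radially closed subset is closed. -/
def Pseudoradial (Z : Type u) [TopologicalSpace Z] : Prop :=
  ∀ A : Set Z, RadiallyClosed A → IsClosed A

/-- `C_p([0,1])`: the continuous real functions on `[0,1]`, with the topology of pointwise
convergence (the subspace topology of the product `[0,1] → ℝ`). -/
abbrev Cp : Type := {f : Set.Icc (0 : ℝ) 1 → ℝ // Continuous f}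

end Pool.Agent.Helper888.PR
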