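import Mathlib
import Pool.Agent.Helper888.PRDefs

/-!
# `C_p([0,1])` does not embed in a regular pseudoradial space
-/

set_option autoImplicit false

open Set Filter Topology

namespace Pool.Agent.Helper888.PR

universe u

/-- the unit interval -/
abbrev I01 : Type := Set.Icc (0 : ℝ) 1

/-- A transfinite sequence in a countable set converging to a point outside gives an ordinary one. -/
theorem exists_seq_of_trans {Z : Type u} [TopologicalSpace Z] [T1Space Z] {A : Set Z}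
    (hA : A.Countable) {κ : Ordinal.{u}} {s : Ordinal.{u} → Z} {x : Z} (hs : ∀ α < κ, s α ∈ A)
    (hc : TransConverges κ s x) (hx : x ∉ A) :
    ∃ y : ℕ → Z, (∀ n, y n ∈ A) ∧ Tendsto y atTop (𝓝 x) := by
  obtain ⟨β₀, hβ₀, -⟩ := hc univ univ_mem
  have hne : A.Nonempty := ⟨_, hs β₀ hβ₀⟩
  obtain ⟨a, rfl⟩ := hA.exists_eq_range hne
  have h1 : ∀ n, ∃ β < κ, ∀ α, β ≤ α → α < κ → s α ≠ a n := by
    intro n
    have hxa : x ≠ a n := fun h => hx ⟨n, h.symm⟩
    exact hc _ (isOpen_compl_singleton.mem_nhds hxa)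
  choose β hβ hβ' using h1
  -- the running maximum
  let γ : ℕ → Ordinal.{u} := fun n => Nat.rec (β 0) (fun k g => max g (β (k + 1))) n
  have hγ : ∀ n, γ n < κ := by
    intro n
    induction n with
    | zero => exact hβ 0
    | succ k ih => exact max_lt ih (hβ (k + 1))
  have hγmono : Monotone γ := monotone_nat_of_le_succ fun n => le_max_left _ _
  have hγβ : ∀ n, β n ≤ γ n := by
    intro n
    cases n with
    | zero => exact le_refl _
    | succ k => exact le_max_right _ _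
  refine ⟨fun n => s (γ n), fun n => hs _ (hγ n), ?_⟩
  intro U hU
  obtain ⟨δ, hδ, hδU⟩ := hc U hU
  obtain ⟨m, hm⟩ := hs δ hδ
  have hlt : δ < β m := by
    by_contra h
    exact hβ' m δ (not_lt.1 h) hδ hm.symm
  refine mem_map.2 (mem_atTop_sets.2 ⟨m, fun n hn => ?_⟩)
  exact hδU _ (hlt.le.trans ((hγβ m).trans (hγmono hn))) (hγ n)

/-- An injective choice of points of finitely many infinite sets. -/
theorem exists_inj {X : Type*} (n : ℕ) : ∀ (V : Fin n → Set X), (∀ i, (V i).Infinite) →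
    ∃ p : Fin n → X, Function.Injective p ∧ ∀ i, p i ∈ V i := by
  induction n with
  | zero => exact fun V _ => ⟨Fin.elim0, fun i => i.elim0, fun i => i.elim0⟩
  | succ n ih =>
    intro V hV
    obtain ⟨p, hp, hpV⟩ := ih (fun i => V i.succ) (fun i => hV i.succ)
    obtain ⟨x, hx, hx'⟩ := ((hV 0).sdiff (finite_range p)).nonempty
    refine ⟨Fin.cons x p, Fin.cons_injective_iff.2 ⟨hx', hp⟩, ?_⟩
    intro i
    refine Fin.cases ?_ (fun j => ?_) i
    · simpa using hx
    · simpa using hpV j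

/-- An injective choice of points of finitely many infinite sets. -/
theorem exists_inj' {ι X : Type*} [Finite ι] (V : ι → Set X) (hV : ∀ i, (V i).Infinite) :
    ∃ p : ι → X, Function.Injective p ∧ ∀ i, p i ∈ V i := by
  obtain ⟨n, ⟨e⟩⟩ := Finite.exists_equiv_fin ι
  obtain ⟨p, hp, hpV⟩ := exists_inj n (fun i => V (e.symm i)) fun i => hV _
  exact ⟨fun i => p (e i), hp.comp e.injective, fun i => by simpa using hpV (e i)⟩

/-- Disjoint bumps in finitely many given open sets. -/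
theorem exists_bumps {X : Type*} [MetricSpace X] [∀ x : X, (𝓝[≠] x).NeBot] (K : ℕ)
    (V : ℕ → Set X) (hV : ∀ l < K, IsOpen (V l) ∧ (V l).Nonempty) :
    ∃ f : ℕ → X → ℝ, (∀ i, Continuous (f i)) ∧
      (∀ i j, i ≤ K → j ≤ K → i ≠ j → ∀ x, f i x * f j x = 0) ∧
      (∀ i, i ≤ K → ∀ x, f i x ≠ 0 → ∃ l < K, x ∈ V l) ∧
      ∀ i, i ≤ K → ∀ l < K, ∃ p ∈ V l, f i p = 1 := by
  classical
  have hinf : ∀ a : Fin (K + 1) × Fin K, (V a.2).Infinite := by
    intro a
    obtain ⟨ho, x, hx⟩ := hV a.2 a.2.2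
    exact infinite_of_mem_nhds x (ho.mem_nhds hx)
  obtain ⟨p, hp, hpV⟩ := exists_inj' (fun a : Fin (K + 1) × Fin K => V a.2) hinf
  have h1 : ∀ᶠ r : ℝ in 𝓝[>] 0, ∀ a : Fin (K + 1) × Fin K, Metric.ball (p a) r ⊆ V a.2 := by
    refine eventually_all.2 fun a => ?_
    obtain ⟨ε, hε, h⟩ := Metric.isOpen_iff.1 (hV a.2 a.2.2).1 (p a) (hpV a)
    filter_upwards [Ioo_mem_nhdsGT hε] with r hr
    exact (Metric.ball_subset_ball hr.2.le).trans h
  have h2 : ∀ᶠ r : ℝ in 𝓝[>] 0, ∀ a b : Fin (K + 1) × Fin K, a ≠ b → r + r ≤ dist (p a) (p b) := by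
    refine eventually_all.2 fun a => eventually_all.2 fun b => ?_
    by_cases hab : a = b
    · exact Eventually.of_forall fun r h => absurd hab h
    · have hd : 0 < dist (p a) (p b) := dist_pos.2 fun h => hab (hp h)
      filter_upwards [Ioo_mem_nhdsGT (half_pos hd)] with r hr _
      linarith [hr.2]
  obtain ⟨r, ⟨hr1, hr2⟩, hr0⟩ := ((h1.and h2).and self_mem_nhdsWithin).exists
  have hr0 : 0 < r := hr0
  let b : Fin (K + 1) × Fin K → X → ℝ := fun a x => max 0 (1 - dist x (p a) / r)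
  have hb : ∀ a x, b a x ≠ 0 → x ∈ Metric.ball (p a) r := by
    intro a x h
    by_contra hx
    apply h
    rw [Metric.mem_ball, not_lt] at hx
    refine max_eq_left ?_
    have : 1 ≤ dist x (p a) / r := (one_le_div hr0).2 hx
    linarith
  have hbp : ∀ a c, a ≠ c → b a (p c) = 0 := by
    intro a c hac
    by_contra h
    have h3 := hb a (p c) h
    rw [Metric.mem_ball] at h3
    have h4 := hr2 c a (Ne.symm hac)
    linarith
  have hbc : ∀ a, Continuous (b a) := fun a =>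
    continuous_const.max (continuous_const.sub ((continuous_id.dist continuous_const).div_const r))
  let f : ℕ → X → ℝ := fun i x => ∑ l : Fin K, b (Fin.ofNat (K + 1) i, l) x
  have hf : ∀ i x, f i x ≠ 0 → ∃ l : Fin K, x ∈ Metric.ball (p (Fin.ofNat (K + 1) i, l)) r := by
    intro i x h
    obtain ⟨l, -, hl⟩ := Finset.exists_ne_zero_of_sum_ne_zero h
    exact ⟨l, hb _ _ hl⟩
  refine ⟨f, fun i => continuous_finsetSum _ fun l _ => hbc _, ?_, ?_, ?_⟩
  · intro i j hi hj hij x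
    by_contra h
    obtain ⟨l, hl⟩ := hf i x (left_ne_zero_of_mul h)
    obtain ⟨l', hl'⟩ := hf j x (right_ne_zero_of_mul h)
    have hne : ((Fin.ofNat (K + 1) i, l) : Fin (K + 1) × Fin K) ≠ (Fin.ofNat (K + 1) j, l') := by
      intro h5
      have h6 := congrArg (fun a => (a.1 : ℕ)) h5
      simp only [Fin.ofNat] at h6
      rw [Nat.mod_eq_of_lt (by omega), Nat.mod_eq_of_lt (by omega)] at h6
      exact hij h6
    have h7 := hr2 _ _ hne
    rw [Metric.mem_ball] at hl hl'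
    have h8 := dist_triangle_left (p (Fin.ofNat (K + 1) i, l)) (p (Fin.ofNat (K + 1) j, l')) x
    linarith
  · intro i _ x h
    obtain ⟨l, hl⟩ := hf i x h
    exact ⟨l, l.2, hr1 _ hl⟩
  · intro i _ l hl
    refine ⟨p (Fin.ofNat (K + 1) i, ⟨l, hl⟩), hpV (Fin.ofNat (K + 1) i, ⟨l, hl⟩), ?_⟩
    have h9 : f i (p (Fin.ofNat (K + 1) i, ⟨l, hl⟩)) =
        b (Fin.ofNat (K + 1) i, ⟨l, hl⟩) (p (Fin.ofNat (K + 1) i, ⟨l, hl⟩)) := by
      refine Finset.sum_eq_single (⟨l, hl⟩ : Fin K) (fun l' _ hl' => ?_) (fun h => ?_)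
      · exact hbp _ _ fun h => hl' (Prod.ext_iff.1 h).2
      · exact absurd (Finset.mem_univ _) h
    rw [h9]
    simp [b]


/-- the zero function -/
def zeroCp : Cp := ⟨fun _ => 0, continuous_const⟩

/-- A neighbourhood of `0` in `C_p([0,1])` contains all functions vanishing on some finite set. -/
theorem nhds_zero {W : Set Cp} (hW : W ∈ 𝓝 zeroCp) :
    ∃ F : Finset I01, ∀ f : Cp, (∀ t ∈ F, f.1 t = 0) → f ∈ W := by
  rw [nhds_subtype_eq_comap, mem_comap] at hW
  obtain ⟨T, hT, hTW⟩ := hW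
  rw [nhds_pi, Filter.mem_pi] at hT
  obtain ⟨F, hF, t, ht, htT⟩ := hT
  refine ⟨hF.toFinset, fun f hf => hTW (htT ?_)⟩
  intro x hx
  have h1 : f.1 x = 0 := hf x (hF.mem_toFinset.2 hx)
  have h2 : (0 : ℝ) ∈ t x := mem_of_mem_nhds (ht x)
  rw [h1]
  exact h2

/-- The inductive condition on a finite list of sequences. -/
def PP (U : ℕ → Set I01) (L : List (ℕ → Cp)) : Prop :=
  ∀ N K : ℕ, ∃ G : List Cp, G.length = L.length ∧ (∀ g ∈ G, ∃ y ∈ L, ∃ j, N ≤ j ∧ y j = g) ∧
    G.Pairwise (fun a b => ∀ x, a.1 x * b.1 x = 0) ∧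
    ∀ l < K, ∃ V, V ⊆ U l ∧ IsOpen V ∧ V.Nonempty ∧ ∀ x ∈ V, ∀ g ∈ G, g.1 x = 0

theorem PP_nil {U : ℕ → Set I01} (hU : ∀ l, IsOpen (U l)) (hU' : ∀ l, (U l).Nonempty) :
    PP U [] := by
  intro N K
  refine ⟨[], rfl, fun g hg => absurd hg List.not_mem_nil, List.Pairwise.nil, fun l _ => ?_⟩
  exact ⟨U l, Subset.rfl, hU l, hU' l, fun _ _ g hg => absurd hg List.not_mem_nil⟩

instance : ∀ x : I01, (𝓝[≠] x).NeBot := fun x => inferInstance

/-- The inductive step. -/
theorem step {Z : Type u} [TopologicalSpace Z] [T1Space Z] (hZ : Pseudoradial Z) {e : Cp → Z}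
    (he : IsEmbedding e) {U : ℕ → Set I01} (L : List (ℕ → Cp)) (hL : PP U L) :
    ∃ y : ℕ → Cp, PP U (y :: L) ∧ (∀ N l, ∃ j, N ≤ j ∧ ∃ p ∈ U l, (y j).1 p = 1) ∧
      ∃ z, Tendsto (fun j => e (y j)) atTop (𝓝 z) := by
  classical
  -- the tuples and the bumps
  have h1 : ∀ k : ℕ, ∃ G : List Cp, G.length = L.length ∧
      (∀ g ∈ G, ∃ y ∈ L, ∃ j, k ≤ j ∧ y j = g) ∧
      G.Pairwise (fun a b => ∀ x, a.1 x * b.1 x = 0) ∧
      ∀ l < k, ∃ V, V ⊆ U l ∧ IsOpen V ∧ V.Nonempty ∧ ∀ x ∈ V, ∀ g ∈ G, g.1 x = 0 :=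
    fun k => hL k k
  choose G hGlen hGmem hGpw hGV using h1
  have h2 : ∀ k : ℕ, ∃ V : ℕ → Set I01, ∀ l < k, V l ⊆ U l ∧ IsOpen (V l) ∧ (V l).Nonempty ∧
      ∀ x ∈ V l, ∀ g ∈ G k, g.1 x = 0 := by
    intro k
    have h3 : ∀ l, ∃ V : Set I01, l < k → V ⊆ U l ∧ IsOpen V ∧ V.Nonempty ∧
        ∀ x ∈ V, ∀ g ∈ G k, g.1 x = 0 := by
      intro l
      by_cases hl : l < k
      · obtain ⟨V, hV⟩ := hGV k l hl
        exact ⟨V, fun _ => hV⟩
      · exact ⟨∅, fun h => absurd h hl⟩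
    choose V hV using h3
    exact ⟨V, hV⟩
  choose V hV using h2
  have h4 : ∀ k : ℕ, ∃ f : ℕ → Cp,
      (∀ i j, i ≤ k → j ≤ k → i ≠ j → ∀ x, (f i).1 x * (f j).1 x = 0) ∧
      (∀ i, i ≤ k → ∀ x, (f i).1 x ≠ 0 → ∃ l < k, x ∈ V k l) ∧
      ∀ i, i ≤ k → ∀ l < k, ∃ p ∈ V k l, (f i).1 p = 1 := by
    intro k
    obtain ⟨f, hfc, hf⟩ := exists_bumps k (V k) fun l hl => ⟨(hV k l hl).2.1, (hV k l hl).2.2.1⟩
    exact ⟨fun i => ⟨f i, hfc i⟩, hf⟩
  choose f hf1 hf2 hf3 using h4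
  -- the family is not closed
  let A : Set Z := {z | ∃ k i : ℕ, 1 ≤ k ∧ i ≤ k ∧ e (f k i) = z}
  have hAc : A.Countable := by
    have : A ⊆ range (fun a : ℕ × ℕ => e (f a.1 a.2)) := by
      rintro z ⟨k, i, -, -, rfl⟩
      exact ⟨(k, i), rfl⟩
    exact (countable_range _).mono this
  have h0 : e zeroCp ∉ A := by
    rintro ⟨k, i, hk, hi, h⟩
    obtain ⟨p, -, hp⟩ := hf3 k i hi 0 (by omega)
    rw [he.injective h] at hp
    simp [zeroCp] at hp
  have h0' : e zeroCp ∈ closure A := by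
    rw [mem_closure_iff_nhds]
    intro W hW
    have hW' : e ⁻¹' W ∈ 𝓝 zeroCp := he.continuous.continuousAt.preimage_mem_nhds hW
    obtain ⟨F, hF⟩ := nhds_zero hW'
    let k := F.card + 1
    -- some bump vanishes on `F`
    have h5 : ∃ i, i ≤ k ∧ ∀ t ∈ F, (f k i).1 t = 0 := by
      by_contra hcon
      push Not at hcon
      choose! t htF ht using hcon
      have hinj : ∀ i ∈ Finset.range (k + 1), ∀ j ∈ Finset.range (k + 1), t i = t j → i = j := by
        intro i hi j hj hij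
        by_contra hne
        have hi' : i ≤ k := Nat.lt_succ_iff.1 (Finset.mem_range.1 hi)
        have hj' : j ≤ k := Nat.lt_succ_iff.1 (Finset.mem_range.1 hj)
        have h6 := hf1 k i j hi' hj' hne (t i)
        rcases mul_eq_zero.1 h6 with h7 | h7
        · exact ht i hi' h7
        · rw [hij] at h7
          exact ht j hj' h7
      have h8 := Finset.card_le_card_of_injOn (s := Finset.range (k + 1)) (t := F) t
        (fun i hi => htF i (Nat.lt_succ_iff.1 (Finset.mem_range.1 hi)))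
        (fun i hi j hj => hinj i hi j hj)
      rw [Finset.card_range] at h8
      omega
    obtain ⟨i, hi, hi'⟩ := h5
    exact ⟨e (f k i), hF _ hi', k, i, by omega, hi, rfl⟩
  have hncl : ¬ IsClosed A := fun h => h0 (h.closure_eq ▸ h0')
  have hnr : ¬ RadiallyClosed A := fun h => hncl (hZ A h)
  unfold RadiallyClosed at hnr
  push Not at hnr
  obtain ⟨κ, s, z, hs, hc, hz⟩ := hnr
  obtain ⟨w, hwA, hwz⟩ := exists_seq_of_trans hAc hs hc hz
  choose k i hk1 hik hki using hwA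
  -- the indices tend to infinity
  have hk : ∀ N, ∀ᶠ j in atTop, N < k j := by
    intro N
    let B : Set Z := {z | ∃ a ∈ Finset.range (N + 1) ×ˢ Finset.range (N + 1), a.2 ≤ a.1 ∧
      1 ≤ a.1 ∧ e (f a.1 a.2) = z}
    have hBf : B.Finite := by
      have : B ⊆ (fun a : ℕ × ℕ => e (f a.1 a.2)) ''
          (Finset.range (N + 1) ×ˢ Finset.range (N + 1) : Finset (ℕ × ℕ)) := by
        rintro z ⟨a, ha, -, -, rfl⟩
        exact ⟨a, ha, rfl⟩
      exact ((Finset.finite_toSet _).image _).subset this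
    have hzB : z ∉ B := by
      rintro ⟨a, -, h2, h3, h4⟩
      exact hz ⟨a.1, a.2, h3, h2, h4⟩
    filter_upwards [hwz (hBf.isClosed.isOpen_compl.mem_nhds hzB)] with j hj
    by_contra hlt
    apply hj
    refine ⟨(k j, i j), ?_, hik j, hk1 j, hki j⟩
    have := hik j
    simp only [Finset.mem_product, Finset.mem_range]
    omega
  refine ⟨fun j => f (k j) (i j), ?_, ?_, z, ?_⟩
  · -- the inductive condition
    intro N K
    obtain ⟨j, hj1, hj2⟩ := ((hk (max N K + 1)).and (eventually_ge_atTop N)).exists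
    have hjN : N ≤ k j := by have := le_max_left N K; omega
    have hjK : K ≤ k j := by have := le_max_right N K; omega
    refine ⟨f (k j) (i j) :: G (k j), by simp [hGlen], ?_, ?_, ?_⟩
    · intro g hg
      rcases List.mem_cons.1 hg with rfl | hg
      · exact ⟨_, List.mem_cons_self, j, hj2, rfl⟩
      · obtain ⟨y, hy, j', hj', rfl⟩ := hGmem (k j) g hg
        exact ⟨y, List.mem_cons_of_mem _ hy, j', hjN.trans hj', rfl⟩
    · refine List.pairwise_cons.2 ⟨fun g hg x => ?_, hGpw _⟩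
      by_cases h : (f (k j) (i j)).1 x = 0
      · rw [h, zero_mul]
      · obtain ⟨l, hl, hx⟩ := hf2 _ _ (hik j) x h
        rw [(hV (k j) l hl).2.2.2 x hx g hg, mul_zero]
    · intro l hl
      have hl' : l < k j := lt_of_lt_of_le hl hjK
      -- another bump
      obtain ⟨i', hi', hne⟩ : ∃ i', i' ≤ k j ∧ i' ≠ i j := by
        by_cases h : i j = 0
        · exact ⟨1, hk1 j, by omega⟩
        · exact ⟨0, by omega, by omega⟩
      obtain ⟨p, hpV, hp⟩ := hf3 (k j) i' hi' l hl'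
      have hopen : IsOpen {x | (f (k j) i').1 x ≠ 0} := isOpen_ne_fun (f (k j) i').2 continuous_const
      refine ⟨V (k j) l ∩ {x | (f (k j) i').1 x ≠ 0}, fun x hx => (hV (k j) l hl').1 hx.1,
        (hV (k j) l hl').2.1.inter hopen, ⟨p, hpV, by simp [hp]⟩, ?_⟩
      rintro x ⟨hx, hx'⟩ g hg
      rcases List.mem_cons.1 hg with rfl | hg
      · have := hf1 (k j) i' (i j) hi' (hik j) hne x
        exact (mul_eq_zero.1 this).resolve_left hx'
      · exact (hV (k j) l hl').2.2.2 x hx g hg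
  · intro N l
    obtain ⟨j, hj1, hj2⟩ := ((hk l).and (eventually_ge_atTop N)).exists
    obtain ⟨p, hpV, hp⟩ := hf3 (k j) (i j) (hik j) l hj1
    exact ⟨j, hj2, p, (hV (k j) l hj1).1 hpV, hp⟩
  · simpa only [hki] using hwz


/-- a countable base of nonempty open sets of `[0,1]` -/
theorem exists_base : ∃ U : ℕ → Set I01, (∀ l, IsOpen (U l)) ∧ (∀ l, (U l).Nonempty) ∧
    ∀ V : Set I01, IsOpen V → V.Nonempty → ∃ l, U l ⊆ V := by
  obtain ⟨B, hBc, hB0, hB⟩ := TopologicalSpace.exists_countable_basis I01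
  have hne : B.Nonempty := by
    obtain ⟨u, hu, -⟩ := hB.exists_subset_of_mem_open (mem_univ (0 : I01)) isOpen_univ
    exact ⟨u, hu⟩
  obtain ⟨U, rfl⟩ := hBc.exists_eq_range hne
  refine ⟨U, fun l => hB.isOpen (mem_range_self l), fun l => ?_, fun V hV hV' => ?_⟩
  · rw [nonempty_iff_ne_empty]
    exact fun h => hB0 ⟨l, h⟩
  · obtain ⟨x, hx⟩ := hV'
    obtain ⟨u, ⟨l, rfl⟩, -, h⟩ := hB.exists_subset_of_mem_open hx hV
    exact ⟨l, h⟩

/-- No regular Hausdorff pseudoradial space contains a copy of `C_p([0,1])`. -/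
theorem main {Z : Type u} [TopologicalSpace Z] [T3Space Z] (hZ : Pseudoradial Z) {e : Cp → Z}
    (he : IsEmbedding e) : False := by
  classical
  obtain ⟨U, hUo, hUn, hUb⟩ := exists_base
  -- the recursion
  have hstep : ∀ L : {L : List (ℕ → Cp) // PP U L}, ∃ y : ℕ → Cp, PP U (y :: L.1) ∧
      (∀ N l, ∃ j, N ≤ j ∧ ∃ p ∈ U l, (y j).1 p = 1) ∧
      ∃ z, Tendsto (fun j => e (y j)) atTop (𝓝 z) := fun L => step hZ he L.1 L.2
  choose nx hnx1 hnx2 hnx3 using hstep
  let S : ℕ → {L : List (ℕ → Cp) // PP U L} := fun n =>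
    Nat.rec ⟨[], PP_nil hUo hUn⟩ (fun _ L => ⟨nx L :: L.1, hnx1 L⟩) n
  have hS0 : (S 0).1 = [] := rfl
  have hS1 : ∀ n, (S (n + 1)).1 = nx (S n) :: (S n).1 := fun n => rfl
  have hSlen : ∀ n, (S n).1.length = n := by
    intro n
    induction n with
    | zero => rfl
    | succ n ih => rw [hS1, List.length_cons, ih]
  have hSmem : ∀ n, ∀ y ∈ (S n).1, ∃ m, y = nx (S m) := by
    intro n
    induction n with
    | zero => intro y hy; rw [hS0] at hy; exact absurd hy List.not_mem_nil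
    | succ n ih =>
      intro y hy
      rw [hS1] at hy
      rcases List.mem_cons.1 hy with h | h
      · exact ⟨n, h⟩
      · exact ih y h
  -- the point `x`
  have hx : ∃ x : I01, ∀ n N : ℕ, ∃ j, N ≤ j ∧ (1 / 2 : ℝ) < (nx (S n) j).1 x := by
    let D : ℕ × ℕ → Set I01 := fun a => {x | ∃ j, a.2 ≤ j ∧ (1 / 2 : ℝ) < (nx (S a.1) j).1 x}
    have hDo : ∀ a, IsOpen (D a) := by
      intro a
      have : D a = ⋃ j, ⋃ (_ : a.2 ≤ j), {x | (1 / 2 : ℝ) < (nx (S a.1) j).1 x} := by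
        ext x
        simp [D]
      rw [this]
      exact isOpen_iUnion fun j => isOpen_iUnion fun _ =>
        isOpen_lt continuous_const (nx (S a.1) j).2
    have hDd : ∀ a, Dense (D a) := by
      intro a
      rw [dense_iff_inter_open]
      intro V hV hVn
      obtain ⟨l, hl⟩ := hUb V hV hVn
      obtain ⟨j, hj, p, hp, hp1⟩ := hnx2 (S a.1) a.2 l
      exact ⟨p, hl hp, j, hj, by rw [hp1]; norm_num⟩
    obtain ⟨x, hx⟩ := (dense_iInter_of_isOpen hDo hDd).nonempty
    exact ⟨x, fun n N => mem_iInter.1 hx (n, N)⟩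
  obtain ⟨x, hx⟩ := hx
  -- the neighbourhoods
  have hWo : IsOpen {f : Cp | f.1 x < 1 / 2} :=
    isOpen_lt ((continuous_apply x).comp continuous_subtype_val) continuous_const
  obtain ⟨O₁, hO₁, hO₁W⟩ := he.isOpen_iff.1 hWo
  have h0 : e zeroCp ∈ O₁ := by
    have : zeroCp ∈ e ⁻¹' O₁ := by
      rw [hO₁W]
      simp [zeroCp]
    exact this
  obtain ⟨T, hT, hTc, hTO⟩ := exists_mem_nhds_isClosed_subset (hO₁.mem_nhds h0)
  -- the sequences are eventually outside `T`
  have hout : ∀ n, ∀ᶠ j in atTop, e (nx (S n) j) ∉ T := by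
    intro n
    obtain ⟨z, hz⟩ := hnx3 (S n)
    have hzT : z ∉ T := by
      intro hzT
      obtain ⟨N, hN⟩ := eventually_atTop.1 (hz (hO₁.mem_nhds (hTO hzT)))
      obtain ⟨j, hj, hjx⟩ := hx n N
      have h1 : nx (S n) j ∈ e ⁻¹' O₁ := hN j hj
      rw [hO₁W] at h1
      exact absurd h1 (not_lt.2 hjx.le)
    exact hz (hTc.isOpen_compl.mem_nhds hzT)
  obtain ⟨F, hF⟩ := nhds_zero (he.continuous.continuousAt.preimage_mem_nhds hT)
  -- a tuple of `F.card + 1` functions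
  have hev : ∀ᶠ j in atTop, ∀ y ∈ {y | y ∈ (S (F.card + 1)).1}, e (y j) ∉ T := by
    refine (eventually_all_finite (List.finite_toSet _)).2 fun y hy => ?_
    have hy' : y ∈ (S (F.card + 1)).1 := hy
    obtain ⟨m, rfl⟩ := hSmem (F.card + 1) y hy'
    exact hout m
  obtain ⟨N, hN⟩ := eventually_atTop.1 hev
  obtain ⟨G, hGl, hGm, hGp, -⟩ := (S (F.card + 1)).2 N 0
  have hpt : ∀ g ∈ G, ∃ t ∈ F, g.1 t ≠ 0 := by
    intro g hg
    obtain ⟨y, hy, j, hj, rfl⟩ := hGm g hg
    by_contra hcon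
    push Not at hcon
    exact hN j hj y hy (hF _ hcon)
  choose! t htF ht using hpt
  have hnd : (G.map t).Nodup := by
    rw [List.nodup_iff_pairwise_ne, List.pairwise_map]
    refine hGp.imp_of_mem fun {a b} ha hb hab heq => ?_
    have h1 := hab (t a)
    rcases mul_eq_zero.1 h1 with h2 | h2
    · exact ht a ha h2
    · rw [heq] at h2
      exact ht b hb h2
  have hcard : (G.map t).toFinset.card ≤ F.card := by
    refine Finset.card_le_card fun s hs => ?_
    rw [List.mem_toFinset, List.mem_map] at hs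
    obtain ⟨g, hg, rfl⟩ := hs
    exact htF g hg
  have hGl' : G.length = F.card + 1 := hGl.trans (hSlen (F.card + 1))
  rw [List.toFinset_card_of_nodup hnd, List.length_map, hGl'] at hcard
  omega

end Pool.Agent.Helper888.PR
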