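import Mathlib
set_option autoImplicit false
open Equiv Finset
open scoped Classical

namespace Pool.Agent.Helper888

/-- The combinatorics and the angles (in units of 60 degrees) around vertices all of whose corners
are equilateral triangles (`T`) or rhombi (`R`). -/
structure Patch (C : Type) where
  ρ : Perm C
  τ : Perm C
  T : C → Prop
  R : C → Prop
  Good : C → Prop
  ψ : C → ℝ
  a : ℝ
  ε : ℝ
  τ_inv : ∀ c, τ (τ c) = c
  T_χ : ∀ c, T c → T (ρ⁻¹ (τ c))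
  T3 : ∀ c, T c → ρ⁻¹ (τ (ρ⁻¹ (τ (ρ⁻¹ (τ c))))) = c
  R_χ : ∀ c, R c → R (ρ⁻¹ (τ c))
  R4 : ∀ c, R c → ρ⁻¹ (τ (ρ⁻¹ (τ (ρ⁻¹ (τ (ρ⁻¹ (τ c))))))) = c
  R_opp : ∀ c, R c → ψ (ρ⁻¹ (τ (ρ⁻¹ (τ c)))) = ψ c
  R_sum1 : ∀ c, R c → 3 - ε < ψ c + ψ (ρ⁻¹ (τ c))
  R_sum2 : ∀ c, R c → ψ c + ψ (ρ⁻¹ (τ c)) < 3
  R_lt : ∀ c, R c → ψ c < 2 * a
  R_ge : ∀ c, R c → 1 ≤ ψ c
  T_a : ∀ c, T c → ψ c = a
  a_lt : a < 1
  a_gt : 1 - ε < a
  ε_pos : 0 < ε
  ε_lt : ε ≤ 1 / 100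
  Good_ρ : ∀ c, Good c → Good (ρ c)
  Good_ρ' : ∀ c, Good c → Good (ρ⁻¹ c)
  vert : ∀ c, Good c → ∃ m : ℕ, (ρ ^ m) c = c ∧ ∑ j ∈ range m, ψ ((ρ ^ j) c) = 6 ∧
    ∑ j ∈ range m, (if R ((ρ ^ j) c) then 2 else 1) = 7 ∧ ∀ j : ℕ, T ((ρ ^ j) c) ∨ R ((ρ ^ j) c)

namespace Patch
variable {C : Type} (P : Patch C)

noncomputable def χ : Perm C := P.ρ⁻¹ * P.τ
theorem χ_apply (c : C) : P.χ c = P.ρ⁻¹ (P.τ c) := rfl
theorem ρχ (c : C) : P.ρ (P.χ c) = P.τ c := by simp [χ]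
theorem χτ (c : C) : P.χ (P.τ c) = P.ρ⁻¹ c := by simp [χ, P.τ_inv]
theorem T_χ' {c : C} (h : P.T c) : P.T (P.χ c) := P.T_χ c h
theorem T3' {c : C} (h : P.T c) : P.χ (P.χ (P.χ c)) = c := P.T3 c h
theorem R_χ' {c : C} (h : P.R c) : P.R (P.χ c) := P.R_χ c h
theorem R4' {c : C} (h : P.R c) : P.χ (P.χ (P.χ (P.χ c))) = c := P.R4 c h
theorem R_opp' {c : C} (h : P.R c) : P.ψ (P.χ (P.χ c)) = P.ψ c := P.R_opp c h
theorem R_sum1' {c : C} (h : P.R c) : 3 - P.ε < P.ψ c + P.ψ (P.χ c) := P.R_sum1 c h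
theorem R_sum2' {c : C} (h : P.R c) : P.ψ c + P.ψ (P.χ c) < 3 := P.R_sum2 c h

theorem T_of_χ {c : C} (h : P.T (P.χ c)) : P.T c := by
  have h3 := P.T3' h
  have : P.χ (P.χ (P.χ c)) = c := P.χ.injective h3
  rw [← this]; exact P.T_χ' (P.T_χ' h)
theorem R_of_χ {c : C} (h : P.R (P.χ c)) : P.R c := by
  have h3 := P.R4' h
  have : P.χ (P.χ (P.χ (P.χ c))) = c := P.χ.injective h3
  rw [← this]; exact P.R_χ' (P.R_χ' (P.R_χ' h))

theorem notTR {c : C} (h : P.T c) (h' : P.R c) : False := by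
  have := P.T_a c h; have := P.R_ge c h'; have := P.a_lt; linarith

/-- the left face of the dart before `c` is the right face of `c` -/
theorem R_back {c : C} (h : P.R (P.τ c)) : P.R (P.ρ⁻¹ c) := by
  rw [← P.χτ]; exact P.R_χ' h
theorem R_back' {c : C} (h : P.R (P.ρ⁻¹ c)) : P.R (P.τ c) := by
  rw [← P.χτ] at h; exact P.R_of_χ h
theorem T_back {c : C} (h : P.T (P.τ c)) : P.T (P.ρ⁻¹ c) := by
  rw [← P.χτ]; exact P.T_χ' h
theorem T_back' {c : C} (h : P.T (P.ρ⁻¹ c)) : P.T (P.τ c) := by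
  rw [← P.χτ] at h; exact P.T_of_χ h

/-- the weight of a corner -/
noncomputable def w (c : C) : ℕ := if P.R c then 2 else 1

theorem w_le (c : C) : P.w c ≤ 2 := by unfold w; split_ifs <;> norm_num
theorem w_ge (c : C) : 1 ≤ P.w c := by unfold w; split_ifs <;> norm_num
theorem w_R {c : C} (h : P.R c) : P.w c = 2 := by simp [w, h]
theorem w_T {c : C} (h : P.T c) : P.w c = 1 := by
  have : ¬ P.R c := fun h' => P.notTR h h'
  simp [w, this]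

theorem vert' {c : C} (h : P.Good c) : ∃ m : ℕ, (P.ρ ^ m) c = c ∧
    ∑ j ∈ range m, P.ψ ((P.ρ ^ j) c) = 6 ∧ ∑ j ∈ range m, P.w ((P.ρ ^ j) c) = 7 ∧
    (∀ j : ℕ, P.T ((P.ρ ^ j) c) ∨ P.R ((P.ρ ^ j) c)) ∧ 4 ≤ m ∧ m ≤ 7 := by
  obtain ⟨m, h1, h2, h3, h4⟩ := P.vert c h
  have h3' : ∑ j ∈ range m, P.w ((P.ρ ^ j) c) = 7 := by
    rw [← h3]; rfl
  refine ⟨m, h1, h2, h3', h4, ?_, ?_⟩
  · have : ∑ j ∈ range m, P.w ((P.ρ ^ j) c) ≤ ∑ j ∈ range m, 2 :=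
      sum_le_sum fun j _ => P.w_le _
    rw [h3'] at this; simp at this; omega
  · have : ∑ j ∈ range m, 1 ≤ ∑ j ∈ range m, P.w ((P.ρ ^ j) c) :=
      sum_le_sum fun j _ => P.w_ge _
    rw [h3'] at this; simp at this; omega

/-- Two rhombus corners at a good vertex have large sum. -/
theorem two_R {c : C} (h : P.Good c) (hR : P.R c) {j : ℕ} (hj0 : 0 < j) (hj : j < 4)
    (hRj : P.R ((P.ρ ^ j) c)) : 6 - 3 * P.a ≤ P.ψ c + P.ψ ((P.ρ ^ j) c) := by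
  obtain ⟨m, _, h2, h3, h4, hm4, _⟩ := P.vert' h
  have ha := P.a_lt
  have hnn : ∀ i ∈ range m, 0 ≤ P.a * (P.w ((P.ρ ^ i) c) : ℝ) - P.ψ ((P.ρ ^ i) c) := by
    intro i _
    rcases h4 i with h | h
    · rw [P.w_T h, P.T_a _ h]; simp
    · rw [P.w_R h]; have := P.R_lt _ h; simp only [Nat.cast_ofNat]; linarith
  have hsub : ({0, j} : Finset ℕ) ⊆ range m := by
    intro i hi; simp only [mem_insert, mem_singleton] at hi
    rw [mem_range]; omega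
  have h5 := sum_le_sum_of_subset_of_nonneg hsub (fun i hi _ => hnn i hi)
  rw [sum_pair (by omega), sum_sub_distrib, ← mul_sum, h2] at h5
  have h6 : (∑ i ∈ range m, (P.w ((P.ρ ^ i) c) : ℝ)) = 7 := by exact_mod_cast h3
  rw [h6, P.w_R hRj] at h5
  have h7 : P.w ((P.ρ ^ 0) c) = 2 := by simpa using P.w_R hR
  rw [h7] at h5
  simp only [pow_zero, Perm.coe_one, id_eq] at h5
  simp only [Nat.cast_ofNat] at h5
  linarith

/-- No two rhombi share an edge with good end points. -/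
theorem no_shared {c : C} (h1 : P.Good c) (h2 : P.Good (P.τ c)) (hR : P.R c) (hR' : P.R (P.τ c)) :
    False := by
  have ha := P.a_lt
  have e1 := P.two_R (c := P.χ (P.τ c)) (j := 1) (by rw [P.χτ]; exact P.Good_ρ' c h1)
    (P.R_χ' hR') (by norm_num) (by norm_num) (by rw [P.χτ]; simpa using hR)
  have e2 := P.two_R (c := P.χ c) (j := 1) (by rw [P.χ_apply]; exact P.Good_ρ' _ h2)
    (P.R_χ' hR) (by norm_num) (by norm_num) (by rw [P.χ_apply]; simpa using hR')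
  rw [pow_one] at e1 e2
  rw [P.ρχ] at e2
  have : P.ρ (P.χ (P.τ c)) = c := by rw [P.χτ]; simp
  rw [this] at e1
  have s1 := P.R_sum2' hR
  have s2 := P.R_sum2' hR'
  linarith

/-- depth: all vertices within distance `k` are good -/
def G : ℕ → C → Prop
  | 0, c => P.Good c
  | k + 1, c => G k c ∧ ∀ j : ℕ, G k (P.τ ((P.ρ ^ j) c))

theorem G_succ {k : ℕ} {c : C} (h : P.G (k + 1) c) : P.G k c := h.1
theorem G_zero {k : ℕ} {c : C} (h : P.G k c) : P.Good c := by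
  induction k with
  | zero => exact h
  | succ k ih => exact ih h.1

theorem G_period {k : ℕ} {c : C} (h : P.G k c) : ∃ m : ℕ, 0 < m ∧ (P.ρ ^ m) c = c := by
  obtain ⟨m, hm, _, _, _, h4, _⟩ := P.vert' (P.G_zero h)
  exact ⟨m, by omega, hm⟩

theorem G_ρ {k : ℕ} {c : C} (h : P.G k c) : P.G k (P.ρ c) := by
  induction k with
  | zero => exact P.Good_ρ c h
  | succ k ih =>
    refine ⟨ih h.1, fun j => ?_⟩
    have := h.2 (j + 1)
    rwa [pow_succ, Perm.mul_apply] at this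

theorem G_ρ' {k : ℕ} {c : C} (h : P.G k c) : P.G k (P.ρ⁻¹ c) := by
  obtain ⟨m, hm, hmc⟩ := P.G_period h
  have key : ∀ j, P.G k ((P.ρ ^ j) c) := by
    intro j
    induction j with
    | zero => simpa using h
    | succ j ih => rw [pow_succ', Perm.mul_apply]; exact P.G_ρ ih
  have : P.ρ⁻¹ c = (P.ρ ^ (m - 1)) c := by
    rw [Perm.inv_eq_iff_eq, ← Perm.mul_apply, ← pow_succ']
    rw [show m - 1 + 1 = m by omega, hmc]
  rw [this]; exact key _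

theorem G_τ {k : ℕ} {c : C} (h : P.G (k + 1) c) : P.G k (P.τ c) := by
  have := h.2 0; simpa using this

theorem G_χ {k : ℕ} {c : C} (h : P.G (k + 1) c) : P.G k (P.χ c) := P.G_ρ' (P.G_τ h)

theorem G_mono {k l : ℕ} (hkl : k ≤ l) {c : C} (h : P.G l c) : P.G k c := by
  induction hkl with
  | refl => exact h
  | step _ ih => exact ih h.1

/-- adjacent corners are not both rhombi -/
theorem no_adj {c : C} (h : P.G 1 c) (hR : P.R c) (hR' : P.R (P.ρ c)) : False := by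
  have h1 : P.G 1 (P.ρ c) := P.G_ρ h
  refine P.no_shared (c := P.ρ c) (P.G_zero h1) (P.G_zero (P.G_τ h1)) hR' ?_
  apply P.R_back'
  simpa using hR

/-- structure of a good vertex with good neighbours around a rhombus corner -/
theorem vertex_R {c : C} (h : P.G 1 c) (hR : P.R c) :
    ((P.ρ ^ 6) c = c ∧ P.T (P.ρ c) ∧ P.T ((P.ρ ^ 2) c) ∧ P.T ((P.ρ ^ 3) c) ∧
      P.T ((P.ρ ^ 4) c) ∧ P.T ((P.ρ ^ 5) c) ∧ P.ψ c = 6 - 5 * P.a) ∨
    ((P.ρ ^ 5) c = c ∧ P.T (P.ρ c) ∧ P.R ((P.ρ ^ 2) c) ∧ P.T ((P.ρ ^ 3) c) ∧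
      P.T ((P.ρ ^ 4) c) ∧ P.ψ c + P.ψ ((P.ρ ^ 2) c) = 6 - 3 * P.a) ∨
    ((P.ρ ^ 5) c = c ∧ P.T (P.ρ c) ∧ P.T ((P.ρ ^ 2) c) ∧ P.R ((P.ρ ^ 3) c) ∧
      P.T ((P.ρ ^ 4) c) ∧ P.ψ c + P.ψ ((P.ρ ^ 3) c) = 6 - 3 * P.a) := by
  obtain ⟨m, hm, h2, h3, h4, hm4, hm7⟩ := P.vert' (P.G_zero h)
  have hG : ∀ j, P.G 1 ((P.ρ ^ j) c) := by
    intro j
    induction j with
    | zero => simpa using h
    | succ j ih => rw [pow_succ', Perm.mul_apply]; exact P.G_ρ ih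
  have hadj : ∀ j, ¬ (P.R ((P.ρ ^ j) c) ∧ P.R ((P.ρ ^ (j + 1)) c)) := by
    rintro j ⟨h1, h2⟩
    rw [pow_succ', Perm.mul_apply] at h2
    exact P.no_adj (hG j) h1 h2
  have hw : ∀ j, P.w ((P.ρ ^ j) c) + P.w ((P.ρ ^ (j + 1)) c) ≤ 3 := by
    intro j
    have := hadj j
    unfold w
    split_ifs <;> simp_all
  have hwT : ∀ j, P.w ((P.ρ ^ j) c) = 1 → P.T ((P.ρ ^ j) c) := by
    intro j hj
    rcases h4 j with h | h
    · exact h
    · rw [P.w_R h] at hj; omega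
  have hwR : ∀ j, P.w ((P.ρ ^ j) c) = 2 → P.R ((P.ρ ^ j) c) := by
    intro j hj
    rcases h4 j with h | h
    · rw [P.w_T h] at hj; omega
    · exact h
  have w0 : P.w ((P.ρ ^ 0) c) = 2 := by simpa using P.w_R hR
  have hwm : P.w ((P.ρ ^ m) c) = 2 := by rw [hm]; exact P.w_R hR
  have hge : ∀ j, 1 ≤ P.w ((P.ρ ^ j) c) := fun j => P.w_ge _
  have g1 := hge 1; have g2 := hge 2; have g3 := hge 3; have g4 := hge 4; have g5 := hge 5
  have g6 := hge 6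
  have a0 : P.w ((P.ρ ^ 0) c) + P.w ((P.ρ ^ 1) c) ≤ 3 := hw 0
  have a1 : P.w ((P.ρ ^ 1) c) + P.w ((P.ρ ^ 2) c) ≤ 3 := hw 1
  have a2 : P.w ((P.ρ ^ 2) c) + P.w ((P.ρ ^ 3) c) ≤ 3 := hw 2
  have a3 : P.w ((P.ρ ^ 3) c) + P.w ((P.ρ ^ 4) c) ≤ 3 := hw 3
  have a4 : P.w ((P.ρ ^ 4) c) + P.w ((P.ρ ^ 5) c) ≤ 3 := hw 4
  have a5 : P.w ((P.ρ ^ 5) c) + P.w ((P.ρ ^ 6) c) ≤ 3 := hw 5
  have a6 : P.w ((P.ρ ^ 6) c) + P.w ((P.ρ ^ 7) c) ≤ 3 := hw 6
  have hT1 : ∀ j, P.T ((P.ρ ^ j) c) → P.ψ ((P.ρ ^ j) c) = P.a := fun j hj => P.T_a _ hj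
  have e1 : P.ρ c = (P.ρ ^ 1) c := by simp
  interval_cases m
  · simp only [sum_range_succ, range_zero, sum_empty] at h3
    omega
  · simp only [sum_range_succ, range_zero, sum_empty] at h3 h2
    right
    rw [e1]
    have t1 := hwT 1 (by omega)
    have t4 := hwT 4 (by omega)
    by_cases hw2 : P.w ((P.ρ ^ 2) c) = 2
    · left
      have r2 := hwR 2 hw2
      have t3 := hwT 3 (by omega)
      refine ⟨hm, t1, r2, t3, t4, ?_⟩
      rw [hT1 1 t1, hT1 3 t3, hT1 4 t4] at h2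
      simp only [pow_zero, Perm.coe_one, id_eq] at h2
      linarith
    · right
      have t2 := hwT 2 (by omega)
      have r3 := hwR 3 (by omega)
      refine ⟨hm, t1, t2, r3, t4, ?_⟩
      rw [hT1 1 t1, hT1 2 t2, hT1 4 t4] at h2
      simp only [pow_zero, Perm.coe_one, id_eq] at h2
      linarith
  · simp only [sum_range_succ, range_zero, sum_empty] at h3 h2
    left
    rw [e1]
    have t1 := hwT 1 (by omega)
    have t2 := hwT 2 (by omega)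
    have t3 := hwT 3 (by omega)
    have t4 := hwT 4 (by omega)
    have t5 := hwT 5 (by omega)
    refine ⟨hm, t1, t2, t3, t4, t5, ?_⟩
    rw [hT1 1 t1, hT1 2 t2, hT1 3 t3, hT1 4 t4, hT1 5 t5] at h2
    simp only [pow_zero, Perm.coe_one, id_eq] at h2
    linarith
  · simp only [sum_range_succ, range_zero, sum_empty] at h3
    omega

end Patch
end Pool.Agent.Helper888
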