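import Pool.Agent.Helper888.Contacts
set_option autoImplicit false
namespace Pool.Agent.Helper888
noncomputable section


/-- the chart -/
def fchart (z : UpperHalfPlane) : Pt := (z.re, z.re ^ 2 + z.im ^ 2)

lemma q_fchart (z w : UpperHalfPlane) :
    q (fchart z) (fchart w) = ((z.re - w.re) ^ 2 + z.im ^ 2 + w.im ^ 2) / 2 := by
  simp only [q, fchart]; ring

lemma ht_fchart (z : UpperHalfPlane) : ht (fchart z) = z.im := by
  rw [ht, q_fchart]
  have : ((z.re - z.re) ^ 2 + z.im ^ 2 + z.im ^ 2) / 2 = z.im ^ 2 := by ring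
  rw [this, Real.sqrt_sq z.im_pos.le]

lemma ch_fchart (z w : UpperHalfPlane) : ch (fchart z) (fchart w) = Real.cosh (dist z w) := by
  rw [ch, ht_fchart, ht_fchart, q_fchart, UpperHalfPlane.cosh_dist']
  have := z.im_pos
  have := w.im_pos
  field_simp

lemma fchart_injective : Function.Injective fchart := by
  intro z w h
  have h1 : z.re = w.re := congrArg Prod.fst h
  have h2 : z.re ^ 2 + z.im ^ 2 = w.re ^ 2 + w.im ^ 2 := congrArg Prod.snd h
  have h3 : z.im = w.im := by
    rw [h1] at h2
    have h4 : z.im ^ 2 = w.im ^ 2 := by linarith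
    exact (pow_left_inj₀ z.im_pos.le w.im_pos.le two_ne_zero).1 h4
  exact UpperHalfPlane.ext (Complex.ext h1 h3)

/-- TARGET: transfer from the chart `z ↦ (re z, |z|^2)` to the upper half plane; points without contact
are dropped. -/
theorem transfer {C c₁ : ℝ} (hC0 : 0 ≤ C) (hc₁ : 1 < c₁)
    (H : ∀ c : ℝ, 1 < c → c < c₁ → ∀ V : Finset Pt, Packing V c →
      (∀ v ∈ V, ∃ a ∈ V, a ≠ v ∧ ch v a = c) → ((contacts V c).card : ℝ) ≤ C * (V.card : ℝ)) :
    ∃ r₀ : ℝ, 0 < r₀ ∧ ∀ r : ℝ, 0 < r → r < r₀ → ∀ S : Finset UpperHalfPlane,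
      (∀ x ∈ S, ∀ y ∈ S, x ≠ y → 2 * r ≤ dist x y) →
        (∑ x ∈ S, ((S.filter (fun y => dist x y = 2 * r)).card : ℝ)) ≤ C * (S.card : ℝ) := by
  obtain ⟨δ, hδ, hδ'⟩ := Metric.continuous_iff.1 Real.continuous_cosh 0 (c₁ - 1) (by linarith)
  refine ⟨δ / 2, by linarith, ?_⟩
  intro r hr hr0 S hS
  classical
  have hc1 : 1 < Real.cosh (2 * r) := Real.one_lt_cosh.2 (by linarith)
  have hc2 : Real.cosh (2 * r) < c₁ := by
    have h1 := hδ' (2 * r) (by
      rw [Real.dist_eq, sub_zero, abs_of_pos (by linarith)]; linarith)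
    rw [Real.dist_eq, Real.cosh_zero] at h1
    have := (abs_lt.1 h1).2
    linarith
  set S' : Finset UpperHalfPlane := S.filter (fun x => ∃ y ∈ S, dist x y = 2 * r) with hS'
  set V : Finset Pt := S'.image fchart with hV
  have hpack : Packing V (Real.cosh (2 * r)) := by
    constructor
    · intro v hv
      obtain ⟨z, -, rfl⟩ := Finset.mem_image.1 hv
      rw [q_fchart]
      have := z.im_pos
      positivity
    · intro a ha b hb hab
      obtain ⟨z, hz, rfl⟩ := Finset.mem_image.1 ha
      obtain ⟨w, hw, rfl⟩ := Finset.mem_image.1 hb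
      rw [ch_fchart, Real.cosh_le_cosh, abs_of_pos (by linarith), abs_of_nonneg dist_nonneg]
      apply hS z (Finset.mem_filter.1 hz).1 w (Finset.mem_filter.1 hw).1
      rintro rfl
      exact hab rfl
  have hcon : ∀ v ∈ V, ∃ a ∈ V, a ≠ v ∧ ch v a = Real.cosh (2 * r) := by
    intro v hv
    obtain ⟨z, hz, rfl⟩ := Finset.mem_image.1 hv
    obtain ⟨hzS, y, hy, hzy⟩ := Finset.mem_filter.1 hz
    refine ⟨fchart y, Finset.mem_image_of_mem _ (Finset.mem_filter.2 ⟨hy, z, hzS, by
      rw [dist_comm]; exact hzy⟩), ?_, ?_⟩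
    · intro h
      have := fchart_injective h
      rw [this, dist_self] at hzy
      linarith
    · rw [ch_fchart, hzy]
  have hmain := H _ hc1 hc2 V hpack hcon
  have hcard : (∑ x ∈ S, ((S.filter (fun y => dist x y = 2 * r)).card : ℝ)) ≤
      ((contacts V (Real.cosh (2 * r))).card : ℝ) := by
    have h1 : (∑ x ∈ S, (S.filter (fun y => dist x y = 2 * r)).card) =
        ((S ×ˢ S).filter (fun p => dist p.1 p.2 = 2 * r)).card := by
      rw [Finset.card_filter, Finset.sum_product]
      apply Finset.sum_congr rfl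
      intro x _
      rw [Finset.card_filter]
    have h2 : ((S ×ˢ S).filter (fun p => dist p.1 p.2 = 2 * r)).card ≤
        (contacts V (Real.cosh (2 * r))).card := by
      apply Finset.card_le_card_of_injOn (fun p => (fchart p.1, fchart p.2))
      · intro p hp
        have hp' := Finset.mem_filter.1 (Finset.mem_coe.1 hp)
        obtain ⟨hpS, hd⟩ := hp'
        obtain ⟨hp1, hp2⟩ := Finset.mem_product.1 hpS
        apply Finset.mem_coe.2
        unfold contacts
        rw [Finset.mem_filter]
        refine ⟨Finset.mem_product.2 ⟨?_, ?_⟩, ?_, ?_⟩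
        · exact Finset.mem_image_of_mem _ (Finset.mem_filter.2 ⟨hp1, p.2, hp2, hd⟩)
        · exact Finset.mem_image_of_mem _ (Finset.mem_filter.2 ⟨hp2, p.1, hp1, by
            rw [dist_comm]; exact hd⟩)
        · intro h
          have h3 := fchart_injective h
          rw [h3, dist_self] at hd
          linarith
        · change ch (fchart p.1) (fchart p.2) = _
          rw [ch_fchart, hd]
      · rintro ⟨x, y⟩ _ ⟨x', y'⟩ _ h
        have h1 := fchart_injective (congrArg Prod.fst h)
        have h2 := fchart_injective (congrArg Prod.snd h)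
        exact Prod.ext h1 h2
    calc (∑ x ∈ S, ((S.filter (fun y => dist x y = 2 * r)).card : ℝ))
        = ((∑ x ∈ S, (S.filter (fun y => dist x y = 2 * r)).card : ℕ) : ℝ) := by push_cast; rfl
      _ ≤ _ := by rw [h1]; exact_mod_cast h2
  have hV1 : (V.card : ℝ) ≤ S.card := by
    have h1 : V.card ≤ S'.card := Finset.card_image_le
    have h2 : S'.card ≤ S.card := Finset.card_filter_le _ _
    exact_mod_cast h1.trans h2
  calc _ ≤ _ := hcard
    _ ≤ _ := hmain
    _ ≤ _ := by gcongr

end
end Pool.Agent.Helper888
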