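import Pool.Agent.Helper888.Defs
set_option autoImplicit false
open Complex
namespace Pool.Agent.Helper888
noncomputable section

theorem ch_self {A : Pt} (hA : 0 < q A A) : ch A A = 1 := by
  unfold ch
  rw [← pow_two, ht_sq hA, div_self hA.ne']

theorem one_lt_ch {A B : Pt} (hA : 0 < q A A) (hB : 0 < q B B) (h : A ≠ B) : 1 < ch A B := by
  have ha := ht_pos hA
  have hb := ht_pos hB
  unfold ch
  rw [one_lt_div (by positivity)]
  have e1 : q A B = (q A A + q B B + (A.1 - B.1) ^ 2) / 2 := by unfold q; ring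
  have hpos : 0 < q A B := by rw [e1]; positivity
  apply lt_of_pow_lt_pow_left₀ 2 hpos.le
  rw [mul_pow, ht_sq hA, ht_sq hB]
  have e2 : q A B ^ 2 - q A A * q B B =
      ((q A A - q B B) ^ 2 + 2 * (q A A + q B B) * (A.1 - B.1) ^ 2 + (A.1 - B.1) ^ 4) / 4 := by
    rw [e1]; ring
  have h4 : 0 ≤ (A.1 - B.1) ^ 4 := by positivity
  have h5 : 0 < ((q A A - q B B) ^ 2 + 2 * (q A A + q B B) * (A.1 - B.1) ^ 2
      + (A.1 - B.1) ^ 4) := by
    by_cases hd : A.1 = B.1
    · have hne : q A A ≠ q B B := by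
        intro he
        apply h
        refine Prod.ext hd ?_
        unfold q at he
        rw [hd] at he
        linarith
      have h6 : 0 < (q A A - q B B) ^ 2 := by
        have := sub_ne_zero.2 hne
        positivity
      have h7 : 0 ≤ 2 * (q A A + q B B) * (A.1 - B.1) ^ 2 := by positivity
      linarith
    · have hd' := sub_ne_zero.2 hd
      have h6 : 0 < 2 * (q A A + q B B) * (A.1 - B.1) ^ 2 := by positivity
      have h7 : 0 ≤ (q A A - q B B) ^ 2 := by positivity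
      linarith
  linarith

theorem q_eq_ch {A B : Pt} (hA : 0 < q A A) (hB : 0 < q B B) : q A B = ch A B * (ht A * ht B) := by
  have ha := ht_pos hA
  have hb := ht_pos hB
  unfold ch
  field_simp

theorem norm_dir {V A : Pt} (hV : 0 < q V V) (hA : 0 < q A A) :
    ‖dir V A‖ = 2 * ht V * (ht V * ht A) / ht V * Real.sqrt (ch V A ^ 2 - 1) := by
  have hv := ht_pos hV
  have ha := ht_pos hA
  have h1 : ‖dir V A‖ ^ 2 = 4 * (q V A * q V A - q V V * q A A) := by
    rw [← dir_re hV A A, ← Complex.normSq_eq_norm_sq, ← Complex.normSq_eq_conj_mul_self,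
      Complex.ofReal_re]
  have h2 : ‖dir V A‖ ^ 2 = (2 * (ht V * ht A)) ^ 2 * (ch V A ^ 2 - 1) := by
    rw [h1, q_eq_ch hV hA]
    have e1 : q V V = ht V ^ 2 := (ht_sq hV).symm
    have e2 : q A A = ht A ^ 2 := (ht_sq hA).symm
    rw [e1, e2]
    ring
  have h3 : ‖dir V A‖ = Real.sqrt ((2 * (ht V * ht A)) ^ 2 * (ch V A ^ 2 - 1)) := by
    rw [← h2, Real.sqrt_sq (norm_nonneg _)]
  rw [h3, Real.sqrt_mul (by positivity), Real.sqrt_sq (by positivity)]
  field_simp

/-- hyperbolic law of cosines -/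
theorem cos_hang {V A B : Pt} (hV : 0 < q V V) (hA : 0 < q A A) (hB : 0 < q B B)
    (hVA : A ≠ V) (hVB : B ≠ V) :
    Real.cos (hang A V B) =
      (ch V A * ch V B - ch A B) / (Real.sqrt (ch V A ^ 2 - 1) * Real.sqrt (ch V B ^ 2 - 1)) := by
  have hv := ht_pos hV
  have ha := ht_pos hA
  have hb := ht_pos hB
  have ca := one_lt_ch hV hA hVA.symm
  have cb := one_lt_ch hV hB hVB.symm
  have sa : 0 < Real.sqrt (ch V A ^ 2 - 1) := Real.sqrt_pos.2 (by nlinarith)
  have sb : 0 < Real.sqrt (ch V B ^ 2 - 1) := Real.sqrt_pos.2 (by nlinarith)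
  unfold hang
  rw [InnerProductGeometry.cos_angle, Complex.inner, mul_comm (dir V B), dir_re hV,
    norm_dir hV hA, norm_dir hV hB, q_eq_ch hV hA, q_eq_ch hV hB, q_eq_ch hA hB]
  have e1 : q V V = ht V ^ 2 := (ht_sq hV).symm
  rw [e1]
  field_simp
  ring

/-- the purely real part of the angle sum statement -/
theorem angle_sum_real {X Y Z a b t : ℝ} (hX : 1 < X) (hY : 1 < Y) (hZ : 1 < Z)
    (hD : 0 < 1 + 2 * X * Y * Z - X ^ 2 - Y ^ 2 - Z ^ 2)
    (ha0 : 0 ≤ a) (haπ : a ≤ Real.pi) (hb0 : 0 ≤ b) (hbπ : b ≤ Real.pi)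
    (ht0 : 0 ≤ t) (htπ : t ≤ Real.pi)
    (ca : Real.cos a = (Y * Z - X) / (Real.sqrt (Y ^ 2 - 1) * Real.sqrt (Z ^ 2 - 1)))
    (cb : Real.cos b = (X * Z - Y) / (Real.sqrt (X ^ 2 - 1) * Real.sqrt (Z ^ 2 - 1)))
    (ct : Real.cos t = (X * Y - Z) / (Real.sqrt (X ^ 2 - 1) * Real.sqrt (Y ^ 2 - 1))) :
    Real.cos t + Real.cos (a + b) = (Z - 1) * (Real.sin a * Real.sin b) ∧
      0 < Real.sin a * Real.sin b := by
  set D := 1 + 2 * X * Y * Z - X ^ 2 - Y ^ 2 - Z ^ 2 with hDdef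
  set x := Real.sqrt (X ^ 2 - 1) with hx
  set y := Real.sqrt (Y ^ 2 - 1) with hy
  set z := Real.sqrt (Z ^ 2 - 1) with hz
  have hx2 : x ^ 2 = X ^ 2 - 1 := Real.sq_sqrt (by nlinarith)
  have hy2 : y ^ 2 = Y ^ 2 - 1 := Real.sq_sqrt (by nlinarith)
  have hz2 : z ^ 2 = Z ^ 2 - 1 := Real.sq_sqrt (by nlinarith)
  have hx0 : 0 < x := Real.sqrt_pos.2 (by nlinarith)
  have hy0 : 0 < y := Real.sqrt_pos.2 (by nlinarith)
  have hz0 : 0 < z := Real.sqrt_pos.2 (by nlinarith)
  have sa0 : 0 ≤ Real.sin a := Real.sin_nonneg_of_nonneg_of_le_pi ha0 haπ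
  have sb0 : 0 ≤ Real.sin b := Real.sin_nonneg_of_nonneg_of_le_pi hb0 hbπ
  have sa2 : Real.sin a ^ 2 = (Real.sqrt D / (y * z)) ^ 2 := by
    have h1 := Real.sin_sq_add_cos_sq a
    have h2 : Real.sin a ^ 2 = 1 - Real.cos a ^ 2 := by linarith
    rw [h2, ca, div_pow, div_pow, Real.sq_sqrt hD.le, mul_pow, hy2, hz2]
    have h3 : (Y ^ 2 - 1) * (Z ^ 2 - 1) ≠ 0 := by
      rw [← hy2, ← hz2]; positivity
    rw [eq_div_iff h3, sub_mul, div_mul_cancel₀ _ h3, hDdef]
    ring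
  have sb2 : Real.sin b ^ 2 = (Real.sqrt D / (x * z)) ^ 2 := by
    have h1 := Real.sin_sq_add_cos_sq b
    have h2 : Real.sin b ^ 2 = 1 - Real.cos b ^ 2 := by linarith
    rw [h2, cb, div_pow, div_pow, Real.sq_sqrt hD.le, mul_pow, hx2, hz2]
    have h3 : (X ^ 2 - 1) * (Z ^ 2 - 1) ≠ 0 := by
      rw [← hx2, ← hz2]; positivity
    rw [eq_div_iff h3, sub_mul, div_mul_cancel₀ _ h3, hDdef]
    ring
  have hsD : 0 < Real.sqrt D := Real.sqrt_pos.2 hD
  have sa : Real.sin a = Real.sqrt D / (y * z) :=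
    (pow_left_inj₀ sa0 (by positivity) (by norm_num)).1 sa2
  have sb : Real.sin b = Real.sqrt D / (x * z) :=
    (pow_left_inj₀ sb0 (by positivity) (by norm_num)).1 sb2
  have hprod : Real.sin a * Real.sin b = D / (x * y * z ^ 2) := by
    rw [sa, sb, div_mul_div_comm, ← pow_two, Real.sq_sqrt hD.le]
    congr 1
    ring
  refine ⟨?_, by rw [hprod]; positivity⟩
  rw [Real.cos_add]
  have key : Real.cos t + Real.cos a * Real.cos b = Z * (Real.sin a * Real.sin b) := by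
    rw [hprod, ct, ca, cb]
    have h3 : (X * Y - Z) / (x * y) = (X * Y - Z) * z ^ 2 / (x * y * z ^ 2) := by
      field_simp
    have h4 : (Y * Z - X) / (y * z) * ((X * Z - Y) / (x * z)) =
        (Y * Z - X) * (X * Z - Y) / (x * y * z ^ 2) := by
      rw [div_mul_div_comm]
      congr 1
      ring
    rw [h3, h4, ← add_div, mul_div_assoc', hz2, hDdef]
    congr 1
    ring
  linarith

theorem abs_gt_of_cos_lt {s t : ℝ} (hs : |s| ≤ Real.pi) (ht0 : 0 ≤ t) (htπ : t ≤ Real.pi)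
    (h : Real.cos s < Real.cos t) : t < |s| := by
  by_contra hcon
  push Not at hcon
  have h1 : Real.cos t ≤ Real.cos |s| := Real.cos_le_cos_of_nonneg_of_le_pi (abs_nonneg _) htπ hcon
  rw [Real.cos_abs] at h1
  linarith

theorem hang_nonneg (A V B : Pt) : 0 ≤ hang A V B := InnerProductGeometry.angle_nonneg _ _
theorem hang_le_pi (A V B : Pt) : hang A V B ≤ Real.pi := InnerProductGeometry.angle_le_pi _ _
theorem hang_comm (A V B : Pt) : hang A V B = hang B V A := InnerProductGeometry.angle_comm _ _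

/-- angle sum of a hyperbolic triangle, and smallness of its defect in terms of one side -/
theorem hang_sum {V A B : Pt} (hV : 0 < q V V) (hA : 0 < q A A) (hB : 0 < q B B)
    (hd : det V A B ≠ 0) :
    hang A V B + hang V B A + hang B A V < Real.pi ∧
    Real.sin ((Real.pi - (hang A V B + hang V B A + hang B A V)) / 2) ^ 2 ≤ (ch V A - 1) / 2 := by
  have hv := ht_pos hV
  have ha := ht_pos hA
  have hb := ht_pos hB
  have nVA : A ≠ V := by
    rintro rfl
    apply hd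
    unfold det; ring
  have nVB : B ≠ V := by
    rintro rfl
    apply hd
    unfold det; ring
  have nAB : B ≠ A := by
    rintro rfl
    apply hd
    unfold det; ring
  have hX : 1 < ch A B := one_lt_ch hA hB nAB.symm
  have hY : 1 < ch V B := one_lt_ch hV hB nVB.symm
  have hZ : 1 < ch V A := one_lt_ch hV hA nVA.symm
  have hD : 0 < 1 + 2 * ch A B * ch V B * ch V A - ch A B ^ 2 - ch V B ^ 2 - ch V A ^ 2 := by
    have h1 := gram (V := V) (A := A) (B := B)
    have e1 : q V V = ht V ^ 2 := (ht_sq hV).symm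
    have e2 : q A A = ht A ^ 2 := (ht_sq hA).symm
    have e3 : q B B = ht B ^ 2 := (ht_sq hB).symm
    rw [q_eq_ch hV hA, q_eq_ch hA hB, q_eq_ch hV hB, e1, e2, e3] at h1
    have h2 : (ht V * ht A * ht B) ^ 2 *
        (1 + 2 * ch A B * ch V B * ch V A - ch A B ^ 2 - ch V B ^ 2 - ch V A ^ 2) =
        det V A B ^ 2 / 4 := by
      rw [← h1]; ring
    have h3 : 0 < det V A B ^ 2 / 4 := by positivity
    rw [← h2] at h3
    exact (pos_iff_pos_of_mul_pos h3).1 (by positivity)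
  set X := ch A B with hXdef
  set Y := ch V B with hYdef
  set Z := ch V A with hZdef
  have ca : Real.cos (hang A V B) =
      (Y * Z - X) / (Real.sqrt (Y ^ 2 - 1) * Real.sqrt (Z ^ 2 - 1)) := by
    rw [cos_hang hV hA hB nVA nVB, mul_comm (ch V A), mul_comm (Real.sqrt (ch V A ^ 2 - 1))]
  have cb : Real.cos (hang B A V) =
      (X * Z - Y) / (Real.sqrt (X ^ 2 - 1) * Real.sqrt (Z ^ 2 - 1)) := by
    rw [cos_hang hA hB hV nAB nVA.symm, ch_comm A V, ch_comm B V]
  have ct : Real.cos (hang V B A) =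
      (X * Y - Z) / (Real.sqrt (X ^ 2 - 1) * Real.sqrt (Y ^ 2 - 1)) := by
    rw [cos_hang hB hV hA nVB.symm nAB.symm, ch_comm B V, ch_comm B A, mul_comm (ch V B),
      mul_comm (Real.sqrt (ch V B ^ 2 - 1))]
  set a := hang A V B with hadef
  set b := hang B A V with hbdef
  set t := hang V B A with htdef
  have a0 : 0 ≤ a := hang_nonneg _ _ _
  have b0 : 0 ≤ b := hang_nonneg _ _ _
  have t0 : 0 ≤ t := hang_nonneg _ _ _
  have aπ : a ≤ Real.pi := hang_le_pi _ _ _
  have bπ : b ≤ Real.pi := hang_le_pi _ _ _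
  have tπ : t ≤ Real.pi := hang_le_pi _ _ _
  obtain ⟨s1, s1'⟩ := angle_sum_real hX hY hZ hD a0 aπ b0 bπ t0 tπ ca cb ct
  -- cyclic instances: (b, t) with opposite a; (t, a) with opposite b
  have hD2 : 0 < 1 + 2 * Y * Z * X - Y ^ 2 - Z ^ 2 - X ^ 2 := by
    have : 1 + 2 * Y * Z * X - Y ^ 2 - Z ^ 2 - X ^ 2 =
      1 + 2 * X * Y * Z - X ^ 2 - Y ^ 2 - Z ^ 2 := by ring
    rw [this]; exact hD
  obtain ⟨s2, s2'⟩ := angle_sum_real (X := Y) (Y := Z) (Z := X) (a := b) (b := t) (t := a)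
    hY hZ hX hD2 b0 bπ t0 tπ a0 aπ
    (by rw [cb, mul_comm X Z, mul_comm (Real.sqrt (X ^ 2 - 1))])
    (by rw [ct, mul_comm X Y, mul_comm (Real.sqrt (X ^ 2 - 1))])
    (by rw [ca])
  have lt1 : Real.cos (Real.pi - (a + b)) < Real.cos t := by
    rw [Real.cos_pi_sub]
    have : 0 < (Z - 1) * (Real.sin a * Real.sin b) := mul_pos (by linarith) s1'
    linarith
  have lt2 : Real.cos (Real.pi - (b + t)) < Real.cos a := by
    rw [Real.cos_pi_sub]
    have : 0 < (X - 1) * (Real.sin b * Real.sin t) := mul_pos (by linarith) s2'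
    linarith
  have g1 := abs_gt_of_cos_lt (by rw [abs_le]; constructor <;> linarith) t0 tπ lt1
  have g2 := abs_gt_of_cos_lt (by rw [abs_le]; constructor <;> linarith) a0 aπ lt2
  have hsum : a + t + b < Real.pi := by
    by_contra hcon
    push Not at hcon
    rcases lt_abs.1 g1 with h1 | h1
    · linarith
    · rcases lt_abs.1 g2 with h2 | h2
      · linarith
      · linarith
  refine ⟨hsum, ?_⟩
  have hle : Real.cos t - Real.cos (Real.pi - (a + b)) ≤ Z - 1 := by
    rw [Real.cos_pi_sub, sub_neg_eq_add, s1]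
    have h1 : Real.sin a * Real.sin b ≤ 1 := by
      have := Real.sin_le_one a
      have := Real.sin_le_one b
      have := Real.sin_nonneg_of_nonneg_of_le_pi a0 aπ
      have := Real.sin_nonneg_of_nonneg_of_le_pi b0 bπ
      nlinarith
    nlinarith
  rw [Real.cos_sub_cos] at hle
  set u := (Real.pi - (a + t + b)) / 2 with hu
  have e1 : (t - (Real.pi - (a + b))) / 2 = -u := by rw [hu]; ring
  rw [e1, Real.sin_neg] at hle
  set v := (t + (Real.pi - (a + b))) / 2 with hv'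
  have hu0 : 0 < u := by rw [hu]; linarith
  have huπ : u ≤ Real.pi / 2 := by rw [hu]; linarith
  have su0 : 0 ≤ Real.sin u := Real.sin_nonneg_of_nonneg_of_le_pi hu0.le (by linarith [Real.pi_pos])
  have suv : Real.sin u ≤ Real.sin v := by
    have h1 : Real.sin v - Real.sin u = 2 * Real.sin ((v - u) / 2) * Real.cos ((v + u) / 2) :=
      Real.sin_sub_sin _ _
    have h2 : v - u = t := by rw [hv', hu]; ring
    have h3 : v + u = Real.pi - (a + b) := by rw [hv', hu]; ring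
    rw [h2, h3] at h1
    have h4 : 0 ≤ Real.sin (t / 2) :=
      Real.sin_nonneg_of_nonneg_of_le_pi (by linarith) (by linarith [Real.pi_pos])
    have h5 : 0 ≤ Real.cos ((Real.pi - (a + b)) / 2) :=
      Real.cos_nonneg_of_mem_Icc ⟨by linarith [Real.pi_pos], by linarith⟩
    have h6 := mul_nonneg (mul_nonneg (by norm_num : (0:ℝ) ≤ 2) h4) h5
    linarith
  nlinarith

theorem ne_of_lt_ch {c : ℝ} (hc : 1 < c) {V A : Pt} (hV : 0 < q V V) (h : c ≤ ch V A) : A ≠ V := by
  rintro rfl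
  rw [ch_self hV] at h
  linarith

theorem hang_le_alf {V A B : Pt} {c : ℝ} (hc : 1 < c) (hV : 0 < q V V) (hA : 0 < q A A)
    (hB : 0 < q B B) (hAB : ch A B = c) (h1 : c ≤ ch V A) (h2 : c ≤ ch V B) :
    hang A V B ≤ alf c := by
  have nVA := ne_of_lt_ch hc hV h1
  have nVB := ne_of_lt_ch hc hV h2
  have hcos := cos_hang hV hA hB nVA nVB
  rw [hAB] at hcos
  set Y := ch V A with hY
  set Z := ch V B with hZ
  have hy0 : 0 < Real.sqrt (Y ^ 2 - 1) := Real.sqrt_pos.2 (by nlinarith)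
  have hz0 : 0 < Real.sqrt (Z ^ 2 - 1) := Real.sqrt_pos.2 (by nlinarith)
  have hle : Real.sqrt (Y ^ 2 - 1) * Real.sqrt (Z ^ 2 - 1) ≤ Y * Z - 1 := by
    rw [← Real.sqrt_mul (by nlinarith)]
    rw [Real.sqrt_le_left (by nlinarith)]
    nlinarith [sq_nonneg (Y - Z)]
  have hYZ : c ^ 2 ≤ Y * Z := by nlinarith
  have h3 : c / (1 + c) ≤ Real.cos (hang A V B) := by
    rw [hcos, div_le_div_iff₀ (by linarith) (by positivity)]
    have h4 : c * (Real.sqrt (Y ^ 2 - 1) * Real.sqrt (Z ^ 2 - 1)) ≤ c * (Y * Z - 1) :=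
      mul_le_mul_of_nonneg_left hle (by linarith)
    nlinarith
  have h5 := Real.arccos_le_arccos h3
  rw [Real.arccos_cos (hang_nonneg _ _ _) (hang_le_pi _ _ _)] at h5
  exact h5

theorem alf_le_hang {V A B : Pt} {c : ℝ} (hc : 1 < c) (hV : 0 < q V V) (hA : 0 < q A A)
    (hB : 0 < q B B) (hAB : c ≤ ch A B) (h1 : ch V A = c) (h2 : ch V B = c) :
    alf c ≤ hang A V B := by
  have nVA := ne_of_lt_ch hc hV h1.ge
  have nVB := ne_of_lt_ch hc hV h2.ge
  have hcos := cos_hang hV hA hB nVA nVB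
  rw [h1, h2] at hcos
  have hc2 : 0 < c ^ 2 - 1 := by nlinarith
  rw [Real.mul_self_sqrt hc2.le] at hcos
  have h3 : Real.cos (hang A V B) ≤ c / (1 + c) := by
    rw [hcos, div_le_div_iff₀ hc2 (by linarith)]
    nlinarith
  have h5 := Real.arccos_le_arccos h3
  rw [Real.arccos_cos (hang_nonneg _ _ _) (hang_le_pi _ _ _)] at h5
  exact h5

theorem hang_eq_alf {V A B : Pt} {c : ℝ} (hc : 1 < c) (hV : 0 < q V V) (hA : 0 < q A A)
    (hB : 0 < q B B) (hAB : ch A B = c) (h1 : ch V A = c) (h2 : ch V B = c) :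
    hang A V B = alf c :=
  le_antisymm (hang_le_alf hc hV hA hB hAB h1.ge h2.ge) (alf_le_hang hc hV hA hB hAB.ge h1 h2)

end
end Pool.Agent.Helper888
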